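import Mathlib

set_option autoImplicit false

open Polynomial

namespace Pool.Agent.TH922.KC

/-- Kummer extensions: degree a power of `m`, and as many automorphisms as the degree, separated
by their action on the generators, each generator being multiplied by a root of unity. -/
theorem galois_count {F Ω : Type*} [Field F] [Field Ω] [CharZero F] [Algebra F Ω] {m s : ℕ}
    (hm : m.Prime) (ω : F) (hω : IsPrimitiveRoot ω (m ^ s)) {J : Type*} [Fintype J]
    (v : J → Ω) (a : J → F) (hva : ∀ j, v j ^ (m ^ s) = algebraMap F Ω (a j))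
    (hgen : IntermediateField.adjoin F (Set.range v) = ⊤) :
    FiniteDimensional F Ω ∧ (∃ k, Module.finrank F Ω = m ^ k) ∧
    ∃ τ : Fin (Module.finrank F Ω) → (Ω ≃ₐ[F] Ω),
      Function.Injective (fun i j => τ i (v j)) ∧
      ∀ i j, ∃ l : ℕ, τ i (v j) = algebraMap F Ω (ω ^ l) * v j := by
  classical
  have hq : 0 < m ^ s := pow_pos hm.pos s
  have hω' : IsPrimitiveRoot (algebraMap F Ω ω) (m ^ s) :=
    hω.map_of_injective (algebraMap F Ω).injective
  have hint : ∀ j, IsIntegral F (v j) := fun j => by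
    refine IsIntegral.of_pow hq ?_
    rw [hva]
    exact isIntegral_algebraMap
  have halg : Algebra.adjoin F (Set.range v) = ⊤ := by
    rw [← IntermediateField.adjoin_toSubalgebra_of_isAlgebraic, hgen]
    · rfl
    · rintro _ ⟨j, rfl⟩
      exact (hint j).isAlgebraic
  let P : F[X] := ∏ j, (X ^ (m ^ s) - C (a j))
  have hne : ∀ j, (X ^ (m ^ s) - C (a j) : F[X]) ≠ 0 := fun j =>
    X_pow_sub_C_ne_zero hq (a j)
  have hP : P ≠ 0 := Finset.prod_ne_zero_iff.mpr fun j _ => hne j
  have hsplit : P.IsSplittingField F Ω := by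
    refine ⟨?_, ?_⟩
    · simp only [P, Polynomial.map_prod, Polynomial.map_sub, Polynomial.map_pow,
        Polynomial.map_X, Polynomial.map_C]
      exact Splits.prod fun j _ => X_pow_sub_C_splits_of_isPrimitiveRoot hω' (hva j)
    · rw [eq_top_iff, ← halg]
      apply Algebra.adjoin_mono
      rintro _ ⟨j, rfl⟩
      rw [mem_rootSet]
      refine ⟨hP, ?_⟩
      simp only [P, map_prod]
      apply Finset.prod_eq_zero (Finset.mem_univ j)
      simp [hva]
  have hfd : FiniteDimensional F Ω := IsSplittingField.finiteDimensional Ω P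
  have hnormal : Normal F Ω := Normal.of_isSplittingField P
  have hgal : IsGalois F Ω := { }
  have hcard : Nat.card (Ω ≃ₐ[F] Ω) = Module.finrank F Ω := IsGalois.card_aut_eq_finrank F Ω
  have hact : ∀ (σ : Ω ≃ₐ[F] Ω) j, ∃ l : ℕ, σ (v j) = algebraMap F Ω (ω ^ l) * v j := by
    intro σ j
    by_cases hj : v j = 0
    · exact ⟨0, by rw [hj]; simp⟩
    · have h1 : (σ (v j) / v j) ^ (m ^ s) = 1 := by
        rw [div_pow, ← map_pow, hva, AlgEquiv.commutes, ← hva, div_self (pow_ne_zero _ hj)]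
      have : NeZero (m ^ s) := ⟨hq.ne'⟩
      obtain ⟨l, -, hl⟩ := hω'.eq_pow_of_pow_eq_one h1
      refine ⟨l, ?_⟩
      rw [map_pow, hl]
      field_simp
  have hext : ∀ σ τ : Ω ≃ₐ[F] Ω, (∀ j, σ (v j) = τ (v j)) → σ = τ := by
    intro σ τ h
    have : (σ : Ω →ₐ[F] Ω) = τ := AlgHom.ext_of_adjoin_eq_top halg (by
      rintro _ ⟨j, rfl⟩
      exact h j)
    ext x
    exact DFunLike.congr_fun this x
  have hpg : IsPGroup m (Ω ≃ₐ[F] Ω) := by
    intro σ
    refine ⟨s, ?_⟩
    apply hext
    intro j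
    obtain ⟨l, hl⟩ := hact σ j
    have h1 : ∀ k : ℕ, (σ ^ k) (v j) = algebraMap F Ω ((ω ^ l) ^ k) * v j := by
      intro k
      induction k with
      | zero => simp
      | succ k ih =>
        rw [pow_succ', AlgEquiv.mul_apply, ih, map_mul, AlgEquiv.commutes, hl, ← mul_assoc,
          ← map_mul, ← pow_succ]
    rw [h1, ← pow_mul, mul_comm l, pow_mul, hω.pow_eq_one, one_pow, map_one, one_mul]
    rfl
  have : Fact m.Prime := ⟨hm⟩
  have : Finite (Ω ≃ₐ[F] Ω) := inferInstance
  refine ⟨hfd, ?_, ?_⟩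
  · obtain ⟨k, hk⟩ := IsPGroup.iff_card.mp hpg
    exact ⟨k, by rw [← hcard, hk]⟩
  · have e : Fin (Module.finrank F Ω) ≃ (Ω ≃ₐ[F] Ω) := by
      rw [← hcard]
      exact (Finite.equivFin _).symm
    refine ⟨e, ?_, fun i j => hact (e i) j⟩
    intro i i' h
    apply e.injective
    apply hext
    intro j
    exact congrFun h j

end Pool.Agent.TH922.KC
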