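import Mathlib

set_option autoImplicit false
set_option linter.unusedSectionVars false

open Polynomial

namespace Pool.Agent.TH922.KC

/-- an element with `x ^ Q ∈ F` of small degree over `F` lies in `F` (`Q` prime to `6`) -/
theorem kummer_small {F Ω : Type*} [Field F] [Field Ω] [Algebra F Ω] {Q : ℕ} (hQ0 : 0 < Q)
    (hQ : Nat.Coprime Q 6) (ω : F) (hω : IsPrimitiveRoot ω Q) (x : Ω) (hx0 : x ≠ 0) (a : F)
    (hxa : x ^ Q = algebraMap F Ω a) (p : F[X]) (hp0 : p ≠ 0) (hp4 : p.natDegree ≤ 4)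
    (hpx : aeval x p = 0) : ∃ b : F, x = algebraMap F Ω b := by
  classical
  have hω' : IsPrimitiveRoot (algebraMap F Ω ω) Q := hω.map_of_injective (algebraMap F Ω).injective
  have hint : IsIntegral F x := by
    refine IsIntegral.of_pow hQ0 ?_
    rw [hxa]
    exact isIntegral_algebraMap
  set m := minpoly F x with hm
  have hmm : m.Monic := minpoly.monic hint
  have hD1 : 0 < m.natDegree := minpoly.natDegree_pos hint
  have hD4 : m.natDegree ≤ 4 := by
    have h1 := minpoly.degree_le_of_ne_zero F x hp0 hpx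
    exact (Polynomial.natDegree_le_natDegree h1).trans hp4
  have hdvd : m ∣ X ^ Q - C a := by
    apply minpoly.dvd
    simp [hxa]
  have hne : ((X ^ Q - C a : F[X]).map (algebraMap F Ω)) ≠ 0 := by
    rw [Polynomial.map_ne_zero_iff (algebraMap F Ω).injective]
    exact X_pow_sub_C_ne_zero hQ0 a
  have hsp : ((X ^ Q - C a : F[X]).map (algebraMap F Ω)).Splits := by
    rw [Polynomial.map_sub, Polynomial.map_pow, Polynomial.map_X, Polynomial.map_C]
    exact X_pow_sub_C_splits_of_isPrimitiveRoot hω' hxa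
  have hmap : m.map (algebraMap F Ω) ∣ (X ^ Q - C a : F[X]).map (algebraMap F Ω) :=
    Polynomial.map_dvd _ hdvd
  have hsm : (m.map (algebraMap F Ω)).Splits := hsp.of_dvd hne hmap
  have hcard := hsm.natDegree_eq_card_roots
  have hprod := hsm.coeff_zero_eq_prod_roots_of_monic (hmm.map _)
  have hroots : ∀ r ∈ (m.map (algebraMap F Ω)).roots, ∃ c : F, c ≠ 0 ∧ r = algebraMap F Ω c * x := by
    intro r hr
    rw [mem_roots (hmm.map _).ne_zero] at hr
    have h1 : IsRoot ((X ^ Q - C a : F[X]).map (algebraMap F Ω)) r := hr.dvd hmap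
    rw [Polynomial.map_sub, Polynomial.map_pow, Polynomial.map_X, Polynomial.map_C, IsRoot.def,
      eval_sub, eval_pow, eval_X, eval_C, sub_eq_zero, ← hxa] at h1
    have h2 : (r / x) ^ Q = 1 := by rw [div_pow, h1, div_self (pow_ne_zero _ hx0)]
    have : NeZero Q := ⟨hQ0.ne'⟩
    obtain ⟨l, -, hl⟩ := hω'.eq_pow_of_pow_eq_one h2
    refine ⟨ω ^ l, pow_ne_zero _ (hω.ne_zero hQ0.ne'), ?_⟩
    rw [map_pow, hl, div_mul_cancel₀ _ hx0]
  have hms : ∀ s : Multiset Ω, (∀ r ∈ s, ∃ c : F, c ≠ 0 ∧ r = algebraMap F Ω c * x) →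
      ∃ c : F, c ≠ 0 ∧ s.prod = algebraMap F Ω c * x ^ (Multiset.card s) := by
    intro s
    induction s using Multiset.induction_on with
    | empty => intro _; exact ⟨1, one_ne_zero, by simp⟩
    | cons r s ih =>
      intro h
      obtain ⟨c, hc0, hc⟩ := ih fun r' hr' => h r' (Multiset.mem_cons_of_mem hr')
      obtain ⟨c', hc'0, hc'⟩ := h r (Multiset.mem_cons_self r s)
      refine ⟨c' * c, mul_ne_zero hc'0 hc0, ?_⟩
      rw [Multiset.prod_cons, hc, hc', Multiset.card_cons, pow_succ, map_mul]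
      ring
  obtain ⟨c, hc0, hc⟩ := hms _ hroots
  rw [← hcard, natDegree_map] at hc
  have hxD : ∃ b : F, x ^ m.natDegree = algebraMap F Ω b := by
    have h1 : (m.map (algebraMap F Ω)).coeff 0 = algebraMap F Ω (m.coeff 0) := coeff_map _ _
    rw [h1, hc, natDegree_map] at hprod
    refine ⟨(-1) ^ m.natDegree * m.coeff 0 / c, ?_⟩
    have hc0' : algebraMap F Ω c ≠ 0 := by rwa [Ne, map_eq_zero]
    rw [map_div₀, map_mul, hprod, map_pow, map_neg, map_one, eq_div_iff hc0']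
    have h2 : ((-1 : Ω) ^ m.natDegree) * (-1) ^ m.natDegree = 1 := by
      rw [← mul_pow]; simp
    linear_combination (-(algebraMap F Ω c * x ^ m.natDegree)) * h2
  obtain ⟨b, hb⟩ := hxD
  have hcop : Nat.Coprime m.natDegree Q := by
    have h2 : Nat.Coprime 2 Q := (Nat.Coprime.coprime_dvd_right (by norm_num) hQ).symm
    have h3 : Nat.Coprime 3 Q := (Nat.Coprime.coprime_dvd_right (by norm_num) hQ).symm
    have h4 : Nat.Coprime 4 Q := by
      have := Nat.Coprime.pow_left 2 h2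
      norm_num at this
      exact this
    interval_cases m.natDegree
    · exact Nat.coprime_one_left Q
    · exact h2
    · exact h3
    · exact h4
  have hbz := Nat.gcd_eq_gcd_ab m.natDegree Q
  rw [hcop] at hbz
  refine ⟨b ^ (Nat.gcdA m.natDegree Q) * a ^ (Nat.gcdB m.natDegree Q), ?_⟩
  rw [map_mul, map_zpow₀, map_zpow₀, ← hb, ← hxa, ← zpow_natCast, ← zpow_natCast, ← zpow_mul,
    ← zpow_mul, ← zpow_add₀ hx0, ← hbz]
  simp

/-- residue classes of the exponents -/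
def nu (s s' : Fin 2) : ℕ := 1 + s + 2 * s'

/-- exponents -/
def cx (Q : ℕ) (s s' : Fin 2) : ℕ := Q * (Q - 1) + nu s s'

lemma nu_le (s s' : Fin 2) : nu s s' ≤ 4 := by
  fin_cases s <;> fin_cases s' <;> decide

lemma nu_inj {s s' t t' : Fin 2} (h : nu s s' = nu t t') : s = t ∧ s' = t' := by
  fin_cases s <;> fin_cases s' <;> fin_cases t <;> fin_cases t' <;> simp_all [nu]

section gen

variable {κ Ω : Type*} [Field κ] [Field Ω] [Algebra κ Ω] {Q : ℕ}

/-- the merging form -/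
noncomputable def wf (Q e : ℕ) (o : Ω) (yy : ℕ → Ω) (j l i : ℕ) : Ω :=
  ∑ s : Fin 2, ∑ s' : Fin 2, o ^ (nu s s' * i) *
    (yy (2 * j + s) ^ cx Q s s' * yy (2 * l + s') ^ (Q * e - cx Q s s'))

lemma cx_le {e : ℕ} (hQ : 2 ≤ Q) (he : 2 * Q ≤ e) (s s' : Fin 2) :
    cx Q s s' + (Q - 1) ^ 2 ≤ Q * e := by
  have h1 := nu_le s s'
  unfold cx
  obtain ⟨R, rfl⟩ := Nat.exists_eq_add_of_le hQ
  have h2 : (2 + R) * (2 * (2 + R)) ≤ (2 + R) * e := Nat.mul_le_mul_left _ he
  have h3 : 2 + R - 1 = R + 1 := by omega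
  rw [h3]
  nlinarith

/-- ratios inside a block -/
lemma inblock (L : IntermediateField κ Ω) (hQ : 2 ≤ Q) (yy : ℕ → Ω) (y0 : Ω) (hy0 : y0 ≠ 0)
    (h1 : ∀ m, yy m ^ Q / y0 ^ Q ∈ L)
    (h2 : ∀ j, yy (2 * j) * yy (2 * j + 1) ^ (Q - 1) / y0 ^ Q ∈ L)
    (j : ℕ) (s t : Fin 2) (ht : yy (2 * j + t) ≠ 0) : yy (2 * j + s) / yy (2 * j + t) ∈ L := by
  have hkey : ∀ a b : Ω, a = yy (2 * j) → b = yy (2 * j + 1) → a ≠ 0 → b ≠ 0 → a / b ∈ L := by
    intro a b ha hb ha0 hb0
    have h3 := L.div_mem (h2 j) (h1 (2 * j + 1))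
    rw [← ha, ← hb] at h3
    have h4 : a * b ^ (Q - 1) / y0 ^ Q / (b ^ Q / y0 ^ Q) = a / b := by
      have h5 : b ^ Q = b ^ (Q - 1) * b := by
        rw [← pow_succ, Nat.sub_add_cancel (by omega)]
      have h6 : b ^ (Q - 1) ≠ 0 := pow_ne_zero _ hb0
      have h7 : y0 ^ Q ≠ 0 := pow_ne_zero _ hy0
      rw [h5]
      field_simp
    rwa [h4] at h3
  by_cases hs : yy (2 * j + s) = 0
  · rw [hs, zero_div]; exact zero_mem _
  have hst : s = t ∨ (s = 0 ∧ t = 1) ∨ (s = 1 ∧ t = 0) := by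
    fin_cases s <;> fin_cases t <;> simp
  rcases hst with rfl | ⟨rfl, rfl⟩ | ⟨rfl, rfl⟩
  · rw [div_self ht]; exact one_mem _
  · exact hkey _ _ (by simp) (by simp) hs ht
  · have h3 := inv_mem (hkey (yy (2 * j)) (yy (2 * j + 1)) rfl rfl (by simpa using ht)
      (by simpa using hs))
    rw [inv_div] at h3
    simpa using h3

/-- ratios between blocks -/
lemma crossblock (L : IntermediateField κ Ω) (hQ : 2 ≤ Q) (hQ6 : Nat.Coprime Q 6) (ω : κ)
    (hω : IsPrimitiveRoot ω Q) (yy : ℕ → Ω) (y0 : Ω) (hy0 : y0 ≠ 0)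
    (h1 : ∀ m, yy m ^ Q / y0 ^ Q ∈ L)
    (h2 : ∀ j, yy (2 * j) * yy (2 * j + 1) ^ (Q - 1) / y0 ^ Q ∈ L)
    (j l e i : ℕ) (he : 2 * Q ≤ e)
    (h3 : wf Q e (algebraMap κ Ω ω) yy j l i / y0 ^ (Q * e) ∈ L)
    (s0 s0' : Fin 2) (ha : yy (2 * j + s0) ≠ 0) (ha' : yy (2 * l + s0') ≠ 0) :
    yy (2 * j + s0) / yy (2 * l + s0') ∈ L := by
  classical
  set a := yy (2 * j + s0) with hadef
  set a' := yy (2 * l + s0') with ha'def
  set x := a / a' with hx
  have hx0 : x ≠ 0 := div_ne_zero ha ha'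
  have hQ0 : 0 < Q := by omega
  have hxQ : x ^ Q ∈ L := by
    have h4 := L.div_mem (h1 (2 * j + s0)) (h1 (2 * l + s0'))
    rw [← hadef, ← ha'def, div_div_div_cancel_right₀ (pow_ne_zero _ hy0), ← div_pow] at h4
    exact h4
  have hg : ∀ s : Fin 2, yy (2 * j + s) / a ∈ L := fun s =>
    inblock L hQ yy y0 hy0 h1 h2 j s s0 ha
  have hg' : ∀ s' : Fin 2, yy (2 * l + s') / a' ∈ L := fun s' =>
    inblock L hQ yy y0 hy0 h1 h2 l s' s0' ha'
  let o := algebraMap κ Ω ω
  have hoL : o ∈ L := L.algebraMap_mem ω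
  have ho0 : o ≠ 0 := by
    simp only [o]
    rw [Ne, map_eq_zero]
    exact hω.ne_zero hQ0.ne'
  let h : Fin 2 → Fin 2 → Ω := fun s s' => o ^ (nu s s' * i) *
    ((yy (2 * j + s) / a) ^ cx Q s s' * (yy (2 * l + s') / a') ^ (Q * e - cx Q s s') *
      ((x ^ Q) ^ (Q - 1) * (a' ^ Q / y0 ^ Q) ^ e))
  have hhL : ∀ s s', h s s' ∈ L := fun s s' =>
    mul_mem (pow_mem hoL _) (mul_mem (mul_mem (pow_mem (hg s) _) (pow_mem (hg' s') _))
      (mul_mem (pow_mem hxQ _) (pow_mem (h1 _) _)))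
  have hh0 : h s0 s0' ≠ 0 := by
    simp only [h]
    rw [← hadef, ← ha'def, div_self ha, div_self ha', one_pow, one_pow, one_mul, one_mul]
    exact mul_ne_zero (pow_ne_zero _ ho0) (mul_ne_zero (pow_ne_zero _ (pow_ne_zero _ hx0))
      (pow_ne_zero _ (div_ne_zero (pow_ne_zero _ ha') (pow_ne_zero _ hy0))))
  have hterm : ∀ s s', o ^ (nu s s' * i) *
      (yy (2 * j + s) ^ cx Q s s' * yy (2 * l + s') ^ (Q * e - cx Q s s')) / y0 ^ (Q * e)
      = h s s' * x ^ nu s s' := by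
    intro s s'
    have hc : cx Q s s' ≤ Q * e := by
      have := cx_le hQ he s s'
      omega
    have e1 : yy (2 * j + s) = (yy (2 * j + s) / a) * a := (div_mul_cancel₀ _ ha).symm
    have e2 : yy (2 * l + s') = (yy (2 * l + s') / a') * a' := (div_mul_cancel₀ _ ha').symm
    have e3 : a = x * a' := (div_mul_cancel₀ _ ha').symm
    have e4 : x ^ cx Q s s' = (x ^ Q) ^ (Q - 1) * x ^ nu s s' := by
      rw [cx, pow_add, pow_mul]
    have e5 : a' ^ cx Q s s' * a' ^ (Q * e - cx Q s s') = (a' ^ Q) ^ e := by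
      rw [← pow_add, Nat.add_sub_cancel' hc, pow_mul]
    calc o ^ (nu s s' * i) *
      (yy (2 * j + s) ^ cx Q s s' * yy (2 * l + s') ^ (Q * e - cx Q s s')) / y0 ^ (Q * e)
        = o ^ (nu s s' * i) * (((yy (2 * j + s) / a) * (x * a')) ^ cx Q s s' *
          ((yy (2 * l + s') / a') * a') ^ (Q * e - cx Q s s')) / y0 ^ (Q * e) := by
          rw [← e3, ← e1, ← e2]
      _ = o ^ (nu s s' * i) * ((yy (2 * j + s) / a) ^ cx Q s s' *
          (yy (2 * l + s') / a') ^ (Q * e - cx Q s s') * (x ^ cx Q s s' *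
            ((a' ^ cx Q s s' * a' ^ (Q * e - cx Q s s')) / (y0 ^ Q) ^ e))) := by
          rw [mul_pow, mul_pow, mul_pow, pow_mul y0]
          ring
      _ = h s s' * x ^ nu s s' := by
          rw [e4, e5]
          simp only [h, div_pow]
          ring
  set u := wf Q e (algebraMap κ Ω ω) yy j l i / y0 ^ (Q * e) with hu
  have hux : u = ∑ s : Fin 2, ∑ s' : Fin 2, h s s' * x ^ nu s s' := by
    rw [hu, wf, Finset.sum_div]
    refine Finset.sum_congr rfl fun s _ => ?_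
    rw [Finset.sum_div]
    exact Finset.sum_congr rfl fun s' _ => hterm s s'
  let p : L[X] := ∑ s : Fin 2, ∑ s' : Fin 2, C (⟨h s s', hhL s s'⟩ : L) * X ^ nu s s'
    - C (⟨u, h3⟩ : L)
  have hpx : aeval x p = 0 := by
    simp only [p, map_sub, map_sum, map_mul, aeval_C, map_pow, aeval_X]
    rw [sub_eq_zero]
    exact hux.symm
  have hnu0 : nu s0 s0' ≠ 0 := by unfold nu; omega
  have hp0 : p ≠ 0 := by
    intro hp
    have h4 := congrArg (fun f => Polynomial.coeff f (nu s0 s0')) hp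
    simp only [p, coeff_sub, Polynomial.finsetSum_coeff, coeff_C_mul, coeff_X_pow, coeff_C,
      if_neg hnu0, sub_zero, coeff_zero] at h4
    rw [Finset.sum_eq_single s0] at h4
    · rw [Finset.sum_eq_single s0'] at h4
      · rw [if_pos rfl, mul_one] at h4
        exact hh0 (congrArg (fun z : L => (z : Ω)) h4)
      · intro s' _ hs'
        rw [if_neg (fun hh => hs' (nu_inj hh).2.symm), mul_zero]
      · intro hh; exact absurd (Finset.mem_univ _) hh
    · intro s _ hs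
      apply Finset.sum_eq_zero
      intro s' _
      rw [if_neg (fun hh => hs (nu_inj hh).1.symm), mul_zero]
    · intro hh; exact absurd (Finset.mem_univ _) hh
  have hp4 : p.natDegree ≤ 4 := by
    refine (natDegree_sub_le _ _).trans (max_le ?_ ?_)
    · refine natDegree_sum_le_of_forall_le _ _ fun s _ => ?_
      refine natDegree_sum_le_of_forall_le _ _ fun s' _ => ?_
      exact (natDegree_C_mul_X_pow_le _ _).trans (nu_le s s')
    · rw [natDegree_C]; omega
  have hωL : IsPrimitiveRoot (⟨o, hoL⟩ : L) Q := by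
    apply IsPrimitiveRoot.of_map_of_injective (f := algebraMap L Ω) _ (algebraMap L Ω).injective
    change IsPrimitiveRoot o Q
    exact hω.map_of_injective (algebraMap κ Ω).injective
  obtain ⟨b, hb⟩ := kummer_small (F := L) hQ0 hQ6 ⟨o, hoL⟩ hωL x hx0 ⟨x ^ Q, hxQ⟩ rfl p hp0 hp4 hpx
  rw [hb]
  exact b.2

end gen

end Pool.Agent.TH922.KC
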