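import Mathlib
import Pool.Agent.TH922.KC.Mer3

set_option autoImplicit false
set_option linter.unusedSectionVars false

open MvPolynomial

namespace Pool.Agent.TH922.KC

lemma blk (Q : ℕ) (hQ : 2 ≤ Q) (α0 α1 t : ℕ) (h : α0 + α1 = Q * t)
    (h1 : α1 = 0 ∨ (Q - 1) ^ 2 ≤ α1) :
    ∃ a b m, α0 = Q * a + m ∧ α1 = Q * b + (Q - 1) * m ∧ a + b + m = t := by
  obtain ⟨R, rfl⟩ := Nat.exists_eq_add_of_le' hQ
  have hR : R + 2 - 1 = R + 1 := by omega
  rw [hR] at h1 ⊢
  have hα1 := Nat.div_add_mod α1 (R + 2)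
  have hρ := Nat.mod_lt α1 (show 0 < R + 2 by omega)
  generalize α1 / (R + 2) = q1 at hα1
  generalize α1 % (R + 2) = ρ at hα1 hρ
  by_cases h0 : ρ = 0
  · subst h0
    have hle : q1 ≤ t := by
      refine Nat.le_of_mul_le_mul_left (?_ : (R + 2) * q1 ≤ (R + 2) * t) (by omega)
      omega
    obtain ⟨a, rfl⟩ := Nat.exists_eq_add_of_le hle
    refine ⟨a, q1, 0, ?_, by omega, by omega⟩
    rw [mul_add] at h
    omega
  · have hqR : R ≤ q1 := by
      by_contra hlt
      push Not at hlt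
      have h2 : (R + 2) * (q1 + 1) ≤ (R + 2) * R := Nat.mul_le_mul_left _ hlt
      have h3 : α1 ≠ 0 := by omega
      have h4 := h1.resolve_left h3
      nlinarith
    have hm : ∃ m, ρ + m = R + 2 := ⟨R + 2 - ρ, by omega⟩
    obtain ⟨m, hm⟩ := hm
    have hb : ∃ b, q1 + 1 = b + m := ⟨q1 + 1 - m, by omega⟩
    obtain ⟨b, hb⟩ := hb
    have hlt : q1 + 1 ≤ t := by
      by_contra hlt
      push Not at hlt
      have h2 : (R + 2) * t ≤ (R + 2) * q1 := Nat.mul_le_mul_left _ (by omega)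
      omega
    obtain ⟨a, rfl⟩ := Nat.exists_eq_add_of_le hlt
    refine ⟨a, b, m, ?_, ?_, by omega⟩
    · have e1 : (R + 2) * (q1 + 1 + a) = (R + 2) * q1 + (R + 2) + (R + 2) * a := by ring
      omega
    · have e1 : (R + 2) * (q1 + 1) = (R + 2) * q1 + (R + 2) := by ring
      have e2 : (R + 2) * (b + m) = (R + 2) * b + (R + 1) * m + m := by ring
      rw [hb] at e1
      omega

section poly

variable {k : Type} [Field k] {n : ℕ} {β : Type} (bi : ℕ → β)

noncomputable def Yp (k : Type) [Field k] (n : ℕ) (β : Type) (m : ℕ) :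
    MvPolynomial (Fin (n + 1) ⊕ β) k :=
  if h : m < n + 1 then X (Sum.inl ⟨m, h⟩) else 0

noncomputable def Zp (k : Type) [Field k] (n : ℕ) {β : Type} (bi : ℕ → β) (j : ℕ) :
    MvPolynomial (Fin (n + 1) ⊕ β) k :=
  if 2 * j + 1 < n + 1 then X (Sum.inr (bi j)) else 0

/-- coordinates of a point in terms of roots `yy` -/
structure Pt (Q n : ℕ) {β : Type} (bi : ℕ → β) {Ω : Type} [Field Ω]
    (x : Fin (n + 1) ⊕ β → Ω) (yy : ℕ → Ω) : Prop where
  hy : ∀ m (h : m < n + 1), x (Sum.inl ⟨m, h⟩) = yy m ^ Q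
  h0 : ∀ m, n + 1 ≤ m → yy m = 0
  hz : ∀ j, 2 * j + 1 < n + 1 → x (Sum.inr (bi j)) = yy (2 * j) * yy (2 * j + 1) ^ (Q - 1)

variable {bi}

lemma Yp_hom (m : ℕ) : (Yp k n β m).IsHomogeneous 1 := by
  unfold Yp
  split_ifs
  · exact isHomogeneous_X _ _
  · exact isHomogeneous_zero _ _ _

lemma Zp_hom (j : ℕ) : (Zp k n bi j).IsHomogeneous 1 := by
  unfold Zp
  split_ifs
  · exact isHomogeneous_X _ _
  · exact isHomogeneous_zero _ _ _

lemma Yp_eval {Q : ℕ} (hQ : 2 ≤ Q) {Ω : Type} [Field Ω] (θ : k →+* Ω)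
    {x : Fin (n + 1) ⊕ β → Ω} {yy : ℕ → Ω} (h : Pt Q n bi x yy) (m : ℕ) :
    eval₂ θ x (Yp k n β m) = yy m ^ Q := by
  unfold Yp
  split_ifs with hm
  · rw [eval₂_X, h.hy]
  · rw [eval₂_zero, h.h0 m (by omega), zero_pow (by omega)]

lemma Zp_eval {Q : ℕ} (hQ : 2 ≤ Q) {Ω : Type} [Field Ω] (θ : k →+* Ω)
    {x : Fin (n + 1) ⊕ β → Ω} {yy : ℕ → Ω} (h : Pt Q n bi x yy) (j : ℕ) :
    eval₂ θ x (Zp k n bi j) = yy (2 * j) * yy (2 * j + 1) ^ (Q - 1) := by
  unfold Zp
  split_ifs with hm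
  · rw [eval₂_X, h.hz j hm]
  · rw [eval₂_zero, h.h0 (2 * j + 1) (by omega), zero_pow (by omega), mul_zero]

lemma exists_blk {Q : ℕ} (hQ : 2 ≤ Q) (j α0 α1 t : ℕ) (h : α0 + α1 = Q * t)
    (h1 : α1 = 0 ∨ (Q - 1) ^ 2 ≤ α1) :
    ∃ M : MvPolynomial (Fin (n + 1) ⊕ β) k, M.IsHomogeneous t ∧
      ∀ (Ω : Type) [Field Ω] (θ : k →+* Ω) (x : Fin (n + 1) ⊕ β → Ω) (yy : ℕ → Ω),
        Pt Q n bi x yy → eval₂ θ x M = yy (2 * j) ^ α0 * yy (2 * j + 1) ^ α1 := by
  obtain ⟨a, b, m, ha, hb, ht⟩ := blk Q hQ α0 α1 t h h1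
  refine ⟨Yp k n β (2 * j) ^ a * Yp k n β (2 * j + 1) ^ b * Zp k n bi j ^ m, ?_, ?_⟩
  · have := (((Yp_hom (k := k) (n := n) (β := β) (2 * j)).pow a).mul
      ((Yp_hom (k := k) (n := n) (β := β) (2 * j + 1)).pow b)).mul
      ((Zp_hom (k := k) (n := n) (bi := bi) j).pow m)
    rw [one_mul, one_mul, one_mul, ht] at this
    exact this
  · intro Ω _ θ x yy hpt
    rw [eval₂_mul, eval₂_mul, eval₂_pow, eval₂_pow, eval₂_pow, Yp_eval hQ θ hpt, Yp_eval hQ θ hpt,
      Zp_eval hQ θ hpt, ha, hb, mul_pow, ← pow_mul, ← pow_mul, ← pow_mul, pow_add, pow_add]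
    ring

end poly

section pp

variable {k : Type} [Field k]

lemma scale_coeff {ι : Type} [Fintype ι] (w : ι → k) (p : MvPolynomial ι k) (σ : ι →₀ ℕ) :
    coeff σ (aeval (fun o => C (w o) * X o) p : MvPolynomial ι k) = (∏ o, w o ^ σ o) * coeff σ p := by
  classical
  induction p using MvPolynomial.induction_on' with
  | monomial u a =>
    rw [aeval_monomial, Finsupp.prod_fintype _ _ (fun i => pow_zero _)]
    simp only [mul_pow]
    rw [Finset.prod_mul_distrib]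
    have e1 : ∏ i, (X i : MvPolynomial ι k) ^ u i = monomial u 1 := by
      rw [monomial_eq, C_1, one_mul, Finsupp.prod_fintype _ _ (fun i => pow_zero _)]
    have e2 : ∏ i, (C (w i) : MvPolynomial ι k) ^ u i = C (∏ i, w i ^ u i) := by
      rw [map_prod]
      exact Finset.prod_congr rfl fun i _ => (map_pow _ _ _).symm
    rw [e1, e2, algebraMap_eq, ← mul_assoc, ← C_mul, C_mul_monomial, mul_one, coeff_monomial,
      coeff_monomial]
    split_ifs with h
    · rw [h]; ring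
    · simp
  | add p q hp hq => rw [map_add, coeff_add, coeff_add, hp, hq]; ring

/-- the universal norm form -/
noncomputable def pp (ω : k) (Q : ℕ) : MvPolynomial (Option (Fin 2 × Fin 2)) k :=
  ∏ i ∈ Finset.range Q, (X none - ∑ s : Fin 2, ∑ s' : Fin 2,
    C (ω ^ (nu s s' * i)) * X (some (s, s')))

lemma pp_hom (ω : k) (Q : ℕ) : (pp ω Q).IsHomogeneous Q := by
  have h := IsHomogeneous.prod (Finset.range Q) (fun i => (X none - ∑ s : Fin 2, ∑ s' : Fin 2,
    C (ω ^ (nu s s' * i)) * X (some (s, s')) : MvPolynomial (Option (Fin 2 × Fin 2)) k))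
    (fun _ => 1) (fun i _ => (isHomogeneous_X _ _).sub
      (IsHomogeneous.sum _ _ _ fun s _ => IsHomogeneous.sum _ _ _ fun s' _ => by
        exact (isHomogeneous_X _ _).C_mul _))
  have e : ∑ _i ∈ Finset.range Q, 1 = Q := by simp
  rw [e] at h
  exact h

lemma pp_supp {ω : k} {Q : ℕ} (hQ : 2 ≤ Q) (hω : IsPrimitiveRoot ω Q)
    (σ : Option (Fin 2 × Fin 2) →₀ ℕ) (hσ : coeff σ (pp ω Q) ≠ 0) :
    Q ∣ ∑ s : Fin 2, ∑ s' : Fin 2, nu s s' * σ (some (s, s')) := by
  classical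
  let w : Option (Fin 2 × Fin 2) → k := fun o => match o with
    | none => 1
    | some (s, s') => ω ^ nu s s'
  let F : ℕ → MvPolynomial (Option (Fin 2 × Fin 2)) k := fun i => X none - ∑ s : Fin 2,
    ∑ s' : Fin 2, C (ω ^ (nu s s' * i)) * X (some (s, s'))
  have h1 : ∀ i, (aeval (fun o => C (w o) * X o) (F i) : MvPolynomial (Option (Fin 2 × Fin 2)) k)
      = F (i + 1) := by
    intro i
    simp only [F, map_sub, map_sum, map_mul, aeval_X, aeval_C, w, C_1, one_mul]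
    congr 1
    refine Finset.sum_congr rfl fun s _ => Finset.sum_congr rfl fun s' _ => ?_
    rw [algebraMap_eq, ← mul_assoc, ← C_mul, ← pow_add, mul_add, mul_one]
  have hFQ : F Q = F 0 := by
    simp only [F, mul_zero, pow_zero]
    congr 1
    refine Finset.sum_congr rfl fun s _ => Finset.sum_congr rfl fun s' _ => ?_
    rw [mul_comm (nu s s') Q, pow_mul, hω.pow_eq_one, one_pow]
  have h2 : (aeval (fun o => C (w o) * X o) (pp ω Q) : MvPolynomial (Option (Fin 2 × Fin 2)) k)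
      = pp ω Q := by
    have e1 : pp ω Q = ∏ i ∈ Finset.range Q, F i := rfl
    rw [e1, map_prod, Finset.prod_congr rfl (fun i _ => h1 i)]
    obtain ⟨Q', rfl⟩ := Nat.exists_eq_add_of_le' (show 1 ≤ Q by omega)
    rw [Finset.prod_range_succ, Finset.prod_range_succ' F, hFQ]
  have h3 := scale_coeff w (pp ω Q) σ
  rw [h2] at h3
  have h4 : ∏ o, w o ^ σ o = 1 := by
    have h5 : (∏ o, w o ^ σ o) * coeff σ (pp ω Q) = 1 * coeff σ (pp ω Q) := by
      rw [← h3, one_mul]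
    exact mul_right_cancel₀ hσ h5
  rw [Fintype.prod_option, Fintype.prod_prod_type] at h4
  simp only [w, one_pow, one_mul] at h4
  apply hω.dvd_of_pow_eq_one
  rw [← Finset.prod_pow_eq_pow_sum, ← h4]
  refine Finset.prod_congr rfl fun s _ => ?_
  rw [← Finset.prod_pow_eq_pow_sum]
  exact Finset.prod_congr rfl fun s' _ => pow_mul _ _ _

end pp

section E

variable {k : Type} [Field k] {n : ℕ} {β : Type} {bi : ℕ → β}

theorem exists_E {Q e : ℕ} (hQ : 2 ≤ Q) (he : 2 * Q ≤ e) (ω : k) (hω : IsPrimitiveRoot ω Q)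
    (bi : ℕ → β) (w : β) (j l : ℕ) :
    ∃ E : MvPolynomial (Fin (n + 1) ⊕ β) k, E.IsHomogeneous (Q * e) ∧
      ∀ (Ω : Type) [Field Ω] (θ : k →+* Ω) (x : Fin (n + 1) ⊕ β → Ω) (yy : ℕ → Ω),
        Pt Q n bi x yy → eval₂ θ x E
          = ∏ i ∈ Finset.range Q, (x (Sum.inr w) ^ e - wf Q e (θ ω) yy j l i) := by
  classical
  have hmon : ∀ σ : Option (Fin 2 × Fin 2) →₀ ℕ, coeff σ (pp ω Q) ≠ 0 →
      ∃ M : MvPolynomial (Fin (n + 1) ⊕ β) k, M.IsHomogeneous (Q * e) ∧
      ∀ (Ω : Type) [Field Ω] (θ : k →+* Ω) (x : Fin (n + 1) ⊕ β → Ω) (yy : ℕ → Ω),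
        Pt Q n bi x yy → eval₂ θ x M = (x (Sum.inr w) ^ e) ^ σ none *
          ∏ s : Fin 2, ∏ s' : Fin 2, (yy (2 * j + s) ^ cx Q s s' *
            yy (2 * l + s') ^ (Q * e - cx Q s s')) ^ σ (some (s, s')) := by
    intro σ hσ
    have hdiv := pp_supp hQ hω σ hσ
    have hdeg : σ none + ∑ s : Fin 2, ∑ s' : Fin 2, σ (some (s, s')) = Q := by
      have h1 := pp_hom ω Q
      have h2 : σ.degree = Q := by
        by_contra hne
        exact hσ (h1.coeff_eq_zero hne)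
      rw [Finsupp.degree_eq_sum, Fintype.sum_option, Fintype.sum_prod_type] at h2
      exact h2
    have hcle := fun s s' => cx_le hQ he s s'
    have hcx : ∀ s s', (Q - 1) ^ 2 ≤ cx Q s s' := by
      intro s s'
      unfold cx
      have h1 : (Q - 1) ^ 2 ≤ Q * (Q - 1) := by
        rw [pow_two]
        exact Nat.mul_le_mul_right _ (by omega)
      omega
    have hge : ∀ c x : ℕ, (Q - 1) ^ 2 ≤ c → x ≠ 0 → (Q - 1) ^ 2 ≤ c * x := by
      intro c x hc hx
      exact hc.trans (Nat.le_mul_of_pos_right _ (Nat.pos_of_ne_zero hx))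
    obtain ⟨t1, ht1⟩ : Q ∣ ∑ s : Fin 2, ∑ s' : Fin 2, cx Q s s' * σ (some (s, s')) := by
      have h1 : ∑ s : Fin 2, ∑ s' : Fin 2, cx Q s s' * σ (some (s, s'))
          = Q * ((Q - 1) * ∑ s : Fin 2, ∑ s' : Fin 2, σ (some (s, s')))
            + ∑ s : Fin 2, ∑ s' : Fin 2, nu s s' * σ (some (s, s')) := by
        simp only [cx, add_mul, Finset.sum_add_distrib, Finset.mul_sum]
        congr 1
        refine Finset.sum_congr rfl fun s _ => Finset.sum_congr rfl fun s' _ => ?_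
        ring
      rw [h1]
      exact (Nat.dvd_add_right (Dvd.intro _ rfl)).mpr hdiv
    have hsum2 : ∑ s : Fin 2, ∑ s' : Fin 2, (Q * e - cx Q s s') * σ (some (s, s'))
        + ∑ s : Fin 2, ∑ s' : Fin 2, cx Q s s' * σ (some (s, s'))
        = Q * (e * ∑ s : Fin 2, ∑ s' : Fin 2, σ (some (s, s'))) := by
      rw [← Finset.sum_add_distrib, Finset.mul_sum, Finset.mul_sum]
      refine Finset.sum_congr rfl fun s _ => ?_
      rw [← Finset.sum_add_distrib, Finset.mul_sum, Finset.mul_sum]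
      refine Finset.sum_congr rfl fun s' _ => ?_
      rw [← add_mul, Nat.sub_add_cancel (by have := hcle s s'; omega), mul_assoc]
    have ht1le : t1 ≤ e * ∑ s : Fin 2, ∑ s' : Fin 2, σ (some (s, s')) := by
      refine Nat.le_of_mul_le_mul_left (?_ : Q * t1 ≤ Q * (e * ∑ s : Fin 2, ∑ s' : Fin 2,
        σ (some (s, s')))) (by omega)
      rw [← hsum2, ← ht1]
      exact Nat.le_add_left _ _
    obtain ⟨t2, ht2⟩ := Nat.exists_eq_add_of_le ht1le
    have hsum2' : ∑ s : Fin 2, ∑ s' : Fin 2, (Q * e - cx Q s s') * σ (some (s, s')) = Q * t2 := by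
      rw [ht1, ht2, mul_add] at hsum2
      omega
    obtain ⟨M1, hM1, hM1e⟩ := exists_blk (k := k) (n := n) (bi := bi) hQ j
      (∑ s' : Fin 2, cx Q 0 s' * σ (some (0, s'))) (∑ s' : Fin 2, cx Q 1 s' * σ (some (1, s'))) t1
      (by rw [← ht1, Fin.sum_univ_two (f := fun s => ∑ s' : Fin 2, cx Q s s' * σ (some (s, s')))])
      (by
        by_cases h0 : σ (some (1, 0)) = 0
        · by_cases h1 : σ (some (1, 1)) = 0
          · left; rw [Fin.sum_univ_two, h0, h1]; simp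
          · right; rw [Fin.sum_univ_two]
            exact (hge _ _ (hcx 1 1) h1).trans (Nat.le_add_left _ _)
        · right; rw [Fin.sum_univ_two]
          exact (hge _ _ (hcx 1 0) h0).trans (Nat.le_add_right _ _))
    obtain ⟨M2, hM2, hM2e⟩ := exists_blk (k := k) (n := n) (bi := bi) hQ l
      (∑ s : Fin 2, (Q * e - cx Q s 0) * σ (some (s, 0)))
      (∑ s : Fin 2, (Q * e - cx Q s 1) * σ (some (s, 1))) t2
      (by
        rw [← hsum2']
        simp only [Fin.sum_univ_two]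
        ring)
      (by
        have hge2 : ∀ s, (Q - 1) ^ 2 ≤ Q * e - cx Q s 1 := fun s => by
          have := hcle s 1; omega
        by_cases h0 : σ (some (0, 1)) = 0
        · by_cases h1 : σ (some (1, 1)) = 0
          · left; rw [Fin.sum_univ_two, h0, h1]; simp
          · right; rw [Fin.sum_univ_two]
            exact (hge _ _ (hge2 1) h1).trans (Nat.le_add_left _ _)
        · right; rw [Fin.sum_univ_two]
          exact (hge _ _ (hge2 0) h0).trans (Nat.le_add_right _ _))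
    refine ⟨X (Sum.inr w) ^ (e * σ none) * (M1 * M2), ?_, ?_⟩
    · have h1 := (isHomogeneous_X_pow (R := k) (Sum.inr w : Fin (n + 1) ⊕ β) (e * σ none)).mul
        (hM1.mul hM2)
      have h2 : e * σ none + (t1 + t2) = Q * e := by
        rw [← ht2, ← mul_add, hdeg, mul_comm]
      rwa [h2] at h1
    · intro Ω _ θ x yy hpt
      rw [eval₂_mul, eval₂_mul, eval₂_pow, eval₂_X, hM1e Ω θ x yy hpt, hM2e Ω θ x yy hpt, pow_mul]
      congr 1
      simp only [Fin.prod_univ_two, Fin.sum_univ_two, Fin.val_zero, Fin.val_one, add_zero, mul_pow,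
        pow_add, pow_mul]
      ring
  choose! M hMh hMe using hmon
  refine ⟨∑ σ ∈ (pp ω Q).support, C (coeff σ (pp ω Q)) * M σ, ?_, ?_⟩
  · refine IsHomogeneous.sum _ _ _ fun σ hσ => ?_
    exact (hMh σ (mem_support_iff.mp hσ)).C_mul _
  · intro Ω _ θ x yy hpt
    have h1 : eval₂ θ x (∑ σ ∈ (pp ω Q).support, C (coeff σ (pp ω Q)) * M σ)
        = ∑ σ ∈ (pp ω Q).support, θ (coeff σ (pp ω Q)) * ((x (Sum.inr w) ^ e) ^ σ none *
          ∏ s : Fin 2, ∏ s' : Fin 2, (yy (2 * j + s) ^ cx Q s s' *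
            yy (2 * l + s') ^ (Q * e - cx Q s s')) ^ σ (some (s, s'))) := by
      rw [eval₂_sum]
      refine Finset.sum_congr rfl fun σ hσ => ?_
      rw [eval₂_mul, eval₂_C, hMe σ (mem_support_iff.mp hσ) Ω θ x yy hpt]
    rw [h1]
    let g : Option (Fin 2 × Fin 2) → Ω := fun o => match o with
      | none => x (Sum.inr w) ^ e
      | some (s, s') => yy (2 * j + s) ^ cx Q s s' * yy (2 * l + s') ^ (Q * e - cx Q s s')
    have h2 : eval₂ θ g (pp ω Q) = ∑ σ ∈ (pp ω Q).support, θ (coeff σ (pp ω Q)) *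
        ((x (Sum.inr w) ^ e) ^ σ none *
          ∏ s : Fin 2, ∏ s' : Fin 2, (yy (2 * j + s) ^ cx Q s s' *
            yy (2 * l + s') ^ (Q * e - cx Q s s')) ^ σ (some (s, s'))) := by
      rw [eval₂_eq']
      refine Finset.sum_congr rfl fun σ _ => ?_
      rw [Fintype.prod_option, Fintype.prod_prod_type]
    rw [← h2, pp, ← coe_eval₂Hom, map_prod]
    refine Finset.prod_congr rfl fun i _ => ?_
    simp only [map_sub, map_sum, map_mul, coe_eval₂Hom, eval₂_X, eval₂_C, map_pow, wf, g]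

end E

end Pool.Agent.TH922.KC
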