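import Mathlib
import Pool.Agent.TH922.KC.Mer4

set_option autoImplicit false
set_option linter.unusedSectionVars false

open MvPolynomial

namespace Pool.Agent.TH922.KC

/-- coordinates of a point in terms of roots `yy`, with `J` pairs -/
structure PtJ (Q n J : ℕ) {β : Type} (bi : ℕ → β) {Ω : Type} [Field Ω]
    (x : Fin (n + 1) ⊕ β → Ω) (yy : ℕ → Ω) : Prop where
  hy : ∀ m (h : m < n + 1), x (Sum.inl ⟨m, h⟩) = yy m ^ Q
  h0 : ∀ m, n + 1 ≤ m → yy m = 0
  hz : ∀ j, j < J → x (Sum.inr (bi j)) = yy (2 * j) * yy (2 * j + 1) ^ (Q - 1)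

lemma prod_split {M : Type*} [CommMonoid M] (f : ℕ → M) (J u : ℕ) :
    ∏ m ∈ Finset.range (2 * J + u), f m
      = (∏ j ∈ Finset.range J, f (2 * j) * f (2 * j + 1)) *
        ∏ i ∈ Finset.range u, f (2 * J + i) := by
  rw [Finset.prod_range_add]
  congr 1
  induction J with
  | zero => simp
  | succ J ih =>
    rw [Finset.prod_range_succ, ← ih, show 2 * (J + 1) = 2 * J + 1 + 1 by ring,
      Finset.prod_range_succ, Finset.prod_range_succ, mul_assoc]

lemma sum_split (f : ℕ → ℕ) (J u : ℕ) :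
    ∑ m ∈ Finset.range (2 * J + u), f m
      = (∑ j ∈ Finset.range J, (f (2 * j) + f (2 * j + 1))) +
        ∑ i ∈ Finset.range u, f (2 * J + i) := by
  rw [Finset.sum_range_add]
  congr 1
  induction J with
  | zero => simp
  | succ J ih =>
    rw [Finset.sum_range_succ, ← ih, show 2 * (J + 1) = 2 * J + 1 + 1 by ring,
      Finset.sum_range_succ, Finset.sum_range_succ, add_assoc]

/-- block sums -/
def bd (J : ℕ) (A : ℕ → ℕ) (b : ℕ) : ℕ := if b < J then A (2 * b) + A (2 * b + 1) else A (J + b)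

/-- the block of a coordinate -/
def bo (J m : ℕ) : ℕ := if m < 2 * J then m / 2 else m - J

lemma bo_even {J j : ℕ} (h : j < J) : bo J (2 * j) = j := by
  unfold bo; rw [if_pos (by omega)]; omega

lemma bo_odd {J j : ℕ} (h : j < J) : bo J (2 * j + 1) = j := by
  unfold bo; rw [if_pos (by omega)]; omega

lemma bo_single (J i : ℕ) : bo J (2 * J + i) = J + i := by
  unfold bo; rw [if_neg (by omega)]; omega

lemma sum_bd_mul (A : ℕ → ℕ) (g : ℕ → ℕ) (J u : ℕ) :
    ∑ b ∈ Finset.range (J + u), g b * bd J A b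
      = ∑ m ∈ Finset.range (2 * J + u), g (bo J m) * A m := by
  rw [sum_split, Finset.sum_range_add]
  congr 1
  · refine Finset.sum_congr rfl fun j hj => ?_
    have hj' := Finset.mem_range.mp hj
    rw [bo_even hj', bo_odd hj', bd, if_pos hj', mul_add]
  · refine Finset.sum_congr rfl fun i _ => ?_
    rw [bo_single, bd, if_neg (by omega), show J + (J + i) = 2 * J + i by ring]

section poly

variable {k : Type} [Field k] {n : ℕ} {β : Type} {bi : ℕ → β}

lemma YpJ_eval {Q J : ℕ} (hQ : 2 ≤ Q) {Ω : Type} [Field Ω] (θ : k →+* Ω)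
    {x : Fin (n + 1) ⊕ β → Ω} {yy : ℕ → Ω} (h : PtJ Q n J bi x yy) (m : ℕ) :
    eval₂ θ x (Yp k n β m) = yy m ^ Q := by
  unfold Yp
  split_ifs with hm
  · rw [eval₂_X, h.hy]
  · rw [eval₂_zero, h.h0 m (by omega), zero_pow (by omega)]

lemma exists_blkJ {Q J : ℕ} (hQ : 2 ≤ Q) (bi : ℕ → β) (j : ℕ) (hj : j < J) (α0 α1 t : ℕ)
    (h : α0 + α1 = Q * t) (h1 : α1 = 0 ∨ (Q - 1) ^ 2 ≤ α1) :
    ∃ M : MvPolynomial (Fin (n + 1) ⊕ β) k, M.IsHomogeneous t ∧
      ∀ (Ω : Type) [Field Ω] (θ : k →+* Ω) (x : Fin (n + 1) ⊕ β → Ω) (yy : ℕ → Ω),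
        PtJ Q n J bi x yy → eval₂ θ x M = yy (2 * j) ^ α0 * yy (2 * j + 1) ^ α1 := by
  obtain ⟨a, b, m, ha, hb, ht⟩ := blk Q hQ α0 α1 t h h1
  refine ⟨Yp k n β (2 * j) ^ a * Yp k n β (2 * j + 1) ^ b * X (Sum.inr (bi j)) ^ m, ?_, ?_⟩
  · have := (((Yp_hom (k := k) (n := n) (β := β) (2 * j)).pow a).mul
      ((Yp_hom (k := k) (n := n) (β := β) (2 * j + 1)).pow b)).mul
      (isHomogeneous_X_pow (R := k) (Sum.inr (bi j) : Fin (n + 1) ⊕ β) m)
    rw [one_mul, one_mul, ht] at this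
    exact this
  · intro Ω _ θ x yy hpt
    rw [eval₂_mul, eval₂_mul, eval₂_pow, eval₂_pow, eval₂_pow, YpJ_eval hQ θ hpt,
      YpJ_eval hQ θ hpt, eval₂_X, hpt.hz j hj, ha, hb, mul_pow, ← pow_mul, ← pow_mul, ← pow_mul,
      pow_add, pow_add]
    ring

lemma exists_mono {Q J u : ℕ} (hQ : 2 ≤ Q) (hn : n + 1 = 2 * J + u) (bi : ℕ → β) (A : ℕ → ℕ)
    (T : ℕ) (hA1 : ∀ j < J, Q ∣ A (2 * j) + A (2 * j + 1))
    (hA2 : ∀ j < J, A (2 * j + 1) = 0 ∨ (Q - 1) ^ 2 ≤ A (2 * j + 1))
    (hA3 : ∀ i < u, Q ∣ A (2 * J + i)) (hT : ∑ m ∈ Finset.range (n + 1), A m = Q * T) :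
    ∃ M : MvPolynomial (Fin (n + 1) ⊕ β) k, M.IsHomogeneous T ∧
      ∀ (Ω : Type) [Field Ω] (θ : k →+* Ω) (x : Fin (n + 1) ⊕ β → Ω) (yy : ℕ → Ω),
        PtJ Q n J bi x yy → eval₂ θ x M = ∏ m ∈ Finset.range (n + 1), yy m ^ A m := by
  classical
  have h1 : ∀ j, ∃ (t : ℕ) (M : MvPolynomial (Fin (n + 1) ⊕ β) k), j < J →
      (A (2 * j) + A (2 * j + 1) = Q * t ∧ M.IsHomogeneous t ∧
      ∀ (Ω : Type) [Field Ω] (θ : k →+* Ω) (x : Fin (n + 1) ⊕ β → Ω) (yy : ℕ → Ω),
        PtJ Q n J bi x yy →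
          eval₂ θ x M = yy (2 * j) ^ A (2 * j) * yy (2 * j + 1) ^ A (2 * j + 1)) := by
    intro j
    by_cases hj : j < J
    · obtain ⟨t, ht⟩ := hA1 j hj
      obtain ⟨M, hM1, hM2⟩ := exists_blkJ (k := k) (n := n) hQ bi j hj _ _ t ht (hA2 j hj)
      exact ⟨t, M, fun _ => ⟨ht, hM1, hM2⟩⟩
    · exact ⟨0, 0, fun h => absurd h hj⟩
  choose t M hM using h1
  have h2 : ∀ i, ∃ s, i < u → A (2 * J + i) = Q * s := by
    intro i
    by_cases hi : i < u
    · obtain ⟨s, hs⟩ := hA3 i hi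
      exact ⟨s, fun _ => hs⟩
    · exact ⟨0, fun h => absurd h hi⟩
  choose s hs using h2
  refine ⟨(∏ j ∈ Finset.range J, M j) * ∏ i ∈ Finset.range u, Yp k n β (2 * J + i) ^ s i, ?_, ?_⟩
  · have e1 := (IsHomogeneous.prod (Finset.range J) M t
      (fun j hj => (hM j (Finset.mem_range.mp hj)).2.1)).mul
      (IsHomogeneous.prod (Finset.range u) (fun i => Yp k n β (2 * J + i) ^ s i) s
        (fun i _ => by
          have := (Yp_hom (k := k) (n := n) (β := β) (2 * J + i)).pow (s i)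
          rwa [one_mul] at this))
    have e2 : ∑ j ∈ Finset.range J, t j + ∑ i ∈ Finset.range u, s i = T := by
      have e3 : Q * (∑ j ∈ Finset.range J, t j + ∑ i ∈ Finset.range u, s i) = Q * T := by
        rw [← hT, hn, sum_split, mul_add, Finset.mul_sum, Finset.mul_sum]
        congr 1
        · exact Finset.sum_congr rfl fun j hj => (hM j (Finset.mem_range.mp hj)).1.symm
        · exact Finset.sum_congr rfl fun i hi => (hs i (Finset.mem_range.mp hi)).symm
      exact Nat.eq_of_mul_eq_mul_left (by omega) e3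
    rwa [e2] at e1
  · intro Ω _ θ x yy hpt
    have e := prod_split (fun m => yy m ^ A m) J u
    rw [← hn] at e
    rw [e, eval₂_mul, ← coe_eval₂Hom, map_prod, map_prod]
    congr 1
    · exact Finset.prod_congr rfl fun j hj => (hM j (Finset.mem_range.mp hj)).2.2 Ω θ x yy hpt
    · refine Finset.prod_congr rfl fun i hi => ?_
      rw [map_pow, coe_eval₂Hom, YpJ_eval hQ θ hpt, hs i (Finset.mem_range.mp hi), pow_mul]

end poly

section PP

variable {k : Type} [Field k] {ι Bt : Type} [Fintype ι] [Fintype Bt] [DecidableEq Bt]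

/-- factors of the universal norm form -/
noncomputable def PF (ω : k) (Q : ℕ) (c : ι → k) (ν : ι → Bt → ℕ) (l : Bt → Fin Q) :
    MvPolynomial (Option ι) k :=
  X none - ∑ o : ι, C (c o * ω ^ (∑ b, (l b : ℕ) * ν o b)) * X (some o)

/-- the universal norm form -/
noncomputable def PP (ω : k) (Q : ℕ) (c : ι → k) (ν : ι → Bt → ℕ) : MvPolynomial (Option ι) k :=
  ∏ l : Bt → Fin Q, PF ω Q c ν l

lemma PP_hom (ω : k) (Q : ℕ) (c : ι → k) (ν : ι → Bt → ℕ) :
    (PP ω Q c ν).IsHomogeneous (Q ^ Fintype.card Bt) := by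
  have h := IsHomogeneous.prod Finset.univ (PF ω Q c ν) (fun _ => 1) (fun l _ =>
    (isHomogeneous_X _ _).sub (IsHomogeneous.sum _ _ _ fun o _ => by
      exact (isHomogeneous_X _ _).C_mul _))
  have e : ∑ _l : Bt → Fin Q, 1 = Q ^ Fintype.card Bt := by
    rw [Finset.sum_const, Finset.card_univ, Fintype.card_fun, Fintype.card_fin, smul_eq_mul,
      mul_one]
  rw [e] at h
  exact h

lemma PP_supp {ω : k} {Q : ℕ} (hQ : 2 ≤ Q) (hω : IsPrimitiveRoot ω Q) (c : ι → k)
    (ν : ι → Bt → ℕ) (σ : Option ι →₀ ℕ) (hσ : coeff σ (PP ω Q c ν) ≠ 0) (b0 : Bt) :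
    Q ∣ ∑ o : ι, ν o b0 * σ (some o) := by
  classical
  have : NeZero Q := ⟨by omega⟩
  let w : Option ι → k := fun o => match o with
    | none => 1
    | some o => ω ^ ν o b0
  let sh : (Bt → Fin Q) → (Bt → Fin Q) := fun l => Function.update l b0 (l b0 + 1)
  have hsh : Function.Bijective sh := by
    rw [← Finite.injective_iff_bijective]
    intro l l' h
    funext b
    have h1 := congrFun h b
    by_cases hb : b = b0
    · subst hb
      simp only [sh, Function.update_self] at h1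
      exact add_right_cancel h1
    · simpa only [sh, Function.update_of_ne hb] using h1
  have hpow : ∀ (o : ι) (l : Bt → Fin Q), ω ^ (∑ b, (sh l b : ℕ) * ν o b)
      = ω ^ (∑ b, (l b : ℕ) * ν o b) * ω ^ ν o b0 := by
    intro o l
    rw [← Finset.add_sum_erase _ _ (Finset.mem_univ b0),
      ← Finset.add_sum_erase _ (fun b => (l b : ℕ) * ν o b) (Finset.mem_univ b0)]
    have e1 : ∑ b ∈ Finset.univ.erase b0, (sh l b : ℕ) * ν o b
        = ∑ b ∈ Finset.univ.erase b0, (l b : ℕ) * ν o b :=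
      Finset.sum_congr rfl fun b hb => by
        rw [show sh l b = l b from Function.update_of_ne (Finset.ne_of_mem_erase hb) _ _]
    have e3 : (sh l b0 : ℕ) = ((l b0 : ℕ) + 1) % Q := by
      simp only [sh, Function.update_self]
      rw [Fin.val_add]
      congr 2
      rw [Fin.val_one', Nat.mod_eq_of_lt (by omega)]
    have e2 : ω ^ ((sh l b0 : ℕ) * ν o b0) = ω ^ ((l b0 : ℕ) * ν o b0) * ω ^ ν o b0 := by
      rw [e3, pow_mul, ← pow_eq_pow_mod _ hω.pow_eq_one, ← pow_mul, add_mul, one_mul, pow_add]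
    rw [pow_add, pow_add, e1, e2]
    ring
  have h1 : ∀ l, (aeval (fun o => C (w o) * X o) (PF ω Q c ν l) : MvPolynomial (Option ι) k)
      = PF ω Q c ν (sh l) := by
    intro l
    simp only [PF, map_sub, map_sum, map_mul, aeval_X, aeval_C, w, C_1, one_mul]
    congr 1
    refine Finset.sum_congr rfl fun o _ => ?_
    rw [hpow, algebraMap_eq, map_mul]
    ring
  have h2 : (aeval (fun o => C (w o) * X o) (PP ω Q c ν) : MvPolynomial (Option ι) k)
      = PP ω Q c ν := by
    rw [PP, map_prod, Finset.prod_congr rfl (fun l _ => h1 l)]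
    exact hsh.prod_comp (PF ω Q c ν)
  have h3 := scale_coeff w (PP ω Q c ν) σ
  rw [h2] at h3
  have h4 : ∏ o, w o ^ σ o = 1 := by
    have h5 : (∏ o, w o ^ σ o) * coeff σ (PP ω Q c ν) = 1 * coeff σ (PP ω Q c ν) := by
      rw [← h3, one_mul]
    exact mul_right_cancel₀ hσ h5
  rw [Fintype.prod_option] at h4
  simp only [w, one_pow, one_mul] at h4
  apply hω.dvd_of_pow_eq_one
  rw [← Finset.prod_pow_eq_pow_sum, ← h4]
  exact Finset.prod_congr rfl fun o _ => pow_mul _ _ _

end PP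

section E

variable {k : Type} [Field k] {n : ℕ} {β : Type}

theorem exists_E2 {J u Q e : ℕ} (hQ : 2 ≤ Q) (hn : n + 1 = 2 * J + u) (ω : k)
    (hω : IsPrimitiveRoot ω Q) (bi : ℕ → β) (w : β) {ι Bt : Type} [Fintype ι] [Fintype Bt]
    [DecidableEq Bt] (mu : ι → ℕ → ℕ) (c : ι → k) (hb : Bt → ℕ) (h0 : ℕ) (h0lt : h0 < J + u)
    (hcov : ∀ o b', b' < J + u → bd J (mu o) b' ≠ 0 → b' = h0 ∨ ∃ b, hb b = b')
    (hdeg : ∀ o, ∑ m ∈ Finset.range (n + 1), mu o m = Q * e)
    (hpair : ∀ o, ∀ j < J, mu o (2 * j + 1) = 0 ∨ (Q - 1) ^ 2 ≤ mu o (2 * j + 1)) :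
    ∃ E : MvPolynomial (Fin (n + 1) ⊕ β) k, E.IsHomogeneous (e * Q ^ Fintype.card Bt) ∧
      ∀ (Ω : Type) [Field Ω] (θ : k →+* Ω) (x : Fin (n + 1) ⊕ β → Ω) (yy : ℕ → Ω),
        PtJ Q n J bi x yy → eval₂ θ x E = ∏ l : Bt → Fin Q, (x (Sum.inr w) ^ e -
          ∑ o, θ (c o * ω ^ (∑ b, (l b : ℕ) * bd J (mu o) (hb b))) *
            ∏ m ∈ Finset.range (n + 1), yy m ^ mu o m) := by
  classical
  let ν : ι → Bt → ℕ := fun o b => bd J (mu o) (hb b)
  have hmon : ∀ σ : Option ι →₀ ℕ, coeff σ (PP ω Q c ν) ≠ 0 →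
      ∃ M : MvPolynomial (Fin (n + 1) ⊕ β) k, M.IsHomogeneous (e * Q ^ Fintype.card Bt) ∧
      ∀ (Ω : Type) [Field Ω] (θ : k →+* Ω) (x : Fin (n + 1) ⊕ β → Ω) (yy : ℕ → Ω),
        PtJ Q n J bi x yy → eval₂ θ x M = (x (Sum.inr w) ^ e) ^ σ none *
          ∏ o, (∏ m ∈ Finset.range (n + 1), yy m ^ mu o m) ^ σ (some o) := by
    intro σ hσ
    have hsum : σ none + ∑ o, σ (some o) = Q ^ Fintype.card Bt := by
      have h2 : σ.degree = Q ^ Fintype.card Bt := by
        by_contra hne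
        exact hσ ((PP_hom ω Q c ν).coeff_eq_zero hne)
      rw [Finsupp.degree_eq_sum, Fintype.sum_option] at h2
      exact h2
    let A : ℕ → ℕ := fun m => ∑ o, mu o m * σ (some o)
    have hbd : ∀ b', bd J A b' = ∑ o, bd J (mu o) b' * σ (some o) := by
      intro b'
      unfold bd
      by_cases hb' : b' < J
      · simp only [if_pos hb', A, add_mul, Finset.sum_add_distrib]
      · simp only [if_neg hb', A]
    have htot : ∑ m ∈ Finset.range (n + 1), A m = Q * (e * ∑ o, σ (some o)) := by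
      simp only [A]
      rw [Finset.sum_comm]
      simp only [← Finset.sum_mul]
      rw [Finset.mul_sum, Finset.mul_sum]
      refine Finset.sum_congr rfl fun o _ => ?_
      rw [hdeg, mul_assoc]
    have hother : ∀ b', b' < J + u → b' ≠ h0 → Q ∣ bd J A b' := by
      intro b' hb' hne
      rw [hbd]
      by_cases hex : ∃ b, hb b = b'
      · obtain ⟨b, rfl⟩ := hex
        exact PP_supp hQ hω c ν σ hσ b
      · refine Finset.dvd_sum fun o _ => ?_
        have h1 : bd J (mu o) b' = 0 := by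
          by_contra h2
          rcases hcov o b' hb' h2 with h3 | h3
          · exact hne h3
          · exact hex h3
        rw [h1, zero_mul]
        exact dvd_zero _
    have hall : ∀ b', b' < J + u → Q ∣ bd J A b' := by
      intro b' hb'
      by_cases hne : b' = h0
      · rw [hne]
        have h1 : ∑ b ∈ Finset.range (J + u), bd J A b = Q * (e * ∑ o, σ (some o)) := by
          have h2 := sum_bd_mul A (fun _ => 1) J u
          simp only [one_mul] at h2
          rw [h2, ← hn, htot]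
        rw [← Finset.add_sum_erase _ _ (Finset.mem_range.mpr h0lt)] at h1
        have h3 : Q ∣ ∑ b ∈ (Finset.range (J + u)).erase h0, bd J A b := by
          refine Finset.dvd_sum fun b hb => ?_
          rw [Finset.mem_erase, Finset.mem_range] at hb
          exact hother b hb.2 hb.1
        exact (Nat.dvd_add_left h3).mp (h1 ▸ Dvd.intro _ rfl)
      · exact hother b' hb' hne
    obtain ⟨M0, hM0, hM0e⟩ := exists_mono (k := k) (n := n) (β := β) hQ hn bi A
      (e * ∑ o, σ (some o))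
      (by
        intro j hj
        have h1 := hall j (by omega)
        rwa [bd, if_pos hj] at h1)
      (by
        intro j hj
        by_cases hz : ∀ o, mu o (2 * j + 1) * σ (some o) = 0
        · left
          exact Finset.sum_eq_zero fun o _ => hz o
        · right
          push Not at hz
          obtain ⟨o, ho⟩ := hz
          have h1 : mu o (2 * j + 1) ≠ 0 := left_ne_zero_of_mul ho
          have h2 : σ (some o) ≠ 0 := right_ne_zero_of_mul ho
          have h3 := (hpair o j hj).resolve_left h1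
          have h4 : mu o (2 * j + 1) * σ (some o) ≤ A (2 * j + 1) :=
            Finset.single_le_sum (f := fun o => mu o (2 * j + 1) * σ (some o))
              (fun _ _ => Nat.zero_le _) (Finset.mem_univ o)
          exact (h3.trans (Nat.le_mul_of_pos_right _ (Nat.pos_of_ne_zero h2))).trans h4)
      (by
        intro i hi
        have h1 := hall (J + i) (by omega)
        rwa [bd, if_neg (by omega), show J + (J + i) = 2 * J + i by ring] at h1)
      htot
    refine ⟨X (Sum.inr w) ^ (e * σ none) * M0, ?_, ?_⟩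
    · have h1 := (isHomogeneous_X_pow (R := k) (Sum.inr w : Fin (n + 1) ⊕ β) (e * σ none)).mul hM0
      rwa [← mul_add, hsum] at h1
    · intro Ω _ θ x yy hpt
      rw [eval₂_mul, eval₂_pow, eval₂_X, hM0e Ω θ x yy hpt, pow_mul]
      congr 1
      simp only [A]
      have h1 : ∀ m, yy m ^ (∑ o, mu o m * σ (some o)) = ∏ o, (yy m ^ mu o m) ^ σ (some o) := by
        intro m
        rw [← Finset.prod_pow_eq_pow_sum]
        exact Finset.prod_congr rfl fun o _ => pow_mul _ _ _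
      simp only [h1]
      rw [Finset.prod_comm]
      exact Finset.prod_congr rfl fun o _ => Finset.prod_pow _ _ _
  choose! M hMh hMe using hmon
  refine ⟨∑ σ ∈ (PP ω Q c ν).support, C (coeff σ (PP ω Q c ν)) * M σ, ?_, ?_⟩
  · refine IsHomogeneous.sum _ _ _ fun σ hσ => ?_
    exact (hMh σ (mem_support_iff.mp hσ)).C_mul _
  · intro Ω _ θ x yy hpt
    have h1 : eval₂ θ x (∑ σ ∈ (PP ω Q c ν).support, C (coeff σ (PP ω Q c ν)) * M σ)
        = ∑ σ ∈ (PP ω Q c ν).support, θ (coeff σ (PP ω Q c ν)) * ((x (Sum.inr w) ^ e) ^ σ none *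
          ∏ o, (∏ m ∈ Finset.range (n + 1), yy m ^ mu o m) ^ σ (some o)) := by
      rw [eval₂_sum]
      refine Finset.sum_congr rfl fun σ hσ => ?_
      rw [eval₂_mul, eval₂_C, hMe σ (mem_support_iff.mp hσ) Ω θ x yy hpt]
    rw [h1]
    let g : Option ι → Ω := fun o => match o with
      | none => x (Sum.inr w) ^ e
      | some o => ∏ m ∈ Finset.range (n + 1), yy m ^ mu o m
    have h2 : eval₂ θ g (PP ω Q c ν) = ∑ σ ∈ (PP ω Q c ν).support, θ (coeff σ (PP ω Q c ν)) *
        ((x (Sum.inr w) ^ e) ^ σ none *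
          ∏ o, (∏ m ∈ Finset.range (n + 1), yy m ^ mu o m) ^ σ (some o)) := by
      rw [eval₂_eq']
      refine Finset.sum_congr rfl fun σ _ => ?_
      rw [Fintype.prod_option]
    rw [← h2, PP, ← coe_eval₂Hom, map_prod]
    refine Finset.prod_congr rfl fun l _ => ?_
    simp only [PF, map_sub, map_sum, map_mul, coe_eval₂Hom, eval₂_X, eval₂_C, map_pow, g, ν]

end E

end Pool.Agent.TH922.KC
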