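import Mathlib

set_option autoImplicit false

open MvPolynomial

namespace Pool.Agent.TH922.KC

variable {X : Type*} {κ : Type*} [Field κ]

/-- homogeneous ideal, in the format of the frozen statement -/
def IsHom (J : Ideal (MvPolynomial X κ)) : Prop :=
  ∀ p ∈ J, ∀ k : ℕ, homogeneousComponent k p ∈ J

/-- Hilbert function of the quotient by `J`. -/
noncomputable def hf (J : Ideal (MvPolynomial X κ)) (t : ℕ) : ℕ :=
  Module.finrank κ (Submodule.map (Ideal.Quotient.mkₐ κ J).toLinearMap
    (homogeneousSubmodule X κ t))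

/-- degree `t` part of `J` -/
noncomputable def KJ (J : Ideal (MvPolynomial X κ)) (t : ℕ) : Submodule κ (MvPolynomial X κ) :=
  homogeneousSubmodule X κ t ⊓ J.restrictScalars κ

/-- colon ideal -/
noncomputable def col (J : Ideal (MvPolynomial X κ)) (a : MvPolynomial X κ) :
    Ideal (MvPolynomial X κ) :=
  Submodule.comap (LinearMap.mulLeft (MvPolynomial X κ) a) J

lemma mem_col (J : Ideal (MvPolynomial X κ)) (a b : MvPolynomial X κ) :
    b ∈ col J a ↔ a * b ∈ J := Iff.rfl

lemma mem_KJ (J : Ideal (MvPolynomial X κ)) (t : ℕ) (p : MvPolynomial X κ) :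
    p ∈ KJ J t ↔ p.IsHomogeneous t ∧ p ∈ J := Iff.rfl

instance finH [Finite X] (t : ℕ) : Module.Finite κ (homogeneousSubmodule X κ t) :=
  Module.Finite.iff_fg.mpr (homogeneousSubmodule_fg X κ t)

lemma finrank_map_add {M N : Type*} [AddCommGroup M] [Module κ M] [AddCommGroup N] [Module κ N]
    (f : M →ₗ[κ] N) (V : Submodule κ M) [Module.Finite κ V] :
    Module.finrank κ (V.map f) + Module.finrank κ (V ⊓ LinearMap.ker f : Submodule κ M)
      = Module.finrank κ V := by
  have h := LinearMap.finrank_range_add_finrank_ker (f.domRestrict V)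
  have h1 : LinearMap.range (f.domRestrict V) = V.map f := by
    ext x; simp [Submodule.mem_map]
  have h2 : Module.finrank κ (LinearMap.ker (f.domRestrict V))
      = Module.finrank κ (V ⊓ LinearMap.ker f : Submodule κ M) := by
    have e : (LinearMap.ker (f.domRestrict V)) = Submodule.comap V.subtype (V ⊓ LinearMap.ker f) := by
      ext x; simp
    rw [e]
    exact LinearEquiv.finrank_eq (Submodule.comapSubtypeEquivOfLe inf_le_left)
  rw [h1, h2] at h
  exact h

lemma hf_add [Finite X] (J : Ideal (MvPolynomial X κ)) (t : ℕ) :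
    hf J t + Module.finrank κ (KJ J t) = Module.finrank κ (homogeneousSubmodule X κ t) := by
  have h := finrank_map_add (Ideal.Quotient.mkₐ κ J).toLinearMap (homogeneousSubmodule X κ t)
  have e : (homogeneousSubmodule X κ t ⊓ LinearMap.ker (Ideal.Quotient.mkₐ κ J).toLinearMap)
      = KJ J t := by
    ext x
    simp [KJ, Ideal.Quotient.eq_zero_iff_mem]
  rw [e] at h
  exact h

lemma hf_le [Finite X] (J : Ideal (MvPolynomial X κ)) (t : ℕ) :
    hf J t ≤ Module.finrank κ (homogeneousSubmodule X κ t) := by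
  have := hf_add J t; omega

lemma hc_mul_left {a b : MvPolynomial X κ} {δ : ℕ} (ha : a.IsHomogeneous δ) (t : ℕ) :
    homogeneousComponent (t + δ) (a * b) = a * homogeneousComponent t b := by
  classical
  conv_lhs => rw [← sum_homogeneousComponent b, Finset.mul_sum, map_sum]
  by_cases ht : t ∈ Finset.range (b.totalDegree + 1)
  · rw [Finset.sum_eq_single t]
    · exact homogeneousComponent_eq_self (by
        have := ha.mul (homogeneousComponent_isHomogeneous t b)
        rwa [add_comm] at this)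
    · intro k _ hk
      have h1 : (a * homogeneousComponent k b).IsHomogeneous (k + δ) := by
        have := ha.mul (homogeneousComponent_isHomogeneous k b)
        rwa [add_comm] at this
      rw [homogeneousComponent_of_mem h1, if_neg]
      omega
    · intro h; exact absurd ht h
  · rw [Finset.sum_eq_zero]
    · have : b.totalDegree < t := by
        simpa using ht
      rw [homogeneousComponent_eq_zero _ _ this, mul_zero]
    · intro k hk
      have h1 : (a * homogeneousComponent k b).IsHomogeneous (k + δ) := by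
        have := ha.mul (homogeneousComponent_isHomogeneous k b)
        rwa [add_comm] at this
      rw [homogeneousComponent_of_mem h1, if_neg]
      intro h
      have : t = k := by omega
      exact ht (this ▸ hk)

lemma hc_mul_left_lt {a b : MvPolynomial X κ} {δ : ℕ} (ha : a.IsHomogeneous δ) (t : ℕ)
    (h : t < δ) : homogeneousComponent t (a * b) = 0 := by
  classical
  conv_lhs => rw [← sum_homogeneousComponent b, Finset.mul_sum, map_sum]
  rw [Finset.sum_eq_zero]
  intro k hk
  have h1 : (a * homogeneousComponent k b).IsHomogeneous (δ + k) :=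
    ha.mul (homogeneousComponent_isHomogeneous k b)
  rw [homogeneousComponent_of_mem h1, if_neg]
  omega

lemma IsHom.col {J : Ideal (MvPolynomial X κ)} (hJ : IsHom J) {a : MvPolynomial X κ} {δ : ℕ}
    (ha : a.IsHomogeneous δ) : IsHom (col J a) := by
  intro p hp k
  rw [mem_col] at hp ⊢
  rw [← hc_mul_left ha]
  exact hJ _ hp _

lemma IsHom.sup {J : Ideal (MvPolynomial X κ)} (hJ : IsHom J) {a : MvPolynomial X κ} {δ : ℕ}
    (ha : a.IsHomogeneous δ) : IsHom (J ⊔ Ideal.span {a}) := by
  intro p hp k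
  obtain ⟨u, hu, v, hv, rfl⟩ := Submodule.mem_sup.mp hp
  obtain ⟨w, rfl⟩ := Ideal.mem_span_singleton'.mp hv
  rw [map_add]
  refine Ideal.add_mem _ (Ideal.mem_sup_left (hJ _ hu _)) ?_
  rw [mul_comm]
  rcases lt_or_ge k δ with h | h
  · rw [hc_mul_left_lt ha _ h]; exact Ideal.zero_mem _
  · obtain ⟨t, rfl⟩ := Nat.exists_eq_add_of_le h
    rw [add_comm δ t, hc_mul_left ha]
    exact Ideal.mem_sup_right (Ideal.mul_mem_right _ _ (Ideal.mem_span_singleton_self a))

lemma KJ_sup {J : Ideal (MvPolynomial X κ)} (hJ : IsHom J) {a : MvPolynomial X κ} {δ : ℕ}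
    (ha : a.IsHomogeneous δ) (t : ℕ) :
    KJ (J ⊔ Ideal.span {a}) (t + δ) = KJ J (t + δ) ⊔
      (homogeneousSubmodule X κ t).map (LinearMap.mulLeft κ a) := by
  apply le_antisymm
  · rintro p ⟨hp1, hp2⟩
    have hp1' : p.IsHomogeneous (t + δ) := hp1
    obtain ⟨u, hu, v, hv, huv⟩ := Submodule.mem_sup.mp hp2
    obtain ⟨w, rfl⟩ := Ideal.mem_span_singleton'.mp hv
    have h1 : p = homogeneousComponent (t + δ) u + a * homogeneousComponent t w := by
      rw [← hc_mul_left ha, ← map_add, mul_comm a w, huv, homogeneousComponent_eq_self hp1']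
    rw [h1]
    refine Submodule.add_mem_sup ⟨homogeneousComponent_mem _ _, hJ _ hu _⟩ ?_
    exact ⟨homogeneousComponent t w, homogeneousComponent_mem _ _, rfl⟩
  · refine sup_le ?_ ?_
    · rintro p ⟨hp1, hp2⟩
      exact ⟨hp1, Ideal.mem_sup_left hp2⟩
    · rintro _ ⟨w, hw, rfl⟩
      refine ⟨?_, ?_⟩
      · have hw' : w.IsHomogeneous t := hw
        have := ha.mul hw'
        rw [add_comm] at this
        exact this
      · exact Ideal.mem_sup_right (Ideal.mul_mem_right _ _ (Ideal.mem_span_singleton_self a))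

lemma KJ_inf {J : Ideal (MvPolynomial X κ)} {a : MvPolynomial X κ} {δ : ℕ}
    (ha : a.IsHomogeneous δ) (t : ℕ) :
    KJ J (t + δ) ⊓ (homogeneousSubmodule X κ t).map (LinearMap.mulLeft κ a)
      = (KJ (col J a) t).map (LinearMap.mulLeft κ a) := by
  apply le_antisymm
  · rintro _ ⟨⟨hp1, hp2⟩, w, hw, rfl⟩
    exact ⟨w, ⟨hw, hp2⟩, rfl⟩
  · rintro _ ⟨w, ⟨hw1, hw2⟩, rfl⟩
    refine ⟨⟨?_, hw2⟩, w, hw1, rfl⟩
    have hw' : w.IsHomogeneous t := hw1
    have := ha.mul hw'
    rw [add_comm] at this
    exact this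

instance finKJ [Finite X] (J : Ideal (MvPolynomial X κ)) (t : ℕ) : Module.Finite κ (KJ J t) :=
  Submodule.finiteDimensional_of_le (S₂ := homogeneousSubmodule X κ t) inf_le_left

/-- exactness of Hilbert functions -/
lemma hf_exact [Finite X] {J : Ideal (MvPolynomial X κ)} (hJ : IsHom J) {a : MvPolynomial X κ}
    {δ : ℕ} (ha : a.IsHomogeneous δ) (ha0 : a ≠ 0) (t : ℕ) :
    hf J (t + δ) = hf (J ⊔ Ideal.span {a}) (t + δ) + hf (col J a) t := by
  have hinj : Function.Injective (LinearMap.mulLeft κ a : MvPolynomial X κ →ₗ[κ] MvPolynomial X κ) :=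
    fun x y hxy => mul_left_cancel₀ ha0 hxy
  have A := hf_add J (t + δ)
  have B := hf_add (J ⊔ Ideal.span {a}) (t + δ)
  have C := hf_add (col J a) t
  have D := Submodule.finrank_sup_add_finrank_inf_eq (KJ J (t + δ))
    ((homogeneousSubmodule X κ t).map (LinearMap.mulLeft κ a))
  rw [← KJ_sup hJ ha, KJ_inf ha] at D
  have e1 : Module.finrank κ ((homogeneousSubmodule X κ t).map (LinearMap.mulLeft κ a))
      = Module.finrank κ (homogeneousSubmodule X κ t) :=
    (Submodule.equivMapOfInjective _ hinj _).finrank_eq.symm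
  have e2 : Module.finrank κ ((KJ (col J a) t).map (LinearMap.mulLeft κ a))
      = Module.finrank κ (KJ (col J a) t) :=
    (Submodule.equivMapOfInjective _ hinj _).finrank_eq.symm
  rw [e1, e2] at D
  omega

/-- below the degree of `a` nothing changes -/
lemma hf_sup_lt [Finite X] {J : Ideal (MvPolynomial X κ)} (hJ : IsHom J) {a : MvPolynomial X κ}
    {δ : ℕ} (ha : a.IsHomogeneous δ) (t : ℕ) (ht : t < δ) :
    hf (J ⊔ Ideal.span {a}) t = hf J t := by
  have A := hf_add J t
  have B := hf_add (J ⊔ Ideal.span {a}) t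
  have e : KJ (J ⊔ Ideal.span {a}) t = KJ J t := by
    apply le_antisymm
    · rintro p ⟨hp1, hp2⟩
      have hp1' : p.IsHomogeneous t := hp1
      obtain ⟨u, hu, v, hv, huv⟩ := Submodule.mem_sup.mp hp2
      obtain ⟨w, rfl⟩ := Ideal.mem_span_singleton'.mp hv
      have h1 : p = homogeneousComponent t u := by
        have : homogeneousComponent t (w * a) = 0 := by
          rw [mul_comm]; exact hc_mul_left_lt ha t ht
        rw [← add_zero (homogeneousComponent t u), ← this, ← map_add, huv,
          homogeneousComponent_eq_self hp1']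
      rw [h1]
      exact ⟨homogeneousComponent_mem _ _, hJ _ hu _⟩
    · rintro p ⟨hp1, hp2⟩
      exact ⟨hp1, Ideal.mem_sup_left hp2⟩
  rw [e] at B
  omega

lemma hf_top [Finite X] (t : ℕ) : hf (⊤ : Ideal (MvPolynomial X κ)) t = 0 := by
  have A := hf_add (⊤ : Ideal (MvPolynomial X κ)) t
  have e : KJ (⊤ : Ideal (MvPolynomial X κ)) t = homogeneousSubmodule X κ t := by
    ext p; simp [KJ]
  rw [e] at A
  omega

lemma hf_anti [Finite X] {J J' : Ideal (MvPolynomial X κ)} (h : J ≤ J') (t : ℕ) :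
    hf J' t ≤ hf J t := by
  have A := hf_add J t
  have B := hf_add J' t
  have : Module.finrank κ (KJ J t) ≤ Module.finrank κ (KJ J' t) :=
    Submodule.finrank_mono (inf_le_inf_left _ h)
  omega

section graded
attribute [local instance] MvPolynomial.gradedAlgebra

lemma isHom_iff (J : Ideal (MvPolynomial X κ)) :
    IsHom J ↔ J.IsHomogeneous (homogeneousSubmodule X κ) := by
  constructor
  · intro h i p hp
    have h1 := h p hp i
    rw [← decomposition.decompose'_apply] at h1
    exact h1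
  · intro h p hp k
    exact homogeneousComponent_mem_of_mem h hp k

lemma exists_of_not_prime {J : Ideal (MvPolynomial X κ)} (hJ : IsHom J) (h1 : J ≠ ⊤)
    (h2 : ¬ J.IsPrime) : ∃ (a b : MvPolynomial X κ) (δ : ℕ), a.IsHomogeneous δ ∧ a ∉ J ∧ b ∉ J ∧
      a * b ∈ J := by
  by_contra hcon
  push Not at hcon
  apply h2
  refine Ideal.IsHomogeneous.isPrime_of_homogeneous_mem_or_mem ((isHom_iff J).mp hJ) h1 ?_
  rintro x y ⟨i, hx⟩ - hxy
  by_contra hne
  push Not at hne
  exact hcon x y i hx hne.1 hne.2 hxy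

end graded

/-- Noetherian induction on homogeneous ideals -/
theorem hom_induction [Finite X] (C : Ideal (MvPolynomial X κ) → Prop)
    (htop : C ⊤)
    (hprime : ∀ J : Ideal (MvPolynomial X κ), IsHom J → J.IsPrime →
      (∀ J' : Ideal (MvPolynomial X κ), IsHom J' → J < J' → C J') → C J)
    (hstep : ∀ (J : Ideal (MvPolynomial X κ)) (a : MvPolynomial X κ) (δ : ℕ), IsHom J →
      a.IsHomogeneous δ → a ≠ 0 → C (J ⊔ Ideal.span {a}) → C (col J a) → C J) :
    ∀ J : Ideal (MvPolynomial X κ), IsHom J → C J := by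
  intro J
  induction J using WellFoundedGT.induction with
  | ind J ih =>
    intro hJ
    by_cases h1 : J = ⊤
    · rw [h1]; exact htop
    by_cases h2 : J.IsPrime
    · exact hprime J hJ h2 (fun J' hJ' hlt => ih J' hlt hJ')
    obtain ⟨a, b, δ, ha, haJ, hbJ, hab⟩ := exists_of_not_prime hJ h1 h2
    have ha0 : a ≠ 0 := by rintro rfl; exact haJ J.zero_mem
    refine hstep J a δ hJ ha ha0 (ih _ ?_ (hJ.sup ha)) (ih _ ?_ (hJ.col ha))
    · refine lt_of_le_of_ne le_sup_left ?_
      intro h
      apply haJ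
      rw [h]
      exact Ideal.mem_sup_right (Ideal.mem_span_singleton_self a)
    · refine lt_of_le_of_ne ?_ ?_
      · intro p hp
        rw [mem_col]
        exact J.mul_mem_left _ hp
      · intro h
        apply hbJ
        rw [h]
        exact hab

/-- the prime step: a variable outside the prime -/
lemma hf_prime_succ [Finite X] {J : Ideal (MvPolynomial X κ)} (hJ : IsHom J) (hp : J.IsPrime)
    {x : X} (hx : (MvPolynomial.X x : MvPolynomial X κ) ∉ J) (t : ℕ) :
    hf J (t + 1) = hf (J ⊔ Ideal.span {(MvPolynomial.X x : MvPolynomial X κ)}) (t + 1)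
      + hf J t := by
  have h := hf_exact hJ (isHomogeneous_X κ x) (X_ne_zero x) t
  have e : col J (MvPolynomial.X x) = J := by
    ext p
    rw [mem_col]
    constructor
    · intro h
      exact (hp.mem_or_mem h).resolve_left hx
    · intro h
      exact J.mul_mem_left _ h
  rw [e] at h
  exact h

lemma hf_all [Finite X] {J : Ideal (MvPolynomial X κ)}
    (hx : ∀ x : X, (MvPolynomial.X x : MvPolynomial X κ) ∈ J) (t : ℕ) :
    hf J (t + 1) = 0 := by
  have A := hf_add J (t + 1)
  have e : KJ J (t + 1) = homogeneousSubmodule X κ (t + 1) := by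
    apply le_antisymm inf_le_left
    intro p hp
    refine ⟨hp, ?_⟩
    have hp' : p.IsHomogeneous (t + 1) := hp
    have : p ∈ J := by
      rw [p.as_sum]
      refine Ideal.sum_mem _ fun μ hμ => ?_
      have hdeg : μ.degree = t + 1 := by
        by_contra hne
        exact (mem_support_iff.mp hμ) (hp'.coeff_eq_zero hne)
      have : μ ≠ 0 := by
        rintro rfl
        simp at hdeg
      obtain ⟨x, hx'⟩ := Finsupp.ne_iff.mp this
      have hx'' : μ x ≠ 0 := by simpa using hx'
      have h3 : monomial μ (coeff μ p) = monomial (μ - Finsupp.single x 1) (coeff μ p)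
          * MvPolynomial.X x := by
        rw [MvPolynomial.X, monomial_mul, mul_one]
        congr 2
        ext y
        by_cases hy : x = y
        · subst hy; simp; omega
        · simp [hy]
      rw [h3]
      exact J.mul_mem_left _ (hx x)
    exact this
  rw [e] at A
  omega

lemma hf_step [Finite X] {J : Ideal (MvPolynomial X κ)} (hJ : IsHom J) {a : MvPolynomial X κ}
    {δ : ℕ} (ha : a.IsHomogeneous δ) (ha0 : a ≠ 0) (t : ℕ) :
    hf J t = hf (J ⊔ Ideal.span {a}) t + (if δ ≤ t then hf (col J a) (t - δ) else 0) := by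
  split_ifs with h
  · obtain ⟨s, rfl⟩ := Nat.exists_eq_add_of_le' h
    rw [Nat.add_sub_cancel]
    exact hf_exact hJ ha ha0 s
  · rw [add_zero]
    exact (hf_sup_lt hJ ha t (not_le.mp h)).symm

lemma dim_mono {J J' : Ideal (MvPolynomial X κ)} (h : J ≤ J') :
    ringKrullDim (MvPolynomial X κ ⧸ J') ≤ ringKrullDim (MvPolynomial X κ ⧸ J) :=
  ringKrullDim_le_of_surjective (Ideal.Quotient.factor h) (Ideal.Quotient.factor_surjective h)

lemma le_col (J : Ideal (MvPolynomial X κ)) (a : MvPolynomial X κ) : J ≤ col J a := by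
  intro p hp
  rw [mem_col]
  exact J.mul_mem_left _ hp

lemma dim_step {J : Ideal (MvPolynomial X κ)} (hp : J.IsPrime)
    {x : MvPolynomial X κ} (hx : x ∉ J) :
    ringKrullDim (MvPolynomial X κ ⧸ (J ⊔ Ideal.span {x})) + 1
      ≤ ringKrullDim (MvPolynomial X κ ⧸ J) := by
  have hle : J ≤ J ⊔ Ideal.span {x} := le_sup_left
  have hx0 : Ideal.Quotient.mk J x ≠ 0 := by
    rwa [Ne, Ideal.Quotient.eq_zero_iff_mem]
  refine ringKrullDim_succ_le_of_surjective (Ideal.Quotient.factor hle)
    (Ideal.Quotient.factor_surjective hle) (r := Ideal.Quotient.mk J x) ?_ ?_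
  · exact mem_nonZeroDivisors_of_ne_zero hx0
  · rw [Ideal.Quotient.factor_mk, Ideal.Quotient.eq_zero_iff_mem]
    exact Ideal.mem_sup_right (Ideal.mem_span_singleton_self x)

lemma sup_X_ne_top {J : Ideal (MvPolynomial X κ)} (hJ : IsHom J) (hp : J ≠ ⊤) (x : X) :
    (J ⊔ Ideal.span {(MvPolynomial.X x : MvPolynomial X κ)}) ≠ ⊤ := by
  intro h
  have h1 : (1 : MvPolynomial X κ) ∈ J ⊔ Ideal.span {(MvPolynomial.X x : MvPolynomial X κ)} := by
    rw [h]; trivial
  obtain ⟨u, hu, v, hv, huv⟩ := Submodule.mem_sup.mp h1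
  obtain ⟨w, rfl⟩ := Ideal.mem_span_singleton'.mp hv
  have h2 : homogeneousComponent 0 u = 1 := by
    have h3 : homogeneousComponent 0 (w * MvPolynomial.X x : MvPolynomial X κ) = 0 := by
      rw [mul_comm]; exact hc_mul_left_lt (isHomogeneous_X κ x) 0 (by norm_num)
    have h4 : homogeneousComponent 0 (1 : MvPolynomial X κ) = 1 :=
      homogeneousComponent_eq_self (isHomogeneous_one X κ)
    rw [← h4, ← huv, map_add, h3, add_zero]
  apply hp
  rw [Ideal.eq_top_iff_one, ← h2]
  exact hJ _ hu _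

lemma wb_cancel {a : WithBot ℕ∞} {n : ℕ} (h : a + 1 ≤ ((n + 1 : ℕ) : WithBot ℕ∞)) :
    a ≤ ((n : ℕ) : WithBot ℕ∞) := by
  induction a with
  | bot => exact bot_le
  | coe a =>
    have h' : a + 1 ≤ ((n : ℕ) : ℕ∞) + 1 := by exact_mod_cast h
    have := (ENat.add_le_add_iff_right (by simp)).mp h'
    exact_mod_cast this

/-- Growth from Krull dimension: dimension zero. -/
theorem growth0 [Finite X] : ∀ J : Ideal (MvPolynomial X κ), IsHom J →
    ringKrullDim (MvPolynomial X κ ⧸ J) ≤ 0 → ∃ K : ℕ, ∀ t ≥ K, hf J t = 0 := by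
  refine hom_induction _ ?_ ?_ ?_
  · intro _
    exact ⟨0, fun t _ => hf_top t⟩
  · intro J hJ hp ih hdim
    by_cases hall : ∀ x : X, (MvPolynomial.X x : MvPolynomial X κ) ∈ J
    · refine ⟨1, fun t ht => ?_⟩
      obtain ⟨s, rfl⟩ := Nat.exists_eq_add_of_le' ht
      exact hf_all hall s
    · exfalso
      push Not at hall
      obtain ⟨x, hx⟩ := hall
      have hpl := sup_X_ne_top hJ hp.ne_top x
      have := Ideal.Quotient.nontrivial_iff.mpr hpl
      have h0 := ringKrullDim_nonneg_of_nontrivial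
        (R := MvPolynomial X κ ⧸ (J ⊔ Ideal.span {(MvPolynomial.X x : MvPolynomial X κ)}))
      have h1 := (dim_step hp hx).trans hdim
      have h2 : (1 : WithBot ℕ∞) ≤ 0 := by
        calc (1 : WithBot ℕ∞) = 0 + 1 := by simp
          _ ≤ _ := add_le_add_left h0 1
          _ ≤ 0 := h1
      exact absurd h2 (by decide)
  · intro J a δ hJ ha ha0 h1 h2 hdim
    obtain ⟨K1, hK1⟩ := h1 ((dim_mono le_sup_left).trans hdim)
    obtain ⟨K2, hK2⟩ := h2 ((dim_mono (le_col J a)).trans hdim)
    refine ⟨K1 + K2 + δ, fun t ht => ?_⟩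
    rw [hf_step hJ ha ha0, if_pos (by omega), hK1 t (by omega), hK2 _ (by omega)]

theorem growth1 [Finite X] : ∀ J : Ideal (MvPolynomial X κ), IsHom J →
    ringKrullDim (MvPolynomial X κ ⧸ J) ≤ 1 → ∃ C : ℕ, ∀ t, hf J t ≤ C := by
  refine hom_induction _ ?_ ?_ ?_
  · intro _
    exact ⟨0, fun t => (hf_top t).le⟩
  · intro J hJ hp ih hdim
    by_cases hall : ∀ x : X, (MvPolynomial.X x : MvPolynomial X κ) ∈ J
    · refine ⟨hf J 0, fun t => ?_⟩
      rcases Nat.eq_zero_or_pos t with rfl | ht
      · exact le_rfl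
      · obtain ⟨s, rfl⟩ := Nat.exists_eq_add_of_le' ht
        rw [hf_all hall s]; exact Nat.zero_le _
    · push Not at hall
      obtain ⟨x, hx⟩ := hall
      have h1 := (dim_step hp hx).trans hdim
      have h2 : ringKrullDim (MvPolynomial X κ ⧸
          (J ⊔ Ideal.span {(MvPolynomial.X x : MvPolynomial X κ)})) ≤ 0 := by
        have := wb_cancel (n := 0) (by exact_mod_cast h1)
        exact_mod_cast this
      obtain ⟨K, hK⟩ := growth0 _ (hJ.sup (isHomogeneous_X κ x)) h2
      refine ⟨∑ s ∈ Finset.range (K + 1), hf J s, fun t => ?_⟩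
      induction t with
      | zero => exact Finset.single_le_sum (f := hf J) (fun _ _ => Nat.zero_le _) (by simp)
      | succ t ih =>
        by_cases hlt : t + 1 ≤ K
        · exact Finset.single_le_sum (f := hf J) (fun _ _ => Nat.zero_le _) (by simp; omega)
        · rw [hf_prime_succ hJ hp hx, hK _ (by omega), zero_add]
          exact ih
  · intro J a δ hJ ha ha0 h1 h2 hdim
    obtain ⟨C1, hC1⟩ := h1 ((dim_mono le_sup_left).trans hdim)
    obtain ⟨C2, hC2⟩ := h2 ((dim_mono (le_col J a)).trans hdim)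
    refine ⟨C1 + C2, fun t => ?_⟩
    rw [hf_step hJ ha ha0]
    have := hC1 t
    have := hC2 (t - δ)
    split_ifs <;> omega

theorem growth2 [Finite X] : ∀ J : Ideal (MvPolynomial X κ), IsHom J →
    ringKrullDim (MvPolynomial X κ ⧸ J) ≤ 2 → ∃ C : ℕ, ∀ t, hf J t ≤ C * (t + 1) := by
  refine hom_induction _ ?_ ?_ ?_
  · intro _
    exact ⟨0, fun t => by rw [hf_top t]; exact Nat.zero_le _⟩
  · intro J hJ hp ih hdim
    by_cases hall : ∀ x : X, (MvPolynomial.X x : MvPolynomial X κ) ∈ J
    · refine ⟨hf J 0, fun t => ?_⟩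
      rcases Nat.eq_zero_or_pos t with rfl | ht
      · simp
      · obtain ⟨s, rfl⟩ := Nat.exists_eq_add_of_le' ht
        rw [hf_all hall s]; exact Nat.zero_le _
    · push Not at hall
      obtain ⟨x, hx⟩ := hall
      have h1 := (dim_step hp hx).trans hdim
      have h2 : ringKrullDim (MvPolynomial X κ ⧸
          (J ⊔ Ideal.span {(MvPolynomial.X x : MvPolynomial X κ)})) ≤ 1 := by
        have := wb_cancel (n := 1) (by exact_mod_cast h1)
        exact_mod_cast this
      obtain ⟨C, hC⟩ := growth1 _ (hJ.sup (isHomogeneous_X κ x)) h2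
      refine ⟨hf J 0 + C, fun t => ?_⟩
      induction t with
      | zero => simp
      | succ t ih =>
        rw [hf_prime_succ hJ hp hx]
        have := hC (t + 1)
        nlinarith
  · intro J a δ hJ ha ha0 h1 h2 hdim
    obtain ⟨C1, hC1⟩ := h1 ((dim_mono le_sup_left).trans hdim)
    obtain ⟨C2, hC2⟩ := h2 ((dim_mono (le_col J a)).trans hdim)
    refine ⟨C1 + C2, fun t => ?_⟩
    rw [hf_step hJ ha ha0]
    have a1 := hC1 t
    have a2 := hC2 (t - δ)
    have a3 : C2 * (t - δ + 1) ≤ C2 * (t + 1) := Nat.mul_le_mul_left _ (by omega)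
    split_ifs <;> nlinarith

lemma mono_bdd (B : ℕ) : ∀ f : ℕ → ℕ, Monotone f → (∀ t, f t ≤ B) →
    ∃ K e, ∀ t ≥ K, f t = e := by
  induction B with
  | zero => intro f _ h; exact ⟨0, 0, fun t _ => Nat.le_zero.mp (h t)⟩
  | succ B ih =>
    intro f hf h
    by_cases hex : ∃ t0, f t0 = B + 1
    · obtain ⟨t0, ht0⟩ := hex
      exact ⟨t0, B + 1, fun t ht => le_antisymm (h t) (ht0 ▸ hf ht)⟩
    · push Not at hex
      exact ih f hf (fun t => by have := h t; have := hex t; omega)

/-- average bound implies eventually constant -/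
theorem ev_const [Finite X] : ∀ J : Ideal (MvPolynomial X κ), IsHom J →
    (∃ C : ℕ, ∀ t, ∑ s ∈ Finset.range t, hf J s ≤ C * t) → ∃ K e : ℕ, ∀ t ≥ K, hf J t = e := by
  refine hom_induction _ ?_ ?_ ?_
  · intro _
    exact ⟨0, 0, fun t _ => hf_top t⟩
  · intro J hJ hp ih hgr
    by_cases hall : ∀ x : X, (MvPolynomial.X x : MvPolynomial X κ) ∈ J
    · refine ⟨1, 0, fun t ht => ?_⟩
      obtain ⟨s, rfl⟩ := Nat.exists_eq_add_of_le' ht
      exact hf_all hall s
    · push Not at hall
      obtain ⟨x, hx⟩ := hall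
      have hmono : Monotone (hf J) := monotone_nat_of_le_succ (fun t => by
        rw [hf_prime_succ hJ hp hx]; omega)
      obtain ⟨C, hC⟩ := hgr
      refine mono_bdd (2 * C) _ hmono (fun t => ?_)
      have h1 : hf J t ≤ hf J (t + 1) := hmono (by omega)
      have h2 := hC (2 * (t + 1))
      have h3 : (t + 1) * hf J (t + 1) ≤ ∑ s ∈ Finset.range (2 * (t + 1)), hf J s := by
        calc (t + 1) * hf J (t + 1) = ∑ s ∈ Finset.Ico (t + 1) (2 * (t + 1)), hf J (t + 1) := by
              rw [Finset.sum_const, Nat.card_Ico, smul_eq_mul]; congr 1; omega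
          _ ≤ ∑ s ∈ Finset.Ico (t + 1) (2 * (t + 1)), hf J s := by
              apply Finset.sum_le_sum
              intro s hs
              exact hmono (Finset.mem_Ico.mp hs).1
          _ ≤ _ := by
              apply Finset.sum_le_sum_of_subset
              intro s hs
              simp only [Finset.mem_Ico, Finset.mem_range] at hs ⊢
              exact hs.2
      have h4 : (t + 1) * hf J (t + 1) ≤ (t + 1) * (2 * C) := by nlinarith
      have h5 := Nat.le_of_mul_le_mul_left h4 (by omega)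
      omega
  · intro J a δ hJ ha ha0 h1 h2 hgr
    obtain ⟨C, hC⟩ := hgr
    obtain ⟨K1, e1, hK1⟩ := h1 ⟨C, fun t => le_trans (Finset.sum_le_sum (fun s _ => by
      rw [hf_step hJ ha ha0 s]; omega)) (hC t)⟩
    obtain ⟨K2, e2, hK2⟩ := h2 ⟨C * (1 + δ), fun t => by
      rcases Nat.eq_zero_or_pos t with rfl | ht
      · simp
      calc ∑ s ∈ Finset.range t, hf (col J a) s
          ≤ ∑ s ∈ Finset.range t, hf J (δ + s) := by
            apply Finset.sum_le_sum
            intro s _
            rw [hf_step hJ ha ha0 (δ + s), if_pos (by omega), Nat.add_sub_cancel_left]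
            omega
        _ ≤ ∑ s ∈ Finset.range (δ + t), hf J s := by
            rw [Finset.sum_range_add]
            omega
        _ ≤ C * (δ + t) := hC _
        _ ≤ C * (1 + δ) * t := by
            rw [mul_assoc]
            apply Nat.mul_le_mul_left
            nlinarith⟩
    refine ⟨K1 + K2 + δ, e1 + e2, fun t ht => ?_⟩
    rw [hf_step hJ ha ha0, if_pos (by omega), hK1 t (by omega), hK2 _ (by omega)]

/-- linear growth implies eventually linear -/
theorem ev_lin [Finite X] : ∀ J : Ideal (MvPolynomial X κ), IsHom J →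
    (∃ C : ℕ, ∀ t, hf J t ≤ C * (t + 1)) → ∃ K e : ℕ, ∀ t ≥ K, hf J (t + 1) = hf J t + e := by
  refine hom_induction _ ?_ ?_ ?_
  · intro _
    exact ⟨0, 0, fun t _ => by rw [hf_top, hf_top]⟩
  · intro J hJ hp ih hgr
    by_cases hall : ∀ x : X, (MvPolynomial.X x : MvPolynomial X κ) ∈ J
    · refine ⟨1, 0, fun t ht => ?_⟩
      obtain ⟨s, rfl⟩ := Nat.exists_eq_add_of_le' ht
      rw [hf_all hall s, hf_all hall]
    · push Not at hall
      obtain ⟨x, hx⟩ := hall
      obtain ⟨C, hC⟩ := hgr
      have hsum : ∀ t, ∑ s ∈ Finset.range (t + 1),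
          hf (J ⊔ Ideal.span {(MvPolynomial.X x : MvPolynomial X κ)}) s ≤ hf J t := by
        intro t
        induction t with
        | zero => simpa using hf_anti (le_sup_left) 0
        | succ t ih =>
          rw [Finset.sum_range_succ, hf_prime_succ hJ hp hx]
          omega
      obtain ⟨K, e, hK⟩ := ev_const _ (hJ.sup (isHomogeneous_X κ x)) ⟨C, fun t => by
        rcases Nat.eq_zero_or_pos t with rfl | ht
        · simp
        obtain ⟨s, rfl⟩ := Nat.exists_eq_add_of_le' ht
        exact (hsum s).trans (hC s)⟩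
      refine ⟨K, e, fun t ht => ?_⟩
      rw [hf_prime_succ hJ hp hx, hK _ (by omega)]
      omega
  · intro J a δ hJ ha ha0 h1 h2 hgr
    obtain ⟨C, hC⟩ := hgr
    obtain ⟨K1, e1, hK1⟩ := h1 ⟨C, fun t => le_trans (by
      rw [hf_step hJ ha ha0 t]; omega) (hC t)⟩
    obtain ⟨K2, e2, hK2⟩ := h2 ⟨C * (1 + δ), fun t => by
      calc hf (col J a) t ≤ hf J (δ + t) := by
            rw [hf_step hJ ha ha0 (δ + t), if_pos (by omega), Nat.add_sub_cancel_left]
            omega
        _ ≤ C * (δ + t + 1) := hC _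
        _ ≤ C * (1 + δ) * (t + 1) := by
            rw [mul_assoc]
            apply Nat.mul_le_mul_left
            nlinarith⟩
    refine ⟨K1 + K2 + δ, e1 + e2, fun t ht => ?_⟩
    rw [hf_step hJ ha ha0 (t + 1), hf_step hJ ha ha0 t, if_pos (by omega), if_pos (by omega),
      hK1 t (by omega), show t + 1 - δ = (t - δ) + 1 by omega, hK2 _ (by omega)]
    omega

/-- The divisibility statement follows from the prime case. -/
theorem div_of_prime [Finite X] (q : ℕ) (ℓ : ℤ) (F : Ideal (MvPolynomial X κ))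
    (H : ∀ J : Ideal (MvPolynomial X κ), IsHom J → J.IsPrime → F ≤ J →
      (∃ C : ℕ, ∀ t, hf J t ≤ C * (t + 1)) →
      ∃ K : ℕ, ∀ t ≥ K, (q : ℤ) ∣ ℓ * ((hf J (t + 1) : ℤ) - hf J t)) :
    ∀ J : Ideal (MvPolynomial X κ), IsHom J → F ≤ J →
      (∃ C : ℕ, ∀ t, hf J t ≤ C * (t + 1)) →
      ∃ K : ℕ, ∀ t ≥ K, (q : ℤ) ∣ ℓ * ((hf J (t + 1) : ℤ) - hf J t) := by
  refine hom_induction _ ?_ ?_ ?_
  · intro _ _
    exact ⟨0, fun t _ => by rw [hf_top, hf_top]; simp⟩
  · intro J hJ hp _ hF hgr
    exact H J hJ hp hF hgr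
  · intro J a δ hJ ha ha0 h1 h2 hF hgr
    obtain ⟨C, hC⟩ := hgr
    obtain ⟨K1, hK1⟩ := h1 (hF.trans le_sup_left) ⟨C, fun t => le_trans (by
      rw [hf_step hJ ha ha0 t]; omega) (hC t)⟩
    obtain ⟨K2, hK2⟩ := h2 (hF.trans (le_col J a)) ⟨C * (1 + δ), fun t => by
      calc hf (col J a) t ≤ hf J (δ + t) := by
            rw [hf_step hJ ha ha0 (δ + t), if_pos (by omega), Nat.add_sub_cancel_left]
            omega
        _ ≤ C * (δ + t + 1) := hC _
        _ ≤ C * (1 + δ) * (t + 1) := by
            rw [mul_assoc]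
            apply Nat.mul_le_mul_left
            nlinarith⟩
    refine ⟨K1 + K2 + δ, fun t ht => ?_⟩
    rw [hf_step hJ ha ha0 (t + 1), hf_step hJ ha ha0 t, if_pos (by omega), if_pos (by omega),
      show t + 1 - δ = (t - δ) + 1 by omega]
    have a1 := hK1 t (by omega)
    have a2 := hK2 (t - δ) (by omega)
    have h3 := dvd_add a1 a2
    push_cast
    rw [← mul_add] at h3
    rwa [add_sub_add_comm]

end Pool.Agent.TH922.KC
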