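import Mathlib
import Pool.Agent.TH922.KC.Hilb

set_option autoImplicit false

open MvPolynomial

namespace Pool.Agent.TH922.KC

/-- Adapted basis of a subspace for a valuation lattice. -/
theorem lattice_basis {K : Type*} [Field K] (B : ValuationSubring K) {ι : Type*} [Fintype ι]
    [DecidableEq ι] (W : Submodule K (ι → K)) :
    ∃ (w : ℕ) (b L : Fin w → ι → B), (∀ i j, ∑ μ, L i μ * b j μ = if i = j then 1 else 0) ∧
      (∀ j, (fun μ => ((b j μ : B) : K)) ∈ W) ∧
      (∀ v : ι → B, (fun μ => ((v μ : B) : K)) ∈ W → v ∈ Submodule.span B (Set.range b)) := by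
  classical
  let WB : Submodule B (ι → B) :=
    { carrier := {v | (fun μ => ((v μ : B) : K)) ∈ W}
      add_mem' := by
        intro a b ha hb
        have := W.add_mem ha hb
        exact this
      zero_mem' := by
        have := W.zero_mem
        exact this
      smul_mem' := by
        intro c a ha
        have := W.smul_mem (c : K) ha
        exact this }
  have hmem : ∀ v : ι → B, v ∈ WB ↔ (fun μ => ((v μ : B) : K)) ∈ W := fun v => Iff.rfl
  let Q := (ι → B) ⧸ WB
  have hfinQ : Module.Finite B Q := inferInstance
  have hflat : Module.Flat B Q := by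
    rw [Module.Flat.flat_iff_torsion_eq_bot_of_isBezout]
    rw [eq_bot_iff]
    rintro x ⟨⟨r, hr⟩, h⟩
    obtain ⟨v, rfl⟩ := Submodule.mkQ_surjective WB x
    have hr0 : (r : B) ≠ 0 := nonZeroDivisors.ne_zero hr
    have h1 : WB.mkQ (r • v) = 0 := by
      rw [map_smul]; exact h
    rw [Submodule.mkQ_apply, Submodule.Quotient.mk_eq_zero, hmem] at h1
    rw [Submodule.mem_bot, Submodule.mkQ_apply, Submodule.Quotient.mk_eq_zero, hmem]
    have hrK : (r : K) ≠ 0 := by
      intro h0; exact hr0 (Subtype.ext h0)
    have h2 := W.smul_mem ((r : K)⁻¹) h1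
    convert h2 using 1
    ext μ
    simp [hrK]
  have hfree : Module.Free B Q := Module.free_of_flat_of_isLocalRing
  obtain ⟨s, hs⟩ := Module.projective_lifting_property (WB.mkQ) (LinearMap.id : Q →ₗ[B] Q)
    (Submodule.mkQ_surjective WB)
  have hsx : ∀ x, WB.mkQ (s x) = x := fun x => by
    have := congrArg (fun f => f x) hs
    exact this
  let ρ : (ι → B) →ₗ[B] WB := LinearMap.codRestrict WB (LinearMap.id - s ∘ₗ WB.mkQ) (by
    intro v
    have : WB.mkQ (v - s (WB.mkQ v)) = 0 := by
      rw [map_sub, hsx, sub_self]
    rw [Submodule.mkQ_apply, Submodule.Quotient.mk_eq_zero] at this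
    exact this)
  have hρ : ∀ v : WB, ρ v = v := by
    intro v
    apply Subtype.ext
    have : WB.mkQ (v : ι → B) = 0 := by
      rw [Submodule.mkQ_apply, Submodule.Quotient.mk_eq_zero]; exact v.2
    simp [ρ, this]
  have hρs : Function.Surjective ρ := fun v => ⟨v, hρ v⟩
  have hfinW : Module.Finite B WB := Module.Finite.of_surjective ρ hρs
  have hflatW : Module.Flat B WB := by
    have : Module.Projective B WB := Module.Projective.of_split WB.subtype ρ (by
      ext v : 1
      exact hρ v)
    infer_instance
  have hfreeW : Module.Free B WB := Module.free_of_flat_of_isLocalRing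
  let bas := Module.finBasis B WB
  refine ⟨Module.finrank B WB, fun j => (bas j : ι → B), fun i μ => bas.coord i (ρ (Pi.single μ 1)),
    ?_, ?_, ?_⟩
  · intro i j
    have h1 : ((bas j : WB) : ι → B) = ∑ μ, ((bas j : WB) : ι → B) μ • (Pi.single μ (1 : B) : ι → B) := by
      ext ν
      simp [Finset.sum_apply, Pi.single_apply]
    have h2 : bas.coord i (ρ ((bas j : WB) : ι → B)) = if i = j then 1 else 0 := by
      rw [hρ, Module.Basis.coord_apply, Module.Basis.repr_self, Finsupp.single_apply]
      simp only [eq_comm]
    rw [← h2]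
    conv_rhs => rw [h1]
    simp only [map_sum, map_smul, smul_eq_mul]
    refine Finset.sum_congr rfl fun μ _ => ?_
    rw [mul_comm]
  · intro j
    exact (hmem _).mp (bas j).2
  · intro v hv
    have h1 : (⟨v, hv⟩ : WB) ∈ Submodule.span B (Set.range bas) := by
      rw [bas.span_eq]; trivial
    have h2 := Submodule.mem_map_of_mem (f := WB.subtype) h1
    rw [Submodule.map_span] at h2
    rw [← Set.range_comp] at h2
    exact h2

section tp

variable (X : Type*) [Finite X]

/-- exponents of degree `t` -/
abbrev It (t : ℕ) := {μ : X →₀ ℕ // μ.degree = t}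

noncomputable instance (t : ℕ) : Fintype (It X t) :=
  (Finsupp.finite_of_degree_eq (σ := X) t).fintype

variable (R : Type*) [CommRing R]

/-- forms of degree `t` from coefficient vectors -/
noncomputable def tp (t : ℕ) : (It X t → R) →ₗ[R] MvPolynomial X R :=
  ∑ μ : It X t, (MvPolynomial.monomial (R := R) μ.1).comp (LinearMap.proj μ)

variable {X R}

lemma coeff_tp (t : ℕ) (v : It X t → R) (ν : X →₀ ℕ) :
    coeff ν (tp X R t v) = if h : ν.degree = t then v ⟨ν, h⟩ else 0 := by
  classical
  simp only [tp, LinearMap.sum_apply, LinearMap.comp_apply, LinearMap.proj_apply, coeff_sum,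
    coeff_monomial]
  split_ifs with h
  · rw [Finset.sum_eq_single ⟨ν, h⟩]
    · simp
    · intro b _ hb
      rw [if_neg]
      intro hc
      exact hb (Subtype.ext hc)
    · intro h'; exact absurd (Finset.mem_univ _) h'
  · apply Finset.sum_eq_zero
    intro b _
    rw [if_neg]
    intro hc
    exact h (hc ▸ b.2)

lemma tp_hom (t : ℕ) (v : It X t → R) : (tp X R t v).IsHomogeneous t := by
  have : (tp X R t v) ∈ homogeneousSubmodule X R t := by
    simp only [tp, LinearMap.sum_apply, LinearMap.comp_apply, LinearMap.proj_apply]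
    refine Submodule.sum_mem _ fun μ _ => ?_
    exact isHomogeneous_monomial _ μ.2
  exact this

lemma tp_coeff (t : ℕ) {p : MvPolynomial X R} (hp : p.IsHomogeneous t) :
    tp X R t (fun μ => coeff μ.1 p) = p := by
  ext ν
  rw [coeff_tp]
  split_ifs with h
  · rfl
  · exact (hp.coeff_eq_zero h).symm

lemma tp_inj (t : ℕ) : Function.Injective (tp X R t) := by
  intro v w h
  ext μ
  have := congrArg (coeff μ.1) h
  rwa [coeff_tp, coeff_tp, dif_pos μ.2, dif_pos μ.2] at this

lemma map_tp {S : Type*} [CommRing S] (f : R →+* S) (t : ℕ) (v : It X t → R) :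
    MvPolynomial.map f (tp X R t v) = tp X S t (fun μ => f (v μ)) := by
  ext ν
  rw [coeff_map, coeff_tp, coeff_tp]
  split_ifs <;> simp

omit [Finite X] in
lemma map_hc {S : Type*} [CommRing S] (f : R →+* S) (t : ℕ) (p : MvPolynomial X R) :
    MvPolynomial.map f (homogeneousComponent t p)
      = homogeneousComponent t (MvPolynomial.map f p) := by
  classical
  ext ν
  rw [coeff_map, coeff_homogeneousComponent, coeff_homogeneousComponent, coeff_map]
  split_ifs <;> simp

end tp

section finrank

variable {X : Type*} [Finite X] {κ : Type*} [Field κ]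

lemma finrank_KJ (J : Ideal (MvPolynomial X κ)) (t : ℕ) :
    Module.finrank κ (KJ J t)
      = Module.finrank κ (Submodule.comap (tp X κ t) (J.restrictScalars κ)) := by
  have e : KJ J t = Submodule.map (tp X κ t) (Submodule.comap (tp X κ t) (J.restrictScalars κ)) := by
    apply le_antisymm
    · rintro p ⟨hp1, hp2⟩
      have hp1' : p.IsHomogeneous t := hp1
      refine ⟨fun μ => coeff μ.1 p, ?_, tp_coeff t hp1'⟩
      have : tp X κ t (fun μ => coeff μ.1 p) ∈ J.restrictScalars κ := by
        rw [tp_coeff t hp1']; exact hp2
      exact this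
    · rintro _ ⟨v, hv, rfl⟩
      exact ⟨tp_hom t v, hv⟩
  rw [e]
  exact (Submodule.equivMapOfInjective _ (tp_inj t) _).finrank_eq.symm

lemma finrank_H (t : ℕ) :
    Module.finrank κ (homogeneousSubmodule X κ t) = Fintype.card (It X t) := by
  have h := finrank_KJ (⊤ : Ideal (MvPolynomial X κ)) t
  have e : KJ (⊤ : Ideal (MvPolynomial X κ)) t = homogeneousSubmodule X κ t := by
    ext p; simp [KJ]
  have e2 : Submodule.comap (tp X κ t) ((⊤ : Ideal (MvPolynomial X κ)).restrictScalars κ) = ⊤ := by
    ext p; simp
  rw [e, e2] at h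
  rw [h]
  simp

end finrank

/-- span of a family with a dual family has the right dimension -/
lemma finrank_span_dual {κ : Type*} [Field κ] {ι : Type*} [Fintype ι] {w : ℕ}
    (b L : Fin w → ι → κ) (h : ∀ i j, ∑ μ, L i μ * b j μ = if i = j then 1 else 0) :
    Module.finrank κ (Submodule.span κ (Set.range b)) = w := by
  have hli : LinearIndependent κ b := by
    rw [Fintype.linearIndependent_iff]
    intro g hg i
    have h1 : ∑ μ, L i μ * (∑ j, g j • b j) μ = 0 := by
      rw [hg]; simp
    have h2 : ∑ μ, L i μ * (∑ j, g j • b j) μ = ∑ j, g j * (∑ μ, L i μ * b j μ) := by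
      simp only [Finset.sum_apply, Pi.smul_apply, smul_eq_mul, Finset.mul_sum]
      rw [Finset.sum_comm]
      refine Finset.sum_congr rfl fun j _ => Finset.sum_congr rfl fun μ _ => by ring
    rw [h2] at h1
    simpa [h] using h1
  rw [finrank_span_eq_card hli, Fintype.card_fin]

section spec

variable {X : Type*} [Finite X] {K : Type*} [Field K]

/-- reduction of an ideal -/
noncomputable def red (B : ValuationSubring K) (I : Ideal (MvPolynomial X K)) :
    Ideal (MvPolynomial X (IsLocalRing.ResidueField B)) :=
  (I.comap (MvPolynomial.map B.subtype)).map (MvPolynomial.map (IsLocalRing.residue B))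

omit [Finite X] in
lemma mem_red (B : ValuationSubring K) (I : Ideal (MvPolynomial X K))
    (p : MvPolynomial X (IsLocalRing.ResidueField B)) :
    p ∈ red B I ↔ ∃ P : MvPolynomial X B, MvPolynomial.map B.subtype P ∈ I ∧
      MvPolynomial.map (IsLocalRing.residue B) P = p := by
  unfold red
  rw [Ideal.mem_map_iff_of_surjective _ (MvPolynomial.map_surjective _
    (IsLocalRing.residue_surjective))]
  rfl

lemma red_hom (B : ValuationSubring K) {I : Ideal (MvPolynomial X K)} (hI : IsHom I) :
    IsHom (red B I) := by
  intro p hp k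
  rw [mem_red] at hp ⊢
  obtain ⟨P, hP, rfl⟩ := hp
  refine ⟨homogeneousComponent k P, ?_, map_hc _ _ _⟩
  rw [map_hc]
  exact hI _ hP _

theorem red_hf (B : ValuationSubring K) {I : Ideal (MvPolynomial X K)} (hI : IsHom I) (t : ℕ) :
    hf (red B I) t = hf I t := by
  classical
  have A := hf_add I t
  have A' := hf_add (red B I) t
  rw [finrank_H, finrank_KJ] at A A'
  set W := Submodule.comap (tp X K t) (I.restrictScalars K) with hW
  set W' := Submodule.comap (tp X (IsLocalRing.ResidueField B) t) ((red B I).restrictScalars
    (IsLocalRing.ResidueField B)) with hW'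
  obtain ⟨w, b, L, hLb, hbW, hsp⟩ := lattice_basis B W
  have key : ∀ v : It X t → B, (fun μ => ((v μ : B) : K)) ∈ W ↔
      MvPolynomial.map B.subtype (tp X B t v) ∈ I := by
    intro v
    rw [map_tp]
    exact Iff.rfl
  have e1 : W = Submodule.span K (Set.range (fun j => fun μ => ((b j μ : B) : K))) := by
    apply le_antisymm
    · intro v hv
      -- scale into the lattice
      have hc : ∃ c : B, c ≠ 0 ∧ ∀ μ, (c : K) * v μ ∈ B := by
        obtain ⟨c, hc⟩ := IsLocalization.exist_integer_multiples_of_finite (nonZeroDivisors B) v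
        refine ⟨c, nonZeroDivisors.ne_zero c.2, fun μ => ?_⟩
        obtain ⟨y, hy⟩ := hc μ
        have : (c : B) • v μ = ((c : B) : K) * v μ := rfl
        rw [← this, ← hy]
        exact y.2
      obtain ⟨c, hc0, hc⟩ := hc
      let u : It X t → B := fun μ => ⟨(c : K) * v μ, hc μ⟩
      have hu : (fun μ => ((u μ : B) : K)) ∈ W := W.smul_mem (c : K) hv
      have h1 := hsp u hu
      have h2 : (fun μ => ((u μ : B) : K)) ∈
          Submodule.span K (Set.range (fun j => fun μ => ((b j μ : B) : K))) := by
        refine Submodule.span_induction (p := fun x _ => (fun μ => ((x μ : B) : K)) ∈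
          Submodule.span K (Set.range (fun j => fun μ => ((b j μ : B) : K)))) ?_ ?_ ?_ ?_ h1
        · rintro _ ⟨j, rfl⟩
          exact Submodule.subset_span ⟨j, rfl⟩
        · exact Submodule.zero_mem _
        · intro x y _ _ hx hy
          exact Submodule.add_mem _ hx hy
        · intro a x _ hx
          exact Submodule.smul_mem _ (a : K) hx
      have hcK : (c : K) ≠ 0 := fun h0 => hc0 (Subtype.ext h0)
      have h3 := Submodule.smul_mem _ ((c : K)⁻¹) h2
      convert h3 using 1
      ext μ
      simp [u, hcK]
    · rw [Submodule.span_le]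
      rintro _ ⟨j, rfl⟩
      exact hbW j
  have e2 : W' = Submodule.span (IsLocalRing.ResidueField B)
      (Set.range (fun j => fun μ => IsLocalRing.residue B (b j μ))) := by
    apply le_antisymm
    · intro v hv
      have hv' : tp X (IsLocalRing.ResidueField B) t v ∈ red B I := hv
      rw [mem_red] at hv'
      obtain ⟨P, hP, hPv⟩ := hv'
      have hP' : MvPolynomial.map B.subtype (homogeneousComponent t P) ∈ I := by
        rw [map_hc]; exact hI _ hP _
      have hPv' : MvPolynomial.map (IsLocalRing.residue B) (homogeneousComponent t P)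
          = tp X (IsLocalRing.ResidueField B) t v := by
        rw [map_hc, hPv, homogeneousComponent_eq_self (tp_hom t v)]
      set u : It X t → B := fun μ => coeff μ.1 (homogeneousComponent t P) with hu
      have hPu : tp X B t u = homogeneousComponent t P :=
        tp_coeff t (homogeneousComponent_isHomogeneous t P)
      rw [← hPu] at hP' hPv'
      have h1 := hsp u ((key u).mpr hP')
      have hvu : v = fun μ => IsLocalRing.residue B (u μ) := by
        rw [map_tp] at hPv'
        exact (tp_inj t hPv').symm
      rw [hvu]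
      refine Submodule.span_induction (p := fun x _ => (fun μ => IsLocalRing.residue B (x μ)) ∈
          Submodule.span (IsLocalRing.ResidueField B)
            (Set.range (fun j => fun μ => IsLocalRing.residue B (b j μ)))) ?_ ?_ ?_ ?_ h1
      · rintro _ ⟨j, rfl⟩
        exact Submodule.subset_span ⟨j, rfl⟩
      · convert Submodule.zero_mem _ using 1
        ext μ; simp
      · intro x y _ _ hx hy
        convert Submodule.add_mem _ hx hy using 1
        ext μ; simp
      · intro a x _ hx
        convert Submodule.smul_mem _ (IsLocalRing.residue B a) hx using 1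
        ext μ; simp
    · rw [Submodule.span_le]
      rintro _ ⟨j, rfl⟩
      show tp X (IsLocalRing.ResidueField B) t _ ∈ red B I
      rw [mem_red]
      exact ⟨tp X B t (b j), (key (b j)).mp (hbW j), map_tp _ _ _⟩
  have f1 : Module.finrank K W = w := by
    rw [e1]
    refine finrank_span_dual _ (fun i μ => ((L i μ : B) : K)) (fun i j => ?_)
    have := congrArg B.subtype (hLb i j)
    rw [map_sum] at this
    simp only [map_mul] at this
    change ∑ μ, B.subtype (L i μ) * B.subtype (b j μ) = _
    rw [this]
    split_ifs <;> simp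
  have f2 : Module.finrank (IsLocalRing.ResidueField B) W' = w := by
    rw [e2]
    refine finrank_span_dual _ (fun i μ => IsLocalRing.residue B (L i μ)) (fun i j => ?_)
    have := congrArg (IsLocalRing.residue B) (hLb i j)
    rw [map_sum] at this
    simp only [map_mul] at this
    rw [this]
    split_ifs <;> simp
  rw [f1] at A
  rw [f2] at A'
  omega

end spec

end Pool.Agent.TH922.KC
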