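import Mathlib
import Pool.Agent.TH922.KC.Spec

set_option autoImplicit false

open MvPolynomial

namespace Pool.Agent.TH922.KC

/-- counting algebraically independent elements -/
theorem card_le_of_alg {Ω : Type*} [Field Ω] [CharZero Ω] {ι κ' : Type*} [Fintype ι] [Fintype κ']
    (x : ι → Ω) (hx : AlgebraicIndependent ℚ x) (y : κ' → Ω)
    (h : ∀ i, IsAlgebraic (Algebra.adjoin ℚ (Set.range y)) (x i)) :
    Fintype.card ι ≤ Fintype.card κ' := by
  classical
  have h1 : (AlgebraicIndependent.matroid ℚ Ω).Indep (Set.range x) := by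
    rw [AlgebraicIndependent.matroid_indep_iff]
    exact hx.to_subtype_range
  have h2 : Set.range x ⊆ (AlgebraicIndependent.matroid ℚ Ω).closure (Set.range y) := by
    rw [AlgebraicIndependent.matroid_closure_eq]
    rintro _ ⟨i, rfl⟩
    exact h i
  have h3 := h1.encard_le_eRk_of_subset h2
  rw [Matroid.eRk_closure_eq] at h3
  have h4 := h3.trans ((AlgebraicIndependent.matroid ℚ Ω).eRk_le_encard (Set.range y))
  have h5 : (Set.range x).encard = Fintype.card ι := by
    rw [← Set.image_univ, hx.injective.encard_image, Set.encard_univ, ENat.card_eq_coe_fintype_card]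
  have h6 : (Set.range y).encard ≤ Fintype.card κ' := by
    rw [← Set.image_univ]
    refine (Set.encard_image_le _ _).trans ?_
    rw [Set.encard_univ, ENat.card_eq_coe_fintype_card]
  rw [h5] at h4
  exact_mod_cast h4.trans h6

lemma isAlg_mono {Ω : Type*} [Field Ω] [CharZero Ω] {s s' : Set Ω} (h : s ⊆ s') {z : Ω}
    (hz : IsAlgebraic (Algebra.adjoin ℚ s) z) : IsAlgebraic (Algebra.adjoin ℚ s') z := by
  have h1 : z ∈ (AlgebraicIndependent.matroid ℚ Ω).closure s := by
    rw [AlgebraicIndependent.matroid_closure_eq]; exact hz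
  have h2 := (AlgebraicIndependent.matroid ℚ Ω).closure_subset_closure h h1
  rw [AlgebraicIndependent.matroid_closure_eq] at h2
  exact h2

/-- the subfield of elements algebraic over `ℚ(s)` -/
def Lf {Ω : Type*} [Field Ω] [CharZero Ω] (s : Set Ω) : Subfield Ω where
  carrier := {z | IsAlgebraic (Algebra.adjoin ℚ s) z}
  mul_mem' := fun ha hb => ha.mul hb
  one_mem' := isAlgebraic_one
  add_mem' := fun ha hb => ha.add hb
  zero_mem' := isAlgebraic_zero
  neg_mem' := fun ha => ha.neg
  inv_mem' := fun _ ha => ha.inv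

lemma mem_Lf {Ω : Type*} [Field Ω] [CharZero Ω] {s : Set Ω} {z : Ω} :
    z ∈ Lf s ↔ IsAlgebraic (Algebra.adjoin ℚ s) z := Iff.rfl

lemma Lf_of_mem {Ω : Type*} [Field Ω] [CharZero Ω] {s : Set Ω} {z : Ω} (h : z ∈ s) :
    z ∈ Lf s :=
  isAlgebraic_algebraMap (⟨z, Algebra.subset_adjoin h⟩ : Algebra.adjoin ℚ s)

lemma Lf_of_alg {Ω : Type*} [Field Ω] [CharZero Ω] {s : Set Ω} {z : Ω} (h : IsAlgebraic ℚ z) :
    z ∈ Lf s := by
  have : FaithfulSMul ℚ (Algebra.adjoin ℚ s) := inferInstance
  exact h.extendScalars (FaithfulSMul.algebraMap_injective ℚ (Algebra.adjoin ℚ s))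

/-- monomial evaluation vectors -/
noncomputable def ev {Ω : Type*} [Field Ω] {X : Type*} [Fintype X] (q : ℕ) (p : X → Ω) :
    It X q → Ω := fun μ => ∏ j, p j ^ (μ.1 j)

lemma eval_eq_ev {Ω : Type*} [Field Ω] {X : Type*} [Fintype X] (q : ℕ) (p : X → Ω)
    (W : MvPolynomial X Ω) (hW : W.IsHomogeneous q) :
    MvPolynomial.eval p W = ∑ μ : It X q, coeff μ.1 W * ev q p μ := by
  conv_lhs => rw [← tp_coeff q hW]
  simp only [tp, LinearMap.sum_apply, LinearMap.comp_apply, LinearMap.proj_apply, map_sum]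
  refine Finset.sum_congr rfl fun μ _ => ?_
  rw [eval_monomial, ev]
  congr 1
  rw [Finsupp.prod_fintype]
  intro i
  exact pow_zero _

/-- evaluation vectors at distinct normalised points are linearly independent -/
lemma ev_linInd {Ω : Type*} [Field Ω] {X : Type*} [Fintype X] {q N : ℕ} (hN : N ≤ q + 1)
    (p : Fin N → X → Ω) (j0 : X) (hp0 : ∀ a, p a j0 = 1) (hinj : Function.Injective p) :
    LinearIndependent Ω (fun a => ev q (p a)) := by
  classical
  rw [Fintype.linearIndependent_iff]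
  intro g hg a
  have hsep : ∀ b, b ≠ a → ∃ j, p a j ≠ p b j := by
    intro b hb
    by_contra hcon
    push Not at hcon
    exact hb (hinj (funext fun j => (hcon j).symm))
  have : Nonempty X := ⟨j0⟩
  choose! jj hjj using hsep
  let ℓ : Fin N → MvPolynomial X Ω := fun b =>
    MvPolynomial.X (jj b) - C (p b (jj b)) * MvPolynomial.X j0
  let W : MvPolynomial X Ω := MvPolynomial.X j0 ^ (q - (N - 1)) * ∏ b ∈ Finset.univ.erase a, ℓ b
  have hℓ : ∀ b, (ℓ b).IsHomogeneous 1 := fun b =>
    (isHomogeneous_X Ω _).sub (isHomogeneous_C_mul_X _ _)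
  have hNpos : 0 < N := lt_of_le_of_lt (Nat.zero_le _) a.2
  have hW : W.IsHomogeneous q := by
    have h1 := (isHomogeneous_X_pow (R := Ω) j0 (q - (N - 1))).mul
      (IsHomogeneous.prod (Finset.univ.erase a) ℓ (fun _ => 1) (fun b _ => hℓ b))
    have h2 : q - (N - 1) + ∑ b ∈ Finset.univ.erase a, 1 = q := by
      rw [Finset.sum_const, Finset.card_erase_of_mem (Finset.mem_univ _), Finset.card_univ,
        Fintype.card_fin]
      simp
      omega
    rw [h2] at h1
    exact h1
  have hev : ∀ b, MvPolynomial.eval (p b) W = ∏ b' ∈ Finset.univ.erase a,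
      (p b (jj b') - p b' (jj b')) := by
    intro b
    simp [W, ℓ, map_prod, hp0]
  have h0 : ∑ b, g b * MvPolynomial.eval (p b) W = 0 := by
    have h1 : ∑ μ : It X q, coeff μ.1 W * (∑ b, g b • ev q (p b)) μ = 0 := by
      rw [hg]; simp
    rw [← h1]
    simp only [Finset.sum_apply, Pi.smul_apply, smul_eq_mul, Finset.mul_sum]
    rw [Finset.sum_comm]
    refine Finset.sum_congr rfl fun b _ => ?_
    rw [eval_eq_ev q (p b) W hW, Finset.mul_sum]
    refine Finset.sum_congr rfl fun μ _ => by ring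
  rw [Finset.sum_eq_single a] at h0
  · rcases mul_eq_zero.mp h0 with h | h
    · exact h
    · exfalso
      rw [hev, Finset.prod_eq_zero_iff] at h
      obtain ⟨b, hb, hb'⟩ := h
      exact hjj b (Finset.ne_of_mem_erase hb) (sub_eq_zero.mp hb')
  · intro b _ hb
    rw [hev, Finset.prod_eq_zero (Finset.mem_erase.mpr ⟨hb, Finset.mem_univ b⟩), mul_zero]
    exact sub_self _
  · intro h; exact absurd (Finset.mem_univ a) h

/-- **Transcendence count.** -/
theorem trans_count {κ Ω : Type*} [Field κ] [Field Ω] [CharZero κ] [CharZero Ω] [Algebra κ Ω]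
    {n q N : ℕ} (hN1 : 1 ≤ N) (hN : N ≤ q + 1) {β' : Type*} [Fintype β']
    (c : β' → It (Fin (n + 1)) q → κ)
    (hc : AlgebraicIndependent ℚ (fun x : β' × It (Fin (n + 1)) q => c x.1 x.2))
    (ζ : β' → It (Fin (n + 1)) q → κ)
    (hζ : ∀ i μ, ζ i μ ≠ 0 ∧ IsAlgebraic ℚ (ζ i μ))
    (v : Fin (n + 1) → Ω) (j0 : Fin (n + 1)) (hv : v j0 = 1)
    (p : Fin N → Fin (n + 1) → Ω)
    (hp : ∀ a j, ∃ u : Ω, IsAlgebraic ℚ u ∧ p a j = u * v j)
    (hp0 : ∀ a, p a j0 = 1) (hinj : Function.Injective p)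
    (heq : ∀ i a b, ∑ μ, algebraMap κ Ω (ζ i μ * c i μ) * ev q (p a) μ
      = ∑ μ, algebraMap κ Ω (ζ i μ * c i μ) * ev q (p b) μ)
    (htr : ∃ j, Transcendental κ (v j)) :
    Fintype.card β' * (N - 1) < n := by
  classical
  set s0 : Set Ω := Set.range (fun j : {j // j ≠ j0} => v j) with hs0
  let L := Lf s0
  have hvL : ∀ j, v j ∈ L := by
    intro j
    by_cases hj : j = j0
    · rw [hj, hv]; exact L.one_mem
    · exact Lf_of_mem ⟨⟨j, hj⟩, rfl⟩
  have hpL : ∀ a j, p a j ∈ L := by
    intro a j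
    obtain ⟨u, hu, hpu⟩ := hp a j
    rw [hpu]
    exact L.mul_mem (Lf_of_alg hu) (hvL j)
  have hevL : ∀ a μ, ev q (p a) μ ∈ L := fun a μ =>
    L.prod_mem fun j _ => L.pow_mem (hpL a j) _
  let a0 : Fin N := ⟨0, hN1⟩
  let D : {a : Fin N // a ≠ a0} → It (Fin (n + 1)) q → L := fun a μ =>
    ⟨ev q (p a) μ, hevL a μ⟩ - ⟨ev q (p a0) μ, hevL a0 μ⟩
  have hDli : LinearIndependent L D := by
    rw [Fintype.linearIndependent_iff]
    intro g hg a
    have hind := ev_linInd hN p j0 hp0 hinj
    rw [Fintype.linearIndependent_iff] at hind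
    let g' : Fin N → Ω := fun b => if h : b ≠ a0 then (g ⟨b, h⟩ : Ω) else - ∑ b', (g b' : Ω)
    have h1 : ∑ b, g' b • ev q (p b) = 0 := by
      have h2 : ∑ b, g' b • ev q (p b) = g' a0 • ev q (p a0)
          + ∑ b : {a : Fin N // a ≠ a0}, (g b : Ω) • ev q (p b) := by
        rw [← Finset.add_sum_erase _ _ (Finset.mem_univ a0)]
        congr 1
        rw [Finset.sum_subtype (p := fun b => b ≠ a0) (Finset.univ.erase a0) (by simp)]
        refine Finset.sum_congr rfl fun b _ => ?_
        simp only [g']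
        rw [dif_pos b.2]
      rw [h2]
      ext μ
      have h3 := congrArg (fun f => ((f μ : L) : Ω)) hg
      simp only [Finset.sum_apply, Pi.smul_apply, smul_eq_mul, D, Pi.zero_apply] at h3
      push_cast at h3
      simp only [g', Pi.add_apply, Pi.smul_apply, smul_eq_mul, Finset.sum_apply, ne_eq,
        not_true_eq_false, dite_false, Pi.zero_apply]
      rw [← h3, neg_mul, Finset.sum_mul]
      simp only [mul_sub]
      rw [Finset.sum_sub_distrib]
      ring
    have h4 := hind g' h1 a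
    simp only [g'] at h4
    rw [dif_pos a.2] at h4
    exact Subtype.ext h4
  let Φ : β' → (It (Fin (n + 1)) q → L) →ₗ[L] Ω := fun i =>
    Fintype.linearCombination L (fun μ => algebraMap κ Ω (ζ i μ * c i μ))
  have hΦD : ∀ i a, Φ i (D a) = 0 := by
    intro i a
    simp only [Φ, Fintype.linearCombination_apply, D]
    have : ∀ μ, ((⟨ev q (p a) μ, hevL a μ⟩ - ⟨ev q (p a0) μ, hevL a0 μ⟩ : L) •
        algebraMap κ Ω (ζ i μ * c i μ)) = algebraMap κ Ω (ζ i μ * c i μ) * ev q (p a) μ
        - algebraMap κ Ω (ζ i μ * c i μ) * ev q (p a0) μ := by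
      intro μ
      rw [Subfield.smul_def, smul_eq_mul]
      push_cast
      ring
    rw [Finset.sum_congr rfl (fun μ _ => this μ), Finset.sum_sub_distrib, heq i a a0, sub_self]
  have hker : ∀ i, N - 1 ≤ Module.finrank L (LinearMap.ker (Φ i)) := by
    intro i
    have h1 : LinearIndependent L (fun a => (⟨D a, hΦD i a⟩ : LinearMap.ker (Φ i))) := by
      apply LinearIndependent.of_comp (LinearMap.ker (Φ i)).subtype
      exact hDli
    have h2 := h1.fintype_card_le_finrank
    rwa [Fintype.card_subtype_compl, Fintype.card_fin, Fintype.card_unique] at h2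
  set M := Fintype.card (It (Fin (n + 1)) q) with hM
  have hran : ∀ i, Module.finrank L (LinearMap.range (Φ i)) + (N - 1) ≤ M := by
    intro i
    have h1 := LinearMap.finrank_range_add_finrank_ker (Φ i)
    rw [Module.finrank_fintype_fun_eq_card] at h1
    have := hker i
    omega
  let f : β' → ℕ := fun i => Module.finrank L (LinearMap.range (Φ i))
  let γ : (Σ i : β', Fin (f i)) → Ω := fun x =>
    ((Module.finBasis L (LinearMap.range (Φ x.1)) x.2 : LinearMap.range (Φ x.1)) : Ω)
  let y : {j // j ≠ j0} ⊕ (Σ i : β', Fin (f i)) → Ω := Sum.elim (fun j => v j) γ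
  have hsub : s0 ⊆ Set.range y := by
    rintro _ ⟨j, rfl⟩
    exact ⟨Sum.inl j, rfl⟩
  have hLE : ∀ z, z ∈ L → z ∈ Lf (Set.range y) := fun z hz => isAlg_mono hsub hz
  have hc' : ∀ i μ, algebraMap κ Ω (ζ i μ * c i μ) ∈ Lf (Set.range y) := by
    intro i μ
    have h1 : algebraMap κ Ω (ζ i μ * c i μ) ∈ LinearMap.range (Φ i) := by
      refine ⟨Pi.single μ 1, ?_⟩
      simp [Φ, Fintype.linearCombination_apply, Pi.single_apply]
    have h2 := (Module.finBasis L (LinearMap.range (Φ i))).sum_repr ⟨_, h1⟩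
    have h3 := congrArg (fun w : LinearMap.range (Φ i) => (w : Ω)) h2
    simp only at h3
    rw [← h3]
    rw [Submodule.coe_sum]
    refine (Lf (Set.range y)).sum_mem fun k _ => ?_
    rw [Submodule.coe_smul, Subfield.smul_def, smul_eq_mul]
    refine (Lf (Set.range y)).mul_mem (hLE _ (SetLike.coe_mem _)) ?_
    exact Lf_of_mem ⟨Sum.inr ⟨i, k⟩, rfl⟩
  have hcc : ∀ i μ, algebraMap κ Ω (c i μ) ∈ Lf (Set.range y) := by
    intro i μ
    have hne : algebraMap κ Ω (ζ i μ) ≠ 0 := by
      rw [Ne, map_eq_zero]; exact (hζ i μ).1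
    have h1 : algebraMap κ Ω (c i μ) = (algebraMap κ Ω (ζ i μ))⁻¹ *
        algebraMap κ Ω (ζ i μ * c i μ) := by
      rw [map_mul, ← mul_assoc, inv_mul_cancel₀ hne, one_mul]
    rw [h1]
    refine (Lf (Set.range y)).mul_mem ((Lf (Set.range y)).inv_mem (Lf_of_alg ?_)) (hc' i μ)
    exact (hζ i μ).2.algebraMap
  obtain ⟨js, hjs⟩ := htr
  -- the independent family
  let x : Option (β' × It (Fin (n + 1)) q) → Ω := fun o =>
    o.elim (v js) (fun z => algebraMap κ Ω (c z.1 z.2))
  have hx : AlgebraicIndependent ℚ x := by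
    have h1 : AlgebraicIndependent ℚ (fun z : β' × It (Fin (n + 1)) q =>
        algebraMap κ Ω (c z.1 z.2)) := by
      have := hc.map' (f := (Algebra.ofId κ Ω).restrictScalars ℚ) (algebraMap κ Ω).injective
      exact this
    refine (h1.option_iff_transcendental (v js)).mpr ?_
    intro hal
    apply hjs
    -- adjoin ⊆ image of κ
    have h2 : Algebra.adjoin ℚ (Set.range (fun z : β' × It (Fin (n + 1)) q =>
        algebraMap κ Ω (c z.1 z.2))) ≤ ((Algebra.ofId κ Ω).restrictScalars ℚ).range := by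
      rw [Algebra.adjoin_le_iff]
      rintro _ ⟨z, rfl⟩
      exact ⟨c z.1 z.2, rfl⟩
    obtain ⟨P, hP0, hP⟩ := hal
    let A0 := Algebra.adjoin ℚ (Set.range (fun z : β' × It (Fin (n + 1)) q =>
        algebraMap κ Ω (c z.1 z.2)))
    let e : κ ≃ₐ[ℚ] ((Algebra.ofId κ Ω).restrictScalars ℚ : κ →ₐ[ℚ] Ω).range :=
      AlgEquiv.ofInjective ((Algebra.ofId κ Ω).restrictScalars ℚ) (algebraMap κ Ω).injective
    let ψ : A0 →+* κ := (e.symm.toAlgHom.comp (Subalgebra.inclusion h2)).toRingHom
    have hψ : (algebraMap κ Ω).comp ψ = algebraMap A0 Ω := by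
      ext z
      have : e (ψ z) = Subalgebra.inclusion h2 z := by
        simp [ψ]
      have h3 := congrArg Subtype.val this
      exact h3
    have hψinj : Function.Injective ψ := by
      intro z w hzw
      have := congrArg (algebraMap κ Ω) hzw
      rw [← RingHom.comp_apply, ← RingHom.comp_apply, hψ] at this
      exact Subtype.ext this
    refine ⟨P.map ψ, ?_, ?_⟩
    · rwa [Ne, Polynomial.map_eq_zero_iff hψinj]
    · rw [Polynomial.aeval_def, Polynomial.eval₂_map, hψ]
      exact hP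
  have hfin := card_le_of_alg x hx y (by
    intro o
    cases o with
    | none => exact hLE _ (hvL js)
    | some z => exact hcc z.1 z.2)
  rw [Fintype.card_option, Fintype.card_prod, Fintype.card_sum, Fintype.card_sigma] at hfin
  simp only [Fintype.card_fin] at hfin
  have hcj : Fintype.card {j : Fin (n + 1) // j ≠ j0} = n := by
    rw [Fintype.card_subtype_compl, Fintype.card_fin, Fintype.card_unique, Nat.add_sub_cancel]
  rw [hcj, ← hM] at hfin
  have hsum : ∑ i : β', f i + Fintype.card β' * (N - 1) ≤ Fintype.card β' * M := by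
    have : ∑ i : β', (f i + (N - 1)) ≤ ∑ i : β', M := Finset.sum_le_sum fun i _ => hran i
    rw [Finset.sum_add_distrib, Finset.sum_const, Finset.sum_const, Finset.card_univ,
      smul_eq_mul, smul_eq_mul] at this
    exact this
  omega

end Pool.Agent.TH922.KC
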