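import Mathlib
import Pool.Agent.TH922.KC.Kol1
import Pool.Agent.TH922.KC.Trans

set_option autoImplicit false
set_option linter.unusedSectionVars false

open MvPolynomial

namespace Pool.Agent.TH922.KC

/-- twisting the roots block by block -/
lemma PtJ_twist {Q n J : ℕ} (hQ : 2 ≤ Q) {β : Type} {bi : ℕ → β} {Ω : Type} [Field Ω]
    {x : Fin (n + 1) ⊕ β → Ω} {yy : ℕ → Ω} (h : PtJ Q n J bi x yy) (o : Ω) (ho : o ^ Q = 1)
    (lw : ℕ → ℕ) : PtJ Q n J bi x (fun m => o ^ lw (bo J m) * yy m) := by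
  have h1 : ∀ a : ℕ, (o ^ a) ^ Q = 1 := fun a => by rw [← pow_mul, mul_comm, pow_mul, ho, one_pow]
  refine ⟨?_, ?_, ?_⟩
  · intro m hm
    rw [mul_pow, h1, one_mul, h.hy m hm]
  · intro m hm
    rw [h.h0 m hm, mul_zero]
  · intro j hj
    rw [h.hz j hj, bo_even hj, bo_odd hj, mul_pow]
    have h2 : o ^ lw j * (o ^ lw j) ^ (Q - 1) = 1 := by
      rw [← pow_succ', Nat.sub_add_cancel (by omega), h1]
    linear_combination (-(yy (2 * j) * yy (2 * j + 1) ^ (Q - 1))) * h2

lemma twist_prod {Ω : Type} [Field Ω] {n J u : ℕ} (hn : n + 1 = 2 * J + u) {Bt : Type}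
    [Fintype Bt] [DecidableEq Bt] {Q : ℕ} (hb : Bt → ℕ) (hbi : Function.Injective hb)
    (hblt : ∀ b, hb b < J + u) (o : Ω) (l : Bt → Fin Q) (yy : ℕ → Ω) :
    ∃ lw : ℕ → ℕ, ∀ A : ℕ → ℕ, ∏ m ∈ Finset.range (n + 1), (o ^ lw (bo J m) * yy m) ^ A m
      = o ^ (∑ b, (l b : ℕ) * bd J A (hb b)) * ∏ m ∈ Finset.range (n + 1), yy m ^ A m := by
  classical
  let lw : ℕ → ℕ := fun b' => if h : ∃ b, hb b = b' then (l h.choose : ℕ) else 0
  have hlw : ∀ b, lw (hb b) = l b := by
    intro b
    have h : ∃ b1, hb b1 = hb b := ⟨b, rfl⟩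
    simp only [lw, dif_pos h]
    rw [hbi h.choose_spec]
  refine ⟨lw, fun A => ?_⟩
  simp only [mul_pow]
  rw [Finset.prod_mul_distrib]
  congr 1
  simp only [← pow_mul]
  rw [Finset.prod_pow_eq_pow_sum]
  congr 1
  rw [hn, ← sum_bd_mul]
  symm
  have h1 : ∑ b, (l b : ℕ) * bd J A (hb b) = ∑ b' ∈ Finset.univ.image hb, lw b' * bd J A b' := by
    rw [Finset.sum_image (fun _ _ _ _ h => hbi h)]
    exact Finset.sum_congr rfl fun b _ => by rw [hlw]
  rw [h1]
  apply Finset.sum_subset
  · intro b' hb'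
    rw [Finset.mem_image] at hb'
    obtain ⟨b, -, rfl⟩ := hb'
    exact Finset.mem_range.mpr (hblt b)
  · intro b' _ hb'
    have h2 : ¬ ∃ b, hb b = b' := by
      rintro ⟨b, rfl⟩
      exact hb' (Finset.mem_image_of_mem _ (Finset.mem_univ b))
    simp only [lw, dif_neg h2, zero_mul]

/-- evaluation vectors for monomials whose exponents at the places `T` are `0` or large -/
lemma ev_linInd2 {Ω : Type*} [Field Ω] {X ι : Type*} [Fintype X] [Fintype ι] {D a0 N : ℕ}
    (mu : ι → X → ℕ) (T : Finset X) (v : X → Ω) (hv : ∀ t ∈ T, v t ≠ 0)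
    (hall : ∀ ν : X → ℕ, ∑ x, ν x = D → (∀ x, v x = 0 → ν x = 0) → (∀ t ∈ T, a0 ≤ ν t) →
      ∃ o, mu o = ν)
    (hD : N + T.card * a0 ≤ D + 1) (p : Fin N → X → Ω) (j0 : X) (hp0 : ∀ a, p a j0 = 1)
    (hinj : Function.Injective p) (hpv : ∀ a x, p a x = 0 ↔ v x = 0) :
    LinearIndependent Ω (fun a => fun o : ι => ∏ x, p a x ^ mu o x) := by
  classical
  rw [Fintype.linearIndependent_iff]
  intro g hg a
  have hle : T.card * a0 ≤ D := by
    have : 0 < N := lt_of_le_of_lt (Nat.zero_le _) a.2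
    omega
  let q' := D - T.card * a0
  have hN : N ≤ q' + 1 := by omega
  let h : Fin N → Ω := fun b => g b * ∏ t ∈ T, p b t ^ a0
  have hind := ev_linInd hN p j0 hp0 hinj
  rw [Fintype.linearIndependent_iff] at hind
  have h0 : ∑ b, h b • ev q' (p b) = 0 := by
    ext ν
    simp only [Finset.sum_apply, Pi.smul_apply, smul_eq_mul, Pi.zero_apply, ev]
    by_cases hsup : ∀ x, v x = 0 → ν.1 x = 0
    · obtain ⟨o, ho⟩ := hall (fun x => ν.1 x + if x ∈ T then a0 else 0)
        (by
          rw [Finset.sum_add_distrib, Finset.sum_ite_mem, Finset.univ_inter, Finset.sum_const,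
            smul_eq_mul]
          have h1 := ν.2
          rw [Finsupp.degree_eq_sum] at h1
          rw [h1]
          exact Nat.sub_add_cancel hle)
        (by
          intro x hx
          rw [hsup x hx, if_neg (fun hxT => hv x hxT hx)])
        (by
          intro t ht
          rw [if_pos ht]
          exact Nat.le_add_left _ _)
      have h1 := congrFun hg o
      simp only [Finset.sum_apply, Pi.smul_apply, smul_eq_mul, Pi.zero_apply, ho] at h1
      rw [← h1]
      refine Finset.sum_congr rfl fun b _ => ?_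
      simp only [h, pow_add]
      rw [Finset.prod_mul_distrib]
      have h2 : ∏ x, p b x ^ (if x ∈ T then a0 else 0) = ∏ t ∈ T, p b t ^ a0 := by
        rw [← Finset.prod_subset (Finset.subset_univ T)]
        · exact Finset.prod_congr rfl fun t ht => by rw [if_pos ht]
        · intro x _ hx
          rw [if_neg hx, pow_zero]
      rw [h2]
      ring
    · push Not at hsup
      obtain ⟨x, hx1, hx2⟩ := hsup
      refine Finset.sum_eq_zero fun b _ => ?_
      rw [Finset.prod_eq_zero (Finset.mem_univ x), mul_zero]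
      rw [(hpv b x).mpr hx1, zero_pow hx2]
  have h1 := hind h h0 a
  refine (mul_eq_zero.mp h1).resolve_right ?_
  refine Finset.prod_ne_zero_iff.mpr fun t ht => pow_ne_zero _ ?_
  rw [Ne, hpv]
  exact hv t ht

/-- **Transcendence count**, general exponents. -/
theorem trans_count2 {κ Ω : Type*} [Field κ] [Field Ω] [CharZero κ] [CharZero Ω] [Algebra κ Ω]
    {N : ℕ} (hN1 : 1 ≤ N) {ι X : Type*} [Fintype ι] [Fintype X]
    (mu : ι → X → ℕ) (c : ι → κ) (hc : AlgebraicIndependent ℚ c)
    (v : X → Ω) (j0 : X) (hv : v j0 = 1)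
    (p : Fin N → X → Ω)
    (hp : ∀ a j, ∃ u : Ω, IsAlgebraic ℚ u ∧ p a j = u * v j)
    (hind : LinearIndependent Ω (fun a => fun o : ι => ∏ x, p a x ^ mu o x))
    (heq : ∀ a b, ∑ o, algebraMap κ Ω (c o) * ∏ x, p a x ^ mu o x
      = ∑ o, algebraMap κ Ω (c o) * ∏ x, p b x ^ mu o x) :
    N ≤ Fintype.card X ∧ ((∃ j, Transcendental κ (v j)) → N < Fintype.card X) := by
  classical
  set s0 : Set Ω := Set.range (fun j : {j // j ≠ j0} => v j) with hs0
  let L := Lf s0
  have hvL : ∀ j, v j ∈ L := by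
    intro j
    by_cases hj : j = j0
    · rw [hj, hv]; exact L.one_mem
    · exact Lf_of_mem ⟨⟨j, hj⟩, rfl⟩
  have hpL : ∀ a j, p a j ∈ L := by
    intro a j
    obtain ⟨u, hu, hpu⟩ := hp a j
    rw [hpu]
    exact L.mul_mem (Lf_of_alg hu) (hvL j)
  have hevL : ∀ a o, ∏ x, p a x ^ mu o x ∈ L := fun a o =>
    L.prod_mem fun j _ => L.pow_mem (hpL a j) _
  let a0 : Fin N := ⟨0, hN1⟩
  let D : {a : Fin N // a ≠ a0} → ι → L := fun a o =>
    ⟨∏ x, p a x ^ mu o x, hevL a o⟩ - ⟨∏ x, p a0 x ^ mu o x, hevL a0 o⟩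
  have hDli : LinearIndependent L D := by
    rw [Fintype.linearIndependent_iff]
    intro g hg a
    rw [Fintype.linearIndependent_iff] at hind
    let g' : Fin N → Ω := fun b => if h : b ≠ a0 then (g ⟨b, h⟩ : Ω) else - ∑ b', (g b' : Ω)
    have h1 : ∑ b, g' b • (fun o : ι => ∏ x, p b x ^ mu o x) = 0 := by
      have h2 : ∑ b, g' b • (fun o : ι => ∏ x, p b x ^ mu o x)
          = g' a0 • (fun o : ι => ∏ x, p a0 x ^ mu o x)
          + ∑ b : {a : Fin N // a ≠ a0}, (g b : Ω) • (fun o : ι => ∏ x, p b x ^ mu o x) := by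
        rw [← Finset.add_sum_erase _ _ (Finset.mem_univ a0)]
        congr 1
        rw [Finset.sum_subtype (p := fun b => b ≠ a0) (Finset.univ.erase a0) (by simp)]
        refine Finset.sum_congr rfl fun b _ => ?_
        simp only [g']
        rw [dif_pos b.2]
      rw [h2]
      ext o
      have h3 := congrArg (fun f => ((f o : L) : Ω)) hg
      simp only [Finset.sum_apply, Pi.smul_apply, smul_eq_mul, D, Pi.zero_apply] at h3
      push_cast at h3
      simp only [g', Pi.add_apply, Pi.smul_apply, smul_eq_mul, Finset.sum_apply, ne_eq,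
        not_true_eq_false, dite_false, Pi.zero_apply]
      rw [← h3, neg_mul, Finset.sum_mul]
      simp only [mul_sub]
      rw [Finset.sum_sub_distrib]
      ring
    have h4 := hind g' h1 a
    simp only [g'] at h4
    rw [dif_pos a.2] at h4
    exact Subtype.ext h4
  let Φ : (ι → L) →ₗ[L] Ω := Fintype.linearCombination L (fun o => algebraMap κ Ω (c o))
  have hΦD : ∀ a, Φ (D a) = 0 := by
    intro a
    simp only [Φ, Fintype.linearCombination_apply, D]
    have : ∀ o, ((⟨∏ x, p a x ^ mu o x, hevL a o⟩ - ⟨∏ x, p a0 x ^ mu o x, hevL a0 o⟩ : L) •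
        algebraMap κ Ω (c o)) = algebraMap κ Ω (c o) * ∏ x, p a x ^ mu o x
        - algebraMap κ Ω (c o) * ∏ x, p a0 x ^ mu o x := by
      intro o
      rw [Subfield.smul_def, smul_eq_mul]
      push_cast
      ring
    rw [Finset.sum_congr rfl (fun o _ => this o), Finset.sum_sub_distrib, heq a a0, sub_self]
  have hker : N - 1 ≤ Module.finrank L (LinearMap.ker Φ) := by
    have h1 : LinearIndependent L (fun a => (⟨D a, hΦD a⟩ : LinearMap.ker Φ)) := by
      apply LinearIndependent.of_comp (LinearMap.ker Φ).subtype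
      exact hDli
    have h2 := h1.fintype_card_le_finrank
    rwa [Fintype.card_subtype_compl, Fintype.card_fin, Fintype.card_unique] at h2
  have hran : Module.finrank L (LinearMap.range Φ) + (N - 1) ≤ Fintype.card ι := by
    have h1 := LinearMap.finrank_range_add_finrank_ker Φ
    rw [Module.finrank_fintype_fun_eq_card] at h1
    omega
  let γ : Fin (Module.finrank L (LinearMap.range Φ)) → Ω := fun x =>
    ((Module.finBasis L (LinearMap.range Φ) x : LinearMap.range Φ) : Ω)
  let y : {j // j ≠ j0} ⊕ (Fin (Module.finrank L (LinearMap.range Φ))) → Ω :=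
    Sum.elim (fun j => v j) γ
  have hsub : s0 ⊆ Set.range y := by
    rintro _ ⟨j, rfl⟩
    exact ⟨Sum.inl j, rfl⟩
  have hLE : ∀ z, z ∈ L → z ∈ Lf (Set.range y) := fun z hz => isAlg_mono hsub hz
  have hcc : ∀ o, algebraMap κ Ω (c o) ∈ Lf (Set.range y) := by
    intro o
    have h1 : algebraMap κ Ω (c o) ∈ LinearMap.range Φ := by
      refine ⟨Pi.single o 1, ?_⟩
      simp [Φ, Fintype.linearCombination_apply, Pi.single_apply]
    have h2 := (Module.finBasis L (LinearMap.range Φ)).sum_repr ⟨_, h1⟩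
    have h3 := congrArg (fun w : LinearMap.range Φ => (w : Ω)) h2
    simp only at h3
    rw [← h3]
    rw [Submodule.coe_sum]
    refine (Lf (Set.range y)).sum_mem fun k _ => ?_
    rw [Submodule.coe_smul, Subfield.smul_def, smul_eq_mul]
    refine (Lf (Set.range y)).mul_mem (hLE _ (SetLike.coe_mem _)) ?_
    exact Lf_of_mem ⟨Sum.inr k, rfl⟩
  have hcj : Fintype.card {j : X // j ≠ j0} = Fintype.card X - 1 := by
    rw [Fintype.card_subtype_compl, Fintype.card_subtype_eq]
  have hX1 : 1 ≤ Fintype.card X := Fintype.card_pos_iff.mpr ⟨j0⟩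
  have hcΩ : AlgebraicIndependent ℚ (fun o => algebraMap κ Ω (c o)) := by
    have := hc.map' (f := (Algebra.ofId κ Ω).restrictScalars ℚ) (algebraMap κ Ω).injective
    exact this
  constructor
  · have hfin := card_le_of_alg (fun o => algebraMap κ Ω (c o)) hcΩ y hcc
    rw [Fintype.card_sum, Fintype.card_fin, hcj] at hfin
    omega
  rintro ⟨js, hjs⟩
  -- the independent family
  let x : Option ι → Ω := fun o => o.elim (v js) (fun z => algebraMap κ Ω (c z))
  have hx : AlgebraicIndependent ℚ x := by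
    refine (hcΩ.option_iff_transcendental (v js)).mpr ?_
    intro hal
    apply hjs
    have h2 : Algebra.adjoin ℚ (Set.range (fun z : ι =>
        algebraMap κ Ω (c z))) ≤ ((Algebra.ofId κ Ω).restrictScalars ℚ).range := by
      rw [Algebra.adjoin_le_iff]
      rintro _ ⟨z, rfl⟩
      exact ⟨c z, rfl⟩
    obtain ⟨P, hP0, hP⟩ := hal
    let A0 := Algebra.adjoin ℚ (Set.range (fun z : ι => algebraMap κ Ω (c z)))
    let e : κ ≃ₐ[ℚ] ((Algebra.ofId κ Ω).restrictScalars ℚ : κ →ₐ[ℚ] Ω).range :=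
      AlgEquiv.ofInjective ((Algebra.ofId κ Ω).restrictScalars ℚ) (algebraMap κ Ω).injective
    let ψ : A0 →+* κ := (e.symm.toAlgHom.comp (Subalgebra.inclusion h2)).toRingHom
    have hψ : (algebraMap κ Ω).comp ψ = algebraMap A0 Ω := by
      ext z
      have : e (ψ z) = Subalgebra.inclusion h2 z := by
        simp [ψ]
      have h3 := congrArg Subtype.val this
      exact h3
    have hψinj : Function.Injective ψ := by
      intro z w hzw
      have := congrArg (algebraMap κ Ω) hzw
      rw [← RingHom.comp_apply, ← RingHom.comp_apply, hψ] at this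
      exact Subtype.ext this
    refine ⟨P.map ψ, ?_, ?_⟩
    · rwa [Ne, Polynomial.map_eq_zero_iff hψinj]
    · rw [Polynomial.aeval_def, Polynomial.eval₂_map, hψ]
      exact hP
  have hfin := card_le_of_alg x hx y (by
    intro o
    cases o with
    | none => exact hLE _ (hvL js)
    | some z => exact hcc z)
  rw [Fintype.card_option, Fintype.card_sum, Fintype.card_fin, hcj] at hfin
  omega

end Pool.Agent.TH922.KC
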