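import Mathlib
import Pool.Agent.TH922.KC.Kol2
import Pool.Agent.TH922.KC.Galois

set_option autoImplicit false
set_option linter.unusedSectionVars false

open MvPolynomial

namespace Pool.Agent.TH922.KC

/-- ratios of roots of coordinates lie in the field of the image curve -/
theorem ratios {κ Ω : Type} [Field κ] [Field Ω] [Algebra κ Ω] [CharZero κ] [CharZero Ω]
    {J Jb s p D : ℕ} (hp : p.Prime) (ω : κ) (hω : IsPrimitiveRoot ω (p ^ s)) {ι : Type}
    [Fintype ι] (S : Finset ℕ)
    (hJb : (S.filter fun x => x % 2 = 1 ∧ x / 2 < J).card ≤ Jb) (mu : ι → {m // m ∈ S} → ℕ) (c : ι → κ) (hc : AlgebraicIndependent ℚ c)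
    (hmu : ∀ ν : {m // m ∈ S} → ℕ, ∑ x, ν x = D → (∀ x, x.1 % 2 = 1 → x.1 / 2 < J →
      ν x = 0 ∨ (p ^ s - 1) ^ 2 ≤ ν x) → ∃ o, mu o = ν)
    (hD : p + Jb * (p ^ s - 1) ^ 2 ≤ D + 1)
    (F : IntermediateField κ Ω) (v : {m // m ∈ S} → Ω) (j0 : {m // m ∈ S}) (hv0 : v j0 = 1)
    (hvF : ∀ x, v x ^ (p ^ s) ∈ F)
    (hw : ∑ o, algebraMap κ Ω (c o) * ∏ x, v x ^ mu o x ∈ F)
    (hcard : S.card < p ∨ (S.card ≤ p ∧ ∃ x, Transcendental κ (v x))) :
    ∀ x, v x ∈ F := by
  classical
  set V := IntermediateField.adjoin F (Set.range v) with hV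
  let v' : {m // m ∈ S} → V := fun x => ⟨v x, IntermediateField.subset_adjoin _ _
    (Set.mem_range_self x)⟩
  have hgen : IntermediateField.adjoin F (Set.range v') = ⊤ := by
    apply IntermediateField.lift_injective V
    rw [IntermediateField.lift_adjoin, IntermediateField.lift_top, ← Set.range_comp]
    rfl
  let a : {m // m ∈ S} → F := fun x => ⟨v x ^ (p ^ s), hvF x⟩
  have hva : ∀ x, v' x ^ (p ^ s) = algebraMap F V (a x) := fun x => Subtype.ext rfl
  have hωF : IsPrimitiveRoot (algebraMap κ F ω) (p ^ s) :=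
    hω.map_of_injective (algebraMap κ F).injective
  have hcF : CharZero F := charZero_of_injective_algebraMap (algebraMap κ F).injective
  have hcV : CharZero V := charZero_of_injective_algebraMap (algebraMap κ V).injective
  obtain ⟨hfd, ⟨k, hk⟩, τ, hτinj, hτ⟩ := galois_count hp (algebraMap κ F ω) hωF v' a hva hgen
  have hk0 : k = 0 := by
    by_contra hk0
    have hN : p ≤ Module.finrank F V := by
      rw [hk]; exact Nat.le_self_pow hk0 p
    let P : Fin p → {m // m ∈ S} → V := fun b x => τ (Fin.castLE hN b) (v' x)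
    have hv'0 : v' j0 = 1 := Subtype.ext hv0
    have hval : ∀ b, ∑ o, algebraMap κ V (c o) * ∏ x, P b x ^ mu o x
        = algebraMap F V ⟨_, hw⟩ := by
      intro b
      have e1 : ∑ o, algebraMap κ V (c o) * ∏ x, P b x ^ mu o x
          = τ (Fin.castLE hN b) (∑ o, algebraMap κ V (c o) * ∏ x, v' x ^ mu o x) := by
        rw [map_sum]
        refine Finset.sum_congr rfl fun o _ => ?_
        rw [map_mul, map_prod, IsScalarTower.algebraMap_apply κ F V, AlgEquiv.commutes]
        congr 1
        exact Finset.prod_congr rfl fun x _ => (map_pow _ _ _).symm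
      have e2 : ∑ o, algebraMap κ V (c o) * ∏ x, v' x ^ mu o x = algebraMap F V ⟨_, hw⟩ := by
        apply Subtype.ext
        let ιV : V →ₐ[κ] Ω := (IntermediateField.val V).restrictScalars κ
        change ιV (∑ o, algebraMap κ V (c o) * ∏ x, v' x ^ mu o x)
          = ∑ o, algebraMap κ Ω (c o) * ∏ x, v x ^ mu o x
        rw [map_sum]
        refine Finset.sum_congr rfl fun o _ => ?_
        rw [map_mul, AlgHom.commutes, map_prod]
        congr 1
      rw [e1, e2, AlgEquiv.commutes]
    let T : Finset {m // m ∈ S} := Finset.univ.filter fun x =>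
      x.1 % 2 = 1 ∧ x.1 / 2 < J ∧ v' x ≠ 0
    have hTcard : T.card ≤ Jb := by
      refine le_trans ?_ hJb
      rw [← Finset.card_map (Function.Embedding.subtype _)]
      apply Finset.card_le_card
      intro x hx
      obtain ⟨x', hx', rfl⟩ := Finset.mem_map.mp hx
      have hx'' := (Finset.mem_filter.mp hx').2
      exact Finset.mem_filter.mpr ⟨x'.2, hx''.1, hx''.2.1⟩
    have hP0 : ∀ b, P b j0 = 1 := by
      intro b
      change τ _ (v' j0) = 1
      rw [hv'0, map_one]
    have hPv : ∀ b x, P b x = 0 ↔ v' x = 0 := by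
      intro b x
      change τ _ (v' x) = 0 ↔ _
      rw [map_eq_zero]
    have hPinj : Function.Injective P := by
      intro x y hxy
      have h1 := hτinj (a₁ := Fin.castLE hN x) (a₂ := Fin.castLE hN y) hxy
      exact Fin.castLE_injective hN h1
    have hind := ev_linInd2 (D := D) (a0 := (p ^ s - 1) ^ 2) mu T v'
      (fun t ht => (Finset.mem_filter.mp ht).2.2.2)
      (by
        intro ν hν1 hν2 hν3
        apply hmu ν hν1
        intro x hx1 hx2
        by_cases hx : v' x = 0
        · exact Or.inl (hν2 x hx)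
        · exact Or.inr (hν3 x (Finset.mem_filter.mpr ⟨Finset.mem_univ _, hx1, hx2, hx⟩)))
      ((Nat.add_le_add_left (Nat.mul_le_mul_right _ hTcard) p).trans hD) P j0 hP0 hPinj hPv
    have hcount := trans_count2 (κ := κ) (Ω := V) hp.one_lt.le mu c hc v' j0 hv'0 P (by
        intro x i
        obtain ⟨l, hl⟩ := hτ (Fin.castLE hN x) i
        refine ⟨algebraMap F V (algebraMap κ F ω ^ l), ?_, hl⟩
        have h1 : algebraMap F V (algebraMap κ F ω ^ l) = algebraMap κ V (ω ^ l) := by
          rw [map_pow, map_pow, IsScalarTower.algebraMap_apply κ F V]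
        rw [h1]
        refine IsAlgebraic.algebraMap ?_
        refine IsAlgebraic.pow ?_ l
        refine (IsIntegral.of_pow (pow_pos hp.pos s) ?_).isAlgebraic
        rw [hω.pow_eq_one]
        exact isIntegral_one) hind (by
        intro x y
        rw [hval, hval])
    rw [Fintype.card_coe] at hcount
    rcases hcard with h | ⟨h, x, hx⟩
    · exact absurd hcount.1 (by omega)
    · have h1 := hcount.2 ⟨x, by
        intro hal
        apply hx
        have := hal.algHom ((IntermediateField.val V).restrictScalars κ)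
        exact this⟩
      omega
  rw [hk0, pow_zero, IntermediateField.finrank_eq_one_iff] at hk
  intro x
  have h1 : v x ∈ V := IntermediateField.subset_adjoin _ _ (Set.mem_range_self x)
  rw [hk, IntermediateField.mem_bot] at h1
  obtain ⟨f, hf⟩ := h1
  rw [← hf]
  exact f.2

end Pool.Agent.TH922.KC
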