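import Mathlib
import Pool.Agent.TH922.KC.Spec

set_option autoImplicit false
set_option linter.unusedSectionVars false

open MvPolynomial

namespace Pool.Agent.TH922.KC

section basic

variable {X κ Ω : Type*} [Field κ] [Field Ω] [Algebra κ Ω]

lemma hf_ker [Finite X] (Φ : MvPolynomial X κ →ₐ[κ] Ω) (t : ℕ) :
    hf (RingHom.ker Φ) t = Module.finrank κ ((homogeneousSubmodule X κ t).map Φ.toLinearMap) := by
  have A := hf_add (RingHom.ker Φ) t
  have B := finrank_map_add Φ.toLinearMap (homogeneousSubmodule X κ t)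
  have e : (homogeneousSubmodule X κ t ⊓ LinearMap.ker Φ.toLinearMap) = KJ (RingHom.ker Φ) t := by
    ext x
    simp [KJ]
  rw [e] at B
  omega

/-- evaluation of forms at a scaled point -/
lemma aeval_smul_hom [Fintype X] (v : X → Ω) (c : Ω) {W : MvPolynomial X κ} {t : ℕ}
    (hW : W.IsHomogeneous t) : aeval (fun j => c * v j) W = c ^ t * aeval v W := by
  rw [W.as_sum, map_sum, map_sum, Finset.mul_sum]
  refine Finset.sum_congr rfl fun μ hμ => ?_
  have hdeg : μ.degree = t := by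
    by_contra hne
    exact (mem_support_iff.mp hμ) (hW.coeff_eq_zero hne)
  rw [aeval_monomial, aeval_monomial, Finsupp.prod_fintype _ _ (fun i => pow_zero _),
    Finsupp.prod_fintype _ _ (fun i => pow_zero _)]
  simp only [mul_pow]
  rw [Finset.prod_mul_distrib, Finset.prod_pow_eq_pow_sum, ← hdeg, Finsupp.degree_eq_sum]
  ring

end basic

section phi

variable {κ : Type*} [Field κ] {n : ℕ} {β : Type*} (q : ℕ)
  (G : β → MvPolynomial (Fin (n + 1)) κ)

/-- the map `y_j ↦ x_j ^ q`, `z_i ↦ G_i` -/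
noncomputable def phi : MvPolynomial (Fin (n + 1) ⊕ β) κ →ₐ[κ] MvPolynomial (Fin (n + 1)) κ :=
  aeval (Sum.elim (fun j => X j ^ q) G)

variable {q G}

lemma phi_hom (hG : ∀ i, (G i).IsHomogeneous q) {p : MvPolynomial (Fin (n + 1) ⊕ β) κ} {d : ℕ}
    (hp : p.IsHomogeneous d) : (phi q G p).IsHomogeneous (q * d) := by
  refine hp.aeval _ ?_
  rintro (j | i)
  · exact isHomogeneous_X_pow j q
  · exact hG i

lemma phi_hc (hq : 0 < q) (hG : ∀ i, (G i).IsHomogeneous q)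
    (b : MvPolynomial (Fin (n + 1) ⊕ β) κ) (d : ℕ) :
    homogeneousComponent (q * d) (phi q G b) = phi q G (homogeneousComponent d b) := by
  classical
  conv_lhs => rw [← sum_homogeneousComponent b, map_sum, map_sum]
  by_cases hd : d ∈ Finset.range (b.totalDegree + 1)
  · rw [Finset.sum_eq_single d]
    · exact homogeneousComponent_eq_self (phi_hom hG (homogeneousComponent_isHomogeneous d b))
    · intro k _ hk
      rw [homogeneousComponent_of_mem (phi_hom hG (homogeneousComponent_isHomogeneous k b)),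
        if_neg]
      intro h
      exact hk (Nat.eq_of_mul_eq_mul_left hq h).symm
    · intro h; exact absurd hd h
  · have h0 : b.totalDegree < d := by simpa using hd
    rw [homogeneousComponent_eq_zero _ _ h0, map_zero]
    apply Finset.sum_eq_zero
    intro k hk
    rw [homogeneousComponent_of_mem (phi_hom hG (homogeneousComponent_isHomogeneous k b)),
        if_neg]
    intro h
    have := Nat.eq_of_mul_eq_mul_left hq h
    exact hd (this ▸ hk)

end phi

section main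

variable {κ Ω : Type*} [Field κ] [Field Ω] [Algebra κ Ω] {n : ℕ} {β : Type*} [Fintype β]
  {q : ℕ} {G : β → MvPolynomial (Fin (n + 1)) κ} {ξ : Fin (n + 1) → Ω}

/-- evaluation on `S` -/
noncomputable def Psi (q : ℕ) (G : β → MvPolynomial (Fin (n + 1)) κ) (ξ : Fin (n + 1) → Ω) :
    MvPolynomial (Fin (n + 1) ⊕ β) κ →ₐ[κ] Ω := (aeval ξ).comp (phi q G)

lemma Psi_apply (p : MvPolynomial (Fin (n + 1) ⊕ β) κ) :
    Psi q G ξ p = aeval ξ (phi q G p) := rfl

lemma Psi_y (j : Fin (n + 1)) : Psi q G ξ (X (Sum.inl j)) = ξ j ^ q := by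
  simp [Psi_apply, phi]

lemma Psi_z (i : β) : Psi q G ξ (X (Sum.inr i)) = aeval ξ (G i) := by
  simp [Psi_apply, phi]

/-- pieces -/
noncomputable def Ap (q : ℕ) (G : β → MvPolynomial (Fin (n + 1)) κ) (ξ : Fin (n + 1) → Ω) (t : ℕ) :
    Submodule κ Ω := (homogeneousSubmodule (Fin (n + 1) ⊕ β) κ t).map (Psi q G ξ).toLinearMap

noncomputable def Bp (κ : Type*) [Field κ] [Algebra κ Ω] (ξ : Fin (n + 1) → Ω) (t : ℕ) :
    Submodule κ Ω :=
  (homogeneousSubmodule (Fin (n + 1)) κ t).map (aeval ξ : MvPolynomial (Fin (n + 1)) κ →ₐ[κ] Ω).toLinearMap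

instance (t : ℕ) : Module.Finite κ (Ap q G ξ t) := by
  unfold Ap; infer_instance

instance (t : ℕ) : Module.Finite κ (Bp κ ξ t) := by
  unfold Bp; infer_instance

lemma Ap_finrank (t : ℕ) : Module.finrank κ (Ap q G ξ t) = hf (RingHom.ker (Psi q G ξ)) t :=
  (hf_ker _ t).symm

lemma Bp_finrank (t : ℕ) : Module.finrank κ (Bp κ ξ t)
    = hf (RingHom.ker (aeval ξ : MvPolynomial (Fin (n + 1)) κ →ₐ[κ] Ω)) t :=
  (hf_ker _ t).symm

lemma mem_Ap {t : ℕ} {p : MvPolynomial (Fin (n + 1) ⊕ β) κ} (hp : p.IsHomogeneous t) :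
    Psi q G ξ p ∈ Ap q G ξ t := ⟨p, hp, rfl⟩

lemma mem_Bp {t : ℕ} {p : MvPolynomial (Fin (n + 1)) κ} (hp : p.IsHomogeneous t) :
    aeval ξ p ∈ Bp κ ξ t := ⟨p, hp, rfl⟩

lemma Ap_le_Bp (hG : ∀ i, (G i).IsHomogeneous q) (t : ℕ) : Ap q G ξ t ≤ Bp κ ξ (q * t) := by
  rintro _ ⟨p, hp, rfl⟩
  exact ⟨phi q G p, phi_hom hG hp, rfl⟩

lemma hf_le_hf (hG : ∀ i, (G i).IsHomogeneous q) (t : ℕ) :
    hf (RingHom.ker (Psi q G ξ)) t
      ≤ hf (RingHom.ker (aeval ξ : MvPolynomial (Fin (n + 1)) κ →ₐ[κ] Ω)) (q * t) := by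
  rw [← Ap_finrank, ← Bp_finrank]
  exact Submodule.finrank_mono (Ap_le_Bp hG t)

/-- the field of fractions of the coordinate ring -/
noncomputable def FF (q : ℕ) (G : β → MvPolynomial (Fin (n + 1)) κ) (ξ : Fin (n + 1) → Ω) :
    IntermediateField κ Ω := IntermediateField.adjoin κ (Set.range (Psi q G ξ))

lemma Psi_mem_FF (p : MvPolynomial (Fin (n + 1) ⊕ β) κ) : Psi q G ξ p ∈ FF q G ξ :=
  IntermediateField.subset_adjoin κ _ ⟨p, rfl⟩

lemma mem_FF {f : Ω} (hfF : f ∈ FF q G ξ) :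
    ∃ a b : MvPolynomial (Fin (n + 1) ⊕ β) κ, Psi q G ξ b ≠ 0 ∧ f * Psi q G ξ b = Psi q G ξ a := by
  have h := IntermediateField.mem_adjoin_iff_div.mp hfF
  have hr : Algebra.adjoin κ (Set.range (Psi q G ξ)) = (Psi q G ξ).range := by
    apply le_antisymm
    · rw [Algebra.adjoin_le_iff]
      rintro _ ⟨p, rfl⟩
      exact ⟨p, rfl⟩
    · rintro _ ⟨p, rfl⟩
      exact Algebra.subset_adjoin ⟨p, rfl⟩
  rw [hr] at h
  obtain ⟨_, ⟨a, rfl⟩, _, ⟨b, rfl⟩, rfl⟩ := h
  have e1 : (Psi q G ξ).toRingHom b = Psi q G ξ b := rfl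
  have e2 : (Psi q G ξ).toRingHom a = Psi q G ξ a := rfl
  rw [e1, e2]
  by_cases hb : Psi q G ξ b = 0
  · refine ⟨0, 1, by simp, ?_⟩
    rw [hb]; simp
  · exact ⟨a, b, hb, div_mul_cancel₀ _ hb⟩

/-- common denominators -/
lemma common_denom {E : ℕ} (f : Fin E → Ω) (hf : ∀ k, f k ∈ FF q G ξ) :
    ∃ (a : Fin E → MvPolynomial (Fin (n + 1) ⊕ β) κ) (b : MvPolynomial (Fin (n + 1) ⊕ β) κ),
      Psi q G ξ b ≠ 0 ∧ ∀ k, f k * Psi q G ξ b = Psi q G ξ (a k) := by
  classical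
  choose a b hb hab using fun k => mem_FF (hf k)
  refine ⟨fun k => a k * ∏ l ∈ Finset.univ.erase k, b l, ∏ l, b l, ?_, fun k => ?_⟩
  · rw [map_prod]
    exact Finset.prod_ne_zero_iff.mpr fun k _ => hb k
  · rw [map_mul, ← hab, ← Finset.mul_prod_erase _ _ (Finset.mem_univ k), map_mul, mul_assoc]

end main

end Pool.Agent.TH922.KC
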