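import Mathlib
import Pool.Agent.TH922.KC.Kum1

set_option autoImplicit false
set_option linter.unusedSectionVars false

open MvPolynomial

namespace Pool.Agent.TH922.KC

/-- monomial basis of `F(v)` -/
lemma mono_basis {F Ω X : Type*} [Field F] [Field Ω] [Algebra F Ω] [Fintype X] (v : X → Ω)
    (hint : ∀ j, IsAlgebraic F (v j))
    [FiniteDimensional F (IntermediateField.adjoin F (Set.range v))] :
    ∃ μ : Fin (Module.finrank F (IntermediateField.adjoin F (Set.range v))) → X → ℕ,
      LinearIndependent F (fun k => ∏ j, v j ^ μ k j) ∧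
      ∀ w ∈ IntermediateField.adjoin F (Set.range v),
        ∃ f : Fin (Module.finrank F (IntermediateField.adjoin F (Set.range v))) → F,
          w = ∑ k, algebraMap F Ω (f k) * ∏ j, v j ^ μ k j := by
  classical
  set V := IntermediateField.adjoin F (Set.range v) with hV
  set t : Set Ω := Set.range (fun μ : X → ℕ => ∏ j, v j ^ μ j) with ht
  have hspan : Submodule.span F t = Subalgebra.toSubmodule V.toSubalgebra := by
    have h1 : V.toSubalgebra = Algebra.adjoin F (Set.range v) := by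
      apply IntermediateField.adjoin_toSubalgebra_of_isAlgebraic
      rintro _ ⟨j, rfl⟩
      exact hint j
    rw [h1]
    apply le_antisymm
    · rw [Submodule.span_le]
      rintro _ ⟨μ, rfl⟩
      have : ∏ j, v j ^ μ j ∈ Algebra.adjoin F (Set.range v) :=
        Subalgebra.prod_mem _ fun j _ =>
          Subalgebra.pow_mem _ (Algebra.subset_adjoin (Set.mem_range_self j)) _
      exact this
    · rw [Algebra.adjoin_range_eq_range_aeval]
      rintro _ ⟨p, rfl⟩
      change aeval v p ∈ _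
      rw [p.as_sum, map_sum]
      refine Submodule.sum_mem _ fun ν _ => ?_
      rw [aeval_monomial, ← Algebra.smul_def]
      refine Submodule.smul_mem _ _ (Submodule.subset_span ⟨fun j => ν j, ?_⟩)
      rw [Finsupp.prod_fintype _ _ (fun i => pow_zero _)]
  obtain ⟨b, hbt, hbs, hbi⟩ := exists_linearIndependent F t
  have hfr : Module.finrank F (Submodule.span F b) = Module.finrank F V := by
    rw [hbs, hspan]
    rfl
  have hfd : FiniteDimensional F (Submodule.span F b) := by
    rw [hbs, hspan]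
    change FiniteDimensional F V
    infer_instance
  have hbfin : Finite b := by
    have h1 : LinearIndependent F (fun x : b => (⟨x, Submodule.subset_span x.2⟩ :
        Submodule.span F b)) := by
      apply LinearIndependent.of_comp (Submodule.span F b).subtype
      exact hbi
    exact h1.finite
  have : Fintype b := Fintype.ofFinite b
  have hcard : Fintype.card b = Module.finrank F V := by
    rw [← hfr]
    have := finrank_span_eq_card hbi
    rw [← this]
    congr 2 <;> simp
  let e : Fin (Module.finrank F V) ≃ b := (finCongr hcard.symm).trans (Fintype.equivFin b).symm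
  choose μ hμ using fun x : b => hbt x.2
  refine ⟨fun k => μ (e k), ?_, ?_⟩
  · have h1 : (fun k => ∏ j, v j ^ μ (e k) j) = (fun x : b => (x : Ω)) ∘ e := by
      ext k
      exact hμ (e k)
    rw [h1]
    exact hbi.comp e e.injective
  · intro w hw
    have h1 : w ∈ Submodule.span F b := by
      rw [hbs, hspan]; exact hw
    have h2 : w ∈ Submodule.span F (Set.range (fun x : b => (x : Ω))) := by
      simpa using h1
    obtain ⟨c, hc⟩ := (Submodule.mem_span_range_iff_exists_fun F).mp h2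
    refine ⟨fun k => c (e k), ?_⟩
    rw [← hc, ← Equiv.sum_comp e]
    refine Finset.sum_congr rfl fun k _ => ?_
    rw [Algebra.smul_def]
    congr 1
    exact (hμ (e k)).symm

section main

variable {κ Ω : Type*} [Field κ] [Field Ω] [Algebra κ Ω] {n : ℕ} {β : Type*} [Fintype β]
  {q : ℕ} {G : β → MvPolynomial (Fin (n + 1)) κ} {ξ : Fin (n + 1) → Ω}

/-- linear combinations of the `w_k` with coefficients of degree `e` -/
noncomputable def Lam (q : ℕ) (G : β → MvPolynomial (Fin (n + 1)) κ) (ξ : Fin (n + 1) → Ω) {E : ℕ}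
    (w : Fin E → Ω) (e : ℕ) : (Fin E → Ap q G ξ e) →ₗ[κ] Ω :=
  ∑ k, (LinearMap.mulRight κ (w k)) ∘ₗ (Ap q G ξ e).subtype ∘ₗ (LinearMap.proj k)

lemma Lam_apply {E : ℕ} (w : Fin E → Ω) (e : ℕ) (a : Fin E → Ap q G ξ e) :
    Lam q G ξ w e a = ∑ k, (a k : Ω) * w k := by
  simp [Lam]

/-- comparison of Hilbert functions in a Kummer extension of degree `E` -/
theorem compare (hq : 0 < q) (hG : ∀ i, (G i).IsHomogeneous q)
    (hQ : IsHom (RingHom.ker (aeval ξ : MvPolynomial (Fin (n + 1)) κ →ₐ[κ] Ω)))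
    (j0 : Fin (n + 1)) (hξ : ξ j0 ≠ 0)
    [FiniteDimensional (FF q G ξ)
      (IntermediateField.adjoin (FF q G ξ) (Set.range (fun j => ξ j / ξ j0)))]
    (E : ℕ) (hE : E = Module.finrank (FF q G ξ)
      (IntermediateField.adjoin (FF q G ξ) (Set.range (fun j => ξ j / ξ j0)))) :
    ∃ τ δ : ℕ, ∀ t,
      E * hf (RingHom.ker (Psi q G ξ)) t
        ≤ hf (RingHom.ker (aeval ξ : MvPolynomial (Fin (n + 1)) κ →ₐ[κ] Ω)) (q * (t + τ)) ∧
      hf (RingHom.ker (aeval ξ : MvPolynomial (Fin (n + 1)) κ →ₐ[κ] Ω)) (q * t)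
        ≤ E * hf (RingHom.ker (Psi q G ξ)) (t + δ) := by
  classical
  subst hE
  set F := FF q G ξ with hF
  set v : Fin (n + 1) → Ω := fun j => ξ j / ξ j0 with hv
  set V := IntermediateField.adjoin F (Set.range v) with hV
  set E := Module.finrank F V with hE
  have hξv : ∀ j, ξ j = ξ j0 * v j := fun j => by
    simp only [hv]; field_simp
  have hξF : ∀ j, ξ j ^ q ∈ F := fun j => by
    rw [← Psi_y (G := G) (ξ := ξ) (q := q) j]; exact Psi_mem_FF _
  have hint : ∀ j, IsAlgebraic F (v j) := by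
    intro j
    refine (IsIntegral.of_pow hq ?_).isAlgebraic
    have : v j ^ q = algebraMap F Ω (⟨ξ j ^ q, hξF j⟩ / ⟨ξ j0 ^ q, hξF j0⟩) := by
      simp only [hv, div_pow]
      rfl
    rw [this]
    exact isIntegral_algebraMap
  obtain ⟨μ, hμi, hμs⟩ := mono_basis v hint
  set τ : ℕ := ∑ k, ∑ j, μ k j with hτ
  have hτk : ∀ k, ∑ j, μ k j ≤ q * τ := fun k => by
    have h1 : ∑ j, μ k j ≤ τ := Finset.single_le_sum (f := fun k => ∑ j, μ k j)
      (fun _ _ => Nat.zero_le _) (Finset.mem_univ k)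
    exact h1.trans (Nat.le_mul_of_pos_left _ hq)
  let M : Fin E → MvPolynomial (Fin (n + 1)) κ := fun k =>
    (∏ j, X j ^ μ k j) * X j0 ^ (q * τ - ∑ j, μ k j)
  have hM : ∀ k, (M k).IsHomogeneous (q * τ) := by
    intro k
    have h1 := (IsHomogeneous.prod Finset.univ (fun j => (X j : MvPolynomial (Fin (n + 1)) κ) ^ μ k j)
      (fun j => μ k j) (fun j _ => isHomogeneous_X_pow j _)).mul
      (isHomogeneous_X_pow (R := κ) j0 (q * τ - ∑ j, μ k j))
    rwa [Nat.add_sub_cancel' (hτk k)] at h1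
  set w : Fin E → Ω := fun k => aeval ξ (M k) with hw
  have hwv : ∀ k, w k = ξ j0 ^ (q * τ) * ∏ j, v j ^ μ k j := by
    intro k
    simp only [hw, M, map_mul, map_prod, map_pow, aeval_X]
    have h1 : ∏ j, ξ j ^ μ k j = ξ j0 ^ (∑ j, μ k j) * ∏ j, v j ^ μ k j := by
      rw [← Finset.prod_pow_eq_pow_sum, ← Finset.prod_mul_distrib]
      refine Finset.prod_congr rfl fun j _ => ?_
      rw [← mul_pow, ← hξv]
    rw [h1]
    have h2 : ξ j0 ^ (q * τ) = ξ j0 ^ (∑ j, μ k j) * ξ j0 ^ (q * τ - ∑ j, μ k j) := by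
      rw [← pow_add, Nat.add_sub_cancel' (hτk k)]
    rw [h2]; ring
  have hξτ : ξ j0 ^ (q * τ) ≠ 0 := pow_ne_zero _ hξ
  have hξFt : ∀ t, ξ j0 ^ (q * t) ∈ F := fun t => by
    rw [pow_mul]; exact pow_mem (hξF j0) t
  have hwi : LinearIndependent F w := by
    have h1 := hμi.map' (LinearMap.mulLeft F (ξ j0 ^ (q * τ))) (by
      rw [LinearMap.ker_eq_bot]
      intro x y hxy
      exact mul_left_cancel₀ hξτ hxy)
    have e : w = (LinearMap.mulLeft F (ξ j0 ^ (q * τ))) ∘ (fun k => ∏ j, v j ^ μ k j) :=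
      funext hwv
    rw [e]
    exact h1
  have hws : ∀ x ∈ V, ∃ f : Fin E → F, x = ∑ k, (f k : Ω) * w k := by
    intro x hx
    obtain ⟨f, hf'⟩ := hμs x hx
    refine ⟨fun k => f k * (⟨ξ j0 ^ (q * τ), hξFt τ⟩ : F)⁻¹, ?_⟩
    rw [hf']
    refine Finset.sum_congr rfl fun k _ => ?_
    rw [hwv]
    have e1 : algebraMap F Ω (f k) = (f k : Ω) := rfl
    rw [e1]
    push_cast
    field_simp
  -- lower bound
  have hlow : ∀ t, E * hf (RingHom.ker (Psi q G ξ)) t
        ≤ hf (RingHom.ker (aeval ξ : MvPolynomial (Fin (n + 1)) κ →ₐ[κ] Ω)) (q * (t + τ)) := by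
    intro t
    rw [← Ap_finrank, ← Bp_finrank]
    have h1 : Function.Injective (Lam q G ξ w t) := by
      rw [injective_iff_map_eq_zero]
      intro a ha
      rw [Lam_apply] at ha
      have haF : ∀ k, (a k : Ω) ∈ F := fun k => by
        obtain ⟨p, -, hp⟩ := (a k).2
        rw [← hp]
        exact Psi_mem_FF p
      rw [Fintype.linearIndependent_iff] at hwi
      have h2 := hwi (fun k => ⟨a k, haF k⟩) (by
        rw [← ha]
        refine Finset.sum_congr rfl fun k _ => ?_
        rw [Algebra.smul_def]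
        rfl)
      funext k
      apply Subtype.ext
      have h3 := congrArg (fun z : F => (z : Ω)) (h2 k)
      exact h3
    have h2 : LinearMap.range (Lam q G ξ w t) ≤ Bp κ ξ (q * (t + τ)) := by
      rintro _ ⟨a, rfl⟩
      rw [Lam_apply]
      refine Submodule.sum_mem _ fun k _ => ?_
      obtain ⟨p, hp, hp'⟩ := (a k).2
      refine ⟨phi q G p * M k, ?_, ?_⟩
      · have h3 := (phi_hom hG (p := p) (d := t) hp).mul (hM k)
        rw [mul_add]
        exact h3
      · rw [← hp']
        change aeval ξ (phi q G p * M k) = _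
        rw [map_mul]
        rfl
    have h3 := Submodule.finrank_mono h2
    rw [LinearMap.finrank_range_of_inj h1, Module.finrank_pi_fintype] at h3
    simpa using h3
  -- single forms
  have hyτ : (X (Sum.inl j0) ^ τ : MvPolynomial (Fin (n + 1) ⊕ β) κ).IsHomogeneous τ :=
    isHomogeneous_X_pow _ _
  have hsingle : ∀ (t : ℕ) (W : MvPolynomial (Fin (n + 1)) κ), W.IsHomogeneous (q * t) →
      ∃ (d : ℕ) (B : MvPolynomial (Fin (n + 1) ⊕ β) κ) (e : ℕ), B.IsHomogeneous d ∧
        Psi q G ξ B ≠ 0 ∧ d + t = e + τ ∧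
        Psi q G ξ B * aeval ξ W ∈ LinearMap.range (Lam q G ξ w e) := by
    intro t W hW
    have hWV : aeval ξ W ∈ V := by
      have h1 : aeval ξ W = ξ j0 ^ (q * t) * aeval v W := by
        rw [← aeval_smul_hom v (ξ j0) hW]
        congr 1
        congr 1
        funext j
        exact hξv j
      rw [h1]
      refine V.mul_mem ?_ ?_
      · exact V.algebraMap_mem (⟨ξ j0 ^ (q * t), hξFt t⟩ : F)
      · have h2 : ∀ p : MvPolynomial (Fin (n + 1)) κ, aeval v p ∈ V := by
          intro p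
          induction p using MvPolynomial.induction_on with
          | C a =>
            rw [aeval_C]
            exact V.algebraMap_mem (⟨algebraMap κ Ω a, F.algebraMap_mem a⟩ : F)
          | add p p' h h' => rw [map_add]; exact V.add_mem h h'
          | mul_X p j h =>
            rw [map_mul, aeval_X]
            exact V.mul_mem h (IntermediateField.subset_adjoin _ _ (Set.mem_range_self j))
        exact h2 W
    obtain ⟨f, hf'⟩ := hws _ hWV
    obtain ⟨a, b, hb, hab⟩ := common_denom (fun k => (f k : Ω)) (fun k => (f k).2)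
    set b' := X (Sum.inl j0) ^ τ * b with hb'
    set a' := fun k => X (Sum.inl j0) ^ τ * a k with ha'
    have hb'0 : Psi q G ξ b' ≠ 0 := by
      rw [hb', map_mul, map_pow, Psi_y]
      exact mul_ne_zero (pow_ne_zero _ (pow_ne_zero _ hξ)) hb
    have hrel : phi q G b' * W - ∑ k, phi q G (a' k) * M k
        ∈ RingHom.ker (aeval ξ : MvPolynomial (Fin (n + 1)) κ →ₐ[κ] Ω) := by
      rw [RingHom.mem_ker, map_sub, map_mul, map_sum]
      have e1 : aeval ξ (phi q G b') = Psi q G ξ b' := rfl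
      have e2 : ∀ k, aeval ξ (phi q G (a' k) * M k) = Psi q G ξ (a' k) * w k := by
        intro k
        rw [map_mul]
        rfl
      rw [e1, Finset.sum_congr rfl (fun k _ => e2 k), hf', Finset.mul_sum, sub_eq_zero]
      refine Finset.sum_congr rfl fun k _ => ?_
      simp only [hb', ha', map_mul]
      rw [← hab]
      ring
    have hex : ∃ d, Psi q G ξ (homogeneousComponent d b') ≠ 0 := by
      by_contra hcon
      push Not at hcon
      apply hb'0
      rw [← sum_homogeneousComponent b', map_sum]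
      exact Finset.sum_eq_zero fun d _ => hcon d
    obtain ⟨d, hd⟩ := hex
    have hdτ : τ ≤ d := by
      by_contra hlt
      apply hd
      rw [hb', hc_mul_left_lt hyτ d (not_le.mp hlt), map_zero]
    obtain ⟨c, rfl⟩ := Nat.exists_eq_add_of_le hdτ
    refine ⟨τ + c, homogeneousComponent (τ + c) b', c + t,
      homogeneousComponent_isHomogeneous _ _, hd, by omega, ?_⟩
    have h3 := hQ _ hrel (q * (τ + c) + q * t)
    have e3 : homogeneousComponent (q * (τ + c) + q * t)
        (phi q G b' * W - ∑ k, phi q G (a' k) * M k)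
        = W * phi q G (homogeneousComponent (τ + c) b')
          - ∑ k, M k * phi q G (homogeneousComponent (c + t) (a' k)) := by
      rw [map_sub, map_sum, mul_comm (phi q G b') W, hc_mul_left hW, phi_hc hq hG]
      congr 1
      refine Finset.sum_congr rfl fun k _ => ?_
      rw [mul_comm (phi q G (a' k)) (M k),
        show q * (τ + c) + q * t = q * (c + t) + q * τ by ring, hc_mul_left (hM k),
        phi_hc hq hG]
    rw [e3, RingHom.mem_ker, map_sub, map_mul, map_sum, sub_eq_zero] at h3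
    refine ⟨fun k => ⟨Psi q G ξ (homogeneousComponent (c + t) (a' k)),
      mem_Ap (homogeneousComponent_isHomogeneous _ _)⟩, ?_⟩
    rw [Lam_apply, mul_comm]
    change _ = aeval ξ W * aeval ξ (phi q G (homogeneousComponent (τ + c) b'))
    rw [h3]
    refine Finset.sum_congr rfl fun k _ => ?_
    have e4 : aeval ξ (M k * phi q G (homogeneousComponent (c + t) (a' k)))
      = aeval ξ (M k) * aeval ξ (phi q G (homogeneousComponent (c + t) (a' k))) := map_mul _ _ _
    rw [e4]
    exact mul_comm _ _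
  -- multiplication of the ranges by forms
  have hmul : ∀ (g e : ℕ) (B : MvPolynomial (Fin (n + 1) ⊕ β) κ) (x : Ω), B.IsHomogeneous g →
      x ∈ LinearMap.range (Lam q G ξ w e) →
      Psi q G ξ B * x ∈ LinearMap.range (Lam q G ξ w (g + e)) := by
    rintro g e B _ hB ⟨a, rfl⟩
    have hA : ∀ k, Psi q G ξ B * (a k : Ω) ∈ Ap q G ξ (g + e) := by
      intro k
      obtain ⟨p, hp, hp'⟩ := (a k).2
      refine ⟨B * p, hB.mul hp, ?_⟩
      rw [← hp']
      exact map_mul (Psi q G ξ) B p
    refine ⟨fun k => ⟨_, hA k⟩, ?_⟩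
    rw [Lam_apply, Lam_apply, Finset.mul_sum]
    refine Finset.sum_congr rfl fun k _ => ?_
    ring
  -- uniform denominator
  let NU := {ν : Fin (n + 1) → Fin q // q ∣ ∑ j, (ν j : ℕ)}
  have hνh : ∀ ν : NU, (∏ j, (X j : MvPolynomial (Fin (n + 1)) κ) ^ (ν.1 j : ℕ)).IsHomogeneous
      (q * ((∑ j, (ν.1 j : ℕ)) / q)) := by
    intro ν
    rw [Nat.mul_div_cancel' ν.2]
    exact IsHomogeneous.prod Finset.univ _ _ (fun j _ => isHomogeneous_X_pow j _)
  choose d B e hBh hB0 hde hBD using fun ν : NU => hsingle _ _ (hνh ν)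
  set B0 := ∏ ν, B ν with hB0def
  have hB00 : Psi q G ξ B0 ≠ 0 := by
    rw [hB0def, map_prod]
    exact Finset.prod_ne_zero_iff.mpr fun ν _ => hB0 ν
  have hδτ : τ ≤ ∑ ν, d ν := by
    have h0 : q ∣ ∑ j : Fin (n + 1), (((fun _ => ⟨0, hq⟩ : Fin (n + 1) → Fin q) j : Fin q) : ℕ) := by
      simp
    let ν0 : NU := ⟨fun _ => ⟨0, hq⟩, h0⟩
    have h1 := hde ν0
    have h2 : (∑ j, (ν0.1 j : ℕ)) / q = 0 := by simp [ν0]
    rw [h2, add_zero] at h1
    have h3 : d ν0 ≤ ∑ ν, d ν := Finset.single_le_sum (f := d) (fun _ _ => Nat.zero_le _)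
      (Finset.mem_univ ν0)
    omega
  obtain ⟨δ, hδ⟩ := Nat.exists_eq_add_of_le hδτ
  have hall : ∀ (t : ℕ) (W : MvPolynomial (Fin (n + 1)) κ), W.IsHomogeneous (q * t) →
      Psi q G ξ B0 * aeval ξ W ∈ LinearMap.range (Lam q G ξ w (t + δ)) := by
    intro t W hW
    rw [W.as_sum, map_sum, Finset.mul_sum]
    refine Submodule.sum_mem _ fun ρ hρ => ?_
    have hdeg : ρ.degree = q * t := by
      by_contra hne
      exact (mem_support_iff.mp hρ) (hW.coeff_eq_zero hne)
    rw [Finsupp.degree_eq_sum] at hdeg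
    have hdm : ∑ j, ρ j = q * (∑ j, ρ j / q) + ∑ j, ρ j % q := by
      rw [Finset.mul_sum, ← Finset.sum_add_distrib]
      exact Finset.sum_congr rfl fun j _ => (Nat.div_add_mod (ρ j) q).symm
    have hdvd : q ∣ ∑ j, ρ j % q := by
      have : q ∣ q * (∑ j, ρ j / q) + ∑ j, ρ j % q := by
        rw [← hdm, hdeg]; exact Dvd.intro _ rfl
      exact (Nat.dvd_add_right (Dvd.intro _ rfl)).mp this
    let ν : NU := ⟨fun j => ⟨ρ j % q, Nat.mod_lt _ hq⟩, hdvd⟩
    have h1 : aeval ξ (monomial ρ (coeff ρ W)) = algebraMap κ Ω (coeff ρ W) *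
        (Psi q G ξ (∏ j, X (Sum.inl j) ^ (ρ j / q)) *
          aeval ξ (∏ j, (X j : MvPolynomial (Fin (n + 1)) κ) ^ (ν.1 j : ℕ))) := by
      rw [aeval_monomial, Finsupp.prod_fintype _ _ (fun i => pow_zero _)]
      congr 1
      rw [map_prod, map_prod, ← Finset.prod_mul_distrib]
      refine Finset.prod_congr rfl fun j _ => ?_
      rw [map_pow, map_pow, Psi_y, aeval_X, ← pow_mul, ← pow_add]
      congr 1
      exact (Nat.div_add_mod (ρ j) q).symm
    have h2 : Psi q G ξ B0 = Psi q G ξ (∏ ν' ∈ Finset.univ.erase ν, B ν') * Psi q G ξ (B ν) := by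
      rw [hB0def, ← map_mul]
      congr 1
      rw [mul_comm]
      exact (Finset.mul_prod_erase _ _ (Finset.mem_univ ν)).symm
    have h3 : Psi q G ξ B0 * aeval ξ (monomial ρ (coeff ρ W)) = (coeff ρ W) •
        (Psi q G ξ ((∏ ν' ∈ Finset.univ.erase ν, B ν') * ∏ j, X (Sum.inl j) ^ (ρ j / q)) *
        (Psi q G ξ (B ν) * aeval ξ (∏ j, (X j : MvPolynomial (Fin (n + 1)) κ) ^ (ν.1 j : ℕ)))) := by
      rw [h1, h2, Algebra.smul_def, map_mul]
      ring
    rw [h3]
    refine Submodule.smul_mem _ _ ?_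
    have h4 := hmul (∑ ν' ∈ Finset.univ.erase ν, d ν' + ∑ j, ρ j / q) (e ν)
      ((∏ ν' ∈ Finset.univ.erase ν, B ν') * ∏ j, X (Sum.inl j) ^ (ρ j / q)) _
      ((IsHomogeneous.prod _ _ _ (fun ν' _ => hBh ν')).mul
        (IsHomogeneous.prod Finset.univ _ _ (fun j _ => isHomogeneous_X_pow _ _))) (hBD ν)
    have h5 : ∑ ν' ∈ Finset.univ.erase ν, d ν' + ∑ j, ρ j / q + e ν = t + δ := by
      have e1 : d ν + ∑ ν' ∈ Finset.univ.erase ν, d ν' = ∑ ν, d ν :=
        Finset.add_sum_erase _ _ (Finset.mem_univ ν)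
      have e2 := hde ν
      have e3 : (∑ j, (ν.1 j : ℕ)) / q + ∑ j, ρ j / q = t := by
        obtain ⟨c, hc⟩ := hdvd
        have e4 : ∑ j, (ν.1 j : ℕ) = q * c := hc
        rw [e4, Nat.mul_div_cancel_left _ hq]
        rw [hdeg, hc, ← mul_add] at hdm
        have := Nat.eq_of_mul_eq_mul_left hq hdm
        omega
      omega
    rw [h5] at h4
    exact h4
  refine ⟨τ, δ, fun t => ⟨hlow t, ?_⟩⟩
  rw [← Ap_finrank, ← Bp_finrank]
  have h1 : (Bp κ ξ (q * t)).map (LinearMap.mulLeft κ (Psi q G ξ B0))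
      ≤ LinearMap.range (Lam q G ξ w (t + δ)) := by
    rintro _ ⟨_, ⟨W, hW, rfl⟩, rfl⟩
    exact hall t W hW
  have h2 := Submodule.finrank_mono h1
  have h3 : Module.finrank κ ((Bp κ ξ (q * t)).map (LinearMap.mulLeft κ (Psi q G ξ B0)))
      = Module.finrank κ (Bp κ ξ (q * t)) :=
    (Submodule.equivMapOfInjective _ (fun x y hxy => mul_left_cancel₀ hB00 hxy) _).finrank_eq.symm
  rw [h3] at h2
  refine h2.trans ((LinearMap.finrank_range_le _).trans ?_)
  rw [Module.finrank_pi_fintype]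
  simp

end main

end Pool.Agent.TH922.KC
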