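import Mathlib
import Pool.Agent.TH922.KC.Kum2
import Pool.Agent.TH922.KC.Trans
import Pool.Agent.TH922.KC.Galois

set_option autoImplicit false
set_option linter.unusedSectionVars false

open MvPolynomial

namespace Pool.Agent.TH922.KC

section main

variable {κ Ω : Type*} [Field κ] [Field Ω] [Algebra κ Ω] {n : ℕ} {β : Type*} [Fintype β]
  {q : ℕ} {G : β → MvPolynomial (Fin (n + 1)) κ} {ξ : Fin (n + 1) → Ω}

lemma ker_Psi_hom (hq : 0 < q) (hG : ∀ i, (G i).IsHomogeneous q)
    (hQ : IsHom (RingHom.ker (aeval ξ : MvPolynomial (Fin (n + 1)) κ →ₐ[κ] Ω))) :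
    IsHom (RingHom.ker (Psi q G ξ)) := by
  intro p hp k
  rw [RingHom.mem_ker, Psi_apply] at hp ⊢
  rw [← phi_hc hq hG]
  exact hQ _ hp _

/-- arithmetic of eventually linear sequences -/
lemma slope_eq (f g : ℕ → ℕ) (q E a b K K' τ δ : ℕ)
    (hf : ∀ t ≥ K, f (t + 1) = f t + a) (hg : ∀ t ≥ K', g (t + 1) = g t + b)
    (h1 : ∀ t, E * f t ≤ g (q * (t + τ))) (h2 : ∀ t, g (q * t) ≤ E * f (t + δ)) (hq : 0 < q) :
    E * a = q * b := by
  have hfx : ∀ x, ∀ t ≥ K, f (t + x) = f t + a * x := by
    intro x t ht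
    induction x with
    | zero => simp
    | succ x ih => rw [← add_assoc, hf _ (by omega), ih]; ring
  have hgx : ∀ x, ∀ t ≥ K', g (t + x) = g t + b * x := by
    intro x t ht
    induction x with
    | zero => simp
    | succ x ih => rw [← add_assoc, hg _ (by omega), ih]; ring
  set T := K + K' with hT
  have hqT : ∀ c, q * (T + c) ≥ K' := fun c => by
    have : T + c ≤ q * (T + c) := Nat.le_mul_of_pos_left _ hq
    omega
  apply le_antisymm
  · by_contra hlt
    push Not at hlt
    have h3 := h1 (T + (g (q * (T + τ)) + 1))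
    rw [hfx _ T (by omega), show q * (T + (g (q * (T + τ)) + 1) + τ)
      = q * (T + τ) + q * (g (q * (T + τ)) + 1) by ring, hgx _ _ (hqT τ)] at h3
    nlinarith [Nat.zero_le (E * f T), Nat.zero_le (g (q * (T + τ)))]
  · by_contra hlt
    push Not at hlt
    have h3 := h2 (T + (E * f (T + δ) + 1))
    rw [show q * (T + (E * f (T + δ) + 1)) = q * (T + 0) + q * (E * f (T + δ) + 1) by ring,
      hgx _ _ (hqT 0), show T + (E * f (T + δ) + 1) + δ = (T + δ) + (E * f (T + δ) + 1) by ring,
      hfx _ (T + δ) (by omega)] at h3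
    nlinarith [Nat.zero_le (E * f (T + δ)), Nat.zero_le (g (q * (T + 0)))]

/-- **The prime case.** -/
theorem prime_case [CharZero κ] [CharZero Ω] {m s j : ℕ} (hm : m.Prime) (hjs : j < s)
    (hqm : q = m ^ s) (ω : κ) (hω : IsPrimitiveRoot ω (m ^ s))
    (hG : ∀ i, (G i).IsHomogeneous q)
    (hQ : IsHom (RingHom.ker (aeval ξ : MvPolynomial (Fin (n + 1)) κ →ₐ[κ] Ω)))
    {β' : Type*} [Fintype β'] (emb : β' → β)
    (c : β' → It (Fin (n + 1)) q → κ)
    (hc : AlgebraicIndependent ℚ (fun x : β' × It (Fin (n + 1)) q => c x.1 x.2))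
    (ζ : β' → It (Fin (n + 1)) q → κ)
    (hζ : ∀ i μ, ζ i μ ≠ 0 ∧ IsAlgebraic ℚ (ζ i μ))
    (hGc : ∀ i, G (emb i) = tp (Fin (n + 1)) κ q (fun μ => ζ i μ * c i μ))
    (hn : n ≤ Fintype.card β' * (m ^ (j + 1) - 1))
    (hgr : ∃ C : ℕ, ∀ t, hf (RingHom.ker (Psi q G ξ)) t ≤ C * (t + 1)) :
    ∃ K : ℕ, ∀ t ≥ K, ((m ^ s : ℕ) : ℤ) ∣ ((m ^ j : ℕ) : ℤ) *
      ((hf (RingHom.ker (Psi q G ξ)) (t + 1) : ℤ) - hf (RingHom.ker (Psi q G ξ)) t) := by
  classical
  have hq : 0 < q := by rw [hqm]; exact pow_pos hm.pos s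
  have hPh := ker_Psi_hom hq hG hQ
  by_cases hξ0 : ∀ i, ξ i = 0
  · -- trivial case
    refine ⟨1, fun t ht => ?_⟩
    have h0 : ∀ t ≥ 1, hf (RingHom.ker (Psi q G ξ)) t = 0 := by
      intro t ht
      have h1 := hf_le_hf (κ := κ) (ξ := ξ) hG t
      have h2 : 1 ≤ q * t := Nat.mul_pos hq ht
      obtain ⟨u, hu⟩ := Nat.exists_eq_add_of_le' h2
      rw [hu, hf_all (fun i => by rw [RingHom.mem_ker, aeval_X, hξ0 i]) u] at h1
      omega
    rw [h0 t ht, h0 (t + 1) (by omega)]
    simp
  push Not at hξ0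
  obtain ⟨j0, hj0⟩ := hξ0
  set v : Fin (n + 1) → Ω := fun i => ξ i / ξ j0 with hv
  have hξv : ∀ i, ξ i = ξ j0 * v i := fun i => by
    simp only [hv]; field_simp
  by_cases halg : ∀ i, IsAlgebraic κ (v i)
  · -- bounded case
    have hfd : FiniteDimensional κ (IntermediateField.adjoin κ (Set.range v)) :=
      IntermediateField.finiteDimensional_adjoin (by
        rintro _ ⟨i, rfl⟩
        exact (halg i).isIntegral)
    set V0 := IntermediateField.adjoin κ (Set.range v) with hV0
    have hB : ∀ t, hf (RingHom.ker (Psi q G ξ)) t ≤ Module.finrank κ V0 := by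
      intro t
      refine (hf_le_hf (κ := κ) (ξ := ξ) hG t).trans ?_
      rw [← Bp_finrank]
      have h1 : Bp κ ξ (q * t) ≤ (Subalgebra.toSubmodule V0.toSubalgebra).map
          (LinearMap.mulLeft κ (ξ j0 ^ (q * t))) := by
        rintro _ ⟨W, hW, rfl⟩
        refine ⟨aeval v W, ?_, ?_⟩
        · have h2 : ∀ p : MvPolynomial (Fin (n + 1)) κ, aeval v p ∈ V0 := by
            intro p
            induction p using MvPolynomial.induction_on with
            | C a =>
              rw [aeval_C]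
              exact V0.algebraMap_mem a
            | add p p' h h' => rw [map_add]; exact V0.add_mem h h'
            | mul_X p j h =>
              rw [map_mul, aeval_X]
              exact V0.mul_mem h (IntermediateField.subset_adjoin _ _ (Set.mem_range_self j))
          exact h2 W
        · have h3 := aeval_smul_hom v (ξ j0) (W := W) (t := q * t) hW
          change ξ j0 ^ (q * t) * aeval v W = aeval ξ W
          rw [← h3]
          congr 2
          funext i
          exact (hξv i).symm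
      have hfin : Module.Finite κ (Subalgebra.toSubmodule V0.toSubalgebra) := by
        change Module.Finite κ V0
        infer_instance
      refine (Submodule.finrank_mono h1).trans ?_
      exact Submodule.finrank_map_le _ _
    obtain ⟨K, e, hK⟩ := ev_const _ hPh ⟨Module.finrank κ V0, fun t => by
      calc ∑ s ∈ Finset.range t, hf (RingHom.ker (Psi q G ξ)) s
          ≤ ∑ s ∈ Finset.range t, Module.finrank κ V0 := Finset.sum_le_sum fun s _ => hB s
        _ = _ := by rw [Finset.sum_const, Finset.card_range, smul_eq_mul, mul_comm]⟩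
    refine ⟨K, fun t ht => ?_⟩
    rw [hK t ht, hK (t + 1) (by omega)]
    simp
  push Not at halg
  -- main case
  set F := FF q G ξ with hF
  set V := IntermediateField.adjoin F (Set.range v) with hV
  have hξF : ∀ i, ξ i ^ q ∈ F := fun i => by
    rw [← Psi_y (G := G) (ξ := ξ) (q := q) i]; exact Psi_mem_FF _
  let v' : Fin (n + 1) → V := fun i => ⟨v i, IntermediateField.subset_adjoin _ _
    (Set.mem_range_self i)⟩
  have hgen : IntermediateField.adjoin F (Set.range v') = ⊤ := by
    apply IntermediateField.lift_injective V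
    rw [IntermediateField.lift_adjoin, IntermediateField.lift_top, ← Set.range_comp]
    rfl
  let a : Fin (n + 1) → F := fun i => ⟨ξ i ^ q, hξF i⟩ / ⟨ξ j0 ^ q, hξF j0⟩
  have hva : ∀ i, v' i ^ (m ^ s) = algebraMap F V (a i) := by
    intro i
    apply Subtype.ext
    rw [← hqm]
    change v i ^ q = ξ i ^ q / ξ j0 ^ q
    simp only [hv, div_pow]
  have hωF : IsPrimitiveRoot (algebraMap κ F ω) (m ^ s) :=
    hω.map_of_injective (algebraMap κ F).injective
  have hcF : CharZero F := charZero_of_injective_algebraMap (algebraMap κ F).injective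
  have hcV : CharZero V := charZero_of_injective_algebraMap (algebraMap κ V).injective
  obtain ⟨hfd, ⟨k, hk⟩, τ, hτinj, hτ⟩ := galois_count hm (algebraMap κ F ω) hωF v' a hva hgen
  have hkj : k ≤ j := by
    by_contra hlt
    push Not at hlt
    have hN : m ^ (j + 1) ≤ Module.finrank F V := by
      rw [hk]; exact Nat.pow_le_pow_right hm.pos hlt
    have hNq : m ^ (j + 1) ≤ q + 1 := by
      rw [hqm]
      exact (Nat.pow_le_pow_right hm.pos hjs).trans (Nat.le_succ _)
    let p : Fin (m ^ (j + 1)) → Fin (n + 1) → V := fun x i => τ (Fin.castLE hN x) (v' i)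
    have hv'0 : v' j0 = 1 := by
      apply Subtype.ext
      change ξ j0 / ξ j0 = 1
      exact div_self hj0
    obtain ⟨i1, hi1⟩ := halg
    -- G at the points
    have hGp : ∀ (i : β') (x : Fin (m ^ (j + 1))),
        ∑ μ, algebraMap κ V (ζ i μ * c i μ) * ev q (p x) μ
          = algebraMap F V (⟨Psi q G ξ (X (Sum.inr (emb i))), Psi_mem_FF _⟩ /
              ⟨ξ j0 ^ q, hξF j0⟩) := by
      intro i x
      have e1 : ∀ u : Fin (n + 1) → V, aeval u (G (emb i))
          = ∑ μ, algebraMap κ V (ζ i μ * c i μ) * ev q u μ := by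
        intro u
        rw [hGc i]
        simp only [tp, LinearMap.sum_apply, LinearMap.comp_apply, LinearMap.proj_apply, map_sum]
        refine Finset.sum_congr rfl fun μ _ => ?_
        rw [aeval_monomial, ev, Finsupp.prod_fintype _ _ (fun i => pow_zero _)]
      rw [← e1]
      have e2 : aeval (p x) (G (emb i)) = τ (Fin.castLE hN x) (aeval v' (G (emb i))) := by
        have h1 : (aeval (p x) : MvPolynomial (Fin (n + 1)) κ →ₐ[κ] V)
            = ((τ (Fin.castLE hN x)).toAlgHom.restrictScalars κ).comp (aeval v') := by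
          ext i
          simp [p]
        rw [h1]
        rfl
      have e3 : aeval v' (G (emb i)) = algebraMap F V (⟨Psi q G ξ (X (Sum.inr (emb i))),
          Psi_mem_FF _⟩ / ⟨ξ j0 ^ q, hξF j0⟩) := by
        apply Subtype.ext
        have h1 : ((aeval v' (G (emb i)) : V) : Ω) = aeval v (G (emb i)) := by
          have h2 : ((IntermediateField.val V).restrictScalars κ).comp
              (aeval v' : MvPolynomial (Fin (n + 1)) κ →ₐ[κ] V) = aeval v := by
            ext i
            simp [v']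
          exact DFunLike.congr_fun h2 (G (emb i))
        rw [h1]
        change _ = Psi q G ξ (X (Sum.inr (emb i))) / ξ j0 ^ q
        rw [Psi_z]
        have h4 := aeval_smul_hom v (ξ j0) (hG (emb i))
        have h5 : (fun i => ξ j0 * v i) = ξ := by
          funext i; exact (hξv i).symm
        rw [h5] at h4
        rw [h4]
        field_simp
      rw [e2, e3, AlgEquiv.commutes]
    have hcount := trans_count (κ := κ) (Ω := V) (Nat.pos_of_ne_zero (pow_pos hm.pos (j + 1)).ne')
      hNq c hc ζ hζ v' j0 hv'0 p (by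
        intro x i
        obtain ⟨l, hl⟩ := hτ (Fin.castLE hN x) i
        refine ⟨algebraMap F V (algebraMap κ F ω ^ l), ?_, hl⟩
        have h1 : algebraMap F V (algebraMap κ F ω ^ l) = algebraMap κ V (ω ^ l) := by
          rw [map_pow, map_pow, IsScalarTower.algebraMap_apply κ F V]
        rw [h1]
        refine IsAlgebraic.algebraMap ?_
        refine IsAlgebraic.pow ?_ l
        refine (IsIntegral.of_pow (pow_pos hm.pos s) ?_).isAlgebraic
        rw [hω.pow_eq_one]
        exact isIntegral_one) (by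
        intro x
        change τ _ (v' j0) = 1
        rw [hv'0, map_one]) (by
        intro x y hxy
        have h1 := hτinj (a₁ := Fin.castLE hN x) (a₂ := Fin.castLE hN y) hxy
        exact Fin.castLE_injective hN h1) (by
        intro i x y
        rw [hGp, hGp]) ⟨i1, by
        intro hal
        apply hi1
        have := hal.algHom ((IntermediateField.val V).restrictScalars κ)
        exact this⟩
    omega
  -- compare Hilbert functions
  obtain ⟨τ', δ, hcmp⟩ := compare hq hG hQ j0 hj0 (m ^ k) hk.symm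
  obtain ⟨C, hC⟩ := hgr
  obtain ⟨K1, a1, hK1⟩ := ev_lin _ hPh ⟨C, hC⟩
  have hQp : (RingHom.ker (aeval ξ : MvPolynomial (Fin (n + 1)) κ →ₐ[κ] Ω)).IsPrime :=
    RingHom.ker_isPrime _
  have hxQ : (X j0 : MvPolynomial (Fin (n + 1)) κ) ∉
      RingHom.ker (aeval ξ : MvPolynomial (Fin (n + 1)) κ →ₐ[κ] Ω) := by
    rw [RingHom.mem_ker, aeval_X]; exact hj0
  have hmono : Monotone (hf (RingHom.ker (aeval ξ : MvPolynomial (Fin (n + 1)) κ →ₐ[κ] Ω))) :=
    monotone_nat_of_le_succ (fun t => by rw [hf_prime_succ hQ hQp hxQ]; omega)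
  obtain ⟨K2, b1, hK2⟩ := ev_lin _ hQ ⟨m ^ k * C * (δ + 1), fun t => by
    calc hf (RingHom.ker (aeval ξ : MvPolynomial (Fin (n + 1)) κ →ₐ[κ] Ω)) t
        ≤ hf (RingHom.ker (aeval ξ : MvPolynomial (Fin (n + 1)) κ →ₐ[κ] Ω)) (q * t) :=
          hmono (Nat.le_mul_of_pos_left _ hq)
      _ ≤ m ^ k * hf (RingHom.ker (Psi q G ξ)) (t + δ) := (hcmp t).2
      _ ≤ m ^ k * (C * (t + δ + 1)) := Nat.mul_le_mul_left _ (hC _)
      _ ≤ m ^ k * C * (δ + 1) * (t + 1) := by
        rw [mul_assoc, mul_assoc]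
        apply Nat.mul_le_mul_left
        apply Nat.mul_le_mul_left
        nlinarith⟩
  have hslope := slope_eq _ _ q (m ^ k) a1 b1 K1 K2 τ' δ hK1 hK2 (fun t => (hcmp t).1)
    (fun t => (hcmp t).2) hq
  refine ⟨K1, fun t ht => ?_⟩
  rw [hK1 t ht]
  have h1 : ((m ^ j : ℕ) : ℤ) * (((hf (RingHom.ker (Psi q G ξ)) t + a1 : ℕ) : ℤ)
      - hf (RingHom.ker (Psi q G ξ)) t) = ((m ^ j * a1 : ℕ) : ℤ) := by
    push_cast; ring
  rw [h1]
  have h2 : m ^ j * a1 = m ^ s * (m ^ (j - k) * b1) := by
    have h3 : m ^ j = m ^ (j - k) * m ^ k := by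
      rw [← pow_add, Nat.sub_add_cancel hkj]
    rw [h3, mul_assoc, hslope, hqm]
    ring
  rw [h2]
  exact_mod_cast Dvd.intro _ rfl

end main

end Pool.Agent.TH922.KC
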