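import Mathlib
import Pool.Agent.TH922.KC.Kum2

set_option autoImplicit false
set_option linter.unusedSectionVars false

open MvPolynomial

namespace Pool.Agent.TH922.KC

section ratio

variable {κ Ω X : Type*} [Field κ] [Field Ω] [Algebra κ Ω] [Fintype X]

/-- the degree `t` piece of the coordinate ring of a point -/
noncomputable def Pc (κ : Type*) [Field κ] [Algebra κ Ω] (u : X → Ω) (t : ℕ) : Submodule κ Ω :=
  (homogeneousSubmodule X κ t).map (aeval u : MvPolynomial X κ →ₐ[κ] Ω).toLinearMap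

instance (u : X → Ω) (t : ℕ) : Module.Finite κ (Pc κ u t) := by
  unfold Pc; infer_instance

lemma Pc_finrank (u : X → Ω) (t : ℕ) : Module.finrank κ (Pc κ u t)
    = hf (RingHom.ker (aeval u : MvPolynomial X κ →ₐ[κ] Ω)) t :=
  (hf_ker _ t).symm

lemma mem_Pc {u : X → Ω} {t : ℕ} {p : MvPolynomial X κ} (hp : p.IsHomogeneous t) :
    aeval u p ∈ Pc κ u t := ⟨p, hp, rfl⟩

lemma Pc_mul {u : X → Ω} {s t : ℕ} {a b : Ω} (ha : a ∈ Pc κ u s) (hb : b ∈ Pc κ u t) :
    a * b ∈ Pc κ u (s + t) := by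
  obtain ⟨p, hp, rfl⟩ := ha
  obtain ⟨p', hp', rfl⟩ := hb
  exact ⟨p * p', hp.mul hp', map_mul (aeval u : MvPolynomial X κ →ₐ[κ] Ω) p p'⟩

lemma Pc_one {u : X → Ω} : (1 : Ω) ∈ Pc κ u 0 :=
  ⟨1, isHomogeneous_one X κ, map_one (aeval u : MvPolynomial X κ →ₐ[κ] Ω)⟩

lemma Pc_pow {u : X → Ω} {s : ℕ} {a : Ω} (ha : a ∈ Pc κ u s) (k : ℕ) :
    a ^ k ∈ Pc κ u (s * k) := by
  induction k with
  | zero => simpa using Pc_one (κ := κ) (u := u)
  | succ k ih => rw [pow_succ, Nat.mul_succ]; exact Pc_mul ih ha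

lemma Pc_prod {u : X → Ω} {ι : Type*} (S : Finset ι) (s : ι → ℕ) (a : ι → Ω)
    (ha : ∀ i ∈ S, a i ∈ Pc κ u (s i)) : ∏ i ∈ S, a i ∈ Pc κ u (∑ i ∈ S, s i) := by
  classical
  induction S using Finset.induction_on with
  | empty => simpa using Pc_one (κ := κ) (u := u)
  | insert i S hi ih =>
    rw [Finset.prod_insert hi, Finset.sum_insert hi]
    exact Pc_mul (ha i (Finset.mem_insert_self _ _))
      (ih fun j hj => ha j (Finset.mem_insert_of_mem hj))

lemma Pc_X (u : X → Ω) (x : X) : u x ∈ Pc κ u 1 :=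
  ⟨MvPolynomial.X x, isHomogeneous_X _ _, by simp⟩

lemma Pc_induction {u : X → Ω} {t : ℕ} (b : Ω) (W : Submodule κ Ω)
    (h : ∀ μ : X →₀ ℕ, ∑ x, μ x = t → (∏ x, u x ^ μ x) * b ∈ W) :
    ∀ x ∈ Pc κ u t, x * b ∈ W := by
  rintro _ ⟨p, hp, rfl⟩
  change aeval u p * b ∈ W
  rw [p.as_sum, map_sum, Finset.sum_mul]
  refine Submodule.sum_mem _ fun μ hμ => ?_
  have hdeg : μ.degree = t := by
    by_contra hne
    exact (mem_support_iff.mp hμ) ((show p.IsHomogeneous t from hp).coeff_eq_zero hne)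
  rw [Finsupp.degree_eq_sum] at hdeg
  rw [aeval_monomial, Finsupp.prod_fintype _ _ (fun i => pow_zero _), mul_assoc, ← Algebra.smul_def]
  exact Submodule.smul_mem _ _ (h μ hdeg)

/-- the field of ratios -/
noncomputable def RF (κ : Type*) [Field κ] [Algebra κ Ω] (u : X → Ω) (x0 : X) :
    IntermediateField κ Ω := IntermediateField.adjoin κ (Set.range fun x => u x / u x0)

lemma ratio_mem (u : X → Ω) (x0 x : X) : u x / u x0 ∈ RF κ u x0 :=
  IntermediateField.subset_adjoin _ _ (Set.mem_range_self x)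

lemma Pc_div_mem {u : X → Ω} {x0 : X} (h0 : u x0 ≠ 0) {N : ℕ} {a : Ω} (ha : a ∈ Pc κ u N) :
    a / u x0 ^ N ∈ RF κ u x0 := by
  obtain ⟨p, hp, rfl⟩ := ha
  change aeval u p / u x0 ^ N ∈ _
  have h1 : aeval u p = u x0 ^ N * aeval (fun x => u x / u x0) p := by
    rw [← aeval_smul_hom _ _ hp]
    congr 2
    funext x
    field_simp
  rw [h1, mul_div_cancel_left₀ _ (pow_ne_zero _ h0)]
  have h2 : ∀ p : MvPolynomial X κ, aeval (fun x => u x / u x0) p ∈ RF κ u x0 := by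
    intro p
    induction p using MvPolynomial.induction_on with
    | C a => rw [aeval_C]; exact (RF κ u x0).algebraMap_mem a
    | add p p' h h' => rw [map_add]; exact add_mem h h'
    | mul_X p j h => rw [map_mul, aeval_X]; exact mul_mem h (ratio_mem u x0 j)
  exact h2 p

lemma ratio_poly {u : X → Ω} {x0 : X} (h0 : u x0 ≠ 0) (p : MvPolynomial X κ) {N : ℕ}
    (hN : p.totalDegree ≤ N) : aeval (fun x => u x / u x0) p * u x0 ^ N ∈ Pc κ u N := by
  rw [p.as_sum, map_sum, Finset.sum_mul]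
  refine Submodule.sum_mem _ fun μ hμ => ?_
  have hdeg : ∑ x, μ x ≤ N := by
    have h1 := le_totalDegree hμ
    rw [Finsupp.sum_fintype _ _ (fun _ => rfl)] at h1
    exact h1.trans hN
  rw [aeval_monomial, Finsupp.prod_fintype _ _ (fun i => pow_zero _), mul_assoc, ← Algebra.smul_def]
  refine Submodule.smul_mem _ _ ?_
  have h1 : (∏ x, (u x / u x0) ^ μ x) * u x0 ^ N
      = (∏ x, u x ^ μ x) * u x0 ^ (N - ∑ x, μ x) := by
    have h2 : u x0 ^ N = u x0 ^ (∑ x, μ x) * u x0 ^ (N - ∑ x, μ x) := by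
      rw [← pow_add, Nat.add_sub_cancel' hdeg]
    rw [h2, ← mul_assoc]
    congr 1
    rw [← Finset.prod_pow_eq_pow_sum, ← Finset.prod_mul_distrib]
    refine Finset.prod_congr rfl fun x _ => ?_
    rw [← mul_pow, div_mul_cancel₀ _ h0]
  rw [h1]
  have h3 := Pc_mul (Pc_prod (κ := κ) (u := u) Finset.univ (fun x => 1 * μ x) (fun x => u x ^ μ x)
    (fun x _ => Pc_pow (Pc_X u x) _)) (Pc_pow (Pc_X (κ := κ) u x0) (N - ∑ x, μ x))
  simp only [one_mul] at h3
  rwa [Nat.add_sub_cancel' hdeg] at h3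

lemma mem_RF {u : X → Ω} {x0 : X} (h0 : u x0 ≠ 0) {f : Ω} (hf : f ∈ RF κ u x0) :
    ∃ (N : ℕ) (b : Ω), b ∈ Pc κ u N ∧ b ≠ 0 ∧ f * b ∈ Pc κ u N := by
  have h := IntermediateField.mem_adjoin_iff_div.mp hf
  rw [Algebra.adjoin_range_eq_range_aeval] at h
  obtain ⟨_, ⟨p, rfl⟩, _, ⟨p', rfl⟩, rfl⟩ := h
  have e1 : (aeval (fun x => u x / u x0) : MvPolynomial X κ →ₐ[κ] Ω).toRingHom p
    = aeval (fun x => u x / u x0) p := rfl
  have e2 : (aeval (fun x => u x / u x0) : MvPolynomial X κ →ₐ[κ] Ω).toRingHom p'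
    = aeval (fun x => u x / u x0) p' := rfl
  rw [e1, e2]
  by_cases hb : aeval (fun x => u x / u x0) p' = 0
  · refine ⟨0, 1, Pc_one, one_ne_zero, ?_⟩
    rw [hb, div_zero, zero_mul]
    exact Submodule.zero_mem _
  · refine ⟨max p.totalDegree p'.totalDegree, _, ratio_poly h0 p' (le_max_right _ _),
      mul_ne_zero hb (pow_ne_zero _ h0), ?_⟩
    rw [← mul_assoc, div_mul_cancel₀ _ hb]
    exact ratio_poly h0 p (le_max_left _ _)

lemma common_RF {u : X → Ω} {x0 : X} (h0 : u x0 ≠ 0) {ι : Type*} [Fintype ι] (f : ι → Ω)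
    (hf : ∀ i, f i ∈ RF κ u x0) :
    ∃ (N : ℕ) (b : Ω), b ∈ Pc κ u N ∧ b ≠ 0 ∧ ∀ i, f i * b ∈ Pc κ u N := by
  classical
  choose N b hb hb0 hfb using fun i => mem_RF h0 (hf i)
  refine ⟨∑ i, N i, ∏ i, b i, Pc_prod _ _ _ (fun i _ => hb i),
    Finset.prod_ne_zero_iff.mpr fun i _ => hb0 i, fun i => ?_⟩
  rw [← Finset.mul_prod_erase _ _ (Finset.mem_univ i), ← mul_assoc,
    ← Finset.add_sum_erase _ _ (Finset.mem_univ i)]
  exact Pc_mul (hfb i) (Pc_prod _ _ _ (fun i _ => hb i))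

end ratio

section cmp

variable {κ Ω : Type*} [Field κ] [Field Ω] [Algebra κ Ω] {n : ℕ} {β : Type*} [Fintype β]
  {Q : ℕ} {y : Fin (n + 1) → Ω} {z : β → Ω} {e : β → ℕ}

/-- combinations of fixed elements with coefficients in a piece -/
noncomputable def Lm (V : Submodule κ Ω) {δ : ℕ} (m : Fin δ → Ω) : (Fin δ → V) →ₗ[κ] Ω :=
  ∑ k, (LinearMap.mulRight κ (m k)) ∘ₗ V.subtype ∘ₗ (LinearMap.proj k)

lemma Lm_apply (V : Submodule κ Ω) {δ : ℕ} (m : Fin δ → Ω) (a : Fin δ → V) :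
    Lm V m a = ∑ k, (a k : Ω) * m k := by
  simp [Lm]

theorem compare2 (hQ : 0 < Q) (j0 : Fin (n + 1)) (hj0 : y j0 ≠ 0)
    (he : ∀ i, 0 < e i) (hz : ∀ i, z i ^ e i ∈ Pc κ y (Q * e i))
    (hF : ∀ j, y j / y j0 ∈ RF κ (Sum.elim (fun j => y j ^ Q) z) (Sum.inl j0)) :
    ∃ δ c1 c2 : ℕ, ∀ t,
      Module.finrank κ (Pc κ (Sum.elim (fun j => y j ^ Q) z) t)
        ≤ δ * Module.finrank κ (Pc κ y (Q * (t + c1))) ∧
      δ * Module.finrank κ (Pc κ y (Q * t))
        ≤ Module.finrank κ (Pc κ (Sum.elim (fun j => y j ^ Q) z) (t + c2)) ∧ 0 < δ := by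
  classical
  set u : Fin (n + 1) ⊕ β → Ω := Sum.elim (fun j => y j ^ Q) z with hu
  set s0 := y j0 ^ Q with hs0
  have hs00 : s0 ≠ 0 := pow_ne_zero _ hj0
  have hu0 : u (Sum.inl j0) = s0 := rfl
  have hu00 : u (Sum.inl j0) ≠ 0 := hs00
  set KA := RF κ y j0 with hKA
  set v : β → Ω := fun i => z i / s0 with hv
  have hint : ∀ i, IsIntegral KA (v i) := by
    intro i
    refine IsIntegral.of_pow (he i) ?_
    have h1 : v i ^ e i ∈ KA := by
      have h2 := Pc_div_mem hj0 (hz i)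
      have h3 : v i ^ e i = z i ^ e i / y j0 ^ (Q * e i) := by
        simp only [hv, hs0, div_pow, ← pow_mul]
      rw [h3]; exact h2
    have h4 : v i ^ e i = algebraMap KA Ω ⟨v i ^ e i, h1⟩ := rfl
    rw [h4]
    exact isIntegral_algebraMap
  have hfd : FiniteDimensional KA (IntermediateField.adjoin KA (Set.range v)) :=
    IntermediateField.finiteDimensional_adjoin (by rintro _ ⟨i, rfl⟩; exact hint i)
  obtain ⟨μ, hμi, hμs⟩ := mono_basis v (fun i => (hint i).isAlgebraic)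
  have hδ0 : 0 < Module.finrank KA (IntermediateField.adjoin KA (Set.range v)) :=
    Module.finrank_pos
  generalize Module.finrank KA (IntermediateField.adjoin KA (Set.range v)) = δ at μ hμi hμs hδ0
  set m : Fin δ → Ω := fun k => ∏ i, v i ^ μ k i with hm
  set τ : ℕ := ∑ k, ∑ i, μ k i with hτ
  have hτk : ∀ k, ∑ i, μ k i ≤ τ := fun k =>
    Finset.single_le_sum (f := fun k => ∑ i, μ k i) (fun _ _ => Nat.zero_le _) (Finset.mem_univ k)
  have hMk : ∀ k, s0 ^ τ * m k ∈ Pc κ u τ := by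
    intro k
    have h1 : s0 ^ τ * m k = (∏ i, z i ^ μ k i) * s0 ^ (τ - ∑ i, μ k i) := by
      have h2 : s0 ^ τ = s0 ^ (∑ i, μ k i) * s0 ^ (τ - ∑ i, μ k i) := by
        rw [← pow_add, Nat.add_sub_cancel' (hτk k)]
      rw [h2, mul_right_comm]
      congr 1
      simp only [hm]
      rw [← Finset.prod_pow_eq_pow_sum, ← Finset.prod_mul_distrib]
      refine Finset.prod_congr rfl fun i _ => ?_
      simp only [hv]
      rw [← mul_pow, mul_div_cancel₀ _ hs00]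
    rw [h1]
    have h3 := Pc_mul (Pc_prod (κ := κ) (u := u) Finset.univ (fun i => 1 * μ k i)
      (fun i => z i ^ μ k i) (fun i _ => Pc_pow (Pc_X u (Sum.inr i)) _))
      (Pc_pow (Pc_X (κ := κ) u (Sum.inl j0)) (τ - ∑ i, μ k i))
    simp only [one_mul] at h3
    rwa [Nat.add_sub_cancel' (hτk k)] at h3
  -- part one
  have hbox1 : ∀ γ : (i : β) → Fin (e i), ∃ f : Fin δ → KA,
      (∏ i, v i ^ (γ i : ℕ)) = ∑ k, algebraMap KA Ω (f k) * m k := by
    intro γ
    apply hμs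
    exact prod_mem fun i _ => pow_mem
      (IntermediateField.subset_adjoin _ _ (Set.mem_range_self i)) _
  choose f hf using hbox1
  obtain ⟨N, b, hb, hb0, hfb⟩ := common_RF (κ := κ) hj0
    (fun x : ((i : β) → Fin (e i)) × Fin δ => (f x.1 x.2 : Ω)) (fun x => (f x.1 x.2).2)
  set b' := b * y j0 ^ ((Q - 1) * N) with hb'
  have hQN : N + (Q - 1) * N = Q * N := by
    obtain ⟨Q', rfl⟩ := Nat.exists_eq_succ_of_ne_zero hQ.ne'
    simp only [Nat.succ_eq_add_one, Nat.add_sub_cancel]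
    ring
  have hyp : ∀ k, y j0 ^ k ∈ Pc κ y k := fun k => by
    have := Pc_pow (Pc_X (κ := κ) y j0) k
    rwa [one_mul] at this
  have hfb' : ∀ γ k, (f γ k : Ω) * b' ∈ Pc κ y (Q * N) := by
    intro γ k
    rw [hb', ← mul_assoc, ← hQN]
    exact Pc_mul (hfb (γ, k)) (hyp _)
  have hb'0 : b' ≠ 0 := mul_ne_zero hb0 (pow_ne_zero _ hj0)
  have hpart1 : ∀ t, ∀ x ∈ Pc κ u t, x * b' ∈ LinearMap.range (Lm (Pc κ y (Q * (t + N))) m) := by
    intro t
    apply Pc_induction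
    intro ρ hρ
    rw [Fintype.prod_sum_type]
    rw [Fintype.sum_sum_type] at hρ
    set γ : (i : β) → Fin (e i) := fun i => ⟨ρ (Sum.inr i) % e i, Nat.mod_lt _ (he i)⟩ with hγ
    set A : Ω := (∏ j, (y j ^ Q) ^ ρ (Sum.inl j)) * ((∏ i, (z i ^ e i) ^ (ρ (Sum.inr i) / e i)) *
      s0 ^ (∑ i, (γ i : ℕ))) with hA
    have hAm : A ∈ Pc κ y (Q * t) := by
      have h1 : ∏ j, (y j ^ Q) ^ ρ (Sum.inl j) ∈ Pc κ y (∑ j, (1 * Q) * ρ (Sum.inl j)) :=
        Pc_prod _ _ _ fun j _ => Pc_pow (Pc_pow (Pc_X y j) Q) _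
      have h2 : ∏ i, (z i ^ e i) ^ (ρ (Sum.inr i) / e i)
          ∈ Pc κ y (∑ i, (Q * e i) * (ρ (Sum.inr i) / e i)) :=
        Pc_prod _ _ _ fun i _ => Pc_pow (hz i) _
      have h3 : s0 ^ (∑ i, (γ i : ℕ)) ∈ Pc κ y (Q * (∑ i, (γ i : ℕ))) := Pc_pow (hyp Q) _
      have h4 := Pc_mul h1 (Pc_mul h2 h3)
      have h5 : ∑ j, (1 * Q) * ρ (Sum.inl j) + (∑ i, (Q * e i) * (ρ (Sum.inr i) / e i)
          + Q * (∑ i, (γ i : ℕ))) = Q * t := by
        rw [← hρ, mul_add, Finset.mul_sum, Finset.mul_sum, Finset.mul_sum,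
          ← Finset.sum_add_distrib]
        congr 1
        · exact Finset.sum_congr rfl fun j _ => by rw [one_mul]
        · refine Finset.sum_congr rfl fun i _ => ?_
          have := Nat.div_add_mod (ρ (Sum.inr i)) (e i)
          calc Q * e i * (ρ (Sum.inr i) / e i) + Q * (γ i : ℕ)
              = Q * (e i * (ρ (Sum.inr i) / e i) + ρ (Sum.inr i) % e i) := by
                simp only [hγ]; ring
            _ = Q * ρ (Sum.inr i) := by rw [this]
      rwa [h5] at h4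
    have hx : (∏ j, u (Sum.inl j) ^ ρ (Sum.inl j)) * (∏ i, u (Sum.inr i) ^ ρ (Sum.inr i))
        = A * ∏ i, v i ^ (γ i : ℕ) := by
      have e1 : ∏ i, u (Sum.inr i) ^ ρ (Sum.inr i)
          = (∏ i, (z i ^ e i) ^ (ρ (Sum.inr i) / e i)) * (s0 ^ (∑ i, (γ i : ℕ)) *
            ∏ i, v i ^ (γ i : ℕ)) := by
        rw [← Finset.prod_pow_eq_pow_sum, ← Finset.prod_mul_distrib, ← Finset.prod_mul_distrib]
        refine Finset.prod_congr rfl fun i _ => ?_
        change z i ^ ρ (Sum.inr i) = _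
        rw [← mul_pow]
        simp only [hv]
        rw [mul_div_cancel₀ _ hs00, ← pow_mul, ← pow_add]
        congr 1
        exact (Nat.div_add_mod _ _).symm
      rw [e1, hA]
      simp only [hu, Sum.elim_inl]
      ring
    rw [hx, hf γ, mul_right_comm, Finset.mul_sum]
    refine ⟨fun k => ⟨A * ((f γ k : Ω) * b'), ?_⟩, ?_⟩
    · rw [mul_add]
      exact Pc_mul hAm (hfb' γ k)
    · rw [Lm_apply]
      refine Finset.sum_congr rfl fun k _ => ?_
      change A * ((f γ k : Ω) * b') * m k = A * b' * ((f γ k : Ω) * m k)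
      ring
  -- part two
  let NU := {ν : Fin (n + 1) → Fin Q // Q ∣ ∑ j, (ν j : ℕ)}
  obtain ⟨N2, b2, hb2, hb20, hfb2⟩ := common_RF (κ := κ) hu00
    (fun ν : NU => ∏ j, (y j / y j0) ^ (ν.1 j : ℕ))
    (fun ν => prod_mem fun j _ => pow_mem (hF j) _)
  have hpart2 : ∀ t, ∀ x ∈ Pc κ y (Q * t), x * b2 ∈ Pc κ u (t + N2) := by
    intro t
    apply Pc_induction
    intro ρ hρ
    have hdm : ∑ j, ρ j = Q * (∑ j, ρ j / Q) + ∑ j, ρ j % Q := by
      rw [Finset.mul_sum, ← Finset.sum_add_distrib]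
      exact Finset.sum_congr rfl fun j _ => (Nat.div_add_mod (ρ j) Q).symm
    have hdvd : Q ∣ ∑ j, ρ j % Q := by
      have : Q ∣ Q * (∑ j, ρ j / Q) + ∑ j, ρ j % Q := by
        rw [← hdm, hρ]; exact Dvd.intro _ rfl
      exact (Nat.dvd_add_right (Dvd.intro _ rfl)).mp this
    let ν : NU := ⟨fun j => ⟨ρ j % Q, Nat.mod_lt _ hQ⟩, hdvd⟩
    obtain ⟨c, hc⟩ := hdvd
    have hct : ∑ j, ρ j / Q + c = t := by
      rw [hρ, hc, ← mul_add] at hdm
      exact (Nat.eq_of_mul_eq_mul_left hQ hdm).symm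
    have h1 : ∏ j, y j ^ ρ j = (∏ j, (y j ^ Q) ^ (ρ j / Q)) * (s0 ^ c *
        ∏ j, (y j / y j0) ^ (ν.1 j : ℕ)) := by
      have e1 : s0 ^ c = ∏ j, y j0 ^ (ρ j % Q) := by
        rw [Finset.prod_pow_eq_pow_sum, hc, hs0, ← pow_mul]
      rw [e1, ← Finset.prod_mul_distrib, ← Finset.prod_mul_distrib]
      refine Finset.prod_congr rfl fun j _ => ?_
      change _ = (y j ^ Q) ^ (ρ j / Q) * (y j0 ^ (ρ j % Q) * (y j / y j0) ^ (ρ j % Q))
      rw [← mul_pow, mul_div_cancel₀ _ hj0, ← pow_mul, ← pow_add, Nat.div_add_mod]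
    rw [h1, mul_assoc, mul_assoc]
    have h2 : ∏ j, (y j ^ Q) ^ (ρ j / Q) ∈ Pc κ u (∑ j, 1 * (ρ j / Q)) :=
      Pc_prod _ _ _ fun j _ => Pc_pow (Pc_X u (Sum.inl j)) _
    have h3 : s0 ^ c ∈ Pc κ u (1 * c) := Pc_pow (Pc_X u (Sum.inl j0)) _
    have h4 := Pc_mul h2 (Pc_mul h3 (hfb2 ν))
    have h5 : ∑ j, 1 * (ρ j / Q) + (1 * c + N2) = t + N2 := by
      simp only [one_mul]; omega
    rwa [h5] at h4
  refine ⟨δ, N, N2 + τ, fun t => ⟨?_, ?_, hδ0⟩⟩
  · have h1 : (Pc κ u t).map (LinearMap.mulRight κ b')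
        ≤ LinearMap.range (Lm (Pc κ y (Q * (t + N))) m) := by
      rintro _ ⟨x, hx, rfl⟩
      exact hpart1 t x hx
    have h2 := Submodule.finrank_mono h1
    have h3 : Module.finrank κ ((Pc κ u t).map (LinearMap.mulRight κ b'))
        = Module.finrank κ (Pc κ u t) :=
      (Submodule.equivMapOfInjective _ (fun x x' hxy => mul_right_cancel₀ hb'0 hxy)
        _).finrank_eq.symm
    rw [h3] at h2
    refine h2.trans ((LinearMap.finrank_range_le _).trans ?_)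
    rw [Module.finrank_pi_fintype]
    simp
  · set V := Pc κ y (Q * t) with hV
    have h1 : Function.Injective (Lm V (fun k => b2 * (s0 ^ τ * m k))) := by
      rw [injective_iff_map_eq_zero]
      intro a ha
      rw [Lm_apply] at ha
      have haF : ∀ k, (a k : Ω) / y j0 ^ (Q * t) ∈ KA := fun k => Pc_div_mem hj0 (a k).2
      rw [Fintype.linearIndependent_iff] at hμi
      have hne : b2 * s0 ^ τ * y j0 ^ (Q * t) ≠ 0 :=
        mul_ne_zero (mul_ne_zero hb20 (pow_ne_zero _ hs00)) (pow_ne_zero _ hj0)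
      have h2 := hμi (fun k => ⟨_, haF k⟩) (by
        have h3 : b2 * s0 ^ τ * y j0 ^ (Q * t) *
            ∑ k, (⟨_, haF k⟩ : KA) • ∏ i, v i ^ μ k i = 0 := by
          rw [← ha, Finset.mul_sum]
          refine Finset.sum_congr rfl fun k _ => ?_
          rw [Algebra.smul_def]
          change b2 * s0 ^ τ * y j0 ^ (Q * t) * ((a k : Ω) / y j0 ^ (Q * t) * m k) = _
          have h4 : y j0 ^ (Q * t) * ((a k : Ω) / y j0 ^ (Q * t)) = a k :=
            mul_div_cancel₀ _ (pow_ne_zero _ hj0)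
          calc b2 * s0 ^ τ * y j0 ^ (Q * t) * ((a k : Ω) / y j0 ^ (Q * t) * m k)
              = b2 * s0 ^ τ * (y j0 ^ (Q * t) * ((a k : Ω) / y j0 ^ (Q * t))) * m k := by ring
            _ = (a k : Ω) * (b2 * (s0 ^ τ * m k)) := by rw [h4]; ring
        exact (mul_eq_zero.mp h3).resolve_left hne)
      funext k
      apply Subtype.ext
      have h3 := congrArg (fun z : KA => (z : Ω)) (h2 k)
      have h4 : (a k : Ω) / y j0 ^ (Q * t) = 0 := h3
      rw [div_eq_zero_iff] at h4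
      exact h4.resolve_right (pow_ne_zero _ hj0)
    have h2 : LinearMap.range (Lm V (fun k => b2 * (s0 ^ τ * m k)))
        ≤ Pc κ u (t + (N2 + τ)) := by
      rintro _ ⟨a, rfl⟩
      rw [Lm_apply]
      refine Submodule.sum_mem _ fun k _ => ?_
      rw [← mul_assoc, ← add_assoc]
      exact Pc_mul (hpart2 t _ (a k).2) (hMk k)
    have h3 := Submodule.finrank_mono h2
    rw [LinearMap.finrank_range_of_inj h1, Module.finrank_pi_fintype] at h3
    simpa using h3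

end cmp

end Pool.Agent.TH922.KC
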