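import Mathlib
import Pool.Agent.TH922.KC.Mer1
import Pool.Agent.TH922.KC.Kum3

set_option autoImplicit false
set_option linter.unusedSectionVars false

open MvPolynomial

namespace Pool.Agent.TH922.KC

section evl

variable {κ Ω X : Type*} [Field κ] [Field Ω] [Algebra κ Ω] [Fintype X]

theorem Pc_ev_lin (y : X → Ω)
    (hgr : ∃ C : ℕ, ∀ t, Module.finrank κ (Pc κ y t) ≤ C * (t + 1)) :
    ∃ K b : ℕ, ∀ t ≥ K, Module.finrank κ (Pc κ y (t + 1)) = Module.finrank κ (Pc κ y t) + b := by
  classical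
  let Φ : MvPolynomial X κ →ₐ[κ] Polynomial Ω :=
    aeval (fun x => Polynomial.X * Polynomial.C (y x))
  have hΦ : ∀ (t : ℕ) (p : MvPolynomial X κ), p.IsHomogeneous t →
      Φ p = Polynomial.X ^ t * Polynomial.C (aeval y p) := by
    intro t p hp
    simp only [Φ]
    rw [p.as_sum, map_sum, map_sum, map_sum, Finset.mul_sum]
    refine Finset.sum_congr rfl fun μ hμ => ?_
    have hdeg : μ.degree = t := by
      by_contra hne
      exact (mem_support_iff.mp hμ) (hp.coeff_eq_zero hne)
    rw [Finsupp.degree_eq_sum] at hdeg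
    rw [aeval_monomial, aeval_monomial, Finsupp.prod_fintype _ _ (fun i => pow_zero _),
      Finsupp.prod_fintype _ _ (fun i => pow_zero _)]
    simp only [mul_pow]
    rw [Finset.prod_mul_distrib, Finset.prod_pow_eq_pow_sum, hdeg, map_mul, map_prod]
    have : algebraMap κ (Polynomial Ω) (coeff μ p) = Polynomial.C (algebraMap κ Ω (coeff μ p)) :=
      rfl
    rw [this]
    simp only [map_pow]
    ring
  have hmem : ∀ (t : ℕ) (p : MvPolynomial X κ), p.IsHomogeneous t →
      (p ∈ RingHom.ker Φ ↔ aeval y p = 0) := by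
    intro t p hp
    rw [RingHom.mem_ker, hΦ t p hp, mul_eq_zero, Polynomial.C_eq_zero]
    constructor
    · rintro (h | h)
      · exact absurd h (pow_ne_zero _ Polynomial.X_ne_zero)
      · exact h
    · exact Or.inr
  have hHom : IsHom (RingHom.ker Φ) := by
    intro p hp k
    rw [hmem k _ (homogeneousComponent_isHomogeneous k p)]
    rw [RingHom.mem_ker, ← sum_homogeneousComponent p, map_sum] at hp
    by_cases hk : k ∈ Finset.range (p.totalDegree + 1)
    · have h1 := congrArg (fun f => Polynomial.coeff f k) hp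
      simp only [Polynomial.finset_sum_coeff, Polynomial.coeff_zero] at h1
      rw [Finset.sum_eq_single k] at h1
      · rw [hΦ k _ (homogeneousComponent_isHomogeneous k p)] at h1
        rw [mul_comm, Polynomial.coeff_C_mul, Polynomial.coeff_X_pow, if_pos rfl, mul_one] at h1
        exact h1
      · intro l _ hl
        rw [hΦ l _ (homogeneousComponent_isHomogeneous l p), mul_comm, Polynomial.coeff_C_mul,
          Polynomial.coeff_X_pow, if_neg (Ne.symm hl), mul_zero]
      · intro h; exact absurd hk h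
    · have h0 : p.totalDegree < k := by simpa using hk
      rw [homogeneousComponent_eq_zero _ _ h0, map_zero]
  have hhf : ∀ t, hf (RingHom.ker Φ) t = Module.finrank κ (Pc κ y t) := by
    intro t
    have A := hf_add (RingHom.ker Φ) t
    have B := finrank_map_add (aeval y : MvPolynomial X κ →ₐ[κ] Ω).toLinearMap
      (homogeneousSubmodule X κ t)
    have e : (homogeneousSubmodule X κ t ⊓
        LinearMap.ker (aeval y : MvPolynomial X κ →ₐ[κ] Ω).toLinearMap)
        = KJ (RingHom.ker Φ) t := by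
      ext p
      rw [mem_KJ]
      constructor
      · rintro ⟨h1, h2⟩
        exact ⟨h1, (hmem t p h1).mpr h2⟩
      · rintro ⟨h1, h2⟩
        exact ⟨h1, (hmem t p h1).mp h2⟩
    rw [e] at B
    change _ = Module.finrank κ ((homogeneousSubmodule X κ t).map
      (aeval y : MvPolynomial X κ →ₐ[κ] Ω).toLinearMap)
    omega
  obtain ⟨C, hC⟩ := hgr
  obtain ⟨K, b, h⟩ := ev_lin (RingHom.ker Φ) hHom ⟨C, fun t => by rw [hhf]; exact hC t⟩
  exact ⟨K, b, fun t ht => by rw [← hhf, ← hhf]; exact h t ht⟩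

end evl

section fin2

variable {κ Ω : Type*} [Field κ] [Field Ω] [Algebra κ Ω] {n : ℕ} {β : Type*} [Fintype β]
  {Q : ℕ} {y : Fin (n + 1) → Ω} {z : β → Ω} {e : β → ℕ}

/-- degrees of curves all of whose coordinate ratios have `Q`-th roots in the function field -/
theorem finish2 (hQ : 0 < Q) (P : Ideal (MvPolynomial (Fin (n + 1) ⊕ β) κ)) (hPh : IsHom P)
    (hP : RingHom.ker (aeval (Sum.elim (fun j => y j ^ Q) z) :
      MvPolynomial (Fin (n + 1) ⊕ β) κ →ₐ[κ] Ω) = P)
    (he : ∀ i, 0 < e i) (hz : ∀ i, z i ^ e i ∈ Pc κ y (Q * e i))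
    (hF : ∀ j0, y j0 ≠ 0 →
      ∀ j, y j / y j0 ∈ RF κ (Sum.elim (fun j => y j ^ Q) z) (Sum.inl j0))
    (hgr : ∃ C : ℕ, ∀ t, hf P t ≤ C * (t + 1)) :
    ∃ K : ℕ, ∀ t ≥ K, (Q : ℤ) ∣ (hf P (t + 1) : ℤ) - hf P t := by
  classical
  by_cases h0 : ∀ j, y j = 0
  · have hz0 : ∀ i, z i = 0 := by
      intro i
      have h1 := hz i
      have h2 : ∀ x ∈ Pc κ y (Q * e i), x * 1 ∈ (⊥ : Submodule κ Ω) := by
        apply Pc_induction
        intro μ hμ
        have h3 : 0 < ∑ x, μ x := by rw [hμ]; exact Nat.mul_pos hQ (he i)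
        obtain ⟨x, -, hx⟩ := Finset.exists_ne_zero_of_sum_ne_zero h3.ne'
        rw [Finset.prod_eq_zero (Finset.mem_univ x) (by rw [h0 x, zero_pow hx]), zero_mul]
        exact Submodule.zero_mem _
      have h4 := h2 _ h1
      rw [mul_one, Submodule.mem_bot] at h4
      exact pow_eq_zero_iff (he i).ne' |>.mp h4
    refine ⟨1, fun t ht => ?_⟩
    have hall : ∀ x, (X x : MvPolynomial (Fin (n + 1) ⊕ β) κ) ∈ P := by
      intro x
      rw [← hP, RingHom.mem_ker, aeval_X]
      rcases x with j | i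
      · change y j ^ Q = 0
        rw [h0 j, zero_pow hQ.ne']
      · exact hz0 i
    obtain ⟨s, rfl⟩ := Nat.exists_eq_add_of_le' ht
    rw [hf_all hall, hf_all hall]
    simp
  push Not at h0
  obtain ⟨j0, hj0⟩ := h0
  obtain ⟨δ, c1, c2, hc⟩ := compare2 hQ j0 hj0 he hz (hF j0 hj0)
  have hPf : ∀ t, Module.finrank κ (Pc κ (Sum.elim (fun j => y j ^ Q) z) t) = hf P t := by
    intro t
    rw [Pc_finrank, hP]
  have hδ : 0 < δ := (hc 0).2.2
  obtain ⟨C, hC⟩ := hgr
  obtain ⟨K1, a1, hK1⟩ := ev_lin P hPh ⟨C, hC⟩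
  have hmono : Monotone (fun t => Module.finrank κ (Pc κ y t)) := by
    apply monotone_nat_of_le_succ
    intro t
    have h1 : (Pc κ y t).map (LinearMap.mulRight κ (y j0)) ≤ Pc κ y (t + 1) := by
      rintro _ ⟨x, hx, rfl⟩
      exact Pc_mul hx (Pc_X y j0)
    have h2 := Submodule.finrank_mono h1
    have h3 : Module.finrank κ ((Pc κ y t).map (LinearMap.mulRight κ (y j0)))
        = Module.finrank κ (Pc κ y t) :=
      (Submodule.equivMapOfInjective _ (fun x x' hxy => mul_right_cancel₀ hj0 hxy)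
        _).finrank_eq.symm
    rw [h3] at h2
    exact h2
  obtain ⟨K2, b1, hK2⟩ := Pc_ev_lin (κ := κ) y ⟨C * (c2 + 1), fun t => by
    calc Module.finrank κ (Pc κ y t) ≤ Module.finrank κ (Pc κ y (Q * t)) :=
          hmono (Nat.le_mul_of_pos_left _ hQ)
      _ ≤ δ * Module.finrank κ (Pc κ y (Q * t)) := Nat.le_mul_of_pos_left _ hδ
      _ ≤ hf P (t + c2) := by rw [← hPf]; exact (hc t).2.1
      _ ≤ C * (t + c2 + 1) := hC _
      _ ≤ C * (c2 + 1) * (t + 1) := by
        rw [mul_assoc]
        apply Nat.mul_le_mul_left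
        nlinarith⟩
  have hgx : ∀ x, ∀ t ≥ K2, Module.finrank κ (Pc κ y (t + x))
      = Module.finrank κ (Pc κ y t) + b1 * x := by
    intro x t ht
    induction x with
    | zero => simp
    | succ x ih => rw [← add_assoc, hK2 _ (by omega), ih]; ring
  have hslope := slope_eq (fun t => Module.finrank κ (Pc κ y (Q * t))) (fun t => hf P t) 1 δ
    (b1 * Q) a1 K2 K1 c2 c1
    (fun t ht => by
      change Module.finrank κ (Pc κ y (Q * (t + 1))) = _
      rw [mul_add, mul_one]
      exact hgx Q _ (ht.trans (Nat.le_mul_of_pos_left _ hQ)))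
    hK1
    (fun t => by
      rw [one_mul, ← hPf]; exact (hc t).2.1)
    (fun t => by
      change hf P (1 * t) ≤ _
      rw [one_mul, ← hPf]; exact (hc t).1)
    Nat.one_pos
  refine ⟨K1, fun t ht => ?_⟩
  rw [hK1 t ht]
  have h1 : (((hf P t + a1 : ℕ) : ℤ) - hf P t) = (a1 : ℤ) := by push_cast; ring
  rw [h1]
  have h2 : a1 = Q * (δ * b1) := by
    rw [one_mul] at hslope
    rw [← hslope]; ring
  rw [h2]
  exact_mod_cast Dvd.intro _ rfl

end fin2

end Pool.Agent.TH922.KC
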