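import Mathlib
import Pool.Agent.TH922.KC.Mer2
import Pool.Agent.TH922.KC.Mer4

set_option autoImplicit false
set_option linter.unusedSectionVars false

open MvPolynomial

namespace Pool.Agent.TH922.KC

lemma exists_Pt {Q n : ℕ} (hQ : 2 ≤ Q) {β : Type} (bi : ℕ → β) {Ω : Type} [Field Ω]
    [IsAlgClosed Ω] (x : Fin (n + 1) ⊕ β → Ω)
    (h : ∀ j (hj : 2 * j + 1 < n + 1), x (Sum.inr (bi j)) ^ Q
      = x (Sum.inl ⟨2 * j, by omega⟩) * x (Sum.inl ⟨2 * j + 1, hj⟩) ^ (Q - 1)) :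
    ∃ yy : ℕ → Ω, Pt Q n bi x yy := by
  classical
  have hr : ∀ m, ∃ r : Ω, (∀ h : m < n + 1, x (Sum.inl ⟨m, h⟩) = r ^ Q) ∧ (n + 1 ≤ m → r = 0) := by
    intro m
    by_cases hm : m < n + 1
    · obtain ⟨r, hr⟩ := IsAlgClosed.exists_pow_nat_eq (x (Sum.inl ⟨m, hm⟩)) (show 0 < Q by omega)
      exact ⟨r, fun _ => hr.symm, fun h => absurd hm (by omega)⟩
    · exact ⟨0, fun h => absurd h hm, fun _ => rfl⟩
  choose r hr1 hr2 using hr
  have hc : ∀ j, ∃ c : Ω, c ^ Q = 1 ∧ (2 * j + 1 < n + 1 →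
      x (Sum.inr (bi j)) = c * r (2 * j) * r (2 * j + 1) ^ (Q - 1)) := by
    intro j
    by_cases hj : 2 * j + 1 < n + 1
    · have h1 := h j hj
      rw [hr1 (2 * j), hr1 (2 * j + 1)] at h1
      have h2 : x (Sum.inr (bi j)) ^ Q = (r (2 * j) * r (2 * j + 1) ^ (Q - 1)) ^ Q := by
        rw [h1, mul_pow, ← pow_mul, ← pow_mul, mul_comm Q (Q - 1)]
      by_cases h0 : r (2 * j) * r (2 * j + 1) ^ (Q - 1) = 0
      · refine ⟨1, one_pow _, fun _ => ?_⟩
        rw [h0, zero_pow (by omega)] at h2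
        rw [one_mul, h0]
        exact (pow_eq_zero_iff (by omega)).mp h2
      · refine ⟨x (Sum.inr (bi j)) / (r (2 * j) * r (2 * j + 1) ^ (Q - 1)), ?_, fun _ => ?_⟩
        · rw [div_pow, h2, div_self (pow_ne_zero _ h0)]
        · rw [mul_assoc, div_mul_cancel₀ _ h0]
    · exact ⟨1, one_pow _, fun h => absurd h hj⟩
  choose c hc1 hc2 using hc
  refine ⟨fun m => if Even m then c (m / 2) * r m else r m, ?_, ?_, ?_⟩
  · intro m hm
    change _ = (if Even m then c (m / 2) * r m else r m) ^ Q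
    split_ifs
    · rw [mul_pow, hc1, one_mul, hr1 m hm]
    · rw [hr1 m hm]
  · intro m hm
    change (if Even m then c (m / 2) * r m else r m) = 0
    rw [hr2 m hm]
    simp
  · intro j hj
    change _ = (if Even (2 * j) then c (2 * j / 2) * r (2 * j) else r (2 * j)) *
      (if Even (2 * j + 1) then c ((2 * j + 1) / 2) * r (2 * j + 1) else r (2 * j + 1)) ^ (Q - 1)
    have h1 : Even (2 * j) := even_two_mul j
    have h2 : ¬ Even (2 * j + 1) := by
      rw [Nat.not_even_iff_odd]; exact odd_two_mul_add_one j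
    have h3 : 2 * j / 2 = j := by omega
    rw [if_pos h1, if_neg h2, h3, hc2 j hj]

/-- **Paired blocks over the residue field.** -/
theorem kappa_blocks {κ : Type} [Field κ] {n : ℕ} {β : Type} [Fintype β] {Q : ℕ}
    (hQ : 2 ≤ Q) (hQ6 : Nat.Coprime Q 6) (ω : κ) (hω : IsPrimitiveRoot ω Q)
    (bi : ℕ → β) (mi : ℕ → ℕ → β) (e : β → ℕ)
    (he : ∀ j l, j < l → 2 * l < n + 1 → 2 * Q ≤ e (mi j l))
    (J : Ideal (MvPolynomial (Fin (n + 1) ⊕ β) κ)) (hJ : IsHom J)
    (hgr : ∃ C : ℕ, ∀ t, hf J t ≤ C * (t + 1))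
    (hN1 : ∀ P : Ideal (MvPolynomial (Fin (n + 1) ⊕ β) κ), P.IsPrime → J ≤ P →
      ∀ j (hj : 2 * j + 1 < n + 1), X (Sum.inr (bi j)) ^ Q - X (Sum.inl ⟨2 * j, by omega⟩) *
        X (Sum.inl ⟨2 * j + 1, hj⟩) ^ (Q - 1) ∈ P)
    (hN2 : ∀ j l, j < l → 2 * l < n + 1 → ∃ E ∈ J, ∀ (Ω : Type) [Field Ω] (θ : κ →+* Ω)
      (x : Fin (n + 1) ⊕ β → Ω) (yy : ℕ → Ω), Pt Q n bi x yy →
        eval₂ θ x E = ∏ i ∈ Finset.range Q,
          (x (Sum.inr (mi j l)) ^ e (mi j l) - wf Q (e (mi j l)) (θ ω) yy j l i))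
    (hN3 : ∀ P : Ideal (MvPolynomial (Fin (n + 1) ⊕ β) κ), P.IsPrime → J ≤ P →
      ∀ i, (∀ j, 2 * j + 1 < n + 1 → i ≠ bi j) → (∀ j l, j < l → 2 * l < n + 1 → i ≠ mi j l) →
        X (Sum.inr i) ∈ P) :
    ∃ K : ℕ, ∀ t ≥ K, (Q : ℤ) ∣ (hf J (t + 1) : ℤ) - hf J t := by
  classical
  have hdp := div_of_prime Q (1 : ℤ) J (κ := κ) ?_ J hJ le_rfl hgr
  · simpa using hdp
  intro P hP hPp hJP hPgr
  have hQ0 : 0 < Q := by omega
  -- the generic point
  let F := FractionRing (MvPolynomial (Fin (n + 1) ⊕ β) κ ⧸ P)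
  let Ω := AlgebraicClosure F
  let ψ : (MvPolynomial (Fin (n + 1) ⊕ β) κ ⧸ P) →ₐ[κ] Ω :=
    (IsScalarTower.toAlgHom κ F Ω).comp
      (IsScalarTower.toAlgHom κ (MvPolynomial (Fin (n + 1) ⊕ β) κ ⧸ P) F)
  have hψ : Function.Injective ψ := by
    intro a b hab
    have h1 : algebraMap F Ω (algebraMap _ F a) = algebraMap F Ω (algebraMap _ F b) := hab
    exact IsFractionRing.injective (MvPolynomial (Fin (n + 1) ⊕ β) κ ⧸ P) F
      ((algebraMap F Ω).injective h1)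
  let x : Fin (n + 1) ⊕ β → Ω := fun v => ψ (Ideal.Quotient.mk P (X v))
  have hax : (aeval x : MvPolynomial (Fin (n + 1) ⊕ β) κ →ₐ[κ] Ω)
      = ψ.comp (Ideal.Quotient.mkₐ κ P) := by
    apply MvPolynomial.algHom_ext
    intro v
    rw [aeval_X]
    rfl
  have hker : RingHom.ker (aeval x : MvPolynomial (Fin (n + 1) ⊕ β) κ →ₐ[κ] Ω) = P := by
    ext p
    rw [RingHom.mem_ker, hax]
    change ψ (Ideal.Quotient.mk P p) = 0 ↔ _
    rw [map_eq_zero_iff _ hψ, Ideal.Quotient.eq_zero_iff_mem]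
  have hzero : ∀ p ∈ P, aeval x p = 0 := by
    intro p hp
    rw [← hker] at hp
    exact (RingHom.mem_ker).mp hp
  obtain ⟨yy, hyy⟩ := exists_Pt hQ bi x (by
    intro j hj
    have h1 := hzero _ (hN1 P hPp hJP j hj)
    rw [map_sub, map_mul, map_pow, map_pow, aeval_X, aeval_X, aeval_X, sub_eq_zero] at h1
    exact h1)
  let y : Fin (n + 1) → Ω := fun m => yy m
  let z : β → Ω := fun i => x (Sum.inr i)
  have hxu : x = Sum.elim (fun j => y j ^ Q) z := by
    funext v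
    rcases v with m | i
    · exact hyy.hy m.1 m.2
    · rfl
  have hyP : ∀ m, yy m ∈ Pc κ y 1 := by
    intro m
    by_cases hm : m < n + 1
    · exact Pc_X y ⟨m, hm⟩
    · rw [hyy.h0 m (by omega)]; exact Submodule.zero_mem _
  -- the merging relations
  have hmerge : ∀ j l, j < l → 2 * l < n + 1 → ∃ i,
      z (mi j l) ^ e (mi j l) = wf Q (e (mi j l)) (algebraMap κ Ω ω) yy j l i := by
    intro j l hjl hl
    obtain ⟨E, hEJ, hE⟩ := hN2 j l hjl hl
    have h1 := hzero E (hJP hEJ)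
    rw [aeval_def, hE Ω (algebraMap κ Ω) x yy hyy, Finset.prod_eq_zero_iff] at h1
    obtain ⟨i, -, hi⟩ := h1
    exact ⟨i, sub_eq_zero.mp hi⟩
  have hwfP : ∀ e' j l i, 2 * Q ≤ e' → wf Q e' (algebraMap κ Ω ω) yy j l i ∈ Pc κ y (Q * e') := by
    intro e' j l i he'
    unfold wf
    refine Submodule.sum_mem _ fun s _ => Submodule.sum_mem _ fun s' _ => ?_
    rw [← map_pow, ← Algebra.smul_def]
    refine Submodule.smul_mem _ _ ?_
    have h1 := Pc_mul (Pc_pow (hyP (2 * j + s)) (cx Q s s'))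
      (Pc_pow (hyP (2 * l + s')) (Q * e' - cx Q s s'))
    have h2 : 1 * cx Q s s' + 1 * (Q * e' - cx Q s s') = Q * e' := by
      have := cx_le hQ he' s s'
      omega
    rwa [h2] at h1
  have hex : ∀ i, ∃ e' : ℕ, 0 < e' ∧ z i ^ e' ∈ Pc κ y (Q * e') := by
    intro i
    by_cases hb : ∃ j, 2 * j + 1 < n + 1 ∧ i = bi j
    · obtain ⟨j, hj, rfl⟩ := hb
      refine ⟨1, one_pos, ?_⟩
      rw [pow_one, mul_one]
      change x (Sum.inr (bi j)) ∈ _
      rw [hyy.hz j hj]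
      have h1 := Pc_mul (hyP (2 * j)) (Pc_pow (hyP (2 * j + 1)) (Q - 1))
      have h2 : 1 + 1 * (Q - 1) = Q := by omega
      rwa [h2] at h1
    by_cases hm : ∃ j l, j < l ∧ 2 * l < n + 1 ∧ i = mi j l
    · obtain ⟨j, l, hjl, hl, rfl⟩ := hm
      obtain ⟨i, hi⟩ := hmerge j l hjl hl
      have he' := he j l hjl hl
      refine ⟨e (mi j l), by omega, ?_⟩
      rw [hi]
      exact hwfP _ _ _ _ he'
    · push Not at hb hm
      have h1 := hzero _ (hN3 P hPp hJP i hb hm)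
      rw [aeval_X] at h1
      refine ⟨1, one_pos, ?_⟩
      change x (Sum.inr i) ^ 1 ∈ _
      rw [h1, pow_one]
      exact Submodule.zero_mem _
  choose e' he' hze' using hex
  have hfin := finish2 (κ := κ) (Ω := Ω) (y := y) (z := z) (e := e') hQ0 P hP
    (by rw [← hxu]; exact hker) he' hze' (by
      intro j0 hj0 j
      rw [← hxu]
      set L := RF κ x (Sum.inl j0) with hL
      have hx0 : x (Sum.inl j0) = y j0 ^ Q := hyy.hy j0.1 j0.2
      have h1 : ∀ m, yy m ^ Q / y j0 ^ Q ∈ L := by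
        intro m
        by_cases hm : m < n + 1
        · have h3 := ratio_mem (κ := κ) x (Sum.inl j0) (Sum.inl ⟨m, hm⟩)
          rw [hx0, hyy.hy m hm] at h3
          exact h3
        · rw [hyy.h0 m (by omega), zero_pow hQ0.ne', zero_div]
          exact zero_mem _
      have h2 : ∀ j, yy (2 * j) * yy (2 * j + 1) ^ (Q - 1) / y j0 ^ Q ∈ L := by
        intro j
        by_cases hm : 2 * j + 1 < n + 1
        · have h3 := ratio_mem (κ := κ) x (Sum.inl j0) (Sum.inr (bi j))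
          rw [hx0, hyy.hz j hm] at h3
          exact h3
        · rw [hyy.h0 (2 * j + 1) (by omega), zero_pow (by omega), mul_zero, zero_div]
          exact zero_mem _
      have hcross : ∀ a b, a < b → 2 * b < n + 1 → ∀ s s' : Fin 2, yy (2 * a + s) ≠ 0 →
          yy (2 * b + s') ≠ 0 → yy (2 * a + s) / yy (2 * b + s') ∈ L := by
        intro a b hab hb s s' hs hs'
        obtain ⟨i, hi⟩ := hmerge a b hab hb
        refine crossblock L hQ hQ6 ω hω yy (y j0) hj0 h1 h2 a b (e (mi a b)) i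
          (he a b hab hb) ?_ s s' hs hs'
        rw [← hi, pow_mul, ← div_pow]
        apply pow_mem
        have h3 := ratio_mem (κ := κ) x (Sum.inl j0) (Sum.inr (mi a b))
        rw [hx0] at h3
        exact h3
      by_cases hj : y j = 0
      · rw [hj, zero_div]; exact zero_mem _
      have hja : ∃ (a : ℕ) (s : Fin 2), j.1 = 2 * a + s ∧ 2 * a < n + 1 :=
        ⟨j.1 / 2, ⟨j.1 % 2, Nat.mod_lt _ (by norm_num)⟩, by simp only; omega, by omega⟩
      have hjb : ∃ (b : ℕ) (s : Fin 2), j0.1 = 2 * b + s ∧ 2 * b < n + 1 :=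
        ⟨j0.1 / 2, ⟨j0.1 % 2, Nat.mod_lt _ (by norm_num)⟩, by simp only; omega, by omega⟩
      obtain ⟨a, s, hja, ha⟩ := hja
      obtain ⟨b, s', hjb, hb⟩ := hjb
      have e1 : y j = yy (2 * a + s) := by change yy j.1 = _; rw [hja]
      have e2 : y j0 = yy (2 * b + s') := by change yy j0.1 = _; rw [hjb]
      rw [e1] at hj ⊢
      have hj0' := hj0
      rw [e2] at hj0'
      rw [e2]
      rcases lt_trichotomy a b with hab | hab | hab
      · exact hcross a b hab hb s s' hj hj0'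
      · subst hab
        exact inblock L hQ yy (y j0) hj0 h1 h2 a s s' hj0'
      · have h3 := inv_mem (hcross b a hab ha s' s hj0' hj)
        rwa [inv_div] at h3)
    hPgr
  simpa using hfin

end Pool.Agent.TH922.KC
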