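import Mathlib
import Pool.Agent.TH922.KC.Kol3
import Pool.Agent.TH922.KC.Mer5

set_option autoImplicit false
set_option linter.unusedSectionVars false

open MvPolynomial

namespace Pool.Agent.TH922.KC

/-- coordinates in the blocks of `H` -/
def SH (n J : ℕ) (H : Finset ℕ) : Finset ℕ := (Finset.range (n + 1)).filter fun m => bo J m ∈ H

lemma mem_SH {n J : ℕ} {H : Finset ℕ} {m : ℕ} : m ∈ SH n J H ↔ m < n + 1 ∧ bo J m ∈ H := by
  unfold SH; rw [Finset.mem_filter, Finset.mem_range]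

/-- exponents of the monomials of the merging forms -/
abbrev IH (n J Q D : ℕ) (H : Finset ℕ) : Type :=
  {μ : It {m // m ∈ SH n J H} D // ∀ x, x.1 % 2 = 1 → x.1 / 2 < J →
    μ.1 x = 0 ∨ (Q - 1) ^ 2 ≤ μ.1 x}

noncomputable instance (n J Q D : ℕ) (H : Finset ℕ) : Fintype (IH n J Q D H) := by
  classical
  exact Subtype.fintype _

/-- exponents as functions on `ℕ` -/
def mE {n J Q D : ℕ} {H : Finset ℕ} (o : IH n J Q D H) (m : ℕ) : ℕ :=
  if h : m ∈ SH n J H then o.1.1 ⟨m, h⟩ else 0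

section mE

variable {n J Q D : ℕ} {H : Finset ℕ} (o : IH n J Q D H)

lemma mE_mem (x : {m // m ∈ SH n J H}) : mE o x.1 = o.1.1 x := by
  unfold mE; rw [dif_pos x.2]

lemma mE_not {m : ℕ} (h : m ∉ SH n J H) : mE o m = 0 := by
  unfold mE; rw [dif_neg h]

lemma SH_sub : SH n J H ⊆ Finset.range (n + 1) := Finset.filter_subset _ _

lemma prod_mE {M : Type*} [CommMonoid M] (y : ℕ → M) :
    ∏ m ∈ Finset.range (n + 1), y m ^ mE o m = ∏ x : {m // m ∈ SH n J H}, y x.1 ^ o.1.1 x := by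
  rw [← Finset.prod_subset SH_sub (f := fun m => y m ^ mE o m)]
  · rw [← Finset.prod_coe_sort]
    exact Finset.prod_congr rfl fun x _ => by rw [mE_mem]
  · intro m _ hm
    rw [mE_not o hm, pow_zero]

lemma sum_mE : ∑ m ∈ Finset.range (n + 1), mE o m = D := by
  rw [← Finset.sum_subset SH_sub (f := fun m => mE o m)]
  · rw [← Finset.sum_coe_sort]
    have h1 := o.1.2
    rw [Finsupp.degree_eq_sum] at h1
    exact (Finset.sum_congr rfl fun x _ => mE_mem o x).trans h1
  · intro m _ hm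
    rw [mE_not o hm]

lemma pair_mE (j : ℕ) (hj : j < J) : mE o (2 * j + 1) = 0 ∨ (Q - 1) ^ 2 ≤ mE o (2 * j + 1) := by
  by_cases h : 2 * j + 1 ∈ SH n J H
  · have h1 := o.2 ⟨2 * j + 1, h⟩ (by simp only; omega) (by simp only; omega)
    rwa [← mE_mem o ⟨2 * j + 1, h⟩] at h1
  · left; exact mE_not o h

lemma cov_mE (b : ℕ) (h : bd J (mE o) b ≠ 0) : b ∈ H := by
  unfold bd at h
  by_cases hb : b < J
  · rw [if_pos hb] at h
    by_cases h1 : 2 * b ∈ SH n J H
    · have := (mem_SH.mp h1).2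
      rwa [bo_even hb] at this
    · by_cases h2 : 2 * b + 1 ∈ SH n J H
      · have := (mem_SH.mp h2).2
        rwa [bo_odd hb] at this
      · exact absurd (by rw [mE_not o h1, mE_not o h2]) h
  · rw [if_neg hb] at h
    by_cases h1 : J + b ∈ SH n J H
    · have := (mem_SH.mp h1).2
      have e : bo J (J + b) = b := by
        unfold bo; rw [if_neg (by omega)]; omega
      rwa [e] at this
    · exact absurd (mE_not o h1) h

end mE

lemma exists_IH {n J Q D : ℕ} {H : Finset ℕ} (ν : {m // m ∈ SH n J H} → ℕ) (h1 : ∑ x, ν x = D)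
    (h2 : ∀ x, x.1 % 2 = 1 → x.1 / 2 < J → ν x = 0 ∨ (Q - 1) ^ 2 ≤ ν x) :
    ∃ o : IH n J Q D H, (fun x => o.1.1 x) = ν := by
  classical
  refine ⟨⟨⟨Finsupp.equivFunOnFinite.symm ν, ?_⟩, ?_⟩, ?_⟩
  · rw [Finsupp.degree_eq_sum]
    simpa using h1
  · intro x hx1 hx2
    simpa using h2 x hx1 hx2
  · funext x
    simp

/-- ratios inside a pair -/
lemma inblock1 {κ Ω : Type*} [Field κ] [Field Ω] [Algebra κ Ω] {Q : ℕ}
    (L : IntermediateField κ Ω) (hQ : 2 ≤ Q) (a b y0 : Ω) (hy0 : y0 ≠ 0)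
    (h1 : b ^ Q / y0 ^ Q ∈ L) (h2 : a * b ^ (Q - 1) / y0 ^ Q ∈ L) (ha : a ≠ 0) (hb : b ≠ 0) :
    a / b ∈ L := by
  have h3 := L.div_mem h2 h1
  have h4 : a * b ^ (Q - 1) / y0 ^ Q / (b ^ Q / y0 ^ Q) = a / b := by
    have h5 : b ^ Q = b ^ (Q - 1) * b := by
      rw [← pow_succ, Nat.sub_add_cancel (by omega)]
    have h6 : b ^ (Q - 1) ≠ 0 := pow_ne_zero _ hb
    have h7 : y0 ^ Q ≠ 0 := pow_ne_zero _ hy0
    rw [h5]
    field_simp
  rwa [h4] at h3

/-- one merging step -/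
theorem one_merge {κ Ω : Type} [Field κ] [Field Ω] [Algebra κ Ω] [CharZero κ] [CharZero Ω]
    {n J Jb u s p e : ℕ} {β : Type} (hn : n + 1 = 2 * J + u) (hp : p.Prime) (ω : κ)
    (hω : IsPrimitiveRoot ω (p ^ s)) {x : Fin (n + 1) ⊕ β → Ω} {yy : ℕ → Ω}
    (H : Finset ℕ) (hH : ∀ b ∈ H, b < J + u) (h0 : ℕ)
    (hJb : ((SH n J H).filter fun x => x % 2 = 1 ∧ x / 2 < J).card ≤ Jb)
    (c : IH n J (p ^ s) (p ^ s * e) H → κ) (hc : AlgebraicIndependent ℚ c) (w : β)
    (l : {b // b ∈ H.erase h0} → Fin (p ^ s))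
    (hl : x (Sum.inr w) ^ e = ∑ o, algebraMap κ Ω (c o *
      ω ^ (∑ b, (l b : ℕ) * bd J (mE o) b.1)) * ∏ m ∈ Finset.range (n + 1), yy m ^ mE o m)
    (hD : p + Jb * (p ^ s - 1) ^ 2 ≤ p ^ s * e + 1)
    (F : IntermediateField κ Ω) (j0 : {m // m ∈ SH n J H}) (hj0 : yy j0.1 ≠ 0)
    (hF : ∀ m, yy m ^ (p ^ s) / yy j0.1 ^ (p ^ s) ∈ F)
    (hFw : x (Sum.inr w) / yy j0.1 ^ (p ^ s) ∈ F)
    (hcard : (SH n J H).card < p ∨ ((SH n J H).card ≤ p ∧
      ∃ x : {m // m ∈ SH n J H}, Transcendental κ (yy x.1 / yy j0.1))) :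
    ∀ m ∈ SH n J H, yy m / yy j0.1 ∈ F := by
  classical
  have hq : 0 < p ^ s := pow_pos hp.pos s
  set o := algebraMap κ Ω ω with ho
  have hoQ : o ^ (p ^ s) = 1 := by rw [ho, ← map_pow, hω.pow_eq_one, map_one]
  have ho0 : o ≠ 0 := by
    rw [ho, Ne, map_eq_zero]; exact hω.ne_zero hq.ne'
  obtain ⟨lw, hlw⟩ := twist_prod (n := n) (J := J) (u := u) hn (fun b : {b // b ∈ H.erase h0} => b.1)
    Subtype.val_injective (fun b => hH b.1 (Finset.mem_of_mem_erase b.2)) o l yy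
  let y' : ℕ → Ω := fun m => o ^ lw (bo J m) * yy m
  have hy'0 : y' j0.1 ≠ 0 := mul_ne_zero (pow_ne_zero _ ho0) hj0
  have hy'Q : ∀ m, y' m ^ (p ^ s) = yy m ^ (p ^ s) := by
    intro m
    simp only [y']
    rw [mul_pow, ← pow_mul, mul_comm (lw _), pow_mul, hoQ, one_pow, one_mul]
  have hl' : x (Sum.inr w) ^ e = ∑ o1, algebraMap κ Ω (c o1) *
      ∏ m : {m // m ∈ SH n J H}, y' m.1 ^ o1.1.1 m := by
    rw [hl]
    refine Finset.sum_congr rfl fun o1 _ => ?_
    rw [← prod_mE o1 y', hlw (mE o1), map_mul, map_pow]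
    ring
  have hkey := ratios (κ := κ) (Ω := Ω) (J := J) (s := s) (D := p ^ s * e) hp ω hω (SH n J H) hJb
    (fun (o1 : IH n J (p ^ s) (p ^ s * e) H) m => o1.1.1 m) c hc
    (fun ν h1 h2 => exists_IH ν h1 h2) hD F (fun m => y' m.1 / y' j0.1) j0 (div_self hy'0)
    (by
      intro m
      rw [div_pow, hy'Q, hy'Q]
      exact hF m.1)
    (by
      have h1 : ∑ o1, algebraMap κ Ω (c o1) *
          ∏ m : {m // m ∈ SH n J H}, (y' m.1 / y' j0.1) ^ o1.1.1 m
          = (x (Sum.inr w) / yy j0.1 ^ (p ^ s)) ^ e := by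
        rw [div_pow, hl', ← pow_mul, Finset.sum_div]
        refine Finset.sum_congr rfl fun o1 _ => ?_
        simp only [div_pow]
        rw [Finset.prod_div_distrib, Finset.prod_pow_eq_pow_sum]
        have h2 : ∑ m, o1.1.1 m = p ^ s * e := by
          have h3 := o1.1.2
          rwa [Finsupp.degree_eq_sum] at h3
        rw [h2, pow_mul (y' j0.1), hy'Q, ← pow_mul, mul_div_assoc]
      rw [h1]
      exact pow_mem hFw e)
    (by
      rcases hcard with h | ⟨h, m, hm⟩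
      · exact Or.inl h
      · refine Or.inr ⟨h, m, ?_⟩
        intro hal
        apply hm
        have h1 : yy m.1 / yy j0.1 = algebraMap κ Ω ((ω ^ lw (bo J m.1))⁻¹ * ω ^ lw (bo J j0.1)) *
            (y' m.1 / y' j0.1) := by
          simp only [y']
          rw [map_mul, map_inv₀, map_pow, map_pow]
          have h2 : o ^ lw (bo J m.1) ≠ 0 := pow_ne_zero _ ho0
          have h3 : o ^ lw (bo J j0.1) ≠ 0 := pow_ne_zero _ ho0
          rw [← ho]
          field_simp
        rw [h1]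
        exact (isAlgebraic_algebraMap _).mul hal)
  intro m hm
  have h1 := hkey ⟨m, hm⟩
  have h2 : yy m / yy j0.1 = algebraMap κ Ω ((ω ^ lw (bo J m))⁻¹ * ω ^ lw (bo J j0.1)) *
      (y' m / y' j0.1) := by
    simp only [y']
    rw [map_mul, map_inv₀, map_pow, map_pow]
    have h2 : o ^ lw (bo J m) ≠ 0 := pow_ne_zero _ ho0
    have h3 : o ^ lw (bo J j0.1) ≠ 0 := pow_ne_zero _ ho0
    rw [← ho]
    field_simp
  rw [h2]
  exact mul_mem (F.algebraMap_mem _) h1

lemma SH_card_le {n J : ℕ} {H : Finset ℕ} : (SH n J H).card ≤ 2 * H.card := by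
  apply Finset.card_le_mul_card_image_of_maps_to (f := bo J)
  · intro m hm
    exact (mem_SH.mp hm).2
  · intro b _
    have h1 : ((SH n J H).filter fun m => bo J m = b) ⊆
        (if b < J then {2 * b, 2 * b + 1} else {J + b}) := by
      intro m hm
      have h2 := (Finset.mem_filter.mp hm).2
      unfold bo at h2
      split_ifs at h2 ⊢ <;>
        simp only [Finset.mem_insert, Finset.mem_singleton] <;> omega
    refine (Finset.card_le_card h1).trans ?_
    split_ifs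
    · exact Finset.card_le_two
    · simp

lemma SH_odd_card_le {n J : ℕ} {H : Finset ℕ} :
    ((SH n J H).filter fun x => x % 2 = 1 ∧ x / 2 < J).card ≤ min J H.card := by
  have hinj : Set.InjOn (fun x => x / 2)
      (((SH n J H).filter fun x => x % 2 = 1 ∧ x / 2 < J : Finset ℕ) : Set ℕ) := by
    intro x hx y hy hxy
    have hx' := (Finset.mem_filter.mp (Finset.mem_coe.mp hx)).2
    have hy' := (Finset.mem_filter.mp (Finset.mem_coe.mp hy)).2
    have h2 : x / 2 = y / 2 := hxy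
    omega
  apply le_min
  · have h1 := Finset.card_le_card_of_injOn (t := Finset.range J) (fun x => x / 2)
      (by
        intro x hx
        have hx' := (Finset.mem_filter.mp (Finset.mem_coe.mp hx)).2
        exact Finset.mem_coe.mpr (Finset.mem_range.mpr hx'.2)) hinj
    rwa [Finset.card_range] at h1
  · apply Finset.card_le_card_of_injOn (fun x => x / 2) _ hinj
    intro x hx
    have hx' := Finset.mem_filter.mp (Finset.mem_coe.mp hx)
    have h3 := (mem_SH.mp hx'.1).2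
    have h4 : bo J x = x / 2 := by
      unfold bo; rw [if_pos]; omega
    rw [h4] at h3
    exact Finset.mem_coe.mpr h3

lemma bounded_case {κ Ω X : Type*} [Field κ] [Field Ω] [Algebra κ Ω] [Fintype X] (x : X → Ω)
    (x0 : X) (h0 : x x0 ≠ 0) (halg : ∀ v, IsAlgebraic κ (x v / x x0))
    (P : Ideal (MvPolynomial X κ)) (hPh : IsHom P)
    (hker : RingHom.ker (aeval x : MvPolynomial X κ →ₐ[κ] Ω) = P) :
    ∃ K : ℕ, ∀ t ≥ K, hf P (t + 1) = hf P t := by
  classical
  have hfd : FiniteDimensional κ (RF κ x x0) :=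
    IntermediateField.finiteDimensional_adjoin (by
      rintro _ ⟨i, rfl⟩
      exact (halg i).isIntegral)
  have hB : ∀ t, hf P t ≤ Module.finrank κ (RF κ x x0) := by
    intro t
    rw [← hker, ← Pc_finrank]
    have h1 : Pc κ x t ≤ (Subalgebra.toSubmodule (RF κ x x0).toSubalgebra).map
        (LinearMap.mulLeft κ (x x0 ^ t)) := by
      intro a ha
      refine ⟨a / x x0 ^ t, Pc_div_mem h0 ha, ?_⟩
      change x x0 ^ t * (a / x x0 ^ t) = a
      rw [mul_div_cancel₀]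
      exact pow_ne_zero _ h0
    have hfin : Module.Finite κ (Subalgebra.toSubmodule (RF κ x x0).toSubalgebra) := by
      change Module.Finite κ (RF κ x x0)
      infer_instance
    refine (Submodule.finrank_mono h1).trans ?_
    exact Submodule.finrank_map_le _ _
  obtain ⟨K, e, hK⟩ := ev_const _ hPh ⟨Module.finrank κ (RF κ x x0), fun t => by
    calc ∑ s ∈ Finset.range t, hf P s
        ≤ ∑ s ∈ Finset.range t, Module.finrank κ (RF κ x x0) := Finset.sum_le_sum fun s _ => hB s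
      _ = _ := by rw [Finset.sum_const, Finset.card_range, smul_eq_mul, mul_comm]⟩
  exact ⟨K, fun t ht => by rw [hK t ht, hK (t + 1) (by omega)]⟩

end Pool.Agent.TH922.KC
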