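import Mathlib
import Pool.Agent.TH922.KC.Kol4

set_option autoImplicit false
set_option linter.unusedSectionVars false

open MvPolynomial

namespace Pool.Agent.TH922.KC

lemma exists_PtJ {Q n J : ℕ} (hQ : 2 ≤ Q) (hJ : 2 * J ≤ n + 1) {β : Type} (bi : ℕ → β)
    {Ω : Type} [Field Ω] [IsAlgClosed Ω] (x : Fin (n + 1) ⊕ β → Ω)
    (h : ∀ j (hj : j < J), x (Sum.inr (bi j)) ^ Q
      = x (Sum.inl ⟨2 * j, by omega⟩) * x (Sum.inl ⟨2 * j + 1, by omega⟩) ^ (Q - 1)) :
    ∃ yy : ℕ → Ω, PtJ Q n J bi x yy := by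
  classical
  have hr : ∀ m, ∃ r : Ω, (∀ h : m < n + 1, x (Sum.inl ⟨m, h⟩) = r ^ Q) ∧ (n + 1 ≤ m → r = 0) := by
    intro m
    by_cases hm : m < n + 1
    · obtain ⟨r, hr⟩ := IsAlgClosed.exists_pow_nat_eq (x (Sum.inl ⟨m, hm⟩)) (show 0 < Q by omega)
      exact ⟨r, fun _ => hr.symm, fun h => absurd hm (by omega)⟩
    · exact ⟨0, fun h => absurd h hm, fun _ => rfl⟩
  choose r hr1 hr2 using hr
  have hc : ∀ j, ∃ c : Ω, c ^ Q = 1 ∧ (j < J →
      x (Sum.inr (bi j)) = c * r (2 * j) * r (2 * j + 1) ^ (Q - 1)) := by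
    intro j
    by_cases hj : j < J
    · have h1 := h j hj
      rw [hr1 (2 * j), hr1 (2 * j + 1)] at h1
      have h2 : x (Sum.inr (bi j)) ^ Q = (r (2 * j) * r (2 * j + 1) ^ (Q - 1)) ^ Q := by
        rw [h1, mul_pow, ← pow_mul, ← pow_mul, mul_comm Q (Q - 1)]
      by_cases h0 : r (2 * j) * r (2 * j + 1) ^ (Q - 1) = 0
      · refine ⟨1, one_pow _, fun _ => ?_⟩
        rw [h0, zero_pow (by omega)] at h2
        rw [one_mul, h0]
        exact (pow_eq_zero_iff (by omega)).mp h2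
      · refine ⟨x (Sum.inr (bi j)) / (r (2 * j) * r (2 * j + 1) ^ (Q - 1)), ?_, fun _ => ?_⟩
        · rw [div_pow, h2, div_self (pow_ne_zero _ h0)]
        · rw [mul_assoc, div_mul_cancel₀ _ h0]
    · exact ⟨1, one_pow _, fun h => absurd h hj⟩
  choose c hc1 hc2 using hc
  refine ⟨fun m => if Even m then c (m / 2) * r m else r m, ?_, ?_, ?_⟩
  · intro m hm
    split_ifs
    · rw [mul_pow, hc1, one_mul, hr1 m hm]
    · rw [hr1 m hm]
  · intro m hm
    rw [hr2 m hm]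
    simp
  · intro j hj
    have h1 : Even (2 * j) := even_two_mul j
    have h2 : ¬ Even (2 * j + 1) := by
      rw [Nat.not_even_iff_odd]; exact odd_two_mul_add_one j
    have h3 : 2 * j / 2 = j := by omega
    rw [if_pos h1, if_neg h2, h3, hc2 j hj]

lemma bo_lt {J u m : ℕ} (h : m < 2 * J + u) : bo J m < J + u := by
  unfold bo; split_ifs <;> omega

/-- **Block coverings over the residue field.** -/
theorem kappa_design {κ : Type} [Field κ] [CharZero κ] {n J u s p : ℕ} {β : Type} [Fintype β]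
    (hn : n + 1 = 2 * J + u) (hp : p.Prime) (hs : s ≠ 0) (ω : κ)
    (hω : IsPrimitiveRoot ω (p ^ s)) (bi : ℕ → β) {Λ : Type} (H : Λ → Finset ℕ) (h0 : Λ → ℕ)
    (hnp : ∀ h, n < p ∨ (SH n J (H h)).card < p)
    (hH : ∀ h, ∀ b ∈ H h, b < J + u)
    (hcov : ∀ a < J + u, ∀ b < J + u, a ≠ b → ∃ h, a ∈ H h ∧ b ∈ H h)
    (mi : Λ → β) (e : Λ → ℕ) (he : ∀ h, 0 < e h)
    (c : ∀ h, IH n J (p ^ s) (p ^ s * e h) (H h) → κ) (hc : ∀ h, AlgebraicIndependent ℚ (c h))
    (hD : ∀ h, p + min J (H h).card * (p ^ s - 1) ^ 2 ≤ p ^ s * e h + 1)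
    (I : Ideal (MvPolynomial (Fin (n + 1) ⊕ β) κ)) (hI : IsHom I)
    (hgr : ∃ C : ℕ, ∀ t, hf I t ≤ C * (t + 1))
    (hN1 : ∀ P : Ideal (MvPolynomial (Fin (n + 1) ⊕ β) κ), P.IsPrime → I ≤ P →
      ∀ j (hj : j < J), X (Sum.inr (bi j)) ^ (p ^ s) - X (Sum.inl ⟨2 * j, by omega⟩) *
        X (Sum.inl ⟨2 * j + 1, by omega⟩) ^ (p ^ s - 1) ∈ P)
    (hN2 : ∀ h, ∃ E ∈ I, ∀ (Ω : Type) [Field Ω] (θ : κ →+* Ω)
      (x : Fin (n + 1) ⊕ β → Ω) (yy : ℕ → Ω), PtJ (p ^ s) n J bi x yy →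
        eval₂ θ x E = ∏ l : {b // b ∈ (H h).erase (h0 h)} → Fin (p ^ s),
          (x (Sum.inr (mi h)) ^ e h - ∑ o, θ (c h o * ω ^ (∑ b, (l b : ℕ) * bd J (mE o) b.1)) *
            ∏ m ∈ Finset.range (n + 1), yy m ^ mE o m))
    (hN3 : ∀ P : Ideal (MvPolynomial (Fin (n + 1) ⊕ β) κ), P.IsPrime → I ≤ P →
      ∀ i, (∀ j, j < J → i ≠ bi j) → (∀ h, i ≠ mi h) → X (Sum.inr i) ∈ P) :
    ∃ K : ℕ, ∀ t ≥ K, ((p ^ s : ℕ) : ℤ) ∣ (hf I (t + 1) : ℤ) - hf I t := by
  classical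
  have hdp := div_of_prime (p ^ s) (1 : ℤ) I (κ := κ) ?_ I hI le_rfl hgr
  · simpa using hdp
  intro P hP hPp hIP hPgr
  have hQ : 2 ≤ p ^ s := hp.two_le.trans (Nat.le_self_pow hs p)
  have hQ0 : 0 < p ^ s := by omega
  -- the generic point
  let F := FractionRing (MvPolynomial (Fin (n + 1) ⊕ β) κ ⧸ P)
  let Ω := AlgebraicClosure F
  let ψ : (MvPolynomial (Fin (n + 1) ⊕ β) κ ⧸ P) →ₐ[κ] Ω :=
    (IsScalarTower.toAlgHom κ F Ω).comp
      (IsScalarTower.toAlgHom κ (MvPolynomial (Fin (n + 1) ⊕ β) κ ⧸ P) F)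
  have hψ : Function.Injective ψ := by
    intro a b hab
    have h1 : algebraMap F Ω (algebraMap _ F a) = algebraMap F Ω (algebraMap _ F b) := hab
    exact IsFractionRing.injective (MvPolynomial (Fin (n + 1) ⊕ β) κ ⧸ P) F
      ((algebraMap F Ω).injective h1)
  have hcΩ : CharZero Ω := charZero_of_injective_algebraMap (algebraMap κ Ω).injective
  let x : Fin (n + 1) ⊕ β → Ω := fun v => ψ (Ideal.Quotient.mk P (X v))
  have hax : (aeval x : MvPolynomial (Fin (n + 1) ⊕ β) κ →ₐ[κ] Ω)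
      = ψ.comp (Ideal.Quotient.mkₐ κ P) := by
    apply MvPolynomial.algHom_ext
    intro v
    rw [aeval_X]
    rfl
  have hker : RingHom.ker (aeval x : MvPolynomial (Fin (n + 1) ⊕ β) κ →ₐ[κ] Ω) = P := by
    ext p
    rw [RingHom.mem_ker, hax]
    change ψ (Ideal.Quotient.mk P p) = 0 ↔ _
    rw [map_eq_zero_iff _ hψ, Ideal.Quotient.eq_zero_iff_mem]
  have hzero : ∀ p ∈ P, aeval x p = 0 := by
    intro p hp
    rw [← hker] at hp
    exact (RingHom.mem_ker).mp hp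
  obtain ⟨yy, hyy⟩ := exists_PtJ (J := J) hQ (by omega) bi x (by
    intro j hj
    have h1 := hzero _ (hN1 P hPp hIP j hj)
    rw [map_sub, map_mul, map_pow, map_pow, aeval_X, aeval_X, aeval_X, sub_eq_zero] at h1
    exact h1)
  let y : Fin (n + 1) → Ω := fun m => yy m
  let z : β → Ω := fun i => x (Sum.inr i)
  have hxu : x = Sum.elim (fun j => y j ^ (p ^ s)) z := by
    funext v
    rcases v with m | i
    · exact hyy.hy m.1 m.2
    · rfl
  have hyP : ∀ m, yy m ∈ Pc κ y 1 := by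
    intro m
    by_cases hm : m < n + 1
    · exact Pc_X y ⟨m, hm⟩
    · rw [hyy.h0 m (by omega)]; exact Submodule.zero_mem _
  -- the merging relations
  have hmerge : ∀ h, ∃ l : {b // b ∈ (H h).erase (h0 h)} → Fin (p ^ s),
      z (mi h) ^ e h = ∑ o, algebraMap κ Ω (c h o * ω ^ (∑ b, (l b : ℕ) * bd J (mE o) b.1)) *
        ∏ m ∈ Finset.range (n + 1), yy m ^ mE o m := by
    intro h
    obtain ⟨E, hEI, hE⟩ := hN2 h
    have h1 := hzero E (hIP hEI)
    rw [aeval_def, hE Ω (algebraMap κ Ω) x yy hyy, Finset.prod_eq_zero_iff] at h1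
    obtain ⟨l, -, hl⟩ := h1
    exact ⟨l, sub_eq_zero.mp hl⟩
  have hex : ∀ i, ∃ e' : ℕ, 0 < e' ∧ z i ^ e' ∈ Pc κ y (p ^ s * e') := by
    intro i
    by_cases hb : ∃ j, j < J ∧ i = bi j
    · obtain ⟨j, hj, rfl⟩ := hb
      refine ⟨1, one_pos, ?_⟩
      rw [pow_one, mul_one]
      change x (Sum.inr (bi j)) ∈ _
      rw [hyy.hz j hj]
      have h1 := Pc_mul (hyP (2 * j)) (Pc_pow (hyP (2 * j + 1)) (p ^ s - 1))
      have h2 : 1 + 1 * (p ^ s - 1) = p ^ s := by omega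
      rwa [h2] at h1
    by_cases hm : ∃ h, i = mi h
    · obtain ⟨h, rfl⟩ := hm
      obtain ⟨l, hl⟩ := hmerge h
      refine ⟨e h, he h, ?_⟩
      rw [hl]
      refine Submodule.sum_mem _ fun o _ => ?_
      rw [← Algebra.smul_def]
      refine Submodule.smul_mem _ _ ?_
      have h1 := Pc_prod (κ := κ) (u := y) (Finset.range (n + 1)) (fun m => 1 * mE o m)
        (fun m => yy m ^ mE o m) (fun m _ => Pc_pow (hyP m) _)
      simp only [one_mul] at h1
      rwa [sum_mE] at h1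
    · push Not at hb hm
      have h1 := hzero _ (hN3 P hPp hIP i hb hm)
      rw [aeval_X] at h1
      refine ⟨1, one_pos, ?_⟩
      change x (Sum.inr i) ^ 1 ∈ _
      rw [h1, pow_one]
      exact Submodule.zero_mem _
  choose e' he' hze' using hex
  by_cases hbd : ∃ j0, y j0 ≠ 0 ∧ ∀ j, IsAlgebraic κ (y j / y j0)
  · obtain ⟨j0, hj0, halg⟩ := hbd
    have hx0 : x (Sum.inl j0) = y j0 ^ (p ^ s) := hyy.hy j0.1 j0.2
    have hx0' : x (Sum.inl j0) ≠ 0 := by rw [hx0]; exact pow_ne_zero _ hj0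
    have hK0 : Algebra.IsAlgebraic κ (RF κ y j0) :=
      IntermediateField.isAlgebraic_adjoin (by
        rintro _ ⟨i, rfl⟩
        exact (halg i).isIntegral)
    have hal : ∀ a ∈ RF κ y j0, IsAlgebraic κ a := by
      intro a ha
      have h1 : IsAlgebraic κ (⟨a, ha⟩ : RF κ y j0) := Algebra.IsAlgebraic.isAlgebraic _
      exact h1.algebraMap (A := Ω)
    obtain ⟨K, hK⟩ := bounded_case x (Sum.inl j0) hx0' (by
      intro v
      rcases v with m | i
      · have h1 : x (Sum.inl m) = y m ^ (p ^ s) := hyy.hy m.1 m.2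
        rw [h1, hx0, ← div_pow]
        exact (halg m).pow _
      · have h1 := hal _ (Pc_div_mem hj0 (hze' i))
        rw [pow_mul, ← div_pow] at h1
        rw [hx0]
        exact IsAlgebraic.of_pow (he' i) h1) P hP hker
    refine ⟨K, fun t ht => ?_⟩
    rw [hK t ht]
    simp
  push Not at hbd
  have hfin := finish2 (κ := κ) (Ω := Ω) (y := y) (z := z) (e := e') hQ0 P hP
    (by rw [← hxu]; exact hker) he' hze' (by
      intro j0 hj0 j
      rw [← hxu]
      set L := RF κ x (Sum.inl j0) with hL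
      have hx0 : x (Sum.inl j0) = y j0 ^ (p ^ s) := hyy.hy j0.1 j0.2
      have h1 : ∀ m, yy m ^ (p ^ s) / y j0 ^ (p ^ s) ∈ L := by
        intro m
        by_cases hm : m < n + 1
        · have h3 := ratio_mem (κ := κ) x (Sum.inl j0) (Sum.inl ⟨m, hm⟩)
          rw [hx0, hyy.hy m hm] at h3
          exact h3
        · rw [hyy.h0 m (by omega), zero_pow hQ0.ne', zero_div]
          exact zero_mem _
      have h2 : ∀ j < J, yy (2 * j) * yy (2 * j + 1) ^ (p ^ s - 1) / y j0 ^ (p ^ s) ∈ L := by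
        intro j hj
        have h3 := ratio_mem (κ := κ) x (Sum.inl j0) (Sum.inr (bi j))
        rw [hx0, hyy.hz j hj] at h3
        exact h3
      by_cases hj : y j = 0
      · rw [hj, zero_div]; exact zero_mem _
      by_cases hb : bo J j.1 = bo J j0.1
      · by_cases hjj : j = j0
        · rw [hjj, div_self hj0]; exact one_mem _
        have hjj' : j.1 ≠ j0.1 := fun h => hjj (Fin.ext h)
        have h3 : ∃ a, a < J ∧ ((j.1 = 2 * a ∧ j0.1 = 2 * a + 1) ∨
            (j0.1 = 2 * a ∧ j.1 = 2 * a + 1)) := by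
          refine ⟨j.1 / 2, ?_⟩
          unfold bo at hb
          split_ifs at hb <;> omega
        obtain ⟨a, ha, (⟨e1, e2⟩ | ⟨e1, e2⟩)⟩ := h3
        · have e3 : y j = yy (2 * a) := by change yy j.1 = _; rw [e1]
          have e4 : y j0 = yy (2 * a + 1) := by change yy j0.1 = _; rw [e2]
          have h5 := inblock1 L hQ (yy (2 * a)) (yy (2 * a + 1)) (y j0) hj0 (h1 _) (h2 a ha)
            (e3 ▸ hj) (e4 ▸ hj0)
          rw [e3, e4]
          exact h5
        · have e3 : y j0 = yy (2 * a) := by change yy j0.1 = _; rw [e1]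
          have e4 : y j = yy (2 * a + 1) := by change yy j.1 = _; rw [e2]
          have h5 := inv_mem (inblock1 L hQ (yy (2 * a)) (yy (2 * a + 1)) (y j0) hj0 (h1 _)
            (h2 a ha) (e3 ▸ hj0) (e4 ▸ hj))
          rw [inv_div] at h5
          rw [e3, e4]
          exact h5
      · obtain ⟨h, hh1, hh2⟩ := hcov _ (bo_lt (hn ▸ j.2)) _ (bo_lt (hn ▸ j0.2)) hb
        obtain ⟨l, hl⟩ := hmerge h
        have hjS : j.1 ∈ SH n J (H h) := mem_SH.mpr ⟨j.2, hh1⟩
        have hj0S : j0.1 ∈ SH n J (H h) := mem_SH.mpr ⟨j0.2, hh2⟩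
        refine one_merge (κ := κ) (Ω := Ω) (u := u) (x := x) (yy := yy) hn hp ω hω (H h) (hH h)
          (h0 h) SH_odd_card_le (c h) (hc h) (mi h) l hl (hD h) L ⟨j0.1, hj0S⟩ hj0 h1 ?_ ?_ j.1 hjS
        · have h3 := ratio_mem (κ := κ) x (Sum.inl j0) (Sum.inr (mi h))
          rw [hx0] at h3
          exact h3
        · by_cases hcd : (SH n J (H h)).card < p
          · exact Or.inl hcd
          · right
            have hnp' := (hnp h).resolve_right hcd
            have h3 : (SH n J (H h)).card ≤ (Finset.range (n + 1)).card :=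
              Finset.card_le_card SH_sub
            rw [Finset.card_range] at h3
            refine ⟨by omega, ?_⟩
            obtain ⟨j1, hj1⟩ := hbd j0 hj0
            have h4 : SH n J (H h) = Finset.range (n + 1) := by
              apply Finset.eq_of_subset_of_card_le SH_sub
              rw [Finset.card_range]; omega
            exact ⟨⟨j1.1, by rw [h4]; exact Finset.mem_range.mpr j1.2⟩, hj1⟩)
    hPgr
  simpa using hfin

end Pool.Agent.TH922.KC
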