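import Mathlib
import Pool.Agent.TH922.KC.Kum3

set_option autoImplicit false
set_option linter.unusedSectionVars false

open MvPolynomial

namespace Pool.Agent.TH922.KC

section lo

variable {κ : Type*} [Field κ] {n : ℕ} {β : Type*}

/-- `y_j ↦ x_j ^ q`, `z_i ↦ z_i` -/
noncomputable def EE (κ : Type*) [Field κ] (n : ℕ) (β : Type*) (q : ℕ) :
    MvPolynomial (Fin (n + 1) ⊕ β) κ →ₐ[κ] MvPolynomial β (MvPolynomial (Fin (n + 1)) κ) :=
  aeval (Sum.elim (fun j => C (X j ^ q)) (fun i => X i))

lemma EE_y (q : ℕ) (j : Fin (n + 1)) : EE κ n β q (X (Sum.inl j)) = C (X j ^ q) := by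
  simp [EE]

lemma EE_z (q : ℕ) (i : β) : EE κ n β q (X (Sum.inr i)) = X i := by
  simp [EE]

lemma EE_inj {q : ℕ} (hq : 0 < q) : Function.Injective (EE κ n β q) := by
  have h1 : ∀ p, EE κ n β q p = MvPolynomial.map (expand q (R := κ) (σ := Fin (n + 1)) :
      MvPolynomial (Fin (n + 1)) κ →+* MvPolynomial (Fin (n + 1)) κ)
      (sumAlgEquiv κ β (Fin (n + 1)) (rename Sum.swap p)) := by
    intro p
    induction p using MvPolynomial.induction_on with
    | C a =>
      rw [rename_C, sumAlgEquiv_C_inl, map_C]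
      have : EE κ n β q (C a) = algebraMap κ _ a := by
        rw [EE, aeval_C]
      rw [this]
      simp [MvPolynomial.algebraMap_apply]
    | add p p' h h' => rw [map_add, h, h', map_add, map_add, map_add]
    | mul_X p i h =>
      rw [map_mul, h, map_mul, map_mul, map_mul, rename_X]
      congr 1
      rcases i with j | i
      · rw [EE_y, Sum.swap_inl, sumAlgEquiv_X_inr, map_C]
        simp
      · rw [EE_z, Sum.swap_inr, sumAlgEquiv_X_inl, map_X]
  intro p p' h
  rw [h1, h1] at h
  have h2 := MvPolynomial.map_injective _ (expand_injective (R := κ) (σ := Fin (n + 1)) hq) h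
  have h3 := (sumAlgEquiv κ β (Fin (n + 1))).injective h2
  exact rename_injective _ (Equiv.sumComm _ _).injective h3

theorem exists_lift {q : ℕ} (hq : 0 < q) (P : Ideal (MvPolynomial (Fin (n + 1) ⊕ β) κ))
    (hP : P.IsPrime) :
    ∃ Q : Ideal (MvPolynomial β (MvPolynomial (Fin (n + 1)) κ)), Q.IsPrime ∧
      Q.comap (EE κ n β q) = P := by
  let : Algebra (MvPolynomial (Fin (n + 1) ⊕ β) κ) (MvPolynomial β (MvPolynomial (Fin (n + 1)) κ)) :=
    (EE κ n β q).toRingHom.toAlgebra
  have halg : ∀ p, algebraMap (MvPolynomial (Fin (n + 1) ⊕ β) κ)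
      (MvPolynomial β (MvPolynomial (Fin (n + 1)) κ)) p = EE κ n β q p := fun p => rfl
  have hint : Algebra.IsIntegral (MvPolynomial (Fin (n + 1) ⊕ β) κ)
      (MvPolynomial β (MvPolynomial (Fin (n + 1)) κ)) := by
    refine ⟨fun u => ?_⟩
    induction u using MvPolynomial.induction_on with
    | C t =>
      induction t using MvPolynomial.induction_on with
      | C a =>
        have : (C (C a) : MvPolynomial β (MvPolynomial (Fin (n + 1)) κ))
            = algebraMap (MvPolynomial (Fin (n + 1) ⊕ β) κ) _ (C a) := by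
          rw [halg, EE, aeval_C]
          simp [MvPolynomial.algebraMap_apply]
        rw [this]
        exact isIntegral_algebraMap
      | add p p' h h' => rw [map_add]; exact h.add h'
      | mul_X p j h =>
        rw [map_mul]
        refine h.mul (IsIntegral.of_pow hq ?_)
        have : (C (X j) ^ q : MvPolynomial β (MvPolynomial (Fin (n + 1)) κ))
            = algebraMap (MvPolynomial (Fin (n + 1) ⊕ β) κ) _ (X (Sum.inl j)) := by
          rw [halg, EE_y, map_pow]
        rw [this]
        exact isIntegral_algebraMap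
    | add p p' h h' => exact h.add h'
    | mul_X p i h =>
      refine h.mul ?_
      have : (X i : MvPolynomial β (MvPolynomial (Fin (n + 1)) κ))
            = algebraMap (MvPolynomial (Fin (n + 1) ⊕ β) κ) _ (X (Sum.inr i)) := by
          rw [halg, EE_z]
      rw [this]
      exact isIntegral_algebraMap
  obtain ⟨Q, hQ1, hQ2⟩ := Ideal.exists_ideal_over_prime_of_isIntegral_of_isDomain
    (S := MvPolynomial β (MvPolynomial (Fin (n + 1)) κ)) P (by
      have : RingHom.ker (algebraMap (MvPolynomial (Fin (n + 1) ⊕ β) κ)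
          (MvPolynomial β (MvPolynomial (Fin (n + 1)) κ))) = ⊥ := by
        rw [← RingHom.injective_iff_ker_eq_bot]
        exact EE_inj hq
      rw [this]
      exact bot_le)
  exact ⟨Q, hQ1, hQ2⟩

attribute [local instance] MvPolynomial.gradedAlgebra

/-- **Lying over.** -/
theorem lying_over {q : ℕ} (hq : 0 < q) (P : Ideal (MvPolynomial (Fin (n + 1) ⊕ β) κ))
    (hPh : IsHom P) (hP : P.IsPrime) {Λ : Type*} [Fintype Λ]
    (cand : β → Λ → MvPolynomial (Fin (n + 1)) κ) (hcand : ∀ i l, (cand i l).IsHomogeneous q)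
    (hN : ∀ i, ∃ N ∈ P, EE κ n β q N = ∏ l, (X i - C (cand i l))) :
    ∃ (sel : β → Λ) (Q : Ideal (MvPolynomial (Fin (n + 1)) κ)), Q.IsPrime ∧ IsHom Q ∧
      Q.comap (phi q (fun i => cand i (sel i))) = P := by
  obtain ⟨Q1, hQ1, hQ1P⟩ := exists_lift (β := β) hq P hP
  have hsel : ∀ i, ∃ l, (X i - C (cand i l) : MvPolynomial β (MvPolynomial (Fin (n + 1)) κ)) ∈ Q1 := by
    intro i
    obtain ⟨N, hNP, hNE⟩ := hN i
    rw [← hQ1P, Ideal.mem_comap, hNE] at hNP
    obtain ⟨l, -, hl⟩ := (hQ1.prod_mem_iff).mp hNP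
    exact ⟨l, hl⟩
  choose sel hsel using hsel
  set G : β → MvPolynomial (Fin (n + 1)) κ := fun i => cand i (sel i) with hG
  have hGh : ∀ i, (G i).IsHomogeneous q := fun i => hcand i _
  have hcomp : ∀ p, EE κ n β q p - C (phi q G p) ∈ Q1 := by
    intro p
    induction p using MvPolynomial.induction_on with
    | C a =>
      have : EE κ n β q (C a) - C (phi q G (C a)) = 0 := by
        rw [EE, phi, aeval_C, aeval_C]
        simp [MvPolynomial.algebraMap_apply]
      rw [this]; exact Q1.zero_mem
    | add p p' h h' =>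
      have : EE κ n β q (p + p') - C (phi q G (p + p'))
          = (EE κ n β q p - C (phi q G p)) + (EE κ n β q p' - C (phi q G p')) := by
        simp only [map_add]; ring
      rw [this]; exact Q1.add_mem h h'
    | mul_X p i h =>
      have h2 : EE κ n β q (X i) - C (phi q G (X i)) ∈ Q1 := by
        rcases i with j | i
        · rw [EE_y]
          have : phi q G (X (Sum.inl j)) = X j ^ q := by simp [phi]
          rw [this, sub_self]; exact Q1.zero_mem
        · rw [EE_z]
          have : phi q G (X (Sum.inr i)) = G i := by simp [phi]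
          rw [this]; exact hsel i
      have : EE κ n β q (p * X i) - C (phi q G (p * X i))
          = (EE κ n β q p - C (phi q G p)) * EE κ n β q (X i)
            + C (phi q G p) * (EE κ n β q (X i) - C (phi q G (X i))) := by
        simp only [map_mul]; ring
      rw [this]
      exact Q1.add_mem (Q1.mul_mem_right _ h) (Q1.mul_mem_left _ h2)
  set QT : Ideal (MvPolynomial (Fin (n + 1)) κ) := Q1.comap C with hQT
  have hQTp : QT.IsPrime := Ideal.comap_isPrime _ _
  have hQTP : ∀ p, phi q G p ∈ QT ↔ p ∈ P := by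
    intro p
    rw [hQT, Ideal.mem_comap, ← hQ1P, Ideal.mem_comap]
    constructor
    · intro h
      have := Q1.add_mem (hcomp p) h
      rwa [sub_add_cancel] at this
    · intro h
      have := Q1.sub_mem h (hcomp p)
      rwa [sub_sub_cancel] at this
  refine ⟨sel, (QT.homogeneousCore (homogeneousSubmodule (Fin (n + 1)) κ)).toIdeal,
    hQTp.homogeneousCore, ?_, ?_⟩
  · rw [isHom_iff]
    exact (QT.homogeneousCore (homogeneousSubmodule (Fin (n + 1)) κ)).isHomogeneous
  · ext p
    rw [Ideal.mem_comap]
    constructor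
    · intro h
      exact (hQTP p).mp (Ideal.toIdeal_homogeneousCore_le _ _ h)
    · intro h
      rw [← sum_homogeneousComponent p, map_sum]
      refine Ideal.sum_mem _ fun k _ => ?_
      have h1 : homogeneousComponent k p ∈ P := hPh p h k
      refine Ideal.mem_homogeneousCore_of_homogeneous_of_mem ?_ ((hQTP _).mpr h1)
      exact ⟨q * k, phi_hom hGh (homogeneousComponent_isHomogeneous k p)⟩

end lo

end Pool.Agent.TH922.KC
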