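import Mathlib
import Pool.Agent.TH922.KC.Over

set_option autoImplicit false
set_option linter.unusedSectionVars false

open MvPolynomial

namespace Pool.Agent.TH922.KC

section scl

variable {k : Type*} [Field k] {X' : Type*} [Fintype X']

/-- coordinate scaling -/
noncomputable def scl (e : X' → k) : MvPolynomial X' k →ₐ[k] MvPolynomial X' k :=
  aeval (fun i => C (e i) * X i)

lemma scl_monomial (e : X' → k) (μ : X' →₀ ℕ) (a : k) :
    scl e (monomial μ a) = monomial μ ((∏ i, e i ^ μ i) * a) := by
  rw [scl, aeval_monomial, Finsupp.prod_fintype _ _ (fun i => pow_zero _)]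
  simp only [mul_pow]
  rw [Finset.prod_mul_distrib, MvPolynomial.algebraMap_eq]
  have h1 : ∏ i, (C (e i) : MvPolynomial X' k) ^ μ i = C (∏ i, e i ^ μ i) := by
    rw [map_prod]; simp only [map_pow]
  have h2 : ∏ i, (X i : MvPolynomial X' k) ^ μ i = monomial μ 1 := by
    rw [monomial_eq, Finsupp.prod_fintype _ _ (fun i => pow_zero _)]
    simp
  rw [h1, h2, ← mul_assoc, ← C_mul, C_mul_monomial, mul_one, mul_comm]

lemma coeff_scl (e : X' → k) (p : MvPolynomial X' k) (μ : X' →₀ ℕ) :
    coeff μ (scl e p) = (∏ i, e i ^ μ i) * coeff μ p := by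
  classical
  induction p using MvPolynomial.induction_on' with
  | monomial ν a =>
    rw [scl_monomial, coeff_monomial, coeff_monomial]
    split_ifs with h
    · rw [h]
    · simp
  | add p p' h h' => rw [map_add, coeff_add, h, h', coeff_add, mul_add]

lemma scl_mul (e e' : X' → k) (p : MvPolynomial X' k) : scl (e * e') p = scl e (scl e' p) := by
  ext μ
  rw [coeff_scl, coeff_scl, coeff_scl]
  simp only [Pi.mul_apply, mul_pow]
  rw [Finset.prod_mul_distrib]
  ring

lemma scl_const (c : k) {p : MvPolynomial X' k} {q : ℕ} (hp : p.IsHomogeneous q)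
    (hc : c ^ q = 1) : scl (fun _ => c) p = p := by
  ext μ
  rw [coeff_scl]
  by_cases h : μ.degree = q
  · rw [Finset.prod_pow_eq_pow_sum, ← Finsupp.degree_eq_sum, h, hc, one_mul]
  · rw [hp.coeff_eq_zero h, mul_zero]

lemma scl_hom (e : X' → k) {p : MvPolynomial X' k} {q : ℕ} (hp : p.IsHomogeneous q) :
    (scl e p).IsHomogeneous q := by
  intro μ hμ
  rw [coeff_scl] at hμ
  exact hp (right_ne_zero_of_mul hμ)

/-- descent -/
lemma descent {q : ℕ} (ω : k) (hω : IsPrimitiveRoot ω q) [DecidableEq X']
    (t : MvPolynomial X' k) (D : ℕ) (ht : t.IsHomogeneous (q * D)) (hq : 0 < q)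
    (hinv : ∀ j, scl (Pi.mulSingle j ω) t = t) :
    ∃ t' : MvPolynomial X' k, t'.IsHomogeneous D ∧ expand q t' = t := by
  classical
  have hdvd : ∀ μ ∈ t.support, ∀ j, q ∣ μ j := by
    intro μ hμ j
    rw [mem_support_iff] at hμ
    have h1 := congrArg (coeff μ) (hinv j)
    rw [coeff_scl] at h1
    have h2 : (∏ i, (Pi.mulSingle j ω : X' → k) i ^ μ i) = ω ^ μ j := by
      rw [Finset.prod_eq_single j]
      · simp
      · intro b _ hb
        simp [Pi.mulSingle_eq_of_ne hb]
      · intro h; exact absurd (Finset.mem_univ j) h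
    rw [h2] at h1
    have h3 : ω ^ μ j = 1 := by
      have : (ω ^ μ j - 1) * coeff μ t = 0 := by rw [sub_mul, h1]; ring
      rcases mul_eq_zero.mp this with h | h
      · exact sub_eq_zero.mp h
      · exact absurd h hμ
    exact hω.dvd_of_pow_eq_one _ h3
  refine ⟨∑ μ ∈ t.support, monomial (μ.mapRange (· / q) (Nat.zero_div q)) (coeff μ t), ?_, ?_⟩
  · refine IsHomogeneous.sum _ _ _ fun μ hμ => isHomogeneous_monomial _ ?_
    have h1 : μ.degree = q * D := by
      by_contra hne
      exact (mem_support_iff.mp hμ) (ht.coeff_eq_zero hne)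
    rw [Finsupp.degree_eq_sum] at h1 ⊢
    have h2 : q * ∑ i, (μ.mapRange (· / q) (Nat.zero_div q)) i = q * D := by
      rw [← h1, Finset.mul_sum]
      refine Finset.sum_congr rfl fun i _ => ?_
      rw [Finsupp.mapRange_apply]
      exact Nat.mul_div_cancel' (hdvd μ hμ i)
    exact Nat.eq_of_mul_eq_mul_left hq h2
  · rw [map_sum]
    conv_rhs => rw [t.as_sum]
    refine Finset.sum_congr rfl fun μ hμ => ?_
    rw [expand_monomial]
    have h1 : q • (μ.mapRange (· / q) (Nat.zero_div q)) = μ := by
      ext i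
      rw [Finsupp.smul_apply, Finsupp.mapRange_apply, smul_eq_mul]
      exact Nat.mul_div_cancel' (hdvd μ hμ i)
    rw [h1]

end scl

section norm

/-- homogeneity of the coefficients of a product of linear factors -/
lemma coeff_prod_hom {k X' : Type*} [Field k] {Λ : Type*} [DecidableEq Λ] (q : ℕ)
    (a : Λ → MvPolynomial X' k) (ha : ∀ l, (a l).IsHomogeneous q) (s : Finset Λ) :
    ∀ c, (c ≤ s.card → ((∏ l ∈ s, (Polynomial.X - Polynomial.C (a l))).coeff c).IsHomogeneous
      (q * (s.card - c))) ∧
      (s.card < c → (∏ l ∈ s, (Polynomial.X - Polynomial.C (a l))).coeff c = 0) := by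
  induction s using Finset.induction_on with
  | empty =>
    intro c
    rw [Finset.prod_empty, Finset.card_empty]
    constructor
    · intro hc
      have : c = 0 := by omega
      subst this
      rw [Polynomial.coeff_one_zero]
      simpa using isHomogeneous_one X' k
    · intro hc
      rw [Polynomial.coeff_one, if_neg (by omega)]
  | insert l s hl ih =>
    intro c
    rw [Finset.prod_insert hl, Finset.card_insert_of_notMem hl]
    set Pp := ∏ l ∈ s, (Polynomial.X - Polynomial.C (a l)) with hPp
    rcases c with _ | c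
    · constructor
      · intro _
        rw [sub_mul, Polynomial.coeff_sub, Polynomial.coeff_X_mul_zero, Polynomial.coeff_C_mul,
          zero_sub]
        have h1 := ((ha l).mul ((ih 0).1 (Nat.zero_le _))).neg
        have h2 : q + q * (s.card - 0) = q * (s.card + 1 - 0) := by
          rw [Nat.sub_zero, Nat.sub_zero]; ring
        rwa [h2] at h1
      · intro h; omega
    · constructor
      · intro hc
        rw [sub_mul, Polynomial.coeff_sub, Polynomial.coeff_X_mul, Polynomial.coeff_C_mul]
        have h1 := (ih c).1 (by omega)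
        have e1 : s.card + 1 - (c + 1) = s.card - c := by omega
        rw [e1]
        refine h1.sub ?_
        by_cases h : c + 1 ≤ s.card
        · have h2 := (ha l).mul ((ih (c + 1)).1 h)
          have e2 : q + q * (s.card - (c + 1)) = q * (s.card - c) := by
            have : s.card - c = (s.card - (c + 1)) + 1 := by omega
            rw [this]; ring
          rwa [e2] at h2
        · rw [(ih (c + 1)).2 (by omega), mul_zero]
          exact isHomogeneous_zero _ _ _
      · intro hc
        rw [sub_mul, Polynomial.coeff_sub, Polynomial.coeff_X_mul, Polynomial.coeff_C_mul,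
          (ih c).2 (by omega), (ih (c + 1)).2 (by omega)]
        simp

variable {k : Type*} [Field k] {n : ℕ} {β : Type*}

noncomputable instance rootsFT (q : ℕ) [NeZero q] : Fintype (rootsOfUnity q k) :=
  Fintype.ofFinite _

/-- extension of a vector of roots of unity by `1` -/
def extl {q : ℕ} (l : Fin n → rootsOfUnity q k) : Fin (n + 1) → k :=
  Fin.cons 1 (fun j => (((l j : kˣ)) : k))

lemma EE_rename (q : ℕ) (t : MvPolynomial (Fin (n + 1)) k) :
    EE k n β q (rename Sum.inl t) = C (expand q t) := by
  induction t using MvPolynomial.induction_on with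
  | C a =>
    rw [rename_C, expand_C, EE, aeval_C]
    simp [MvPolynomial.algebraMap_apply]
  | add p p' h h' => simp only [map_add, h, h']
  | mul_X p j h =>
    rw [map_mul, map_mul, h, rename_X, EE_y, map_mul, expand_X, map_mul]

/-- **Norm forms.** -/
theorem norm_form {q : ℕ} [NeZero q] (ω : k) (hω : IsPrimitiveRoot ω q) (i : β)
    (g : MvPolynomial (Fin (n + 1)) k) (hg : g.IsHomogeneous q) :
    ∃ N : MvPolynomial (Fin (n + 1) ⊕ β) k, N.IsHomogeneous (q ^ n) ∧
      EE k n β q N = ∏ l : (Fin n → rootsOfUnity q k), (X i - C (scl (extl l) g)) := by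
  classical
  have hq : 0 < q := Nat.pos_of_ne_zero (NeZero.ne q)
  set Λ := (Fin n → rootsOfUnity q k) with hΛ
  have hcard : Fintype.card Λ = q ^ n := by
    change Fintype.card (Fin n → rootsOfUnity q k) = q ^ n
    rw [Fintype.card_fun, Fintype.card_fin, ← Nat.card_eq_fintype_card,
      hω.card_rootsOfUnity]
  set Pz : Polynomial (MvPolynomial (Fin (n + 1)) k) :=
    ∏ l : Λ, (Polynomial.X - Polynomial.C (scl (extl l) g)) with hPz
  have hom := coeff_prod_hom q (fun l : Λ => scl (extl l) g) (fun l => scl_hom _ hg) Finset.univ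
  rw [Finset.card_univ, hcard] at hom
  -- the root of unity as a unit
  let ωu : rootsOfUnity q k := hω.toRootsOfUnity
  have hωu : ((ωu : kˣ) : k) = ω := hω.val_toRootsOfUnity_coe
  -- invariance
  have hinvp : ∀ j, Pz.map (scl (Pi.mulSingle j ω) : MvPolynomial (Fin (n + 1)) k →ₐ[k]
      MvPolynomial (Fin (n + 1)) k).toRingHom = Pz := by
    intro j
    rw [hPz, Polynomial.map_prod]
    simp only [Polynomial.map_sub, Polynomial.map_X, Polynomial.map_C]
    have h1 : ∀ l : Λ, (scl (Pi.mulSingle j ω) : MvPolynomial (Fin (n + 1)) k →ₐ[k]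
      MvPolynomial (Fin (n + 1)) k).toRingHom (scl (extl l) g)
        = scl (Pi.mulSingle j ω * extl l) g := by
      intro l
      rw [scl_mul]; rfl
    simp only [h1]
    refine Fin.cases ?_ (fun j' => ?_) j
    · -- zero coordinate
      refine Fintype.prod_equiv (Equiv.mulLeft (fun _ => ωu⁻¹ : Λ)) _ _ fun l => ?_
      congr 2
      have h2 : (Pi.mulSingle 0 ω : Fin (n + 1) → k) * extl l
          = (fun _ => ω) * extl ((fun _ => ωu⁻¹ : Λ) * l) := by
        funext i
        refine Fin.cases ?_ (fun i' => ?_) i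
        · simp [extl]
        · have h3 : (Pi.mulSingle (0 : Fin (n + 1)) ω : Fin (n + 1) → k) i'.succ = 1 :=
            Pi.mulSingle_eq_of_ne (Fin.succ_ne_zero i') ω
          rw [Pi.mul_apply, Pi.mul_apply, h3]
          simp only [extl, Fin.cons_succ, Pi.mul_apply, Subgroup.coe_mul, Units.val_mul,
            InvMemClass.coe_inv, Units.val_inv_eq_inv_val, hωu]
          rw [one_mul, ← mul_assoc, mul_inv_cancel₀ (hω.ne_zero hq.ne'), one_mul]
      rw [h2, mul_comm, scl_mul, scl_const ω hg hω.pow_eq_one]
      rfl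
    · refine Fintype.prod_equiv (Equiv.mulLeft (Pi.mulSingle j' ωu : Λ)) _ _ fun l => ?_
      congr 2
      have h2 : (Pi.mulSingle j'.succ ω : Fin (n + 1) → k) * extl l
          = extl ((Pi.mulSingle j' ωu : Λ) * l) := by
        funext i
        refine Fin.cases ?_ (fun i' => ?_) i
        · have h3 : (Pi.mulSingle (j'.succ : Fin (n + 1)) ω : Fin (n + 1) → k) 0 = 1 :=
            Pi.mulSingle_eq_of_ne (Fin.succ_ne_zero j').symm ω
          rw [Pi.mul_apply, h3]
          simp [extl]
        · rw [Pi.mul_apply]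
          simp only [extl, Fin.cons_succ, Pi.mul_apply, Subgroup.coe_mul, Units.val_mul]
          congr 1
          by_cases hij : i' = j'
          · subst hij
            simp [hωu]
          · rw [Pi.mulSingle_eq_of_ne (fun h => hij (Fin.succ_injective _ h)),
              Pi.mulSingle_eq_of_ne hij]
            simp
      rw [h2]
      rfl
  have hinv : ∀ c j, scl (Pi.mulSingle j ω) (Pz.coeff c) = Pz.coeff c := by
    intro c j
    conv_rhs => rw [← hinvp j, Polynomial.coeff_map]
    rfl
  have hdesc : ∀ c : ℕ, ∃ t' : MvPolynomial (Fin (n + 1)) k, c ≤ q ^ n →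
      t'.IsHomogeneous (q ^ n - c) ∧ expand q t' = Pz.coeff c := by
    intro c
    by_cases hc : c ≤ q ^ n
    · obtain ⟨t', h1, h2⟩ := descent ω hω (Pz.coeff c) (q ^ n - c) ((hom c).1 hc) hq (hinv c)
      exact ⟨t', fun _ => ⟨h1, h2⟩⟩
    · exact ⟨0, fun h => absurd h hc⟩
  choose t' ht' using hdesc
  refine ⟨∑ c ∈ Finset.range (q ^ n + 1), rename Sum.inl (t' c) * X (Sum.inr i) ^ c, ?_, ?_⟩
  · refine IsHomogeneous.sum _ _ _ fun c hc => ?_
    have hc' : c ≤ q ^ n := by
      have := Finset.mem_range.mp hc; omega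
    have h1 := ((ht' c hc').1.rename_isHomogeneous (f := (Sum.inl : Fin (n + 1) → Fin (n + 1) ⊕ β))).mul
      (isHomogeneous_X_pow (R := k) (Sum.inr i : Fin (n + 1) ⊕ β) c)
    rwa [Nat.sub_add_cancel hc'] at h1
  · rw [map_sum]
    have h1 : ∏ l : Λ, ((X i : MvPolynomial β (MvPolynomial (Fin (n + 1)) k)) - C (scl (extl l) g))
        = Polynomial.eval₂ (C : MvPolynomial (Fin (n + 1)) k →+* _) (X i) Pz := by
      rw [hPz, Polynomial.eval₂_finsetProd]
      refine Finset.prod_congr rfl fun l _ => ?_
      rw [Polynomial.eval₂_sub, Polynomial.eval₂_X, Polynomial.eval₂_C]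
    have hdeg : Pz.natDegree < q ^ n + 1 := by
      rw [Nat.lt_succ_iff, Polynomial.natDegree_le_iff_coeff_eq_zero]
      intro c hc
      exact (hom c).2 hc
    rw [h1, Polynomial.eval₂_eq_sum_range' _ hdeg]
    refine Finset.sum_congr rfl fun c hc => ?_
    have hc' : c ≤ q ^ n := by
      have := Finset.mem_range.mp hc; omega
    rw [map_mul, map_pow, EE_rename, EE_z, (ht' c hc').2]

end norm

end Pool.Agent.TH922.KC
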