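import Mathlib
import Pool.Agent.TH922.KC.Norm

set_option autoImplicit false
set_option linter.unusedSectionVars false

open MvPolynomial

namespace Pool.Agent.TH922.KC

/-- countable subfields of `ℂ` with enough roots of unity and independent elements -/
theorem exists_countable_field : ∃ K1 : Subfield ℂ, Countable K1 ∧
    (∀ q : ℕ, q ≠ 0 → ∃ ω : K1, IsPrimitiveRoot ω q) ∧
    (∀ (ι : Type) [Finite ι], ∃ c : ι → K1, AlgebraicIndependent ℚ c) := by
  classical
  obtain ⟨s, hs⟩ := exists_isTranscendenceBasis ℚ ℂ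
  have hcard : Cardinal.mk ℂ = Cardinal.mk s :=
    IsAlgClosed.cardinal_eq_cardinal_transcendence_basis_of_aleph0_lt' _ hs
      (by simp) (by rw [Cardinal.mk_complex]; exact Cardinal.aleph0_lt_continuum)
  have hinf : Infinite s := by
    rw [Cardinal.infinite_iff, ← hcard, Cardinal.mk_complex]
    exact Cardinal.aleph0_le_continuum
  let e : ℕ ↪ s := Infinite.natEmbedding s
  let x : ℕ → ℂ := fun i => (e i : ℂ)
  have hx : AlgebraicIndependent ℚ x := hs.1.comp _ e.injective
  let R : Set ℂ := Set.range (fun q : ℕ => Complex.exp (2 * Real.pi * Complex.I / q))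
  let K1 : Subfield ℂ := Subfield.closure (Set.range x ∪ R)
  have hcount : Countable K1 := by
    rw [← Cardinal.mk_le_aleph0_iff]
    refine (Subfield.cardinalMk_closure_le_max _).trans (max_le ?_ le_rfl)
    rw [Cardinal.mk_le_aleph0_iff]
    exact ((Set.countable_range x).union (Set.countable_range _)).to_subtype
  refine ⟨K1, hcount, ?_, ?_⟩
  · intro q hq
    refine ⟨⟨Complex.exp (2 * Real.pi * Complex.I / q), Subfield.subset_closure (Or.inr ⟨q, rfl⟩)⟩,
      ?_⟩
    refine IsPrimitiveRoot.of_map_of_injective (f := K1.subtype) ?_ K1.subtype.injective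
    exact Complex.isPrimitiveRoot_exp q hq
  · intro ι _
    obtain ⟨N, ⟨e'⟩⟩ := Finite.exists_equiv_fin ι
    refine ⟨fun i => ⟨x (e' i), Subfield.subset_closure (Or.inl ⟨_, rfl⟩)⟩, ?_⟩
    have h1 : AlgebraicIndependent ℚ (fun i : ι => x (e' i)) :=
      hx.comp (fun i => ((e' i : Fin N) : ℕ)) (Fin.val_injective.comp e'.injective)
    exact AlgebraicIndependent.of_comp (K1.subtype.toRatAlgHom) h1

section nat

variable {k κ : Type*} [Field k] [Field κ] (φ1 : k →+* κ) {n : ℕ} {β : Type*}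

lemma EE_map (q : ℕ) (p : MvPolynomial (Fin (n + 1) ⊕ β) k) :
    EE κ n β q (MvPolynomial.map φ1 p)
      = MvPolynomial.map (MvPolynomial.map φ1) (EE k n β q p) := by
  induction p using MvPolynomial.induction_on with
  | C a =>
    rw [map_C, EE, EE, aeval_C, aeval_C]
    simp [MvPolynomial.algebraMap_apply]
  | add p p' h h' => simp only [map_add, h, h']
  | mul_X p i h =>
    rw [map_mul, map_mul, h, map_mul, map_mul, map_X]
    congr 1
    rcases i with j | i
    · rw [EE_y, EE_y, map_C]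
      simp
    · rw [EE_z, EE_z, map_X]

end nat

section transport

variable {κ : Type*} [Field κ] {X' Y : Type*} [Finite X'] [Finite Y]

lemma KJ_equiv (ε : X' ≃ Y) (J : Ideal (MvPolynomial X' κ)) (t : ℕ) :
    Module.finrank κ (KJ (J.comap (rename ε.symm : MvPolynomial Y κ →ₐ[κ] MvPolynomial X' κ)) t)
      = Module.finrank κ (KJ J t) := by
  have e : KJ J t = (KJ (J.comap (rename ε.symm : MvPolynomial Y κ →ₐ[κ] MvPolynomial X' κ)) t).map
      (rename ε.symm : MvPolynomial Y κ →ₐ[κ] MvPolynomial X' κ).toLinearMap := by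
    apply le_antisymm
    · rintro p ⟨hp1, hp2⟩
      have h1 : rename ε.symm (rename ε p) = p := by
        rw [rename_rename]
        simp
      refine ⟨rename ε p, ⟨?_, ?_⟩, h1⟩
      · exact IsHomogeneous.rename_isHomogeneous (φ := p) (n := t) hp1
      · change rename ε.symm (rename ε p) ∈ J
        rw [h1]; exact hp2
    · rintro _ ⟨p, ⟨hp1, hp2⟩, rfl⟩
      exact ⟨IsHomogeneous.rename_isHomogeneous (φ := p) (n := t) hp1, hp2⟩
  rw [e]
  exact (Submodule.equivMapOfInjective _ (rename_injective _ ε.symm.injective) _).finrank_eq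

lemma hf_equiv (ε : X' ≃ Y) (J : Ideal (MvPolynomial X' κ)) (t : ℕ) :
    hf (J.comap (rename ε.symm : MvPolynomial Y κ →ₐ[κ] MvPolynomial X' κ)) t = hf J t := by
  have A := hf_add J t
  have B := hf_add (J.comap (rename ε.symm : MvPolynomial Y κ →ₐ[κ] MvPolynomial X' κ)) t
  have C := KJ_equiv ε J t
  have D := KJ_equiv ε (⊤ : Ideal (MvPolynomial X' κ)) t
  rw [Ideal.comap_top] at D
  have D' : Module.finrank κ (homogeneousSubmodule Y κ t)
      = Module.finrank κ (homogeneousSubmodule X' κ t) := by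
    have e1 : KJ (⊤ : Ideal (MvPolynomial Y κ)) t = homogeneousSubmodule Y κ t := by
      ext p; simp [KJ]
    have e2 : KJ (⊤ : Ideal (MvPolynomial X' κ)) t = homogeneousSubmodule X' κ t := by
      ext p; simp [KJ]
    rw [e1, e2] at D
    exact D
  omega

lemma hom_equiv (ε : X' ≃ Y) {J : Ideal (MvPolynomial X' κ)} (hJ : IsHom J) :
    IsHom (J.comap (rename ε.symm : MvPolynomial Y κ →ₐ[κ] MvPolynomial X' κ)) := by
  intro p hp k
  rw [Ideal.mem_comap] at hp ⊢
  rw [rename_homogeneousComponent]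
  exact hJ _ hp k

end transport

/-- **The statement over the residue field.** -/
theorem kappa_case {k κ : Type} [Field k] [Field κ] [CharZero k] [CharZero κ] (φ1 : k →+* κ)
    {n m s j : ℕ} {β : Type} [Fintype β] (hm : m.Prime) (hjs : j < s)
    (ω : k) (hω : IsPrimitiveRoot ω (m ^ s)) (pr : β → Prop) [Fintype {i // pr i}]
    [NeZero (m ^ s)]
    (c : {i // pr i} → It (Fin (n + 1)) (m ^ s) → k)
    (hc : AlgebraicIndependent ℚ (fun x : {i // pr i} × It (Fin (n + 1)) (m ^ s) => c x.1 x.2))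
    (N : β → MvPolynomial (Fin (n + 1) ⊕ β) k)
    (hN1 : ∀ i : {i // pr i}, EE k n β (m ^ s) (N i)
      = ∏ l : (Fin n → rootsOfUnity (m ^ s) k),
        (X i.1 - C (scl (extl l) (tp (Fin (n + 1)) k (m ^ s) (c i)))))
    (hN2 : ∀ i, ¬ pr i → N i = X (Sum.inr i))
    (hn : n ≤ Fintype.card {i // pr i} * (m ^ (j + 1) - 1))
    (J : Ideal (MvPolynomial (Fin (n + 1) ⊕ β) κ)) (hJ : IsHom J)
    (hNJ : ∀ i, ∃ e : ℕ, (MvPolynomial.map φ1 (N i)) ^ e ∈ J)
    (hgr : ∃ C : ℕ, ∀ t, hf J t ≤ C * (t + 1)) :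
    ∃ K : ℕ, ∀ t ≥ K, ((m ^ s : ℕ) : ℤ) ∣ ((m ^ j : ℕ) : ℤ) *
      ((hf J (t + 1) : ℤ) - hf J t) := by
  classical
  have hq : 0 < m ^ s := pow_pos hm.pos s
  choose e he using hNJ
  set F : Ideal (MvPolynomial (Fin (n + 1) ⊕ β) κ) :=
    Ideal.span (Set.range fun i => (MvPolynomial.map φ1 (N i)) ^ e i) with hF
  refine div_of_prime (m ^ s) ((m ^ j : ℕ) : ℤ) F ?_ J hJ ?_ hgr
  swap
  · rw [hF, Ideal.span_le]
    rintro _ ⟨i, rfl⟩
    exact he i
  intro P hP hPp hFP hPgr
  have hNP : ∀ i, MvPolynomial.map φ1 (N i) ∈ P := by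
    intro i
    exact hPp.mem_of_pow_mem (e i) (hFP (Ideal.subset_span ⟨i, rfl⟩))
  -- candidates
  let Λ := (Fin n → rootsOfUnity (m ^ s) k)
  let cand : β → Λ → MvPolynomial (Fin (n + 1)) κ := fun i l =>
    if h : pr i then MvPolynomial.map φ1 (scl (extl l) (tp (Fin (n + 1)) k (m ^ s) (c ⟨i, h⟩)))
    else 0
  have hcand : ∀ i l, (cand i l).IsHomogeneous (m ^ s) := by
    intro i l
    simp only [cand]
    split_ifs with h
    · exact (scl_hom _ (tp_hom _ _)).map φ1
    · exact isHomogeneous_zero _ _ _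
  obtain ⟨sel, Q, hQp, hQh, hQP⟩ := lying_over hq P hP hPp cand hcand (by
    intro i
    by_cases h : pr i
    · refine ⟨MvPolynomial.map φ1 (N i), hNP i, ?_⟩
      rw [EE_map, hN1 ⟨i, h⟩, map_prod]
      refine Finset.prod_congr rfl fun l _ => ?_
      simp only [cand, dif_pos h]
      rw [map_sub, map_X, map_C]
    · refine ⟨X (Sum.inr i) ^ Fintype.card Λ, ?_, ?_⟩
      · have h1 := hNP i
        rw [hN2 i h, map_X] at h1
        exact P.pow_mem_of_mem h1 _ Fintype.card_pos
      · rw [map_pow, EE_z]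
        simp only [cand, dif_neg h]
        simp)
  -- the fraction field
  let Ω := FractionRing (MvPolynomial (Fin (n + 1)) κ ⧸ Q)
  let ξ : Fin (n + 1) → Ω := fun i => algebraMap (MvPolynomial (Fin (n + 1)) κ ⧸ Q) Ω
    (Ideal.Quotient.mk Q (X i))
  have hker : RingHom.ker (aeval ξ : MvPolynomial (Fin (n + 1)) κ →ₐ[κ] Ω) = Q := by
    have h1 : (aeval ξ : MvPolynomial (Fin (n + 1)) κ →ₐ[κ] Ω)
        = (IsScalarTower.toAlgHom κ (MvPolynomial (Fin (n + 1)) κ ⧸ Q) Ω).comp
          (Ideal.Quotient.mkₐ κ Q) := by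
      ext i
      simp [ξ]
    ext p
    rw [RingHom.mem_ker, h1]
    change algebraMap (MvPolynomial (Fin (n + 1)) κ ⧸ Q) Ω (Ideal.Quotient.mk Q p) = 0 ↔ _
    rw [map_eq_zero_iff _ (IsFractionRing.injective (MvPolynomial (Fin (n + 1)) κ ⧸ Q) Ω),
      Ideal.Quotient.eq_zero_iff_mem]
  set G : β → MvPolynomial (Fin (n + 1)) κ := fun i => cand i (sel i) with hG
  have hkerP : RingHom.ker (Psi (m ^ s) G ξ) = P := by
    rw [← hQP]
    ext p
    rw [Ideal.mem_comap, RingHom.mem_ker]
    have h1 := congrArg (fun I : Ideal (MvPolynomial (Fin (n + 1)) κ) =>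
      phi (m ^ s) G p ∈ I) hker
    exact (RingHom.mem_ker (f := (aeval ξ : MvPolynomial (Fin (n + 1)) κ →ₐ[κ] Ω))).symm.trans
      (iff_of_eq h1)
  have hcΩ : CharZero Ω := charZero_of_injective_algebraMap (algebraMap κ Ω).injective
  have hpc := prime_case (κ := κ) (Ω := Ω) (q := m ^ s) (G := G) (ξ := ξ) hm hjs rfl (φ1 ω)
    (hω.map_of_injective φ1.injective) (fun i => hcand i _) (by rw [hker]; exact hQh)
    (β' := {i // pr i}) Subtype.val (fun i μ => φ1 (c i μ))
    (by
      have := hc.map' (f := φ1.toRatAlgHom) φ1.injective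
      exact this)
    (fun i μ => φ1 (∏ i', extl (sel i.1) i' ^ μ.1 i'))
    (by
      intro i μ
      have h1 : (∏ i', (extl (sel i.1) : Fin (n + 1) → k) i' ^ μ.1 i') ^ (m ^ s) = 1 := by
        rw [← Finset.prod_pow]
        refine Finset.prod_eq_one fun i' _ => ?_
        rw [← pow_mul, mul_comm, pow_mul]
        have h2 : (extl (sel i.1) : Fin (n + 1) → k) i' ^ (m ^ s) = 1 := by
          refine Fin.cases ?_ (fun i'' => ?_) i'
          · simp [extl]
          · simp only [extl, Fin.cons_succ]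
            have h3 := (mem_rootsOfUnity (m ^ s) _).mp (sel i.1 i'').2
            rw [← Units.val_pow_eq_pow_val, h3, Units.val_one]
        rw [h2, one_pow]
      constructor
      · intro h0
        rw [map_eq_zero] at h0
        rw [h0, zero_pow hq.ne'] at h1
        exact zero_ne_one h1
      · refine (IsIntegral.of_pow hq ?_).isAlgebraic
        rw [← map_pow, h1, map_one]
        exact isIntegral_one)
    (by
      intro i
      simp only [hG, cand, dif_pos i.2]
      ext ν
      rw [coeff_map, coeff_scl, coeff_tp, coeff_tp]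
      split_ifs with h
      · rw [map_mul]
      · rw [mul_zero, map_zero])
    hn (by rw [hkerP]; exact hPgr)
  rw [hkerP] at hpc
  exact hpc

end Pool.Agent.TH922.KC
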