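import Mathlib
import Pool.Agent.TH922.KC.Fin1

set_option autoImplicit false
set_option linter.unusedSectionVars false

open MvPolynomial

namespace Pool.Agent.TH922.KC

/-- the index equivalence -/
def idx (n r : ℕ) : Fin (n + r + 1) ≃ Fin (n + 1) ⊕ Fin r :=
  (finCongr (by omega)).trans (finSumFinEquiv (m := n + 1) (n := r)).symm

theorem specialise {X' : Type} [Finite X'] {r : ℕ} (d : Fin r → ℕ) (K1 : Subfield ℂ)
    (f : Fin r → MvPolynomial X' ℂ)
    (hf : ∀ i, (f i).IsHomogeneous (d i))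
    (hind : AlgebraicIndependent K1
      (fun x : (Σ i : Fin r, {μ : X' →₀ ℕ // μ.degree = d i}) => coeff x.2.1 (f x.1)))
    (f0 : Fin r → MvPolynomial X' K1) (hf0 : ∀ i, (f0 i).IsHomogeneous (d i)) :
    ∃ (B : ValuationSubring ℂ) (φ1 : K1 →+* IsLocalRing.ResidueField B),
      ∀ I : Ideal (MvPolynomial X' ℂ), (∀ i, f i ∈ I) →
        ∀ i, MvPolynomial.map φ1 (f0 i) ∈ red B I := by
  classical
  set a : (Σ i : Fin r, {μ : X' →₀ ℕ // μ.degree = d i}) → ℂ :=
    fun x => coeff x.2.1 (f x.1) with ha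
  set a0 : (Σ i : Fin r, {μ : X' →₀ ℕ // μ.degree = d i}) → K1 :=
    fun x => coeff x.2.1 (f0 x.1) with ha0
  let S := Algebra.adjoin K1 (Set.range a)
  let ψ : S →ₐ[K1] K1 := (aeval a0).comp (hind.repr : S →ₐ[K1] MvPolynomial _ K1)
  have hψa : ∀ x, ψ ⟨a x, Algebra.subset_adjoin (Set.mem_range_self x)⟩ = a0 x := by
    intro x
    have h1 : hind.aevalEquiv (X x) = ⟨a x, Algebra.subset_adjoin (Set.mem_range_self x)⟩ := by
      apply Subtype.ext
      have := hind.algebraMap_aevalEquiv (X x)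
      rw [aeval_X] at this
      exact this
    have h2 : hind.repr ⟨a x, Algebra.subset_adjoin (Set.mem_range_self x)⟩ = X x := by
      rw [← h1]
      exact hind.aevalEquiv.symm_apply_apply (X x)
    change aeval a0 (hind.repr _) = _
    rw [h2, aeval_X]
  let A : Subring ℂ := S.toSubring
  let ψ' : A →+* K1 := (ψ : S →+* K1)
  have hker : RingHom.ker ψ' ≠ ⊤ := RingHom.ker_ne_top ψ'
  obtain ⟨B, hAB, hB⟩ := Ideal.image_subset_nonunits_valuationSubring (RingHom.ker ψ') hker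
  have haA : ∀ x, a x ∈ A := fun x => Algebra.subset_adjoin (Set.mem_range_self x)
  have hKA : ∀ y : K1, (y : ℂ) ∈ A := fun y => S.algebraMap_mem y
  have haB : ∀ x, a x ∈ B := fun x => hAB (haA x)
  have hKB : ∀ y : K1, (y : ℂ) ∈ B := fun y => hAB (hKA y)
  let ι1 : K1 →+* B :=
    { toFun := fun y => ⟨(y : ℂ), hKB y⟩
      map_one' := rfl
      map_mul' := fun _ _ => rfl
      map_zero' := rfl
      map_add' := fun _ _ => rfl }
  let φ1 : K1 →+* IsLocalRing.ResidueField B := (IsLocalRing.residue B).comp ι1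
  have hres : ∀ x, IsLocalRing.residue B ⟨a x, haB x⟩ = φ1 (a0 x) := by
    intro x
    have h1 : (⟨a x - (a0 x : ℂ), A.sub_mem (haA x) (hKA _)⟩ : A) ∈ RingHom.ker ψ' := by
      rw [RingHom.mem_ker]
      have e1 : (⟨a x - (a0 x : ℂ), A.sub_mem (haA x) (hKA _)⟩ : A)
          = (⟨a x, haA x⟩ : A) - ⟨(a0 x : ℂ), hKA _⟩ := rfl
      rw [e1, map_sub]
      have e2 : ψ' ⟨a x, haA x⟩ = a0 x := hψa x
      have e3 : ψ' ⟨(a0 x : ℂ), hKA _⟩ = a0 x := ψ.commutes (a0 x)
      rw [e2, e3, sub_self]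
    have h2 : (a x - (a0 x : ℂ)) ∈ B.nonunits := hB ⟨_, h1, rfl⟩
    rw [ValuationSubring.mem_nonunits_iff_exists_mem_maximalIdeal] at h2
    obtain ⟨h3, h4⟩ := h2
    rw [← sub_eq_zero]
    change IsLocalRing.residue B ⟨a x, haB x⟩ - IsLocalRing.residue B (ι1 (a0 x)) = 0
    rw [← map_sub, IsLocalRing.residue_eq_zero_iff]
    exact h4
  refine ⟨B, φ1, fun I hI i => ?_⟩
  rw [mem_red]
  refine ⟨tp X' B (d i) (fun μ => ⟨a ⟨i, μ⟩, haB _⟩), ?_, ?_⟩
  · rw [map_tp]
    have : tp X' ℂ (d i) (fun μ => B.subtype ⟨a ⟨i, μ⟩, haB _⟩) = f i := tp_coeff (d i) (hf i)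
    rw [this]
    exact hI i
  · rw [map_tp]
    have h1 : MvPolynomial.map φ1 (f0 i) = tp X' (IsLocalRing.ResidueField B) (d i)
        (fun μ => φ1 (a0 ⟨i, μ⟩)) := by
      conv_lhs => rw [← tp_coeff (d i) (hf0 i)]
      rw [map_tp]
    rw [h1]
    congr 1
    funext μ
    exact hres ⟨i, μ⟩

/-- **Main theorem.** -/
theorem main (n r : ℕ) (d : Fin r → ℕ) :
    ∃ bad : ℕ → MvPolynomial (Σ i : Fin r, {μ : Fin (n + r + 1) →₀ ℕ // μ.degree = d i}) ℂ,
      (∀ j, bad j ≠ 0) ∧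
      ∀ f : Fin r → MvPolynomial (Fin (n + r + 1)) ℂ,
        (∀ i, f i ∈ MvPolynomial.homogeneousSubmodule (Fin (n + r + 1)) ℂ (d i)) →
        (∀ j, MvPolynomial.eval (fun x => MvPolynomial.coeff x.2.1 (f x.1)) (bad j) ≠ 0) →
        ∀ I : Ideal (MvPolynomial (Fin (n + r + 1)) ℂ),
          (∀ p ∈ I, ∀ k : ℕ, MvPolynomial.homogeneousComponent k p ∈ I) →
          I.IsPrime →
          ringKrullDim (MvPolynomial (Fin (n + r + 1)) ℂ ⧸ I) = 2 →
          (∀ i, f i ∈ I) →
          ∀ m s j : ℕ, m.Prime →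
            n ≤ (Finset.univ.filter fun i => m ^ (n * s) ∣ d i).card * (m ^ (j + 1) - 1) →
            ∃ K : ℕ, ∀ k : ℕ, K ≤ k →
              ((m ^ s : ℕ) : ℤ) ∣ ((m ^ j : ℕ) : ℤ) *
                ((Module.finrank ℂ (Submodule.map (Ideal.Quotient.mkₐ ℂ I).toLinearMap
                    (MvPolynomial.homogeneousSubmodule (Fin (n + r + 1)) ℂ (k + 1))) : ℤ) -
                (Module.finrank ℂ (Submodule.map (Ideal.Quotient.mkₐ ℂ I).toLinearMap
                    (MvPolynomial.homogeneousSubmodule (Fin (n + r + 1)) ℂ k)) : ℤ)) := by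
  classical
  obtain ⟨K1, hcount, hroots, hindep⟩ := exists_countable_field
  set σ := (Σ i : Fin r, {μ : Fin (n + r + 1) →₀ ℕ // μ.degree = d i}) with hσ
  have hcp : Countable (MvPolynomial σ K1) := by
    rw [← Cardinal.mk_le_aleph0_iff]
    refine MvPolynomial.cardinalMk_le_max.trans ?_
    simp only [max_le_iff, le_refl, and_true]
    exact ⟨Cardinal.mk_le_aleph0_iff.mpr hcount, Cardinal.mk_le_aleph0_iff.mpr inferInstance⟩
  have hne : Nonempty {p : MvPolynomial σ K1 // p ≠ 0} := ⟨⟨1, one_ne_zero⟩⟩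
  obtain ⟨en, hen⟩ := exists_surjective_nat {p : MvPolynomial σ K1 // p ≠ 0}
  refine ⟨fun j => MvPolynomial.map K1.subtype (en j).1, fun j => ?_, ?_⟩
  · have h1 := (en j).2
    intro h
    exact h1 ((map_eq_zero_iff _ (MvPolynomial.map_injective _ K1.subtype.injective)).mp h)
  intro f hfh hbad I hI hIp hdim hfI m s j hm hn
  by_cases hjs : j < s
  swap
  · refine ⟨0, fun k _ => ?_⟩
    push Not at hjs
    refine Dvd.dvd.mul_right ?_ _
    exact_mod_cast pow_dvd_pow m hjs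
  have hind : AlgebraicIndependent K1 (fun x : σ => coeff x.2.1 (f x.1)) := by
    rw [algebraicIndependent_iff]
    intro p hp
    by_contra hp0
    obtain ⟨l, hl⟩ := hen ⟨p, hp0⟩
    apply hbad l
    change MvPolynomial.eval _ (MvPolynomial.map K1.subtype (en l).1) = 0
    rw [hl, MvPolynomial.eval_map]
    exact hp
  have hq0 : m ^ s ≠ 0 := (pow_pos hm.pos s).ne'
  have : NeZero (m ^ s) := ⟨hq0⟩
  obtain ⟨ω, hω⟩ := hroots (m ^ s) hq0
  let pr : Fin r → Prop := fun i => m ^ (n * s) ∣ d i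
  obtain ⟨c0, hc0⟩ := hindep ({i // pr i} × It (Fin (n + 1)) (m ^ s))
  let c : {i // pr i} → It (Fin (n + 1)) (m ^ s) → K1 := fun i μ => c0 (i, μ)
  have hNF := fun (i : Fin r) (h : pr i) => norm_form (β := Fin r) ω hω i
    (tp (Fin (n + 1)) K1 (m ^ s) (c ⟨i, h⟩)) (tp_hom _ _)
  choose NN hNN1 hNN2 using hNF
  let N : Fin r → MvPolynomial (Fin (n + 1) ⊕ Fin r) K1 := fun i =>
    if h : pr i then NN i h else X (Sum.inr i)
  let e0 : Fin r → ℕ := fun i => if pr i then d i / (m ^ s) ^ n else d i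
  have hNe : ∀ i, ((N i) ^ (e0 i)).IsHomogeneous (d i) := by
    intro i
    by_cases h : pr i
    · simp only [N, e0, dif_pos h, if_pos h]
      have h1 := (hNN1 i h).pow (d i / (m ^ s) ^ n)
      have h2 : (m ^ s) ^ n * (d i / (m ^ s) ^ n) = d i := by
        apply Nat.mul_div_cancel'
        rw [← pow_mul, mul_comm s n]
        exact h
      rwa [h2] at h1
    · simp only [N, e0, dif_neg h, if_neg h]
      exact isHomogeneous_X_pow _ _
  let ε := idx n r
  let f0 : Fin r → MvPolynomial (Fin (n + r + 1)) K1 := fun i => rename ε.symm ((N i) ^ (e0 i))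
  obtain ⟨B, φ1, hB⟩ := specialise d K1 f hfh hind f0
    (fun i => IsHomogeneous.rename_isHomogeneous (hNe i))
  have hBI := hB I hfI
  have hcK : CharZero K1 := inferInstance
  have hcκ : CharZero (IsLocalRing.ResidueField B) :=
    charZero_of_injective_ringHom φ1.injective
  have hredh := red_hom B (I := I) hI
  obtain ⟨C, hC⟩ := growth2 I hI hdim.le
  have hfin := kappa_case φ1 hm hjs ω hω pr c hc0 N
    (fun i => by
      simp only [N, dif_pos i.2]
      exact hNN2 i.1 i.2)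
    (fun i h => by simp only [N, dif_neg h])
    (by
      rw [Fintype.card_subtype]
      exact hn)
    ((red B I).comap (rename ε.symm : MvPolynomial (Fin (n + 1) ⊕ Fin r)
      (IsLocalRing.ResidueField B) →ₐ[IsLocalRing.ResidueField B] _))
    (hom_equiv ε hredh)
    (fun i => ⟨e0 i, by
      rw [Ideal.mem_comap]
      have h1 := hBI i
      simp only [f0] at h1
      rw [MvPolynomial.map_rename, map_pow] at h1
      exact h1⟩)
    ⟨C, fun t => by rw [hf_equiv, red_hf B hI]; exact hC t⟩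
  obtain ⟨K, hK⟩ := hfin
  refine ⟨K, fun k hk => ?_⟩
  have h1 := hK k hk
  rw [hf_equiv, hf_equiv, red_hf B hI, red_hf B hI] at h1
  exact h1

end Pool.Agent.TH922.KC
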