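import Mathlib
import Pool.Agent.TH922.KC.Fin2

set_option autoImplicit false
set_option linter.unusedSectionVars false

open MvPolynomial

namespace Pool.Agent.TH922.KC

section lo

variable {κ : Type*} [Field κ] {n : ℕ} {β : Type*}

attribute [local instance] MvPolynomial.gradedAlgebra

/-- **Lying over**, with candidate sets depending on the index. -/
theorem lying_over' {q : ℕ} (hq : 0 < q) (P : Ideal (MvPolynomial (Fin (n + 1) ⊕ β) κ))
    (hPh : IsHom P) (hP : P.IsPrime) {Λ : β → Type*} [∀ i, Fintype (Λ i)]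
    (cand : ∀ i, Λ i → MvPolynomial (Fin (n + 1)) κ) (hcand : ∀ i l, (cand i l).IsHomogeneous q)
    (hN : ∀ i, ∃ N ∈ P, EE κ n β q N = ∏ l, (X i - C (cand i l))) :
    ∃ (sel : ∀ i, Λ i) (Q : Ideal (MvPolynomial (Fin (n + 1)) κ)), Q.IsPrime ∧ IsHom Q ∧
      Q.comap (phi q (fun i => cand i (sel i))) = P := by
  obtain ⟨Q1, hQ1, hQ1P⟩ := exists_lift (β := β) hq P hP
  have hsel : ∀ i, ∃ l, (X i - C (cand i l) : MvPolynomial β (MvPolynomial (Fin (n + 1)) κ)) ∈ Q1 := by
    intro i
    obtain ⟨N, hNP, hNE⟩ := hN i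
    rw [← hQ1P, Ideal.mem_comap, hNE] at hNP
    obtain ⟨l, -, hl⟩ := (hQ1.prod_mem_iff).mp hNP
    exact ⟨l, hl⟩
  choose sel hsel using hsel
  set G : β → MvPolynomial (Fin (n + 1)) κ := fun i => cand i (sel i) with hG
  have hGh : ∀ i, (G i).IsHomogeneous q := fun i => hcand i _
  have hcomp : ∀ p, EE κ n β q p - C (phi q G p) ∈ Q1 := by
    intro p
    induction p using MvPolynomial.induction_on with
    | C a =>
      have : EE κ n β q (C a) - C (phi q G (C a)) = 0 := by
        rw [EE, phi, aeval_C, aeval_C]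
        simp [MvPolynomial.algebraMap_apply]
      rw [this]; exact Q1.zero_mem
    | add p p' h h' =>
      have : EE κ n β q (p + p') - C (phi q G (p + p'))
          = (EE κ n β q p - C (phi q G p)) + (EE κ n β q p' - C (phi q G p')) := by
        simp only [map_add]; ring
      rw [this]; exact Q1.add_mem h h'
    | mul_X p i h =>
      have h2 : EE κ n β q (X i) - C (phi q G (X i)) ∈ Q1 := by
        rcases i with j | i
        · rw [EE_y]
          have : phi q G (X (Sum.inl j)) = X j ^ q := by simp [phi]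
          rw [this, sub_self]; exact Q1.zero_mem
        · rw [EE_z]
          have : phi q G (X (Sum.inr i)) = G i := by simp [phi]
          rw [this]; exact hsel i
      have : EE κ n β q (p * X i) - C (phi q G (p * X i))
          = (EE κ n β q p - C (phi q G p)) * EE κ n β q (X i)
            + C (phi q G p) * (EE κ n β q (X i) - C (phi q G (X i))) := by
        simp only [map_mul]; ring
      rw [this]
      exact Q1.add_mem (Q1.mul_mem_right _ h) (Q1.mul_mem_left _ h2)
  set QT : Ideal (MvPolynomial (Fin (n + 1)) κ) := Q1.comap C with hQT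
  have hQTp : QT.IsPrime := Ideal.comap_isPrime _ _
  have hQTP : ∀ p, phi q G p ∈ QT ↔ p ∈ P := by
    intro p
    rw [hQT, Ideal.mem_comap, ← hQ1P, Ideal.mem_comap]
    constructor
    · intro h
      have := Q1.add_mem (hcomp p) h
      rwa [sub_add_cancel] at this
    · intro h
      have := Q1.sub_mem h (hcomp p)
      rwa [sub_sub_cancel] at this
  refine ⟨sel, (QT.homogeneousCore (homogeneousSubmodule (Fin (n + 1)) κ)).toIdeal,
    hQTp.homogeneousCore, ?_, ?_⟩
  · rw [isHom_iff]
    exact (QT.homogeneousCore (homogeneousSubmodule (Fin (n + 1)) κ)).isHomogeneous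
  · ext p
    rw [Ideal.mem_comap]
    constructor
    · intro h
      exact (hQTP p).mp (Ideal.toIdeal_homogeneousCore_le _ _ h)
    · intro h
      rw [← sum_homogeneousComponent p, map_sum]
      refine Ideal.sum_mem _ fun k _ => ?_
      have h1 : homogeneousComponent k p ∈ P := hPh p h k
      refine Ideal.mem_homogeneousCore_of_homogeneous_of_mem ?_ ((hQTP _).mpr h1)
      exact ⟨q * k, phi_hom hGh (homogeneousComponent_isHomogeneous k p)⟩

end lo

section fin

variable {κ Ω : Type*} [Field κ] [Field Ω] [Algebra κ Ω] {n : ℕ} {β : Type*} [Fintype β]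
  {q : ℕ} {G : β → MvPolynomial (Fin (n + 1)) κ} {ξ : Fin (n + 1) → Ω}

/-- The end of the argument for a prime, given the degree of the Kummer extension. -/
theorem finish (hq : 0 < q) (hG : ∀ i, (G i).IsHomogeneous q)
    (hQ : IsHom (RingHom.ker (aeval ξ : MvPolynomial (Fin (n + 1)) κ →ₐ[κ] Ω))) (ℓ : ℕ)
    (H : ∀ j0, ξ j0 ≠ 0 → (∃ i, Transcendental κ (ξ i / ξ j0)) →
      FiniteDimensional (FF q G ξ)
        (IntermediateField.adjoin (FF q G ξ) (Set.range (fun j => ξ j / ξ j0))) ∧
      Module.finrank (FF q G ξ)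
        (IntermediateField.adjoin (FF q G ξ) (Set.range (fun j => ξ j / ξ j0))) ∣ ℓ)
    (hgr : ∃ C : ℕ, ∀ t, hf (RingHom.ker (Psi q G ξ)) t ≤ C * (t + 1)) :
    ∃ K : ℕ, ∀ t ≥ K, (q : ℤ) ∣ (ℓ : ℤ) *
      ((hf (RingHom.ker (Psi q G ξ)) (t + 1) : ℤ) - hf (RingHom.ker (Psi q G ξ)) t) := by
  classical
  have hPh := ker_Psi_hom hq hG hQ
  by_cases hξ0 : ∀ i, ξ i = 0
  · -- trivial case
    refine ⟨1, fun t ht => ?_⟩
    have h0 : ∀ t ≥ 1, hf (RingHom.ker (Psi q G ξ)) t = 0 := by
      intro t ht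
      have h1 := hf_le_hf (κ := κ) (ξ := ξ) hG t
      have h2 : 1 ≤ q * t := Nat.mul_pos hq ht
      obtain ⟨u, hu⟩ := Nat.exists_eq_add_of_le' h2
      rw [hu, hf_all (fun i => by rw [RingHom.mem_ker, aeval_X, hξ0 i]) u] at h1
      omega
    rw [h0 t ht, h0 (t + 1) (by omega)]
    simp
  push Not at hξ0
  obtain ⟨j0, hj0⟩ := hξ0
  set v : Fin (n + 1) → Ω := fun i => ξ i / ξ j0 with hv
  have hξv : ∀ i, ξ i = ξ j0 * v i := fun i => by
    simp only [hv]; field_simp
  by_cases halg : ∀ i, IsAlgebraic κ (v i)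
  · -- bounded case
    have hfd : FiniteDimensional κ (IntermediateField.adjoin κ (Set.range v)) :=
      IntermediateField.finiteDimensional_adjoin (by
        rintro _ ⟨i, rfl⟩
        exact (halg i).isIntegral)
    set V0 := IntermediateField.adjoin κ (Set.range v) with hV0
    have hB : ∀ t, hf (RingHom.ker (Psi q G ξ)) t ≤ Module.finrank κ V0 := by
      intro t
      refine (hf_le_hf (κ := κ) (ξ := ξ) hG t).trans ?_
      rw [← Bp_finrank]
      have h1 : Bp κ ξ (q * t) ≤ (Subalgebra.toSubmodule V0.toSubalgebra).map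
          (LinearMap.mulLeft κ (ξ j0 ^ (q * t))) := by
        rintro _ ⟨W, hW, rfl⟩
        refine ⟨aeval v W, ?_, ?_⟩
        · have h2 : ∀ p : MvPolynomial (Fin (n + 1)) κ, aeval v p ∈ V0 := by
            intro p
            induction p using MvPolynomial.induction_on with
            | C a =>
              rw [aeval_C]
              exact V0.algebraMap_mem a
            | add p p' h h' => rw [map_add]; exact V0.add_mem h h'
            | mul_X p j h =>
              rw [map_mul, aeval_X]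
              exact V0.mul_mem h (IntermediateField.subset_adjoin _ _ (Set.mem_range_self j))
          exact h2 W
        · have h3 := aeval_smul_hom v (ξ j0) (W := W) (t := q * t) hW
          change ξ j0 ^ (q * t) * aeval v W = aeval ξ W
          rw [← h3]
          congr 2
          funext i
          exact (hξv i).symm
      have hfin : Module.Finite κ (Subalgebra.toSubmodule V0.toSubalgebra) := by
        change Module.Finite κ V0
        infer_instance
      refine (Submodule.finrank_mono h1).trans ?_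
      exact Submodule.finrank_map_le _ _
    obtain ⟨K, e, hK⟩ := ev_const _ hPh ⟨Module.finrank κ V0, fun t => by
      calc ∑ s ∈ Finset.range t, hf (RingHom.ker (Psi q G ξ)) s
          ≤ ∑ s ∈ Finset.range t, Module.finrank κ V0 := Finset.sum_le_sum fun s _ => hB s
        _ = _ := by rw [Finset.sum_const, Finset.card_range, smul_eq_mul, mul_comm]⟩
    refine ⟨K, fun t ht => ?_⟩
    rw [hK t ht, hK (t + 1) (by omega)]
    simp
  push Not at halg
  obtain ⟨hfd, hdvd⟩ := H j0 hj0 halg
  obtain ⟨τ', δ, hcmp⟩ := compare hq hG hQ j0 hj0 _ rfl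
  set E := Module.finrank (FF q G ξ)
        (IntermediateField.adjoin (FF q G ξ) (Set.range (fun j => ξ j / ξ j0))) with hE
  obtain ⟨C, hC⟩ := hgr
  obtain ⟨K1, a1, hK1⟩ := ev_lin _ hPh ⟨C, hC⟩
  have hQp : (RingHom.ker (aeval ξ : MvPolynomial (Fin (n + 1)) κ →ₐ[κ] Ω)).IsPrime :=
    RingHom.ker_isPrime _
  have hxQ : (X j0 : MvPolynomial (Fin (n + 1)) κ) ∉
      RingHom.ker (aeval ξ : MvPolynomial (Fin (n + 1)) κ →ₐ[κ] Ω) := by
    rw [RingHom.mem_ker, aeval_X]; exact hj0
  have hmono : Monotone (hf (RingHom.ker (aeval ξ : MvPolynomial (Fin (n + 1)) κ →ₐ[κ] Ω))) :=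
    monotone_nat_of_le_succ (fun t => by rw [hf_prime_succ hQ hQp hxQ]; omega)
  obtain ⟨K2, b1, hK2⟩ := ev_lin _ hQ ⟨E * C * (δ + 1), fun t => by
    calc hf (RingHom.ker (aeval ξ : MvPolynomial (Fin (n + 1)) κ →ₐ[κ] Ω)) t
        ≤ hf (RingHom.ker (aeval ξ : MvPolynomial (Fin (n + 1)) κ →ₐ[κ] Ω)) (q * t) :=
          hmono (Nat.le_mul_of_pos_left _ hq)
      _ ≤ E * hf (RingHom.ker (Psi q G ξ)) (t + δ) := (hcmp t).2
      _ ≤ E * (C * (t + δ + 1)) := Nat.mul_le_mul_left _ (hC _)
      _ ≤ E * C * (δ + 1) * (t + 1) := by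
        rw [mul_assoc, mul_assoc]
        apply Nat.mul_le_mul_left
        apply Nat.mul_le_mul_left
        nlinarith⟩
  have hslope := slope_eq _ _ q E a1 b1 K1 K2 τ' δ hK1 hK2 (fun t => (hcmp t).1)
    (fun t => (hcmp t).2) hq
  refine ⟨K1, fun t ht => ?_⟩
  rw [hK1 t ht]
  obtain ⟨c, hc⟩ := hdvd
  have h1 : (ℓ : ℤ) * (((hf (RingHom.ker (Psi q G ξ)) t + a1 : ℕ) : ℤ)
      - hf (RingHom.ker (Psi q G ξ)) t) = ((ℓ * a1 : ℕ) : ℤ) := by
    push_cast; ring
  rw [h1]
  have h2 : ℓ * a1 = q * (c * b1) := by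
    rw [hc, mul_assoc, mul_comm c a1, ← mul_assoc, hslope]
    ring
  rw [h2]
  exact_mod_cast Dvd.intro _ rfl

end fin

/-- product over powers of a primitive root -/
lemma prod_root {R : Type*} [CommRing R] [IsDomain R] {D : ℕ} (hD : 0 < D) (ζ : R)
    (hζ : IsPrimitiveRoot ζ D) (x y : R) :
    ∏ l : Fin D, (x - ζ ^ (l : ℕ) * y) = x ^ D - y ^ D := by
  classical
  rw [hζ.pow_sub_pow_eq_prod_sub_mul x y hD]
  have himg : Finset.univ.image (fun l : Fin D => ζ ^ (l : ℕ))
      = Polynomial.nthRootsFinset D (1 : R) := by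
    apply Finset.eq_of_subset_of_card_le
    · intro z hz
      obtain ⟨l, -, rfl⟩ := Finset.mem_image.mp hz
      rw [Polynomial.mem_nthRootsFinset hD, ← pow_mul, mul_comm, pow_mul, hζ.pow_eq_one, one_pow]
    · rw [hζ.card_nthRootsFinset, Finset.card_image_of_injective, Finset.card_univ,
        Fintype.card_fin]
      intro l l' h
      exact Fin.ext (hζ.pow_inj l.2 l'.2 h)
  rw [← himg, Finset.prod_image]
  intro l _ l' _ h
  exact Fin.ext (hζ.pow_inj l.2 l'.2 h)

end Pool.Agent.TH922.KC
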