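import Mathlib
import Pool.Agent.TH922.KC.Tor2

set_option autoImplicit false
set_option linter.unusedSectionVars false

open MvPolynomial

namespace Pool.Agent.TH922.KC

/-- a divisor of a product splits as a product of divisors -/
lemma exists_factor {ι : Type*} [DecidableEq ι] (s : Finset ι) (d : ι → ℕ) :
    ∀ Q : ℕ, Q ∣ ∏ i ∈ s, d i → ∃ q : ι → ℕ, (∀ i ∈ s, q i ∣ d i) ∧ ∏ i ∈ s, q i = Q := by
  induction s using Finset.induction_on with
  | empty =>
    intro Q hQ
    refine ⟨fun _ => 1, by simp, ?_⟩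
    rw [Finset.prod_empty] at hQ ⊢
    exact (Nat.dvd_one.mp hQ).symm
  | insert i s hi ih =>
    intro Q hQ
    rw [Finset.prod_insert hi] at hQ
    obtain ⟨u, v, hu, hv, huv⟩ := exists_dvd_and_dvd_of_dvd_mul hQ
    obtain ⟨q, hq1, hq2⟩ := ih v hv
    refine ⟨fun x => if x = i then u else q x, ?_, ?_⟩
    · intro x hx
      rcases Finset.mem_insert.mp hx with rfl | hx'
      · simpa using hu
      · have : x ≠ i := fun h => hi (h ▸ hx')
        simp only [this, if_false]
        exact hq1 x hx'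
    · rw [Finset.prod_insert hi]
      simp only [if_true]
      have h3 : ∏ x ∈ s, (if x = i then u else q x) = ∏ x ∈ s, q x := by
        refine Finset.prod_congr rfl (fun x hx => if_neg (fun h => hi ?_))
        rw [← h]; exact hx
      rw [h3, hq2]
      exact huv.symm

lemma sub_helper (u w : ℕ) (hu : 0 < u) (hw : 0 < w) : (u - 1) * w + (w - 1) = u * w - 1 := by
  obtain ⟨u, rfl⟩ := Nat.exists_eq_succ_of_ne_zero hu.ne'
  obtain ⟨w, rfl⟩ := Nat.exists_eq_succ_of_ne_zero hw.ne'
  simp only [Nat.succ_eq_add_one, Nat.add_sub_cancel]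
  have : (u + 1) * (w + 1) = u * (w + 1) + w + 1 := by ring
  rw [this, Nat.add_sub_cancel]

section chain

variable {r : ℕ} {Γ : Type} [DecidableEq Γ] (g : Fin r → Γ) (q : Fin r → ℕ)

/-- earlier indices of the same group -/
def Sg (i : Fin r) : Finset (Fin r) := Finset.univ.filter fun i' => g i' = g i ∧ i' < i

/-- partial products -/
def Dg (i : Fin r) : ℕ := ∏ i' ∈ Finset.univ.filter (fun i' => g i' = g i ∧ i' ≤ i), q i'

lemma Dg_first {i : Fin r} (h : ¬ (Sg g i).Nonempty) : Dg g q i = q i := by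
  have : Finset.univ.filter (fun i' => g i' = g i ∧ i' ≤ i) = {i} := by
    ext i'
    simp only [Finset.mem_filter, Finset.mem_univ, true_and, Finset.mem_singleton]
    constructor
    · rintro ⟨h1, h2⟩
      by_contra hne
      exact h ⟨i', by simp only [Sg, Finset.mem_filter, Finset.mem_univ, true_and];
                      exact ⟨h1, lt_of_le_of_ne h2 hne⟩⟩
    · rintro rfl
      exact ⟨rfl, le_rfl⟩
  rw [Dg, this, Finset.prod_singleton]

lemma Dg_next {i : Fin r} (h : (Sg g i).Nonempty) :
    Dg g q i = q i * Dg g q ((Sg g i).max' h) := by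
  have hp := (Sg g i).max'_mem h
  have hp' : g ((Sg g i).max' h) = g i ∧ (Sg g i).max' h < i := by
    simpa only [Sg, Finset.mem_filter, Finset.mem_univ, true_and] using hp
  have : Finset.univ.filter (fun i' => g i' = g i ∧ i' ≤ i)
      = insert i (Finset.univ.filter (fun i' => g i' = g ((Sg g i).max' h) ∧
        i' ≤ (Sg g i).max' h)) := by
    ext i'
    simp only [Finset.mem_filter, Finset.mem_univ, true_and, Finset.mem_insert]
    constructor
    · rintro ⟨h1, h2⟩
      rcases eq_or_lt_of_le h2 with h3 | h3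
      · exact Or.inl h3
      · refine Or.inr ⟨by rw [h1, hp'.1], ?_⟩
        apply Finset.le_max'
        simp only [Sg, Finset.mem_filter, Finset.mem_univ, true_and]
        exact ⟨h1, h3⟩
    · rintro (rfl | ⟨h1, h2⟩)
      · exact ⟨rfl, le_rfl⟩
      · exact ⟨by rw [h1, hp'.1], h2.trans hp'.2.le⟩
  rw [Dg, this, Finset.prod_insert]
  · rfl
  · simp only [Finset.mem_filter, Finset.mem_univ, true_and, not_and, not_le]
    intro _
    exact hp'.2

variable {k : Type} [Field k] {n : ℕ} (a b : Fin r → Fin (n + 1))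

/-- the binomials of the toric complete intersection -/
noncomputable def Bin (k : Type) [Field k] (i : Fin r) : MvPolynomial (Fin (n + 1) ⊕ Fin r) k :=
  X (Sum.inr i) ^ (q i) - X (Sum.inl (a i)) ^ (q i - 1) *
    (if h : (Sg g i).Nonempty then X (Sum.inr ((Sg g i).max' h)) else X (Sum.inl (b i)))

lemma Bin_hom (hq : ∀ i, 0 < q i) (i : Fin r) : (Bin g q a b k i).IsHomogeneous (q i) := by
  unfold Bin
  refine (isHomogeneous_X_pow _ _).sub ?_
  have h1 : (if h : (Sg g i).Nonempty then X (Sum.inr ((Sg g i).max' h)) else X (Sum.inl (b i)) :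
      MvPolynomial (Fin (n + 1) ⊕ Fin r) k).IsHomogeneous 1 := by
    split_ifs
    · exact isHomogeneous_X _ _
    · exact isHomogeneous_X _ _
  have h2 := (isHomogeneous_X_pow (R := k) (Sum.inl (a i) : Fin (n + 1) ⊕ Fin r) (q i - 1)).mul h1
  rwa [Nat.sub_add_cancel (hq i)] at h2

lemma Bin_map {κ : Type} [Field κ] (φ1 : k →+* κ) (i : Fin r) :
    MvPolynomial.map φ1 (Bin g q a b k i) = Bin g q a b κ i := by
  unfold Bin
  rw [map_sub, map_mul, map_pow, map_pow, map_X, map_X]
  split_ifs <;> rw [map_X]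

lemma Bin_mem (hq : ∀ i, 0 < q i) (hab : ∀ i i', g i = g i' → a i = a i' ∧ b i = b i')
    (P : Ideal (MvPolynomial (Fin (n + 1) ⊕ Fin r) k)) (hP : ∀ i, Bin g q a b k i ∈ P) :
    ∀ i, X (Sum.inr i) ^ (Dg g q i) - X (Sum.inl (a i)) ^ (Dg g q i - 1) * X (Sum.inl (b i)) ∈ P := by
  have hDpos : ∀ i, 0 < Dg g q i := fun i => Finset.prod_pos fun i' _ => hq i'
  intro i
  induction i using WellFoundedLT.induction with
  | ind i ih =>
    by_cases h : (Sg g i).Nonempty
    · have hp' : g ((Sg g i).max' h) = g i ∧ (Sg g i).max' h < i := by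
        have := (Sg g i).max'_mem h
        simpa only [Sg, Finset.mem_filter, Finset.mem_univ, true_and] using this
      set p := (Sg g i).max' h with hp
      have ih' := ih p hp'.2
      obtain ⟨ha, hb⟩ := hab p i hp'.1
      rw [ha, hb] at ih'
      have hBi := hP i
      unfold Bin at hBi
      rw [dif_pos h, ← hp] at hBi
      rw [Dg_next g q h, ← hp]
      rw [← Ideal.Quotient.eq_zero_iff_mem] at ih' hBi ⊢
      simp only [map_sub, map_mul, map_pow, sub_eq_zero] at ih' hBi ⊢
      have hDp := hDpos p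
      have hqi := hq i
      rw [pow_mul, hBi, mul_pow, ih', ← pow_mul, ← mul_assoc, ← pow_add]
      congr 2
      exact sub_helper _ _ hqi hDp
    · rw [Dg_first g q h]
      have hBi := hP i
      unfold Bin at hBi
      rwa [dif_neg h] at hBi

end chain

/-- **Main theorem, toric version.** -/
theorem main_toric (n r : ℕ) (d : Fin r → ℕ) :
    ∃ bad : ℕ → MvPolynomial (Σ i : Fin r, {μ : Fin (n + r + 1) →₀ ℕ // μ.degree = d i}) ℂ,
      (∀ j, bad j ≠ 0) ∧
      ∀ f : Fin r → MvPolynomial (Fin (n + r + 1)) ℂ,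
        (∀ i, f i ∈ MvPolynomial.homogeneousSubmodule (Fin (n + r + 1)) ℂ (d i)) →
        (∀ j, MvPolynomial.eval (fun x => MvPolynomial.coeff x.2.1 (f x.1)) (bad j) ≠ 0) →
        ∀ I : Ideal (MvPolynomial (Fin (n + r + 1)) ℂ),
          (∀ p ∈ I, ∀ k : ℕ, MvPolynomial.homogeneousComponent k p ∈ I) →
          I.IsPrime →
          ringKrullDim (MvPolynomial (Fin (n + r + 1)) ℂ ⧸ I) = 2 →
          (∀ i, f i ∈ I) →
          ∀ (g : Fin r → Fin (n * (n + 1) / 2)) (Q : ℕ), 0 < Q →
            (∀ c, Q ∣ ∏ i ∈ Finset.univ.filter (fun i => g i = c), d i) →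
            ∃ K : ℕ, ∀ k : ℕ, K ≤ k →
              (Q : ℤ) ∣
                (Module.finrank ℂ (Submodule.map (Ideal.Quotient.mkₐ ℂ I).toLinearMap
                    (MvPolynomial.homogeneousSubmodule (Fin (n + r + 1)) ℂ (k + 1))) : ℤ) -
                (Module.finrank ℂ (Submodule.map (Ideal.Quotient.mkₐ ℂ I).toLinearMap
                    (MvPolynomial.homogeneousSubmodule (Fin (n + r + 1)) ℂ k)) : ℤ) := by
  classical
  obtain ⟨K1, hcount, hroots, -⟩ := exists_countable_field
  set σ := (Σ i : Fin r, {μ : Fin (n + r + 1) →₀ ℕ // μ.degree = d i}) with hσ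
  have hcp : Countable (MvPolynomial σ K1) := by
    rw [← Cardinal.mk_le_aleph0_iff]
    refine MvPolynomial.cardinalMk_le_max.trans ?_
    simp only [max_le_iff, le_refl, and_true]
    exact ⟨Cardinal.mk_le_aleph0_iff.mpr hcount, Cardinal.mk_le_aleph0_iff.mpr inferInstance⟩
  have hne : Nonempty {p : MvPolynomial σ K1 // p ≠ 0} := ⟨⟨1, one_ne_zero⟩⟩
  obtain ⟨en, hen⟩ := exists_surjective_nat {p : MvPolynomial σ K1 // p ≠ 0}
  refine ⟨fun j => MvPolynomial.map K1.subtype (en j).1, fun j => ?_, ?_⟩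
  · have h1 := (en j).2
    intro h
    exact h1 ((map_eq_zero_iff _ (MvPolynomial.map_injective _ K1.subtype.injective)).mp h)
  intro f hfh hbad I hI hIp hdim hfI g Q hQ hgQ
  by_cases hQ1 : Q = 1
  · refine ⟨0, fun k _ => ?_⟩
    rw [hQ1]
    exact one_dvd _
  have hind : AlgebraicIndependent K1 (fun x : σ => coeff x.2.1 (f x.1)) := by
    rw [algebraicIndependent_iff]
    intro p hp
    by_contra hp0
    obtain ⟨l, hl⟩ := hen ⟨p, hp0⟩
    apply hbad l
    change MvPolynomial.eval _ (MvPolynomial.map K1.subtype (en l).1) = 0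
    rw [hl, MvPolynomial.eval_map]
    exact hp
  -- pairs
  have hcard : Fintype.card (Fin (n * (n + 1) / 2)) = Fintype.card (Σ y : Fin (n + 1), Fin y.1) := by
    rw [Fintype.card_fin, Fintype.card_sigma]
    simp only [Fintype.card_fin]
    rw [Fin.sum_univ_eq_sum_range (fun i => i) (n + 1), Finset.sum_range_id, Nat.add_sub_cancel,
      mul_comm]
  let e := Fintype.equivOfCardEq hcard
  let ga : Fin (n * (n + 1) / 2) → Fin (n + 1) := fun c =>
    ⟨(e c).2.1, (e c).2.2.trans (e c).1.2⟩
  let gb : Fin (n * (n + 1) / 2) → Fin (n + 1) := fun c => (e c).1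
  have hgcov : ∀ x y : Fin (n + 1), x < y → ∃ c, ga c = x ∧ gb c = y := by
    intro x y hxy
    have he := e.apply_symm_apply ⟨y, ⟨x.1, hxy⟩⟩
    refine ⟨e.symm ⟨y, ⟨x.1, hxy⟩⟩, ?_, ?_⟩
    · apply Fin.ext
      change ((e (e.symm ⟨y, ⟨x.1, hxy⟩⟩)).2 : ℕ) = x.1
      rw [he]
    · change (e (e.symm ⟨y, ⟨x.1, hxy⟩⟩)).1 = y
      rw [he]
  -- the divisors
  choose qq hqq1 hqq2 using fun c => exists_factor (Finset.univ.filter (fun i => g i = c)) d Q
    (hgQ c)
  let q : Fin r → ℕ := fun i => qq (g i) i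
  have hqd : ∀ i, q i ∣ d i := fun i => hqq1 (g i) i (by simp)
  have hqprod : ∀ c, ∏ i ∈ Finset.univ.filter (fun i => g i = c), q i = Q := by
    intro c
    rw [← hqq2 c]
    refine Finset.prod_congr rfl fun i hi => ?_
    simp only [Finset.mem_filter, Finset.mem_univ, true_and] at hi
    simp only [q, hi]
  have hqpos : ∀ i, 0 < q i := by
    intro i
    have h1 : q i ∣ Q := by
      rw [← hqprod (g i)]
      exact Finset.dvd_prod_of_mem q (by simp)
    exact Nat.pos_of_dvd_of_pos h1 hQ
  let a : Fin r → Fin (n + 1) := fun i => ga (g i)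
  let b : Fin r → Fin (n + 1) := fun i => gb (g i)
  have hD : ∀ i, Dg g q i ∣ Q := by
    intro i
    rw [← hqprod (g i)]
    apply Finset.prod_dvd_prod_of_subset
    intro i' hi'
    simp only [Finset.mem_filter, Finset.mem_univ, true_and] at hi' ⊢
    exact hi'.1
  have hcov : ∀ x y : Fin (n + 1), x < y → ∃ i, True ∧ a i = x ∧ b i = y ∧ Dg g q i = Q := by
    intro x y hxy
    obtain ⟨c, hca, hcb⟩ := hgcov x y hxy
    have hnon : (Finset.univ.filter (fun i => g i = c)).Nonempty := by
      by_contra h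
      rw [Finset.not_nonempty_iff_eq_empty] at h
      have := hqprod c
      rw [h, Finset.prod_empty] at this
      exact hQ1 this.symm
    set i := (Finset.univ.filter (fun i => g i = c)).max' hnon with hi
    have hgi : g i = c := by
      have := (Finset.univ.filter (fun i => g i = c)).max'_mem hnon
      simpa only [Finset.mem_filter, Finset.mem_univ, true_and] using this
    refine ⟨i, trivial, ?_, ?_, ?_⟩
    · simp only [a, hgi, hca]
    · simp only [b, hgi, hcb]
    · rw [← hqprod c, Dg]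
      congr 1
      ext i'
      simp only [Finset.mem_filter, Finset.mem_univ, true_and, hgi]
      constructor
      · exact fun h => h.1
      · intro h
        refine ⟨h, Finset.le_max' _ _ (by simpa using h)⟩
  obtain ⟨ω, hω⟩ := hroots Q hQ.ne'
  let ε := idx n r
  let f0 : Fin r → MvPolynomial (Fin (n + r + 1)) K1 := fun i =>
    rename ε.symm ((Bin g q a b K1 i) ^ (d i / q i))
  have hNe : ∀ i, ((Bin g q a b K1 i) ^ (d i / q i)).IsHomogeneous (d i) := by
    intro i
    have h1 := (Bin_hom (k := K1) g q a b hqpos i).pow (d i / q i)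
    rwa [Nat.mul_div_cancel' (hqd i)] at h1
  obtain ⟨B, φ1, hB⟩ := specialise d K1 f hfh hind f0
    (fun i => IsHomogeneous.rename_isHomogeneous (hNe i))
  have hBI := hB I hfI
  have hredh := red_hom B (I := I) hI
  obtain ⟨C, hC⟩ := growth2 I hI hdim.le
  have hfin := kappa_toric (κ := IsLocalRing.ResidueField B) hQ (φ1 ω)
    (hω.map_of_injective φ1.injective) (fun _ => True) a b (Dg g q) (fun i _ => hD i) hcov
    ((red B I).comap (rename ε.symm : MvPolynomial (Fin (n + 1) ⊕ Fin r)
      (IsLocalRing.ResidueField B) →ₐ[IsLocalRing.ResidueField B] _))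
    (hom_equiv ε hredh) ⟨C, fun t => by rw [hf_equiv, red_hf B hI]; exact hC t⟩
    (by
      intro P hP hJP i
      refine ⟨fun _ => ?_, fun h => absurd trivial h⟩
      refine Bin_mem g q a b hqpos (fun i i' h => ⟨by simp only [a, h], by simp only [b, h]⟩) P
        (fun i => ?_) i
      have h1 : (Bin g q a b (IsLocalRing.ResidueField B) i) ^ (d i / q i) ∈ P := by
        apply hJP
        rw [Ideal.mem_comap]
        have h2 := hBI i
        simp only [f0] at h2
        rw [MvPolynomial.map_rename, map_pow, Bin_map] at h2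
        exact h2
      exact hP.mem_of_pow_mem _ h1)
  obtain ⟨K, hK⟩ := hfin
  refine ⟨K, fun k hk => ?_⟩
  have h1 := hK k hk
  rw [hf_equiv, hf_equiv, red_hf B hI, red_hf B hI] at h1
  exact h1

end Pool.Agent.TH922.KC
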