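import Mathlib
import Pool.Agent.TH922.KC.Tor3
import Pool.Agent.TH922.KC.Kol5

set_option autoImplicit false
set_option linter.unusedSectionVars false

open MvPolynomial

namespace Pool.Agent.TH922.KC

/-- the special equations -/
lemma exists_eqs2 {k : Type} [Field k] {n r Q J : ℕ} (hJ : 2 * J ≤ n + 1) (hQ : 1 ≤ Q)
    (d : Fin r → ℕ) (bi : ℕ → Fin r) {Λ : Type} (mi : Λ → Fin r)
    (E : Λ → MvPolynomial (Fin (n + 1) ⊕ Fin r) k) (hE : ∀ h, (E h).IsHomogeneous (d (mi h)))
    (hb : ∀ j, j < J → Q ∣ d (bi j))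
    (hbb : ∀ j j', j < J → j' < J → bi j = bi j' → j = j') (hmm : Function.Injective mi)
    (hbm : ∀ j h, j < J → bi j ≠ mi h) (i : Fin r) :
    ∃ N : MvPolynomial (Fin (n + 1) ⊕ Fin r) k, N.IsHomogeneous (d i) ∧
      (∀ j (hj : j < J), i = bi j → N = (X (Sum.inr (bi j)) ^ Q -
        X (Sum.inl ⟨2 * j, by omega⟩) * X (Sum.inl ⟨2 * j + 1, by omega⟩) ^ (Q - 1)) ^ (d i / Q)) ∧
      (∀ h, i = mi h → N = E h) ∧
      ((∀ j, j < J → i ≠ bi j) → (∀ h, i ≠ mi h) → N = X (Sum.inr i) ^ (d i)) := by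
  classical
  by_cases h1 : ∃ j, j < J ∧ i = bi j
  · obtain ⟨j, hj, hij⟩ := h1
    refine ⟨(X (Sum.inr (bi j)) ^ Q - X (Sum.inl ⟨2 * j, by omega⟩) *
      X (Sum.inl ⟨2 * j + 1, by omega⟩) ^ (Q - 1)) ^ (d i / Q), ?_, ?_, ?_, ?_⟩
    · have h2 := (isHomogeneous_X k (Sum.inl ⟨2 * j, by omega⟩ : Fin (n + 1) ⊕ Fin r)).mul
        (isHomogeneous_X_pow (R := k) (Sum.inl ⟨2 * j + 1, by omega⟩ : Fin (n + 1) ⊕ Fin r) (Q - 1))
      rw [Nat.add_sub_cancel' hQ] at h2
      have h3 := ((isHomogeneous_X_pow (R := k) (Sum.inr (bi j) : Fin (n + 1) ⊕ Fin r) Q).sub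
        h2).pow (d i / Q)
      have h4 : Q * (d i / Q) = d i := Nat.mul_div_cancel' (hij ▸ hb j hj)
      rwa [h4] at h3
    · intro j' hj' hij'
      have h2 : j = j' := hbb j j' hj hj' (hij.symm.trans hij')
      subst h2
      rfl
    · intro h hij'
      exact absurd (hij.symm.trans hij') (hbm j h hj)
    · intro h2 _
      exact absurd hij (h2 j hj)
  by_cases h2 : ∃ h, i = mi h
  · obtain ⟨h, rfl⟩ := h2
    refine ⟨E h, hE h, ?_, ?_, ?_⟩
    · intro j' hj' hij'
      exact absurd ⟨j', hj', hij'⟩ h1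
    · intro h' hh'
      rw [hmm hh']
    · intro _ h6
      exact absurd rfl (h6 h)
  · refine ⟨X (Sum.inr i) ^ (d i), isHomogeneous_X_pow _ _, ?_, ?_, fun _ _ => rfl⟩
    · intro j hj hij
      exact absurd ⟨j, hj, hij⟩ h1
    · intro h hij
      exact absurd ⟨h, hij⟩ h2

lemma bound_help (p J e Q : ℕ) (hp : 2 ≤ p) (hQ : p ≤ Q) (he : 0 < e) (hJe : J * Q ≤ e) :
    p + J * (Q - 1) ^ 2 ≤ Q * e + 1 := by
  obtain ⟨q, rfl⟩ := Nat.exists_eq_add_of_le' (show 1 ≤ Q by omega)
  rw [Nat.add_sub_cancel]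
  rcases Nat.eq_zero_or_pos J with rfl | hJ
  · nlinarith
  · have h1 : (q + 1) * (J * (q + 1)) ≤ (q + 1) * e := Nat.mul_le_mul_left _ hJe
    nlinarith

/-- **Main theorem, block coverings.** -/
theorem main_design (n r : ℕ) (hn0 : 0 < n) (d : Fin r → ℕ) :
    ∃ bad : ℕ → MvPolynomial (Σ i : Fin r, {μ : Fin (n + r + 1) →₀ ℕ // μ.degree = d i}) ℂ,
      (∀ j, bad j ≠ 0) ∧
      ∀ f : Fin r → MvPolynomial (Fin (n + r + 1)) ℂ,
        (∀ i, f i ∈ MvPolynomial.homogeneousSubmodule (Fin (n + r + 1)) ℂ (d i)) →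
        (∀ j, MvPolynomial.eval (fun x => MvPolynomial.coeff x.2.1 (f x.1)) (bad j) ≠ 0) →
        ∀ I : Ideal (MvPolynomial (Fin (n + r + 1)) ℂ),
          (∀ p ∈ I, ∀ k : ℕ, MvPolynomial.homogeneousComponent k p ∈ I) →
          I.IsPrime →
          ringKrullDim (MvPolynomial (Fin (n + r + 1)) ℂ ⧸ I) = 2 →
          (∀ i, f i ∈ I) →
          ∀ (p s J m : ℕ) (H : Fin m → Finset (Fin (n + 1 - J))) (ix : Fin J ⊕ Fin m → Fin r),
            p.Prime → (n < p ∨ ∀ h, 2 * (H h).card < p) → 2 * J ≤ n + 1 → Function.Injective ix →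
            (∀ a b, a ≠ b → ∃ h, a ∈ H h ∧ b ∈ H h) →
            (∀ j, p ^ s ∣ d (ix (Sum.inl j))) →
            (∀ h, p ^ (s * ((H h).card - 1)) ∣ d (ix (Sum.inr h)) ∧
              min J (H h).card * p ^ (s * (H h).card) ≤ d (ix (Sum.inr h)) ∧
              0 < d (ix (Sum.inr h))) →
            ∃ K : ℕ, ∀ k : ℕ, K ≤ k →
              ((p ^ s : ℕ) : ℤ) ∣
                (Module.finrank ℂ (Submodule.map (Ideal.Quotient.mkₐ ℂ I).toLinearMap
                    (MvPolynomial.homogeneousSubmodule (Fin (n + r + 1)) ℂ (k + 1))) : ℤ) -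
                (Module.finrank ℂ (Submodule.map (Ideal.Quotient.mkₐ ℂ I).toLinearMap
                    (MvPolynomial.homogeneousSubmodule (Fin (n + r + 1)) ℂ k)) : ℤ) := by
  classical
  obtain ⟨K1, hcount, hroots, hindep⟩ := exists_countable_field
  set σ := (Σ i : Fin r, {μ : Fin (n + r + 1) →₀ ℕ // μ.degree = d i}) with hσ
  have hcp : Countable (MvPolynomial σ K1) := by
    rw [← Cardinal.mk_le_aleph0_iff]
    refine MvPolynomial.cardinalMk_le_max.trans ?_
    simp only [max_le_iff, le_refl, and_true]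
    exact ⟨Cardinal.mk_le_aleph0_iff.mpr hcount, Cardinal.mk_le_aleph0_iff.mpr inferInstance⟩
  have hne : Nonempty {p : MvPolynomial σ K1 // p ≠ 0} := ⟨⟨1, one_ne_zero⟩⟩
  obtain ⟨en, hen⟩ := exists_surjective_nat {p : MvPolynomial σ K1 // p ≠ 0}
  refine ⟨fun j => MvPolynomial.map K1.subtype (en j).1, fun j => ?_, ?_⟩
  · have h1 := (en j).2
    intro h
    exact h1 ((map_eq_zero_iff _ (MvPolynomial.map_injective _ K1.subtype.injective)).mp h)
  intro f hfh hbad I hI hIp hdim hfI p s J m H ix hp hnp hJ hix hcov hbase hbig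
  by_cases hs : s = 0
  · refine ⟨0, fun k _ => ?_⟩
    rw [hs, pow_zero, Nat.cast_one]
    exact one_dvd _
  have hq0 : 0 < p ^ s := pow_pos hp.pos s
  have hpQ : p ≤ p ^ s := Nat.le_self_pow hs p
  have hQ2 : 2 ≤ p ^ s := hp.two_le.trans hpQ
  have hind : AlgebraicIndependent K1 (fun x : σ => coeff x.2.1 (f x.1)) := by
    rw [algebraicIndependent_iff]
    intro p hp
    by_contra hp0
    obtain ⟨l, hl⟩ := hen ⟨p, hp0⟩
    apply hbad l
    change MvPolynomial.eval _ (MvPolynomial.map K1.subtype (en l).1) = 0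
    rw [hl, MvPolynomial.eval_map]
    exact hp
  -- an index
  have hi0 : Nonempty (Fin r) := by
    by_cases hJ0 : 0 < J
    · exact ⟨ix (Sum.inl ⟨0, hJ0⟩)⟩
    · obtain ⟨h, -⟩ := hcov ⟨0, by omega⟩ ⟨1, by omega⟩ (by
        intro h
        have := congrArg Fin.val h
        simp at this)
      exact ⟨ix (Sum.inr h)⟩
  obtain ⟨i0⟩ := hi0
  obtain ⟨u, hu⟩ : ∃ u, n + 1 = 2 * J + u := Nat.exists_eq_add_of_le hJ
  have hblocks : n + 1 - J = J + u := by omega
  let bi : ℕ → Fin r := fun j => if h : j < J then ix (Sum.inl ⟨j, h⟩) else i0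
  have hbi : ∀ j (h : j < J), bi j = ix (Sum.inl ⟨j, h⟩) := fun j h => dif_pos h
  let Λ : Type := {h : Fin m // (H h).Nonempty}
  let HN : Λ → Finset ℕ := fun h => (H h.1).map Fin.valEmbedding
  let h0 : Λ → ℕ := fun h => (h.2.choose : Fin (n + 1 - J)).1
  have hh0 : ∀ h, h0 h ∈ HN h := fun h => Finset.mem_map_of_mem _ h.2.choose_spec
  have hHN : ∀ h, ∀ b ∈ HN h, b < J + u := by
    intro h b hb
    obtain ⟨b', -, rfl⟩ := Finset.mem_map.mp hb
    have := b'.2
    change b'.1 < J + u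
    omega
  have hcardN : ∀ h : Λ, Fintype.card {b // b ∈ (HN h).erase (h0 h)} = (H h.1).card - 1 := by
    intro h
    rw [Fintype.card_coe, Finset.card_erase_of_mem (hh0 h), Finset.card_map]
  have hcardpos : ∀ h : Λ, 0 < (H h.1).card := fun h => Finset.card_pos.mpr h.2
  let mi : Λ → Fin r := fun h => ix (Sum.inr h.1)
  let e : Λ → ℕ := fun h => d (mi h) / (p ^ s) ^ ((H h.1).card - 1)
  have hde : ∀ h, e h * (p ^ s) ^ ((H h.1).card - 1) = d (mi h) := by
    intro h
    apply Nat.div_mul_cancel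
    rw [← pow_mul]
    exact (hbig h.1).1
  have he : ∀ h, 0 < e h := by
    intro h
    have h1 := (hbig h.1).2.2
    by_contra h2
    have h3 := hde h
    rw [Nat.eq_zero_of_not_pos h2, zero_mul] at h3
    change 0 < d (mi h) at h1
    omega
  have hcardHN : ∀ h, (HN h).card = (H h.1).card := fun h => Finset.card_map _
  have hJe : ∀ h, min J (HN h).card * p ^ s ≤ e h := by
    intro h
    have h1 := (hbig h.1).2.1
    change _ ≤ d (mi h) at h1
    have h2 : p ^ (s * (H h.1).card) = p ^ s * (p ^ s) ^ ((H h.1).card - 1) := by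
      rw [← pow_succ', Nat.sub_add_cancel (hcardpos h), pow_mul]
    rw [h2, ← hde h, ← mul_assoc] at h1
    rw [hcardHN]
    exact Nat.le_of_mul_le_mul_right h1 (pow_pos hq0 _)
  have hD : ∀ h, p + min J (HN h).card * (p ^ s - 1) ^ 2 ≤ p ^ s * e h + 1 := fun h =>
    bound_help p (min J (HN h).card) (e h) (p ^ s) hp.two_le hpQ (he h) (hJe h)
  obtain ⟨ω, hω⟩ := hroots (p ^ s) hq0.ne'
  choose c hc using fun h : Λ => hindep (IH n J (p ^ s) (p ^ s * e h) (HN h))
  have hEE := fun h : Λ => exists_E2 (k := K1) (n := n) (β := Fin r) (e := e h) hQ2 hu ω hω bi (mi h)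
    (fun o : IH n J (p ^ s) (p ^ s * e h) (HN h) => mE o) (c h)
    (fun b : {b // b ∈ (HN h).erase (h0 h)} => b.1) (h0 h) (hHN h _ (hh0 h))
    (by
      intro o b' _ hb'
      have h1 := cov_mE o b' hb'
      by_cases h2 : b' = h0 h
      · exact Or.inl h2
      · exact Or.inr ⟨⟨b', Finset.mem_erase.mpr ⟨h2, h1⟩⟩, rfl⟩)
    (fun o => sum_mE o) (fun o j hj => pair_mE o j hj)
  choose E hE1 hE2 using hEE
  have hE1' : ∀ h, (E h).IsHomogeneous (d (mi h)) := by
    intro h
    have h1 := hE1 h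
    rwa [hcardN, hde] at h1
  have hNN := exists_eqs2 (k := K1) (n := n) (Q := p ^ s) hJ (by omega) d bi mi E hE1'
    (fun j hj => by rw [hbi j hj]; exact hbase _)
    (fun j j' hj hj' h => by
      rw [hbi j hj, hbi j' hj'] at h
      have h1 := hix h
      rw [Sum.inl.injEq] at h1
      exact congrArg Fin.val h1)
    (fun h h' hhh => by
      have h1 := hix hhh
      rw [Sum.inr.injEq] at h1
      exact Subtype.ext h1)
    (fun j h hj hjh => by
      rw [hbi j hj] at hjh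
      exact Sum.inl_ne_inr (hix hjh))
  choose N hN1 hN2 hN3 hN4 using hNN
  let ε := idx n r
  let f0 : Fin r → MvPolynomial (Fin (n + r + 1)) K1 := fun i => rename ε.symm (N i)
  obtain ⟨B, φ1, hB⟩ := specialise d K1 f hfh hind f0
    (fun i => IsHomogeneous.rename_isHomogeneous (hN1 i))
  have hBI := hB I hfI
  have hredh := red_hom B (I := I) hI
  obtain ⟨C, hC⟩ := growth2 I hI hdim.le
  have hmem : ∀ i, MvPolynomial.map φ1 (N i) ∈ (red B I).comap
      (rename ε.symm : MvPolynomial (Fin (n + 1) ⊕ Fin r)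
      (IsLocalRing.ResidueField B) →ₐ[IsLocalRing.ResidueField B] _) := by
    intro i
    rw [Ideal.mem_comap]
    have h2 := hBI i
    simp only [f0] at h2
    rw [MvPolynomial.map_rename] at h2
    exact h2
  have hchar : CharZero (IsLocalRing.ResidueField B) := charZero_of_injective_ringHom φ1.injective
  have hfin := kappa_design (κ := IsLocalRing.ResidueField B) hu hp hs (φ1 ω)
    (hω.map_of_injective φ1.injective) bi HN h0
    (fun h => hnp.imp_right fun h1 => by
      have h2 := h1 h.1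
      have h3 := SH_card_le (n := n) (J := J) (H := HN h)
      rw [hcardHN] at h3
      omega) hHN
    (by
      intro a ha b hb hab
      obtain ⟨h, h1, h2⟩ := hcov ⟨a, by omega⟩ ⟨b, by omega⟩ (by
        intro h
        exact hab (congrArg Fin.val h))
      exact ⟨⟨h, ⟨_, h1⟩⟩, Finset.mem_map_of_mem Fin.valEmbedding h1,
        Finset.mem_map_of_mem Fin.valEmbedding h2⟩)
    mi e he (fun h o => φ1 (c h o))
    (fun h => by
      have := (hc h).map' (f := φ1.toRatAlgHom) φ1.injective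
      exact this) hD
    ((red B I).comap (rename ε.symm : MvPolynomial (Fin (n + 1) ⊕ Fin r)
      (IsLocalRing.ResidueField B) →ₐ[IsLocalRing.ResidueField B] _))
    (hom_equiv ε hredh) ⟨C, fun t => by rw [hf_equiv, red_hf B hI]; exact hC t⟩
    (by
      intro P hP hJP j hj
      have h1 := hJP (hmem (bi j))
      rw [hN2 (bi j) j hj rfl] at h1
      simp only [map_pow, map_sub, map_mul, map_X] at h1
      exact hP.mem_of_pow_mem _ h1)
    (by
      intro h
      refine ⟨MvPolynomial.map φ1 (N (mi h)), hmem _, ?_⟩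
      intro Ω _ θ x yy hpt
      rw [hN3 (mi h) h rfl, eval₂_map, hE2 h Ω (θ.comp φ1) x yy hpt]
      refine Finset.prod_congr rfl fun l _ => ?_
      congr 1
      refine Finset.sum_congr rfl fun o _ => ?_
      rw [RingHom.comp_apply, map_mul, map_pow])
    (by
      intro P hP hJP i hi1 hi2
      have h1 := hJP (hmem i)
      rw [hN4 i hi1 hi2] at h1
      simp only [map_pow, map_X] at h1
      exact hP.mem_of_pow_mem _ h1)
  obtain ⟨K, hK⟩ := hfin
  refine ⟨K, fun k hk => ?_⟩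
  have h1 := hK k hk
  rw [hf_equiv, hf_equiv, red_hf B hI, red_hf B hI] at h1
  exact h1

end Pool.Agent.TH922.KC
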