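import Mathlib
import Pool.Agent.TH922.KC.Kol6

set_option autoImplicit false

open MvPolynomial

namespace Pool.Agent.TH922.KC

/-- divisibility by `Q` from divisibility by its prime powers, eventually -/
lemma eventually_dvd (Q : ℕ) (hQ : 0 < Q) (Δ : ℕ → ℤ)
    (h : ∀ p s : ℕ, p.Prime → s ≠ 0 → p ^ s ∣ Q → ∃ K : ℕ, ∀ k : ℕ, K ≤ k →
      ((p ^ s : ℕ) : ℤ) ∣ Δ k) :
    ∃ K : ℕ, ∀ k : ℕ, K ≤ k → (Q : ℤ) ∣ Δ k := by
  classical
  have h1 : ∀ p, ∃ K : ℕ, p ∈ Q.primeFactors → ∀ k : ℕ, K ≤ k →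
      ((p ^ Q.factorization p : ℕ) : ℤ) ∣ Δ k := by
    intro p
    by_cases hp : p ∈ Q.primeFactors
    · obtain ⟨hp1, hp2, hp3⟩ := Nat.mem_primeFactors.mp hp
      obtain ⟨K, hK⟩ := h p (Q.factorization p) hp1
        (hp1.factorization_pos_of_dvd hp3 hp2).ne' (Nat.ordProj_dvd Q p)
      exact ⟨K, fun _ => hK⟩
    · exact ⟨0, fun h => absurd h hp⟩
  choose K hK using h1
  refine ⟨∑ p ∈ Q.primeFactors, K p, fun k hk => ?_⟩
  rw [Int.natCast_dvd, Nat.dvd_iff_prime_pow_dvd_dvd]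
  intro p a hp hpa
  rcases Nat.eq_zero_or_pos a with rfl | ha
  · rw [pow_zero]; exact one_dvd _
  have hpQ : p ∣ Q := (dvd_pow_self p ha.ne').trans hpa
  have hmem : p ∈ Q.primeFactors := Nat.mem_primeFactors.mpr ⟨hp, hpQ, hQ.ne'⟩
  have h2 : a ≤ Q.factorization p := (hp.pow_dvd_iff_le_factorization hQ.ne').mp hpa
  have h3 := hK p hmem k ((Finset.single_le_sum (f := K) (fun _ _ => Nat.zero_le _) hmem).trans hk)
  rw [Int.natCast_dvd] at h3
  exact (pow_dvd_pow p h2).trans h3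

/-- **Main theorem, block coverings, all moduli.** -/
theorem main_cover (n r : ℕ) (hn0 : 0 < n) (d : Fin r → ℕ) :
    ∃ bad : ℕ → MvPolynomial (Σ i : Fin r, {μ : Fin (n + r + 1) →₀ ℕ // μ.degree = d i}) ℂ,
      (∀ j, bad j ≠ 0) ∧
      ∀ f : Fin r → MvPolynomial (Fin (n + r + 1)) ℂ,
        (∀ i, f i ∈ MvPolynomial.homogeneousSubmodule (Fin (n + r + 1)) ℂ (d i)) →
        (∀ j, MvPolynomial.eval (fun x => MvPolynomial.coeff x.2.1 (f x.1)) (bad j) ≠ 0) →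
        ∀ I : Ideal (MvPolynomial (Fin (n + r + 1)) ℂ),
          (∀ p ∈ I, ∀ k : ℕ, MvPolynomial.homogeneousComponent k p ∈ I) →
          I.IsPrime →
          ringKrullDim (MvPolynomial (Fin (n + r + 1)) ℂ ⧸ I) = 2 →
          (∀ i, f i ∈ I) →
          ∀ (Q J m : ℕ) (H : Fin m → Finset (Fin (n + 1 - J))) (ix : Fin J ⊕ Fin m → Fin r),
            0 < Q → (∀ p : ℕ, p.Prime → p ∣ Q → n < p ∨ ∀ h, 2 * (H h).card < p) →
            2 * J ≤ n + 1 → Function.Injective ix →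
            (∀ a b, a ≠ b → ∃ h, a ∈ H h ∧ b ∈ H h) →
            (∀ j, Q ∣ d (ix (Sum.inl j))) →
            (∀ h, Q ^ ((H h).card - 1) ∣ d (ix (Sum.inr h)) ∧
              min J (H h).card * Q ^ (H h).card ≤ d (ix (Sum.inr h)) ∧
              0 < d (ix (Sum.inr h))) →
            ∃ K : ℕ, ∀ k : ℕ, K ≤ k →
              (Q : ℤ) ∣
                (Module.finrank ℂ (Submodule.map (Ideal.Quotient.mkₐ ℂ I).toLinearMap
                    (MvPolynomial.homogeneousSubmodule (Fin (n + r + 1)) ℂ (k + 1))) : ℤ) -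
                (Module.finrank ℂ (Submodule.map (Ideal.Quotient.mkₐ ℂ I).toLinearMap
                    (MvPolynomial.homogeneousSubmodule (Fin (n + r + 1)) ℂ k)) : ℤ) := by
  obtain ⟨bad, hbad, hmain⟩ := main_design n r hn0 d
  refine ⟨bad, hbad, ?_⟩
  intro f hf hfb I hI hIp hdim hfI Q J m H ix hQ hQp hJ hix hcov hbase hbig
  refine eventually_dvd Q hQ _ ?_
  intro p s hp hs hps
  have hpQ : p ∣ Q := (dvd_pow_self p hs).trans hps
  have hle : p ^ s ≤ Q := Nat.le_of_dvd hQ hps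
  refine hmain f hf hfb I hI hIp hdim hfI p s J m H ix hp (hQp p hp hpQ) hJ hix hcov
    (fun j => hps.trans (hbase j)) (fun h => ⟨?_, ?_, (hbig h).2.2⟩)
  · rw [pow_mul]
    exact (pow_dvd_pow_of_dvd hps _).trans (hbig h).1
  · rw [pow_mul]
    exact (Nat.mul_le_mul_left _ (Nat.pow_le_pow_left hle _)).trans (hbig h).2.1

end Pool.Agent.TH922.KC
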