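import Mathlib
import Pool.Agent.TH922.KC.Tor2

set_option autoImplicit false
set_option linter.unusedSectionVars false

open MvPolynomial

namespace Pool.Agent.TH922.KC

/-- **Toric case over the residue field, connected graph, no coordinate vanishes.** -/
theorem kappa_conn {κ : Type} [Field κ] {n : ℕ} {β : Type} [Fintype β] {Q : ℕ}
    (hQ : 0 < Q) (ω : κ) (hω : IsPrimitiveRoot ω Q)
    (a b : β → Fin (n + 1)) (D : β → ℕ) (hD : ∀ i, D i ∣ Q)
    (hcon : ∀ U : Set (Fin (n + 1)), U.Nonempty → U ≠ Set.univ →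
      ∃ i, D i = Q ∧ ((a i ∈ U ∧ b i ∉ U) ∨ (a i ∉ U ∧ b i ∈ U)))
    (P : Ideal (MvPolynomial (Fin (n + 1) ⊕ β) κ)) (hP : IsHom P) (hPp : P.IsPrime)
    (hPgr : ∃ C : ℕ, ∀ t, hf P t ≤ C * (t + 1))
    (hnz : ∀ x : Fin (n + 1), X (Sum.inl x) ∉ P)
    (hN0 : ∀ i, X (Sum.inr i) ^ (D i) - X (Sum.inl (a i)) ^ (D i - 1) * X (Sum.inl (b i)) ∈ P) :
    ∃ K : ℕ, ∀ t ≥ K, (Q : ℤ) ∣ (hf P (t + 1) : ℤ) - hf P t := by
  classical
  let pr : β → Prop := fun _ => True
  have hD' : ∀ i, pr i → D i ∣ Q := fun i _ => hD i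
  have hN' : ∀ i, (pr i → X (Sum.inr i) ^ (D i) - X (Sum.inl (a i)) ^ (D i - 1) *
      X (Sum.inl (b i)) ∈ P) ∧ (¬ pr i → X (Sum.inr i) ∈ P) :=
    fun i => ⟨fun _ => hN0 i, fun h => absurd trivial h⟩
  have hDpos : ∀ i, pr i → 0 < D i := fun i hi => Nat.pos_of_dvd_of_pos (hD' i hi) hQ
  let Λ : β → Type := fun i => Fin (if pr i then D i else 1)
  let M : β → MvPolynomial (Fin (n + 1)) κ := fun i =>
    X (a i) ^ (Q - Q / D i) * X (b i) ^ (Q / D i)
  let cand : ∀ i, Λ i → MvPolynomial (Fin (n + 1)) κ := fun i l =>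
    if pr i then C (ω ^ ((Q / D i) * (l : ℕ))) * M i else 0
  have hcand : ∀ i l, (cand i l).IsHomogeneous Q := by
    intro i l
    simp only [cand]
    split_ifs with h
    · have h1 := ((isHomogeneous_X_pow (R := κ) (a i) (Q - Q / D i)).mul
        (isHomogeneous_X_pow (R := κ) (b i) (Q / D i))).C_mul (ω ^ ((Q / D i) * (l : ℕ)))
      rwa [Nat.sub_add_cancel (Nat.div_le_self _ _)] at h1
    · exact isHomogeneous_zero _ _ _
  obtain ⟨sel, Q0, hQp, hQh, hQP⟩ := lying_over' hQ P hP hPp (Λ := Λ) cand hcand (by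
    intro i
    by_cases h : pr i
    · refine ⟨_, (hN' i).1 h, ?_⟩
      have hcD : (Q / D i) * D i = Q := Nat.div_mul_cancel (hD' i h)
      have hζ : IsPrimitiveRoot (ω ^ (Q / D i)) (D i) := hω.pow hQ hcD.symm
      have hζ' : IsPrimitiveRoot (C (C (ω ^ (Q / D i))) :
          MvPolynomial β (MvPolynomial (Fin (n + 1)) κ)) (D i) :=
        hζ.map_of_injective (f := (C : MvPolynomial (Fin (n + 1)) κ →+* _).comp C)
          ((C_injective _ _).comp (C_injective _ _))
      have h1 := prod_root (hDpos i h) _ hζ' (X i) (C (M i))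
      have h2 : EE κ n β Q (X (Sum.inr i) ^ (D i) - X (Sum.inl (a i)) ^ (D i - 1) *
          X (Sum.inl (b i))) = X i ^ (D i) - C (M i) ^ (D i) := by
        rw [map_sub, map_mul, map_pow, map_pow, EE_z, EE_y, EE_y, ← map_pow, ← map_mul, ← map_pow]
        congr 2
        simp only [M]
        rw [mul_pow, ← pow_mul, ← pow_mul, ← pow_mul, hcD]
        congr 2
        rw [Nat.sub_mul, hcD, Nat.mul_sub, mul_one]
      rw [h2, ← h1]
      have h3 : (if pr i then D i else 1) = D i := if_pos h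
      refine Fintype.prod_equiv (finCongr h3.symm) _ _ fun l => ?_
      simp only [cand, if_pos h]
      congr 1
      have e1 : (C (ω ^ (Q / D i * (l : ℕ))) : MvPolynomial (Fin (n + 1)) κ)
          = (C (ω ^ (Q / D i))) ^ (l : ℕ) := by rw [pow_mul, C_pow]
      change C (C (ω ^ (Q / D i))) ^ (l : ℕ) * C (M i)
        = C (C (ω ^ (Q / D i * (l : ℕ))) * M i)
      rw [e1]
      generalize M i = m'
      generalize (C (ω ^ (Q / D i)) : MvPolynomial (Fin (n + 1)) κ) = w'
      rw [C_mul, C_pow]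
    · refine ⟨X (Sum.inr i), (hN' i).2 h, ?_⟩
      rw [EE_z]
      simp only [cand, if_neg h]
      have h3 : (if pr i then D i else 1) = 1 := if_neg h
      rw [Finset.prod_const, map_zero, sub_zero]
      have h4 : (Finset.univ : Finset (Λ i)).card = 1 := by
        rw [Finset.card_univ]
        change Fintype.card (Fin (if pr i then D i else 1)) = 1
        rw [Fintype.card_fin, h3]
      rw [h4, pow_one])
  -- the fraction field
  let Ω := FractionRing (MvPolynomial (Fin (n + 1)) κ ⧸ Q0)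
  let ξ : Fin (n + 1) → Ω := fun i => algebraMap (MvPolynomial (Fin (n + 1)) κ ⧸ Q0) Ω
    (Ideal.Quotient.mk Q0 (X i))
  have hker : RingHom.ker (aeval ξ : MvPolynomial (Fin (n + 1)) κ →ₐ[κ] Ω) = Q0 := by
    have h1 : (aeval ξ : MvPolynomial (Fin (n + 1)) κ →ₐ[κ] Ω)
        = (IsScalarTower.toAlgHom κ (MvPolynomial (Fin (n + 1)) κ ⧸ Q0) Ω).comp
          (Ideal.Quotient.mkₐ κ Q0) := by
      ext i
      simp [ξ]
    ext p
    rw [RingHom.mem_ker, h1]
    change algebraMap (MvPolynomial (Fin (n + 1)) κ ⧸ Q0) Ω (Ideal.Quotient.mk Q0 p) = 0 ↔ _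
    rw [map_eq_zero_iff _ (IsFractionRing.injective (MvPolynomial (Fin (n + 1)) κ ⧸ Q0) Ω),
      Ideal.Quotient.eq_zero_iff_mem]
  set G : β → MvPolynomial (Fin (n + 1)) κ := fun i => cand i (sel i) with hG
  have hkerP : RingHom.ker (Psi Q G ξ) = P := by
    rw [← hQP]
    ext p
    rw [Ideal.mem_comap, RingHom.mem_ker]
    have h1 := congrArg (fun I : Ideal (MvPolynomial (Fin (n + 1)) κ) =>
      phi Q G p ∈ I) hker
    exact (RingHom.mem_ker (f := (aeval ξ : MvPolynomial (Fin (n + 1)) κ →ₐ[κ] Ω))).symm.trans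
      (iff_of_eq h1)
  have hfin := finish (κ := κ) (Ω := Ω) (q := Q) (G := G) (ξ := ξ) hQ (fun i => hcand i _)
    (by rw [hker]; exact hQh) 1 (by
      intro j0 hj0 _
      -- the ratios lie in the base field
      have hξ0 : ∀ x, ξ x ≠ 0 := by
        intro x hx
        apply hnz x
        rw [← hkerP, RingHom.mem_ker, Psi_y, hx, zero_pow hQ.ne']
      have hratio : ∀ i, D i = Q → ξ (b i) / ξ (a i) ∈ FF Q G ξ := by
        intro i hDi
        have hi : pr i := trivial
        have hx := hξ0 (a i)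
        have hω0 : ω ≠ 0 := hω.ne_zero hQ.ne'
        have h1 : Psi Q G ξ (X (Sum.inr i)) =
            algebraMap κ Ω (ω ^ ((sel i : ℕ))) * (ξ (a i) ^ (Q - 1) * ξ (b i)) := by
          rw [Psi_z]
          simp only [hG, cand, if_pos hi, M, hDi, Nat.div_self hQ, one_mul, pow_one]
          simp only [map_mul, map_pow, aeval_C, aeval_X]
        have h2 : ξ (b i) / ξ (a i) = Psi Q G ξ (X (Sum.inr i)) *
            (algebraMap κ Ω (ω ^ ((sel i : ℕ))))⁻¹ * (Psi Q G ξ (X (Sum.inl (a i))))⁻¹ := by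
          rw [h1, Psi_y]
          have h3 : algebraMap κ Ω (ω ^ ((sel i : ℕ))) ≠ 0 := by
            rw [Ne, map_eq_zero]; exact pow_ne_zero _ hω0
          have h4 : ξ (a i) ^ Q = ξ (a i) ^ (Q - 1) * ξ (a i) := by
            rw [← pow_succ, Nat.sub_add_cancel hQ]
          have hB : ξ (a i) ^ (Q - 1) ≠ 0 := pow_ne_zero _ hx
          rw [h4]
          exact ratio_alg _ _ _ _ h3 hB hx
        rw [h2]
        refine mul_mem (mul_mem (Psi_mem_FF _) (inv_mem ?_)) (inv_mem (Psi_mem_FF _))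
        exact (FF Q G ξ).algebraMap_mem _
      have hall : ∀ y, ξ y / ξ j0 ∈ FF Q G ξ := by
        have htrans : ∀ u v, ξ v / ξ u ∈ FF Q G ξ → ξ u / ξ j0 ∈ FF Q G ξ →
            ξ v / ξ j0 ∈ FF Q G ξ := by
          intro u v h5 ih
          have h6 := mul_mem h5 ih
          have h7 : ξ v / ξ u * (ξ u / ξ j0) = ξ v / ξ j0 := by
            rw [div_mul_div_comm, mul_comm (ξ v) (ξ u), mul_div_mul_left _ _ (hξ0 u)]
          rwa [h7] at h6
        by_contra hcontra
        push Not at hcontra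
        obtain ⟨y, hy⟩ := hcontra
        obtain ⟨i, hi, hab⟩ := hcon {y | ξ y / ξ j0 ∈ FF Q G ξ}
          ⟨j0, by rw [Set.mem_setOf_eq, div_self hj0]; exact one_mem _⟩
          (fun h => hy (by
            have : y ∈ (Set.univ : Set (Fin (n + 1))) := Set.mem_univ y
            rw [← h] at this
            exact this))
        have h8 := hratio i hi
        rcases hab with ⟨h9, h10⟩ | ⟨h9, h10⟩
        · exact h10 (htrans _ _ h8 h9)
        · have h11 := inv_mem h8
          rw [inv_div] at h11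
          exact h9 (htrans _ _ h11 h10)
      have hbot : IntermediateField.adjoin (FF Q G ξ) (Set.range (fun j => ξ j / ξ j0)) = ⊥ := by
        rw [IntermediateField.adjoin_eq_bot_iff]
        rintro _ ⟨y, rfl⟩
        exact IntermediateField.mem_bot.mpr ⟨⟨_, hall y⟩, rfl⟩
      rw [hbot]
      refine ⟨inferInstance, ?_⟩
      rw [IntermediateField.finrank_bot])
    (by rw [hkerP]; exact hPgr)
  rw [hkerP] at hfin
  simpa using hfin

end Pool.Agent.TH922.KC
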