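import Mathlib
import Pool.Agent.TH922.KC.Con1

set_option autoImplicit false
set_option linter.unusedSectionVars false

open MvPolynomial

namespace Pool.Agent.TH922.KC

/-- a finsupp of degree at least `c` dominates one of degree exactly `c` -/
lemma exists_le_degree {X0 : Type*} : ∀ (c : ℕ) (μ : X0 →₀ ℕ), c ≤ μ.degree →
    ∃ ν : X0 →₀ ℕ, ν ≤ μ ∧ ν.degree = c := by
  intro c
  induction c with
  | zero => intro μ _; exact ⟨0, zero_le, by simp⟩
  | succ c ih =>
    intro μ hμ
    obtain ⟨ν, hν, hνc⟩ := ih μ (by omega)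
    have hne : μ - ν ≠ 0 := by
      intro h
      have h1 : ν + (μ - ν) = μ := add_tsub_cancel_of_le hν
      have h2 := congrArg Finsupp.degree h1
      rw [map_add, h, map_zero, hνc] at h2
      omega
    obtain ⟨x, hx⟩ := Finsupp.ne_iff.mp hne
    refine ⟨ν + Finsupp.single x 1, ?_, ?_⟩
    · have h1 : Finsupp.single x 1 ≤ μ - ν := by
        rw [Finsupp.single_le_iff]
        simp only [Finsupp.coe_zero, Pi.zero_apply] at hx
        omega
      calc ν + Finsupp.single x 1 ≤ ν + (μ - ν) := by gcongr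
        _ = μ := add_tsub_cancel_of_le hν
    · rw [map_add, hνc, Finsupp.degree_single]

section main

variable {κ Ω : Type*} [Field κ] [Field Ω] [Algebra κ Ω] {n : ℕ} {X0 : Type} [Fintype X0]
  [DecidableEq X0]
  {q : ℕ} (ξ : Fin (n + 1) → Ω) (ι : X0 → Fin (n + 1))

/-- the monomials of degree `q` in the variables of `X0` -/
noncomputable def Gm (κ : Type*) [Field κ] (q : ℕ) (ι : X0 → Fin (n + 1))
    (μ : {μ : X0 →₀ ℕ // μ.degree = q}) : MvPolynomial (Fin (n + 1)) κ :=
  rename ι (monomial μ.1 1)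

lemma Gm_hom (μ : {μ : X0 →₀ ℕ // μ.degree = q}) : (Gm κ q ι μ).IsHomogeneous q := by
  apply IsHomogeneous.rename_isHomogeneous
  exact isHomogeneous_monomial _ μ.2

lemma Ap_Gm [Fintype {μ : X0 →₀ ℕ // μ.degree = q}]
    (hp : ∀ j, ∃ p : MvPolynomial X0 κ, p.IsHomogeneous q ∧ ξ j ^ q = aeval (ξ ∘ ι) p) (t : ℕ) :
    Ap q (Gm κ q ι) ξ t = (homogeneousSubmodule X0 κ (q * t)).map
      (aeval (ξ ∘ ι) : MvPolynomial X0 κ →ₐ[κ] Ω).toLinearMap := by
  classical
  choose p hph hpe using hp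
  apply le_antisymm
  · -- factor through substitution
    rintro _ ⟨W, hW, rfl⟩
    refine ⟨aeval (Sum.elim p (fun μ => monomial μ.1 1)) W, ?_, ?_⟩
    · refine (show W.IsHomogeneous t from hW).aeval _ ?_
      rintro (j | μ)
      · exact hph j
      · exact isHomogeneous_monomial _ μ.2
    · change aeval (ξ ∘ ι) _ = Psi q (Gm κ q ι) ξ W
      have h1 : (aeval (ξ ∘ ι) : MvPolynomial X0 κ →ₐ[κ] Ω).comp
          (aeval (Sum.elim p (fun μ : {μ : X0 →₀ ℕ // μ.degree = q} => monomial μ.1 1)))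
          = Psi q (Gm κ q ι) ξ := by
        ext x
        rcases x with j | μ
        · rw [AlgHom.comp_apply, aeval_X, Psi_y]
          exact (hpe j).symm
        · rw [AlgHom.comp_apply, aeval_X, Psi_z, Gm, aeval_rename]
          rfl
      exact DFunLike.congr_fun h1 W
  · -- monomials split
    have hmon : ∀ (t : ℕ) (μ : X0 →₀ ℕ), μ.degree = q * t →
        aeval (ξ ∘ ι) (monomial μ (1 : κ)) ∈ Ap q (Gm κ q ι) ξ t := by
      intro t
      induction t with
      | zero =>
        intro μ hμ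
        rw [mul_zero, Finsupp.degree_eq_zero_iff] at hμ
        refine ⟨1, isHomogeneous_one _ _, ?_⟩
        change Psi q (Gm κ q ι) ξ 1 = _
        rw [hμ, map_one]
        simp
      | succ t ih =>
        intro μ hμ
        obtain ⟨ν, hν, hνq⟩ := exists_le_degree q μ (by rw [hμ, mul_add, mul_one]; omega)
        have h1 : ν + (μ - ν) = μ := add_tsub_cancel_of_le hν
        have h2 : (μ - ν).degree = q * t := by
          have := congrArg Finsupp.degree h1
          rw [map_add, hνq, hμ, mul_add, mul_one] at this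
          omega
        obtain ⟨W, hW, hWe⟩ := ih (μ - ν) h2
        refine ⟨W * X (Sum.inr ⟨ν, hνq⟩), ?_, ?_⟩
        · exact (show W.IsHomogeneous t from hW).mul (isHomogeneous_X _ _)
        · change Psi q (Gm κ q ι) ξ _ = _
          rw [map_mul, Psi_z, Gm, aeval_rename]
          have h3 : Psi q (Gm κ q ι) ξ W = aeval (ξ ∘ ι) (monomial (μ - ν) (1 : κ)) := hWe
          have h4 : (μ - ν) + ν = μ := tsub_add_cancel_of_le hν
          rw [h3, ← map_mul, monomial_mul, mul_one]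
          change aeval (ξ ∘ ι) (monomial ((μ - ν) + ν) (1 : κ)) = _
          rw [h4]
    rintro _ ⟨W, hW, rfl⟩
    change aeval (ξ ∘ ι) W ∈ _
    rw [W.as_sum, map_sum]
    refine Submodule.sum_mem _ fun μ hμ => ?_
    have hdeg : μ.degree = q * t := by
      by_contra hne
      exact (mem_support_iff.mp hμ) ((show W.IsHomogeneous (q * t) from hW).coeff_eq_zero hne)
    have h1 : (monomial μ (coeff μ W) : MvPolynomial X0 κ) = coeff μ W • monomial μ (1 : κ) := by
      rw [smul_monomial, smul_eq_mul, mul_one]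
    rw [h1, map_smul]
    exact Submodule.smul_mem _ _ (hmon t μ hdeg)

/-- **Finite extensions of curves**: the degree of the base divides the degree. -/
theorem slope_dvd (hq : 0 < q) (j0 : Fin (n + 1)) (hξ : ξ j0 ≠ 0)
    (hQ : IsHom (RingHom.ker (aeval ξ : MvPolynomial (Fin (n + 1)) κ →ₐ[κ] Ω)))
    (hp : ∀ j, ∃ p : MvPolynomial X0 κ, p.IsHomogeneous q ∧ ξ j ^ q = aeval (ξ ∘ ι) p)
    (K0 K1 a0 a1 : ℕ)
    (h0 : ∀ t ≥ K0, hf (RingHom.ker (aeval (ξ ∘ ι) : MvPolynomial X0 κ →ₐ[κ] Ω)) (t + 1)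
      = hf (RingHom.ker (aeval (ξ ∘ ι) : MvPolynomial X0 κ →ₐ[κ] Ω)) t + a0)
    (h1 : ∀ t ≥ K1, hf (RingHom.ker (aeval ξ : MvPolynomial (Fin (n + 1)) κ →ₐ[κ] Ω)) (t + 1)
      = hf (RingHom.ker (aeval ξ : MvPolynomial (Fin (n + 1)) κ →ₐ[κ] Ω)) t + a1) :
    a0 ∣ a1 := by
  classical
  have hfinM : Finite {μ : X0 →₀ ℕ // μ.degree = q} := inferInstance
  have : Fintype {μ : X0 →₀ ℕ // μ.degree = q} := Fintype.ofFinite _
  set G := Gm κ q ι with hG
  have hGh : ∀ i, (G i).IsHomogeneous q := fun i => Gm_hom ι i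
  have hfdim : FiniteDimensional (FF q G ξ)
      (IntermediateField.adjoin (FF q G ξ) (Set.range (fun j => ξ j / ξ j0))) := by
    apply IntermediateField.finiteDimensional_adjoin
    rintro _ ⟨j, rfl⟩
    refine IsIntegral.of_pow hq ?_
    have hξF : ∀ j, ξ j ^ q ∈ FF q G ξ := fun j => by
      rw [← Psi_y (G := G) (ξ := ξ) (q := q) j]; exact Psi_mem_FF _
    have : (ξ j / ξ j0) ^ q = algebraMap (FF q G ξ) Ω (⟨ξ j ^ q, hξF j⟩ / ⟨ξ j0 ^ q, hξF j0⟩) := by
      rw [div_pow]
      rfl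
    rw [this]
    exact isIntegral_algebraMap
  obtain ⟨τ, δ, hc⟩ := compare hq hGh hQ j0 hξ _ rfl
  set E := Module.finrank (FF q G ξ)
      (IntermediateField.adjoin (FF q G ξ) (Set.range (fun j => ξ j / ξ j0))) with hE
  have hA : ∀ t, hf (RingHom.ker (Psi q G ξ)) t
      = hf (RingHom.ker (aeval (ξ ∘ ι) : MvPolynomial X0 κ →ₐ[κ] Ω)) (q * t) := by
    intro t
    rw [← Ap_finrank, hG, Ap_Gm ξ ι hp, hf_ker]
  have hA' : ∀ t ≥ K0, hf (RingHom.ker (Psi q G ξ)) (t + 1)
      = hf (RingHom.ker (Psi q G ξ)) t + q * a0 := by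
    intro t ht
    rw [hA, hA]
    have hx : ∀ x, hf (RingHom.ker (aeval (ξ ∘ ι) : MvPolynomial X0 κ →ₐ[κ] Ω)) (q * t + x)
        = hf (RingHom.ker (aeval (ξ ∘ ι) : MvPolynomial X0 κ →ₐ[κ] Ω)) (q * t) + x * a0 := by
      intro x
      induction x with
      | zero => simp
      | succ x ih =>
        have hge : K0 ≤ q * t + x := by
          have := Nat.le_mul_of_pos_left t hq
          omega
        rw [← add_assoc, h0 _ hge, ih]; ring
    rw [mul_add, mul_one, hx]
  have hs := slope_eq _ _ q E (q * a0) a1 K0 K1 τ δ hA' h1 (fun t => (hc t).1)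
    (fun t => (hc t).2) hq
  have : q * (E * a0) = q * a1 := by rw [← hs]; ring
  exact Dvd.intro_left E (Nat.eq_of_mul_eq_mul_left hq this)

end main

end Pool.Agent.TH922.KC
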