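import Mathlib
import Pool.Agent.TH922.KC.Con2

set_option autoImplicit false
set_option linter.unusedSectionVars false

open MvPolynomial

namespace Pool.Agent.TH922.KC

section hom1

variable {κ : Type*} [Field κ] {X1 X' : Type*}

/-- substitution of linear forms commutes with homogeneous components -/
lemma hc_aeval_one (F : X1 → MvPolynomial X' κ) (hF : ∀ x, (F x).IsHomogeneous 1)
    (p : MvPolynomial X1 κ) (d : ℕ) :
    homogeneousComponent d (aeval F p) = aeval F (homogeneousComponent d p) := by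
  classical
  have hh : ∀ k (w : MvPolynomial X1 κ), w.IsHomogeneous k → (aeval F w).IsHomogeneous k := by
    intro k w hw
    have := hw.aeval F (fun x => hF x)
    rwa [one_mul] at this
  conv_lhs => rw [← sum_homogeneousComponent p, map_sum, map_sum]
  by_cases hd : d ∈ Finset.range (p.totalDegree + 1)
  · rw [Finset.sum_eq_single d]
    · exact homogeneousComponent_eq_self (hh _ _ (homogeneousComponent_isHomogeneous d p))
    · intro k _ hk
      rw [homogeneousComponent_of_mem (hh _ _ (homogeneousComponent_isHomogeneous k p)),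
        if_neg]
      exact fun h => hk h.symm
    · intro h; exact absurd hd h
  · have h0 : p.totalDegree < d := by simpa using hd
    rw [homogeneousComponent_eq_zero _ _ h0, map_zero]
    apply Finset.sum_eq_zero
    intro k hk
    rw [homogeneousComponent_of_mem (hh _ _ (homogeneousComponent_isHomogeneous k p)),
        if_neg]
    intro h
    exact hd (h ▸ hk)

lemma hom_comap_one (F : X1 → MvPolynomial X' κ) (hF : ∀ x, (F x).IsHomogeneous 1)
    {P : Ideal (MvPolynomial X' κ)} (hP : IsHom P) :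
    IsHom (P.comap (aeval F : MvPolynomial X1 κ →ₐ[κ] MvPolynomial X' κ)) := by
  intro p hp k
  rw [Ideal.mem_comap] at hp ⊢
  rw [← hc_aeval_one F hF]
  exact hP _ hp k

end hom1

section slope

variable {κ Ω : Type*} [Field κ] [Field Ω] [Algebra κ Ω] {X0 X1 : Type} [Fintype X0]
  [DecidableEq X0] [Fintype X1] {q : ℕ}

theorem slope_dvd' (ξ : X1 → Ω) (ι : X0 → X1) (hq : 0 < q) (j0 : X1) (hξ : ξ j0 ≠ 0)
    (hQ : IsHom (RingHom.ker (aeval ξ : MvPolynomial X1 κ →ₐ[κ] Ω)))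
    (hp : ∀ j, ∃ p : MvPolynomial X0 κ, p.IsHomogeneous q ∧ ξ j ^ q = aeval (ξ ∘ ι) p)
    (K0 K1 a0 a1 : ℕ)
    (h0 : ∀ t ≥ K0, hf (RingHom.ker (aeval (ξ ∘ ι) : MvPolynomial X0 κ →ₐ[κ] Ω)) (t + 1)
      = hf (RingHom.ker (aeval (ξ ∘ ι) : MvPolynomial X0 κ →ₐ[κ] Ω)) t + a0)
    (h1 : ∀ t ≥ K1, hf (RingHom.ker (aeval ξ : MvPolynomial X1 κ →ₐ[κ] Ω)) (t + 1)
      = hf (RingHom.ker (aeval ξ : MvPolynomial X1 κ →ₐ[κ] Ω)) t + a1) :
    a0 ∣ a1 := by
  classical
  obtain ⟨m, hm⟩ : ∃ m, Fintype.card X1 = m + 1 :=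
    ⟨Fintype.card X1 - 1, (Nat.succ_pred_eq_of_pos (Fintype.card_pos_iff.mpr ⟨j0⟩)).symm⟩
  let e : Fin (m + 1) ≃ X1 := (finCongr hm.symm).trans (Fintype.equivFin X1).symm
  have hker : RingHom.ker (aeval (ξ ∘ e) : MvPolynomial (Fin (m + 1)) κ →ₐ[κ] Ω)
      = (RingHom.ker (aeval ξ : MvPolynomial X1 κ →ₐ[κ] Ω)).comap
        (rename e.symm.symm : MvPolynomial (Fin (m + 1)) κ →ₐ[κ] MvPolynomial X1 κ) := by
    ext p
    rw [Ideal.mem_comap, RingHom.mem_ker, RingHom.mem_ker]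
    change _ ↔ aeval ξ (rename e p) = 0
    rw [aeval_rename]
  have hι : (ξ ∘ e) ∘ (e.symm ∘ ι) = ξ ∘ ι := by
    funext x
    simp
  refine slope_dvd (ξ ∘ e) (e.symm ∘ ι) hq (e.symm j0) (by simpa using hξ)
    (by rw [hker]; exact hom_equiv e.symm hQ) ?_ K0 K1 a0 a1 ?_ ?_
  · intro j
    obtain ⟨p, hp1, hp2⟩ := hp (e j)
    exact ⟨p, hp1, by rw [hι]; exact hp2⟩
  · rw [hι]; exact h0
  · intro t ht
    rw [hker, hf_equiv, hf_equiv]
    exact h1 t ht

/-- the image ring does not change if one adds linear combinations of the generators -/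
lemma hf_same {X2 : Type} [Fintype X2] (ξ : X1 → Ω) (ξ' : X2 → Ω)
    (h1 : ∀ x, ∃ p : MvPolynomial X2 κ, p.IsHomogeneous 1 ∧ aeval ξ' p = ξ x)
    (t : ℕ) :
    hf (RingHom.ker (aeval ξ : MvPolynomial X1 κ →ₐ[κ] Ω)) t ≤
      hf (RingHom.ker (aeval ξ' : MvPolynomial X2 κ →ₐ[κ] Ω)) t := by
  rw [hf_ker, hf_ker]
  apply Submodule.finrank_mono
  choose p hp hpe using h1
  rintro _ ⟨W, hW, rfl⟩
  refine ⟨aeval p W, ?_, ?_⟩
  · have := (show W.IsHomogeneous t from hW).aeval p (fun x => hp x)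
    rwa [one_mul] at this
  · change aeval ξ' (aeval p W) = aeval ξ W
    have : (aeval ξ' : MvPolynomial X2 κ →ₐ[κ] Ω).comp (aeval p) = aeval ξ := by
      ext x
      rw [AlgHom.comp_apply, aeval_X, hpe, aeval_X]
    exact DFunLike.congr_fun this W

end slope

/-- linear forms -/
noncomputable def LF {κ : Type*} [Field κ] {n N : ℕ} {β : Type*} (L : Fin N → Fin (n + 1) → κ)
    (j : Fin N) : MvPolynomial (Fin (n + 1) ⊕ β) κ := ∑ i, C (L j i) * X (Sum.inl i)

lemma LF_hom {κ : Type*} [Field κ] {n N : ℕ} {β : Type*} (L : Fin N → Fin (n + 1) → κ)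
    (j : Fin N) : (LF L j : MvPolynomial (Fin (n + 1) ⊕ β) κ).IsHomogeneous 1 := by
  refine IsHomogeneous.sum _ _ _ fun i _ => ?_
  have := (isHomogeneous_X κ (Sum.inl i : Fin (n + 1) ⊕ β)).C_mul (L j i)
  exact this

/-- a graph with edges `(a c, b c)`, `c` with `p c`, is robust: after the removal of at most `n`
vertices there is a connected set `T` of at least `n + 1 - |K|` of the remaining vertices -/
def Robust (n N : ℕ) {β : Type*} (p : β → Prop) (a b : β → Fin N) : Prop :=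
  ∀ K : Finset (Fin N), K.card ≤ n → ∃ T : Finset (Fin N), Disjoint K T ∧
    n + 1 ≤ K.card + T.card ∧ ∀ U ⊂ T, U.Nonempty →
      ∃ i, p i ∧ ((a i ∈ U ∧ b i ∈ T \ U) ∨ (b i ∈ U ∧ a i ∈ T \ U))

theorem kappa_graph_prime {κ : Type} [Field κ] {n N : ℕ} {β : Type} [Fintype β] {Q : ℕ}
    (hQ : 0 < Q) (ω : κ) (hω : IsPrimitiveRoot ω Q)
    (L : Fin N → Fin (n + 1) → κ)
    (hgp : ∀ S : Finset (Fin N), n + 1 ≤ S.card → Submodule.span κ (L '' S) = ⊤)
    (a b : β → Fin N) (D : β → ℕ) (hD : ∀ i, D i ∣ Q)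
    (hrob : Robust n N (fun i => D i = Q) a b)
    (P : Ideal (MvPolynomial (Fin (n + 1) ⊕ β) κ)) (hP : IsHom P) (hPp : P.IsPrime)
    (hPgr : ∃ C : ℕ, ∀ t, hf P t ≤ C * (t + 1))
    (hN0 : ∀ i, X (Sum.inr i) ^ (D i) - (LF L (a i)) ^ (D i - 1) * LF L (b i) ∈ P) :
    ∃ K : ℕ, ∀ t ≥ K, (Q : ℤ) ∣ (hf P (t + 1) : ℤ) - hf P t := by
  classical
  let Ω := FractionRing (MvPolynomial (Fin (n + 1) ⊕ β) κ ⧸ P)
  let η : Fin (n + 1) ⊕ β → Ω := fun i => algebraMap (MvPolynomial (Fin (n + 1) ⊕ β) κ ⧸ P) Ω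
    (Ideal.Quotient.mk P (X i))
  have hker : RingHom.ker (aeval η : MvPolynomial (Fin (n + 1) ⊕ β) κ →ₐ[κ] Ω) = P := by
    have h1 : (aeval η : MvPolynomial (Fin (n + 1) ⊕ β) κ →ₐ[κ] Ω)
        = (IsScalarTower.toAlgHom κ (MvPolynomial (Fin (n + 1) ⊕ β) κ ⧸ P) Ω).comp
          (Ideal.Quotient.mkₐ κ P) := by
      ext i
      simp [η]
    ext p
    rw [RingHom.mem_ker, h1]
    change algebraMap (MvPolynomial (Fin (n + 1) ⊕ β) κ ⧸ P) Ω (Ideal.Quotient.mk P p) = 0 ↔ _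
    rw [map_eq_zero_iff _ (IsFractionRing.injective (MvPolynomial (Fin (n + 1) ⊕ β) κ ⧸ P) Ω),
      Ideal.Quotient.eq_zero_iff_mem]
  have hDpos : ∀ i, 0 < D i := fun i => Nat.pos_of_dvd_of_pos (hD i) hQ
  let Y : Fin N → Ω := fun j => aeval η (LF L j : MvPolynomial (Fin (n + 1) ⊕ β) κ)
  have hYs : ∀ j, Y j = ∑ i, algebraMap κ Ω (L j i) * η (Sum.inl i) := by
    intro j
    simp only [Y, LF, map_sum, map_mul, aeval_C, aeval_X]
  have hz : ∀ i, η (Sum.inr i) ^ (D i) = Y (a i) ^ (D i - 1) * Y (b i) := by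
    intro i
    have h1 : aeval η (X (Sum.inr i) ^ (D i) - (LF L (a i)) ^ (D i - 1) * LF L (b i)
        : MvPolynomial (Fin (n + 1) ⊕ β) κ) = 0 := by
      rw [← RingHom.mem_ker, hker]; exact hN0 i
    rw [map_sub, map_mul, map_pow, map_pow, aeval_X, sub_eq_zero] at h1
    exact h1
  by_cases hη : ∀ i, η (Sum.inl i) = 0
  · -- everything vanishes
    have hY0 : ∀ j, Y j = 0 := fun j => by rw [hYs]; simp [hη]
    have hall : ∀ x, (X x : MvPolynomial (Fin (n + 1) ⊕ β) κ) ∈ P := by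
      intro x
      rw [← hker, RingHom.mem_ker, aeval_X]
      rcases x with i | i
      · exact hη i
      · have := hz i
        rw [hY0 (b i), mul_zero] at this
        exact pow_eq_zero_iff (hDpos i).ne' |>.mp this
    refine ⟨1, fun t ht => ?_⟩
    obtain ⟨u, rfl⟩ := Nat.exists_eq_add_of_le' ht
    rw [hf_all hall, hf_all hall]
    simp
  set K : Finset (Fin N) := Finset.univ.filter fun j => Y j = 0 with hK
  have hspan : ∀ S : Finset (Fin N), n + 1 ≤ S.card →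
      ∀ W : Submodule κ (Fin (n + 1) → κ), (∀ j ∈ S, L j ∈ W) → W = ⊤ := by
    intro S hS W hW
    rw [eq_top_iff, ← hgp S hS, Submodule.span_le]
    rintro _ ⟨j, hj, rfl⟩
    exact hW j hj
  -- evaluation of coefficient vectors
  let ev : (Fin (n + 1) → κ) →ₗ[κ] Ω :=
    { toFun := fun w => ∑ i, algebraMap κ Ω (w i) * η (Sum.inl i)
      map_add' := by
        intro w w'
        rw [← Finset.sum_add_distrib]
        refine Finset.sum_congr rfl fun i _ => ?_
        rw [Pi.add_apply, map_add, add_mul]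
      map_smul' := by
        intro c w
        rw [RingHom.id_apply, Finset.smul_sum]
        refine Finset.sum_congr rfl fun i _ => ?_
        rw [Pi.smul_apply, smul_eq_mul, map_mul, Algebra.smul_def, mul_assoc] }
  have hevL : ∀ j, ev (L j) = Y j := fun j => (hYs j).symm
  have hev1 : ∀ i, ev (Pi.single i 1) = η (Sum.inl i) := by
    intro i
    change ∑ i', algebraMap κ Ω ((Pi.single i 1 : Fin (n + 1) → κ) i') * η (Sum.inl i') = _
    rw [Finset.sum_eq_single i]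
    · simp
    · intro i' _ hne
      rw [Pi.single_eq_of_ne hne, map_zero, zero_mul]
    · intro h; exact absurd (Finset.mem_univ i) h
  have hKn : K.card ≤ n := by
    by_contra hlt
    push Not at hlt
    apply hη
    have h1 := hspan K hlt (LinearMap.ker ev) (by
      intro j hj
      rw [LinearMap.mem_ker, hevL]
      exact (Finset.mem_filter.mp hj).2)
    intro i
    have h2 : (Pi.single i 1 : Fin (n + 1) → κ) ∈ LinearMap.ker ev := by rw [h1]; trivial
    rw [LinearMap.mem_ker, hev1] at h2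
    exact h2
  obtain ⟨T, hKT, hcard, hconn⟩ := hrob K hKn
  have hTpos : 0 < T.card := by omega
  have hYT : ∀ j ∈ T, Y j ≠ 0 := by
    intro j hj h0
    exact (Finset.disjoint_left.mp hKT) (Finset.mem_filter.mpr ⟨Finset.mem_univ j, h0⟩) hj
  obtain ⟨m, hm⟩ : ∃ m, T.card = m + 1 := ⟨T.card - 1, by omega⟩
  let e : Fin (m + 1) ≃ T := (finCongr hm.symm).trans T.equivFin.symm
  let B := {i : β // a i ∈ T ∧ b i ∈ T}
  let X0 := Fin (m + 1) ⊕ B
  let ξ0 : X0 → Ω := Sum.elim (fun x => Y (e x)) (fun i => η (Sum.inr i.1))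
  -- linear forms in the base ring
  let W : Submodule κ (Fin (n + 1) → κ) :=
    { carrier := {w | ∃ p : MvPolynomial X0 κ, p.IsHomogeneous 1 ∧ aeval ξ0 p = ev w}
      add_mem' := by
        rintro w w' ⟨p, hp, hpe⟩ ⟨p', hp', hpe'⟩
        exact ⟨p + p', hp.add hp', by rw [map_add, hpe, hpe', map_add]⟩
      zero_mem' := ⟨0, isHomogeneous_zero _ _ _, by rw [map_zero, map_zero]⟩
      smul_mem' := by
        rintro c w ⟨p, hp, hpe⟩
        exact ⟨C c * p, hp.C_mul c, by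
          rw [map_mul, aeval_C, hpe, map_smul, Algebra.smul_def]⟩ }
  have hWtop : W = ⊤ := by
    apply hspan (K ∪ T) (by rw [Finset.card_union_of_disjoint hKT]; exact hcard)
    intro j hj
    rcases Finset.mem_union.mp hj with hj | hj
    · refine ⟨0, isHomogeneous_zero _ _ _, ?_⟩
      rw [map_zero, hevL]
      exact (Finset.mem_filter.mp hj).2.symm
    · refine ⟨X (Sum.inl (e.symm ⟨j, hj⟩)), isHomogeneous_X _ _, ?_⟩
      rw [aeval_X, hevL]
      change Y (e (e.symm ⟨j, hj⟩)) = _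
      rw [Equiv.apply_symm_apply]
  have hlin : ∀ w : Fin (n + 1) → κ, ∃ p : MvPolynomial X0 κ, p.IsHomogeneous 1 ∧
      aeval ξ0 p = ev w := by
    intro w
    have : w ∈ W := by rw [hWtop]; trivial
    exact this
  -- the full set of generators
  let X1 := X0 ⊕ (Fin (n + 1) ⊕ β)
  let ξ1 : X1 → Ω := Sum.elim ξ0 η
  let F1 : X1 → MvPolynomial (Fin (n + 1) ⊕ β) κ := Sum.elim
    (Sum.elim (fun x => LF L (e x)) (fun i => X (Sum.inr i.1))) (fun x => X x)
  have hF1 : ∀ x, (F1 x).IsHomogeneous 1 := by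
    rintro ((x | i) | x)
    · exact LF_hom L _
    · exact isHomogeneous_X _ _
    · exact isHomogeneous_X _ _
  have hF1e : ∀ x, aeval η (F1 x) = ξ1 x := by
    rintro ((x | i) | x)
    · rfl
    · exact aeval_X _ _
    · exact aeval_X _ _
  have hcomp1 : (aeval η : MvPolynomial (Fin (n + 1) ⊕ β) κ →ₐ[κ] Ω).comp (aeval F1)
      = aeval ξ1 := by
    ext x
    rw [AlgHom.comp_apply, aeval_X, hF1e, aeval_X]
  have hker1 : RingHom.ker (aeval ξ1 : MvPolynomial X1 κ →ₐ[κ] Ω)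
      = P.comap (aeval F1 : MvPolynomial X1 κ →ₐ[κ] _) := by
    ext p
    have h1 : aeval F1 p ∈ RingHom.ker (aeval η : MvPolynomial (Fin (n + 1) ⊕ β) κ →ₐ[κ] Ω) ↔
        aeval F1 p ∈ P := iff_of_eq (congrArg
          (fun I : Ideal (MvPolynomial (Fin (n + 1) ⊕ β) κ) => aeval F1 p ∈ I) hker)
    rw [Ideal.mem_comap]
    refine Iff.trans ?_ h1
    rw [RingHom.mem_ker, RingHom.mem_ker, ← hcomp1]
    rfl
  have hh1 : IsHom (RingHom.ker (aeval ξ1 : MvPolynomial X1 κ →ₐ[κ] Ω)) := by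
    rw [hker1]; exact hom_comap_one F1 hF1 hP
  have hf1 : ∀ t, hf (RingHom.ker (aeval ξ1 : MvPolynomial X1 κ →ₐ[κ] Ω)) t = hf P t := by
    intro t
    conv_rhs => rw [← hker]
    apply le_antisymm
    · exact hf_same ξ1 η (fun x => ⟨F1 x, hF1 x, hF1e x⟩) t
    · exact hf_same η ξ1 (fun x => ⟨X (Sum.inr x), isHomogeneous_X _ _, aeval_X _ _⟩) t
  -- the base ring
  let F0 : X0 → MvPolynomial (Fin (n + 1) ⊕ β) κ := F1 ∘ Sum.inl
  have hcomp0 : (aeval η : MvPolynomial (Fin (n + 1) ⊕ β) κ →ₐ[κ] Ω).comp (aeval F0)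
      = aeval ξ0 := by
    ext x
    rw [AlgHom.comp_apply, aeval_X]
    change aeval η (F1 (Sum.inl x)) = _
    rw [hF1e, aeval_X]
    rfl
  have hker0 : RingHom.ker (aeval ξ0 : MvPolynomial X0 κ →ₐ[κ] Ω)
      = P.comap (aeval F0 : MvPolynomial X0 κ →ₐ[κ] _) := by
    ext p
    have h1 : aeval F0 p ∈ RingHom.ker (aeval η : MvPolynomial (Fin (n + 1) ⊕ β) κ →ₐ[κ] Ω) ↔
        aeval F0 p ∈ P := iff_of_eq (congrArg
          (fun I : Ideal (MvPolynomial (Fin (n + 1) ⊕ β) κ) => aeval F0 p ∈ I) hker)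
    rw [Ideal.mem_comap]
    refine Iff.trans ?_ h1
    rw [RingHom.mem_ker, RingHom.mem_ker, ← hcomp0]
    rfl
  have hh0 : IsHom (RingHom.ker (aeval ξ0 : MvPolynomial X0 κ →ₐ[κ] Ω)) := by
    rw [hker0]; exact hom_comap_one F0 (fun x => hF1 (Sum.inl x)) hP
  obtain ⟨C, hC⟩ := hPgr
  have hgr0 : ∀ t, hf (RingHom.ker (aeval ξ0 : MvPolynomial X0 κ →ₐ[κ] Ω)) t ≤ C * (t + 1) := by
    intro t
    refine (hf_same ξ0 ξ1 (fun x => ⟨X (Sum.inl x), isHomogeneous_X _ _, aeval_X _ _⟩) t).trans ?_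
    rw [hf1]
    exact hC t
  let a' : B → Fin (m + 1) := fun i => e.symm ⟨a i.1, i.2.1⟩
  let b' : B → Fin (m + 1) := fun i => e.symm ⟨b i.1, i.2.2⟩
  have hYa' : ∀ i : B, ξ0 (Sum.inl (a' i)) = Y (a i.1) := by
    intro i
    change Y (e (e.symm ⟨a i.1, i.2.1⟩)) = _
    rw [Equiv.apply_symm_apply]
  have hYb' : ∀ i : B, ξ0 (Sum.inl (b' i)) = Y (b i.1) := by
    intro i
    change Y (e (e.symm ⟨b i.1, i.2.2⟩)) = _
    rw [Equiv.apply_symm_apply]
  obtain ⟨K2, hK2⟩ := kappa_conn (κ := κ) (n := m) (β := B) hQ ω hω a' b' (fun i => D i.1)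
    (fun i => hD i.1) (by
      intro U hU1 hU2
      let U' : Finset (Fin N) := T.filter fun j => ∃ h : j ∈ T, e.symm ⟨j, h⟩ ∈ U
      have hsub : U' ⊂ T := by
        refine Finset.ssubset_iff_subset_ne.mpr ⟨Finset.filter_subset _ _, fun h => ?_⟩
        apply hU2
        rw [Set.eq_univ_iff_forall]
        intro x
        have h1 : (e x : Fin N) ∈ U' := by rw [h]; exact (e x).2
        obtain ⟨-, h2, h3⟩ := Finset.mem_filter.mp h1
        have h4 : (⟨(e x : Fin N), h2⟩ : T) = e x := rfl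
        rwa [h4, Equiv.symm_apply_apply] at h3
      have hne : U'.Nonempty := by
        obtain ⟨x, hx⟩ := hU1
        refine ⟨e x, Finset.mem_filter.mpr ⟨(e x).2, (e x).2, ?_⟩⟩
        have h4 : (⟨(e x : Fin N), (e x).2⟩ : T) = e x := rfl
        rwa [h4, Equiv.symm_apply_apply]
      obtain ⟨i, hi, hab⟩ := hconn U' hsub hne
      rcases hab with ⟨h1, h2⟩ | ⟨h1, h2⟩
      · obtain ⟨h3, h4, h5⟩ := Finset.mem_filter.mp h1
        obtain ⟨h6, h7⟩ := Finset.mem_sdiff.mp h2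
        refine ⟨⟨i, h3, h6⟩, hi, Or.inl ⟨h5, fun h8 => h7 ?_⟩⟩
        exact Finset.mem_filter.mpr ⟨h6, h6, h8⟩
      · obtain ⟨h3, h4, h5⟩ := Finset.mem_filter.mp h1
        obtain ⟨h6, h7⟩ := Finset.mem_sdiff.mp h2
        refine ⟨⟨i, h6, h3⟩, hi, Or.inr ⟨fun h8 => h7 ?_, h5⟩⟩
        exact Finset.mem_filter.mpr ⟨h6, h6, h8⟩)
    (RingHom.ker (aeval ξ0 : MvPolynomial X0 κ →ₐ[κ] Ω)) hh0 (RingHom.ker_isPrime _) ⟨C, hgr0⟩
    (by
      intro x h
      rw [RingHom.mem_ker, aeval_X] at h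
      exact hYT _ (e x).2 h)
    (by
      intro i
      rw [RingHom.mem_ker, map_sub, map_mul, map_pow, map_pow, aeval_X, aeval_X, aeval_X,
        hYa', hYb', sub_eq_zero]
      exact hz i.1)
  obtain ⟨K3, a0, hK3⟩ := ev_lin _ hh0 ⟨C, hgr0⟩
  obtain ⟨K4, a1, hK4⟩ := ev_lin _ hP ⟨C, hC⟩
  have hQa0 : Q ∣ a0 := by
    have h1 := hK2 (K2 + K3) (by omega)
    rw [hK3 (K2 + K3) (by omega)] at h1
    have h2 : (((hf (RingHom.ker (aeval ξ0 : MvPolynomial X0 κ →ₐ[κ] Ω)) (K2 + K3) + a0 : ℕ) : ℤ)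
      - hf (RingHom.ker (aeval ξ0 : MvPolynomial X0 κ →ₐ[κ] Ω)) (K2 + K3)) = (a0 : ℤ) := by
      push_cast; ring
    rw [h2] at h1
    exact_mod_cast h1
  have ha01 : a0 ∣ a1 := by
    refine slope_dvd' (κ := κ) (q := Q) ξ1 (Sum.inl : X0 → X1) hQ (Sum.inl (Sum.inl (e.symm ⟨_,
      (Finset.card_pos.mp hTpos).choose_spec⟩))) ?_ hh1 ?_ K3 K4 a0 a1 ?_ ?_
    · change Y (e (e.symm _)) ≠ 0
      rw [Equiv.apply_symm_apply]
      exact hYT _ (Finset.card_pos.mp hTpos).choose_spec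
    · have hcomp : ξ1 ∘ (Sum.inl : X0 → X1) = ξ0 := rfl
      rw [hcomp]
      rintro (x | (i | i))
      · refine ⟨X x ^ Q, isHomogeneous_X_pow _ _, ?_⟩
        rw [map_pow, aeval_X]
        rfl
      · obtain ⟨p, hp, hpe⟩ := hlin (Pi.single i 1)
        refine ⟨p ^ Q, ?_, ?_⟩
        · have := hp.pow Q
          rwa [one_mul] at this
        · rw [map_pow, hpe, hev1]
          rfl
      · obtain ⟨p, hp, hpe⟩ := hlin (L (a i))
        obtain ⟨p', hp', hpe'⟩ := hlin (L (b i))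
        refine ⟨(p ^ (D i - 1) * p') ^ (Q / D i), ?_, ?_⟩
        · have h1 := ((hp.pow (D i - 1)).mul hp').pow (Q / D i)
          have h2 : (1 * (D i - 1) + 1) * (Q / D i) = Q := by
            rw [one_mul, Nat.sub_add_cancel (hDpos i), Nat.mul_div_cancel' (hD i)]
          rwa [h2] at h1
        · rw [map_pow, map_mul, map_pow, hpe, hpe', hevL, hevL, ← hz i, ← pow_mul,
            Nat.mul_div_cancel' (hD i)]
          rfl
    · exact hK3
    · intro t ht
      rw [hf1, hf1]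
      exact hK4 t ht
  refine ⟨K4, fun t ht => ?_⟩
  rw [hK4 t ht]
  have h2 : (((hf P t + a1 : ℕ) : ℤ) - hf P t) = (a1 : ℤ) := by push_cast; ring
  rw [h2]
  exact_mod_cast hQa0.trans ha01

end Pool.Agent.TH922.KC
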