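import Mathlib
import Pool.Agent.TH922.KC.Con3
import Pool.Agent.TH922.KC.Tor3

set_option autoImplicit false
set_option linter.unusedSectionVars false

open MvPolynomial

namespace Pool.Agent.TH922.KC

theorem kappa_graph {κ : Type} [Field κ] {n N : ℕ} {β : Type} [Fintype β] {Q : ℕ}
    (hQ : 0 < Q) (ω : κ) (hω : IsPrimitiveRoot ω Q)
    (L : Fin N → Fin (n + 1) → κ)
    (hgp : ∀ S : Finset (Fin N), n + 1 ≤ S.card → Submodule.span κ (L '' S) = ⊤)
    (a b : β → Fin N) (D : β → ℕ) (hD : ∀ i, D i ∣ Q)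
    (hrob : Robust n N (fun i => D i = Q) a b)
    (J : Ideal (MvPolynomial (Fin (n + 1) ⊕ β) κ)) (hJ : IsHom J)
    (hgr : ∃ C : ℕ, ∀ t, hf J t ≤ C * (t + 1))
    (hN : ∀ P : Ideal (MvPolynomial (Fin (n + 1) ⊕ β) κ), P.IsPrime → J ≤ P → ∀ i,
      X (Sum.inr i) ^ (D i) - (LF L (a i)) ^ (D i - 1) * LF L (b i) ∈ P) :
    ∃ K : ℕ, ∀ t ≥ K, (Q : ℤ) ∣ (hf J (t + 1) : ℤ) - hf J t := by
  classical
  have hdp := div_of_prime Q (1 : ℤ) J (κ := κ) ?_ J hJ le_rfl hgr
  · simpa using hdp
  intro P hP hPp hJP hPgr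
  obtain ⟨K, hK⟩ := kappa_graph_prime hQ ω hω L hgp a b D hD hrob P hP hPp hPgr (hN P hPp hJP)
  exact ⟨K, fun t ht => by simpa using hK t ht⟩

/-- Vandermonde forms are in general position -/
lemma vand_gp {κ : Type*} [Field κ] {n N : ℕ} (v : Fin N → κ) (hv : Function.Injective v)
    (S : Finset (Fin N)) (hS : n + 1 ≤ S.card) :
    Submodule.span κ ((fun (j : Fin N) (i : Fin (n + 1)) => v j ^ (i : ℕ)) '' S) = ⊤ := by
  classical
  obtain ⟨S', hS', hc⟩ := Finset.exists_subset_card_eq hS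
  let e : Fin (n + 1) ≃ S' := (finCongr hc.symm).trans S'.equivFin.symm
  let w : Fin (n + 1) → κ := fun x => v (e x)
  have hw : Function.Injective w := fun x y hxy => e.injective (Subtype.ext (hv hxy))
  have hdet : (Matrix.vandermonde w).det ≠ 0 := Matrix.det_vandermonde_ne_zero_iff.mpr hw
  have hli : LinearIndependent κ (Matrix.vandermonde w).row := by
    rw [Matrix.linearIndependent_rows_iff_isUnit, Matrix.isUnit_iff_isUnit_det]
    exact isUnit_iff_ne_zero.mpr hdet
  have htop := hli.span_eq_top_of_card_eq_finrank (by simp)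
  rw [eq_top_iff, ← htop, Submodule.span_le]
  rintro _ ⟨x, rfl⟩
  apply Submodule.subset_span
  refine ⟨e x, hS' (e x).2, ?_⟩
  funext i
  rfl

section sub

variable {r n N : ℕ}

/-- the linear forms `∑ i, j^i y_i` -/
def VL (κ : Type*) [Field κ] (n N : ℕ) : Fin (N + 1) → Fin (n + 1) → κ :=
  fun j i => (((j : ℕ) : κ)) ^ (i : ℕ)

/-- the substitution -/
noncomputable def sg (κ : Type*) [Field κ] (n N r : ℕ) :
    Fin (N + 1) ⊕ Fin r → MvPolynomial (Fin (n + 1) ⊕ Fin r) κ :=
  Sum.elim (fun j => LF (VL κ n N) j) (fun i => X (Sum.inr i))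

lemma sg_hom (κ : Type*) [Field κ] (x : Fin (N + 1) ⊕ Fin r) :
    (sg κ n N r x).IsHomogeneous 1 := by
  rcases x with j | i
  · exact LF_hom _ _
  · exact isHomogeneous_X _ _

lemma sg_map {k κ : Type*} [Field k] [Field κ] (φ1 : k →+* κ) (x : Fin (N + 1) ⊕ Fin r) :
    MvPolynomial.map φ1 (sg k n N r x) = sg κ n N r x := by
  rcases x with j | i
  · change MvPolynomial.map φ1 (LF (VL k n N) j) = LF (VL κ n N) j
    simp only [LF, VL, map_sum, map_mul, map_C, map_X, map_pow, map_natCast]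
  · exact map_X _ _

lemma aeval_sg_map {k κ : Type*} [Field k] [Field κ] (φ1 : k →+* κ)
    (p : MvPolynomial (Fin (N + 1) ⊕ Fin r) k) :
    MvPolynomial.map φ1 (aeval (sg k n N r) p) = aeval (sg κ n N r) (MvPolynomial.map φ1 p) := by
  have h : (MvPolynomial.map φ1).comp (aeval (sg k n N r) :
      MvPolynomial (Fin (N + 1) ⊕ Fin r) k →ₐ[k] _).toRingHom
      = (aeval (sg κ n N r) : MvPolynomial (Fin (N + 1) ⊕ Fin r) κ →ₐ[κ] _).toRingHom.comp
        (MvPolynomial.map φ1) := by
    apply MvPolynomial.ringHom_ext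
    · intro c
      change MvPolynomial.map φ1 (aeval (sg k n N r) (C c))
        = aeval (sg κ n N r) (MvPolynomial.map φ1 (C c))
      rw [map_C, aeval_C, aeval_C, algebraMap_eq, algebraMap_eq, map_C]
    · intro x
      change MvPolynomial.map φ1 (aeval (sg k n N r) (X x))
        = aeval (sg κ n N r) (MvPolynomial.map φ1 (X x))
      rw [map_X, aeval_X, aeval_X, sg_map]
  exact DFunLike.congr_fun h p

lemma Bin_sg_mem {Γ : Type} [DecidableEq Γ] (g : Fin r → Γ) (q : Fin r → ℕ) {k : Type} [Field k]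
    (a b : Fin r → Fin (N + 1))
    (hq : ∀ i, 0 < q i) (hab : ∀ i i', g i = g i' → a i = a i' ∧ b i = b i')
    (P : Ideal (MvPolynomial (Fin (n + 1) ⊕ Fin r) k))
    (hP : ∀ i, aeval (sg k n N r) (Bin g q a b k i) ∈ P) (i : Fin r) :
    X (Sum.inr i) ^ (Dg g q i) - (LF (VL k n N) (a i)) ^ (Dg g q i - 1) * LF (VL k n N) (b i)
      ∈ P := by
  have h := Bin_mem g q a b hq hab
    (P.comap (aeval (sg k n N r) : MvPolynomial (Fin (N + 1) ⊕ Fin r) k →ₐ[k] _))
    (fun i => by rw [Ideal.mem_comap]; exact hP i) i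
  rw [Ideal.mem_comap] at h
  rw [map_sub, map_mul, map_pow, map_pow, aeval_X, aeval_X, aeval_X] at h
  exact h

end sub

/-- **Main theorem, graph version.** -/
theorem main_graph (n r : ℕ) (d : Fin r → ℕ) :
    ∃ bad : ℕ → MvPolynomial (Σ i : Fin r, {μ : Fin (n + r + 1) →₀ ℕ // μ.degree = d i}) ℂ,
      (∀ j, bad j ≠ 0) ∧
      ∀ f : Fin r → MvPolynomial (Fin (n + r + 1)) ℂ,
        (∀ i, f i ∈ MvPolynomial.homogeneousSubmodule (Fin (n + r + 1)) ℂ (d i)) →
        (∀ j, MvPolynomial.eval (fun x => MvPolynomial.coeff x.2.1 (f x.1)) (bad j) ≠ 0) →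
        ∀ I : Ideal (MvPolynomial (Fin (n + r + 1)) ℂ),
          (∀ p ∈ I, ∀ k : ℕ, MvPolynomial.homogeneousComponent k p ∈ I) →
          I.IsPrime →
          ringKrullDim (MvPolynomial (Fin (n + r + 1)) ℂ ⧸ I) = 2 →
          (∀ i, f i ∈ I) →
          ∀ (N m : ℕ) (ga gb : Fin m → Fin (N + 1)),
            (∀ K : Finset (Fin (N + 1)), K.card ≤ n →
              ∃ T : Finset (Fin (N + 1)), Disjoint K T ∧ n + 1 ≤ K.card + T.card ∧
                ∀ U ⊂ T, U.Nonempty →
                  ∃ c, (ga c ∈ U ∧ gb c ∈ T \ U) ∨ (gb c ∈ U ∧ ga c ∈ T \ U)) →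
          ∀ (g : Fin r → Fin m) (Q : ℕ), 0 < Q →
            (∀ c, Q ∣ ∏ i ∈ Finset.univ.filter (fun i => g i = c), d i) →
            ∃ K : ℕ, ∀ k : ℕ, K ≤ k →
              (Q : ℤ) ∣
                (Module.finrank ℂ (Submodule.map (Ideal.Quotient.mkₐ ℂ I).toLinearMap
                    (MvPolynomial.homogeneousSubmodule (Fin (n + r + 1)) ℂ (k + 1))) : ℤ) -
                (Module.finrank ℂ (Submodule.map (Ideal.Quotient.mkₐ ℂ I).toLinearMap
                    (MvPolynomial.homogeneousSubmodule (Fin (n + r + 1)) ℂ k)) : ℤ) := by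
  classical
  obtain ⟨K1, hcount, hroots, -⟩ := exists_countable_field
  set σ := (Σ i : Fin r, {μ : Fin (n + r + 1) →₀ ℕ // μ.degree = d i}) with hσ
  have hcp : Countable (MvPolynomial σ K1) := by
    rw [← Cardinal.mk_le_aleph0_iff]
    refine MvPolynomial.cardinalMk_le_max.trans ?_
    simp only [max_le_iff, le_refl, and_true]
    exact ⟨Cardinal.mk_le_aleph0_iff.mpr hcount, Cardinal.mk_le_aleph0_iff.mpr inferInstance⟩
  have hne : Nonempty {p : MvPolynomial σ K1 // p ≠ 0} := ⟨⟨1, one_ne_zero⟩⟩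
  obtain ⟨en, hen⟩ := exists_surjective_nat {p : MvPolynomial σ K1 // p ≠ 0}
  refine ⟨fun j => MvPolynomial.map K1.subtype (en j).1, fun j => ?_, ?_⟩
  · have h1 := (en j).2
    intro h
    exact h1 ((map_eq_zero_iff _ (MvPolynomial.map_injective _ K1.subtype.injective)).mp h)
  intro f hfh hbad I hI hIp hdim hfI N m ga gb hrob g Q hQ hgQ
  by_cases hQ1 : Q = 1
  · refine ⟨0, fun k _ => ?_⟩
    rw [hQ1]
    exact one_dvd _
  have hind : AlgebraicIndependent K1 (fun x : σ => coeff x.2.1 (f x.1)) := by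
    rw [algebraicIndependent_iff]
    intro p hp
    by_contra hp0
    obtain ⟨l, hl⟩ := hen ⟨p, hp0⟩
    apply hbad l
    change MvPolynomial.eval _ (MvPolynomial.map K1.subtype (en l).1) = 0
    rw [hl, MvPolynomial.eval_map]
    exact hp
  -- the divisors
  choose qq hqq1 hqq2 using fun c => exists_factor (Finset.univ.filter (fun i => g i = c)) d Q
    (hgQ c)
  let q : Fin r → ℕ := fun i => qq (g i) i
  have hqd : ∀ i, q i ∣ d i := fun i => hqq1 (g i) i (by simp)
  have hqprod : ∀ c, ∏ i ∈ Finset.univ.filter (fun i => g i = c), q i = Q := by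
    intro c
    rw [← hqq2 c]
    refine Finset.prod_congr rfl fun i hi => ?_
    simp only [Finset.mem_filter, Finset.mem_univ, true_and] at hi
    simp only [q, hi]
  have hqpos : ∀ i, 0 < q i := by
    intro i
    have h1 : q i ∣ Q := by
      rw [← hqprod (g i)]
      exact Finset.dvd_prod_of_mem q (by simp)
    exact Nat.pos_of_dvd_of_pos h1 hQ
  let a : Fin r → Fin (N + 1) := fun i => ga (g i)
  let b : Fin r → Fin (N + 1) := fun i => gb (g i)
  have hD : ∀ i, Dg g q i ∣ Q := by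
    intro i
    rw [← hqprod (g i)]
    apply Finset.prod_dvd_prod_of_subset
    intro i' hi'
    simp only [Finset.mem_filter, Finset.mem_univ, true_and] at hi' ⊢
    exact hi'.1
  have hlast : ∀ c, ∃ i, g i = c ∧ Dg g q i = Q := by
    intro c
    have hnon : (Finset.univ.filter (fun i => g i = c)).Nonempty := by
      by_contra h
      rw [Finset.not_nonempty_iff_eq_empty] at h
      have := hqprod c
      rw [h, Finset.prod_empty] at this
      exact hQ1 this.symm
    set i := (Finset.univ.filter (fun i => g i = c)).max' hnon with hi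
    have hgi : g i = c := by
      have := (Finset.univ.filter (fun i => g i = c)).max'_mem hnon
      simpa only [Finset.mem_filter, Finset.mem_univ, true_and] using this
    refine ⟨i, hgi, ?_⟩
    rw [← hqprod c, Dg]
    congr 1
    ext i'
    simp only [Finset.mem_filter, Finset.mem_univ, true_and, hgi]
    constructor
    · exact fun h => h.1
    · intro h
      refine ⟨h, Finset.le_max' _ _ (by simpa using h)⟩
  have hrob' : Robust n (N + 1) (fun i => Dg g q i = Q) a b := by
    intro K hK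
    obtain ⟨T, h1, h2, h3⟩ := hrob K hK
    refine ⟨T, h1, h2, fun U hU hUn => ?_⟩
    obtain ⟨c, hc⟩ := h3 U hU hUn
    obtain ⟨i, hi, hDi⟩ := hlast c
    refine ⟨i, hDi, ?_⟩
    simp only [a, b, hi]
    exact hc
  obtain ⟨ω, hω⟩ := hroots Q hQ.ne'
  let ε := idx n r
  let f0 : Fin r → MvPolynomial (Fin (n + r + 1)) K1 := fun i =>
    rename ε.symm ((aeval (sg K1 n N r) (Bin g q a b K1 i)) ^ (d i / q i))
  have hNe : ∀ i, ((aeval (sg K1 n N r) (Bin g q a b K1 i)) ^ (d i / q i)).IsHomogeneous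
      (d i) := by
    intro i
    have h0 := (Bin_hom (k := K1) g q a b hqpos i).aeval (sg K1 n N r) (fun x => sg_hom K1 x)
    rw [one_mul] at h0
    have h1 := h0.pow (d i / q i)
    rwa [Nat.mul_div_cancel' (hqd i)] at h1
  obtain ⟨B, φ1, hB⟩ := specialise d K1 f hfh hind f0
    (fun i => IsHomogeneous.rename_isHomogeneous (hNe i))
  have hBI := hB I hfI
  have hredh := red_hom B (I := I) hI
  obtain ⟨C, hC⟩ := growth2 I hI hdim.le
  have hinj : Function.Injective (fun j : Fin (N + 1) =>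
      (((j : ℕ) : IsLocalRing.ResidueField B))) := by
    intro j j' hjj
    have h1 : φ1 ((j : ℕ) : K1) = φ1 ((j' : ℕ) : K1) := by
      rw [map_natCast, map_natCast]; exact hjj
    exact Fin.ext (Nat.cast_injective (φ1.injective h1))
  have hfin := kappa_graph (κ := IsLocalRing.ResidueField B) hQ (φ1 ω)
    (hω.map_of_injective φ1.injective) (VL (IsLocalRing.ResidueField B) n N)
    (fun S hS => vand_gp _ hinj S hS) a b (Dg g q) hD hrob'
    ((red B I).comap (rename ε.symm : MvPolynomial (Fin (n + 1) ⊕ Fin r)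
      (IsLocalRing.ResidueField B) →ₐ[IsLocalRing.ResidueField B] _))
    (hom_equiv ε hredh) ⟨C, fun t => by rw [hf_equiv, red_hf B hI]; exact hC t⟩
    (by
      intro P hP hJP i
      refine Bin_sg_mem g q a b hqpos
        (fun i i' h => ⟨by simp only [a, h], by simp only [b, h]⟩) P (fun i => ?_) i
      have h1 : (aeval (sg (IsLocalRing.ResidueField B) n N r)
          (Bin g q a b (IsLocalRing.ResidueField B) i)) ^ (d i / q i) ∈ P := by
        apply hJP
        rw [Ideal.mem_comap]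
        have h2 := hBI i
        simp only [f0] at h2
        rw [MvPolynomial.map_rename, map_pow, aeval_sg_map, Bin_map] at h2
        exact h2
      exact hP.mem_of_pow_mem _ h1)
  obtain ⟨K, hK⟩ := hfin
  refine ⟨K, fun k hk => ?_⟩
  have h1 := hK k hk
  rw [hf_equiv, hf_equiv, red_hf B hI, red_hf B hI] at h1
  exact h1

end Pool.Agent.TH922.KC
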