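import Mathlib

set_option autoImplicit false

namespace Pool.Agent.TH922.KC

lemma fin_nsmul_val (N : ℕ) : ∀ t : ℕ, t ≤ N → ((t • (1 : Fin (N + 1)) : Fin (N + 1)) : ℕ) = t := by
  intro t
  induction t with
  | zero => intro _; simp
  | succ t ih =>
    intro ht
    rw [succ_nsmul, Fin.val_add, ih (by omega)]
    have h1 : ((1 : Fin (N + 1)) : ℕ) = 1 := by
      obtain ⟨N', rfl⟩ : ∃ N', N = N' + 1 := ⟨N - 1, by omega⟩
      rfl
    rw [h1]
    exact Nat.mod_eq_of_lt (by omega)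

/-- a cycle with more than `(n+1)²/4` vertices is robust -/
theorem cycle_robust (n N : ℕ) (hN : (n + 1) ^ 2 / 4 ≤ N) (K : Finset (Fin (N + 1)))
    (hK : K.card ≤ n) :
    ∃ T : Finset (Fin (N + 1)), Disjoint K T ∧ n + 1 ≤ K.card + T.card ∧
      ∀ U ⊂ T, U.Nonempty →
        ∃ c, (c ∈ U ∧ c + 1 ∈ T \ U) ∨ (c + 1 ∈ U ∧ c ∈ T \ U) := by
  classical
  obtain ⟨s, hs⟩ : ∃ s, n + 1 = K.card + s := ⟨n + 1 - K.card, by omega⟩
  have h1 : K.card * s < N + 1 := by
    have h2 : K.card * s ≤ (n + 1) ^ 2 / 4 := by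
      rw [Nat.le_div_iff_mul_le (by norm_num), hs]
      generalize K.card = k
      have h3 : ((k * s * 4 : ℕ) : ℤ) ≤ (((k + s) ^ 2 : ℕ) : ℤ) := by
        push_cast
        nlinarith [sq_nonneg ((k : ℤ) - s)]
      exact_mod_cast h3
    omega
  have h2 : s ≤ N + 1 := by
    have h3 : n ≤ (n + 1) ^ 2 / 4 := by
      rw [Nat.le_div_iff_mul_le (by norm_num)]
      have h3 : ((n * 4 : ℕ) : ℤ) ≤ (((n + 1) ^ 2 : ℕ) : ℤ) := by
        push_cast
        nlinarith [sq_nonneg ((n : ℤ) - 1)]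
      exact_mod_cast h3
    omega
  set Uc : Finset (Fin (N + 1)) :=
    K.biUnion (fun x => (Finset.range s).image (fun t : ℕ => x + t • (1 : Fin (N + 1)))) with hUc
  have hUcard : Uc.card < (Finset.univ : Finset (Fin (N + 1))).card := by
    rw [Finset.card_univ, Fintype.card_fin]
    refine lt_of_le_of_lt (Finset.card_biUnion_le_card_mul _ _ s ?_) h1
    intro x _
    refine Finset.card_image_le.trans ?_
    rw [Finset.card_range]
  obtain ⟨v, -, hv⟩ := Finset.exists_mem_notMem_of_card_lt_card hUcard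
  have hinj : ∀ t < s, ∀ t' < s, v - t • (1 : Fin (N + 1)) = v - t' • (1 : Fin (N + 1)) →
      t = t' := by
    intro t ht t' ht' h
    have h3 : t • (1 : Fin (N + 1)) = t' • (1 : Fin (N + 1)) := sub_right_injective h
    have h4 : ((t • (1 : Fin (N + 1)) : Fin (N + 1)) : ℕ) = ((t' • (1 : Fin (N + 1)) :
      Fin (N + 1)) : ℕ) := by rw [h3]
    rwa [fin_nsmul_val N t (by omega), fin_nsmul_val N t' (by omega)] at h4
  refine ⟨(Finset.range s).image (fun t : ℕ => v - t • (1 : Fin (N + 1))), ?_, ?_, ?_⟩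
  · rw [Finset.disjoint_left]
    intro x hx hxT
    obtain ⟨t, ht, hxt⟩ := Finset.mem_image.mp hxT
    apply hv
    rw [hUc, Finset.mem_biUnion]
    refine ⟨x, hx, Finset.mem_image.mpr ⟨t, ht, ?_⟩⟩
    rw [← hxt]
    exact sub_add_cancel _ _
  · rw [Finset.card_image_of_injOn, Finset.card_range]
    · omega
    · intro t ht t' ht' h
      exact hinj t (by simpa using ht) t' (by simpa using ht') h
  · intro U hU hUn
    obtain ⟨w, hwT, hwU⟩ := Finset.exists_of_ssubset hU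
    have hsub := hU.1
    obtain ⟨u, hu⟩ := hUn
    obtain ⟨t0, ht0, rfl⟩ := Finset.mem_image.mp (hsub hu)
    obtain ⟨t1, ht1, rfl⟩ := Finset.mem_image.mp hwT
    rw [Finset.mem_range] at ht0 ht1
    by_contra hcon
    push Not at hcon
    have hstep : ∀ t, t + 1 < s → (v - t • (1 : Fin (N + 1)) ∈ U ↔
        v - (t + 1) • (1 : Fin (N + 1)) ∈ U) := by
      intro t ht
      have hT0 : v - t • (1 : Fin (N + 1)) ∈ (Finset.range s).image
          (fun t : ℕ => v - t • (1 : Fin (N + 1))) :=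
        Finset.mem_image.mpr ⟨t, Finset.mem_range.mpr (by omega), rfl⟩
      have hT1 : v - (t + 1) • (1 : Fin (N + 1)) ∈ (Finset.range s).image
          (fun t : ℕ => v - t • (1 : Fin (N + 1))) :=
        Finset.mem_image.mpr ⟨t + 1, Finset.mem_range.mpr (by omega), rfl⟩
      have hadd : v - (t + 1) • (1 : Fin (N + 1)) + 1 = v - t • (1 : Fin (N + 1)) := by
        rw [succ_nsmul]
        abel
      obtain ⟨hc1, hc2⟩ := hcon (v - (t + 1) • (1 : Fin (N + 1)))
      rw [hadd] at hc1 hc2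
      constructor
      · intro h3
        by_contra h4
        exact hc2 h3 (Finset.mem_sdiff.mpr ⟨hT1, h4⟩)
      · intro h3
        by_contra h4
        exact hc1 h3 (Finset.mem_sdiff.mpr ⟨hT0, h4⟩)
    have hall : ∀ t, t < s → (v - t • (1 : Fin (N + 1)) ∈ U ↔
        v - 0 • (1 : Fin (N + 1)) ∈ U) := by
      intro t
      induction t with
      | zero => intro _; rfl
      | succ t ih =>
        intro ht
        rw [← hstep t ht]
        exact ih (by omega)
    exact hwU ((hall t1 ht1).mpr ((hall t0 ht0).mp hu))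

/-- a graph on `3n` vertices in which any two disjoint sets of `n` vertices are joined is robust -/
theorem joined_robust {n m : ℕ} (hn : 0 < n) (ga gb : Fin m → Fin (3 * n))
    (hE : ∀ A B : Finset (Fin (3 * n)), Disjoint A B → A.card = n → B.card = n →
      ∃ c, (ga c ∈ A ∧ gb c ∈ B) ∨ (gb c ∈ A ∧ ga c ∈ B))
    (K : Finset (Fin (3 * n))) (hK : K.card ≤ n) :
    ∃ T : Finset (Fin (3 * n)), Disjoint K T ∧ n + 1 ≤ K.card + T.card ∧
      ∀ U ⊂ T, U.Nonempty →
        ∃ c, (ga c ∈ U ∧ gb c ∈ T \ U) ∨ (gb c ∈ U ∧ ga c ∈ T \ U) := by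
  classical
  by_contra hcon
  have hT : ∀ T : Finset (Fin (3 * n)), Disjoint K T → (∀ U ⊂ T, U.Nonempty →
        ∃ c, (ga c ∈ U ∧ gb c ∈ T \ U) ∨ (gb c ∈ U ∧ ga c ∈ T \ U)) →
        K.card + T.card < n + 1 := by
    intro T h1 h2
    by_contra h3
    exact hcon ⟨T, h1, by omega, h2⟩
  set W : Finset (Fin (3 * n)) := Finset.univ \ K with hW
  have hWcard : W.card = 3 * n - K.card := by
    rw [hW, Finset.card_sdiff_of_subset (Finset.subset_univ _), Finset.card_univ,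
      Fintype.card_fin]
  let Cl : Finset (Fin (3 * n)) → Prop := fun V => V ⊆ W ∧
    ∀ c, ¬ ((ga c ∈ V ∧ gb c ∈ W \ V) ∨ (gb c ∈ V ∧ ga c ∈ W \ V))
  -- minimal closed sets are connected
  have hmin : ∀ V, Cl V → V.Nonempty → ∃ c ⊆ V, Cl c ∧ c.Nonempty ∧ K.card + c.card < n + 1 := by
    intro V hV hVn
    obtain ⟨c, hc, hcm⟩ := Finset.exists_min_image
      (V.powerset.filter fun c => Cl c ∧ c.Nonempty) Finset.card
      ⟨V, Finset.mem_filter.mpr ⟨Finset.mem_powerset_self V, hV, hVn⟩⟩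
    obtain ⟨hcV, hcC, hcn⟩ := Finset.mem_filter.mp hc
    rw [Finset.mem_powerset] at hcV
    refine ⟨c, hcV, hcC, hcn, hT c ?_ ?_⟩
    · rw [Finset.disjoint_left]
      intro x hx hxc
      exact (Finset.mem_sdiff.mp (hcC.1 hxc)).2 hx
    · intro U hU hUn
      by_contra hno
      have hUC : Cl U := by
        refine ⟨hU.1.trans hcC.1, fun i hi => ?_⟩
        rcases hi with ⟨h1, h2⟩ | ⟨h1, h2⟩
        · by_cases h3 : gb i ∈ c
          · exact hno ⟨i, Or.inl ⟨h1, Finset.mem_sdiff.mpr ⟨h3, (Finset.mem_sdiff.mp h2).2⟩⟩⟩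
          · exact hcC.2 i (Or.inl ⟨hU.1 h1,
              Finset.mem_sdiff.mpr ⟨(Finset.mem_sdiff.mp h2).1, h3⟩⟩)
        · by_cases h3 : ga i ∈ c
          · exact hno ⟨i, Or.inr ⟨h1, Finset.mem_sdiff.mpr ⟨h3, (Finset.mem_sdiff.mp h2).2⟩⟩⟩
          · exact hcC.2 i (Or.inr ⟨hU.1 h1,
              Finset.mem_sdiff.mpr ⟨(Finset.mem_sdiff.mp h2).1, h3⟩⟩)
      have h4 := hcm U (Finset.mem_filter.mpr ⟨Finset.mem_powerset.mpr (hU.1.trans hcV), hUC, hUn⟩)
      have h5 := Finset.card_lt_card hU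
      omega
  -- a minimal closed set with at least `n` elements
  have hWC : Cl W := by
    refine ⟨le_rfl, fun i hi => ?_⟩
    rcases hi with ⟨-, h2⟩ | ⟨-, h2⟩
    · simp at h2
    · simp at h2
  obtain ⟨U, hU, hUm⟩ := Finset.exists_min_image
    ((Finset.univ : Finset (Finset (Fin (3 * n)))).filter fun c => Cl c ∧ n ≤ c.card) Finset.card
    ⟨W, Finset.mem_filter.mpr ⟨Finset.mem_univ _, hWC, by omega⟩⟩
  obtain ⟨-, hUC, hUn⟩ := Finset.mem_filter.mp hU
  obtain ⟨c, hcU, hcC, hcn, hcc⟩ := hmin U hUC (Finset.card_pos.mp (by omega))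
  have hUcC : Cl (U \ c) := by
    refine ⟨Finset.sdiff_subset.trans hUC.1, fun i hi => ?_⟩
    rcases hi with ⟨h1, h2⟩ | ⟨h1, h2⟩
    · obtain ⟨h3, h4⟩ := Finset.mem_sdiff.mp h1
      obtain ⟨h5, h6⟩ := Finset.mem_sdiff.mp h2
      by_cases h7 : gb i ∈ U
      · have h8 : gb i ∈ c := by
          by_contra h9
          exact h6 (Finset.mem_sdiff.mpr ⟨h7, h9⟩)
        exact hcC.2 i (Or.inr ⟨h8, Finset.mem_sdiff.mpr ⟨hUC.1 h3, h4⟩⟩)
      · exact hUC.2 i (Or.inl ⟨h3, Finset.mem_sdiff.mpr ⟨h5, h7⟩⟩)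
    · obtain ⟨h3, h4⟩ := Finset.mem_sdiff.mp h1
      obtain ⟨h5, h6⟩ := Finset.mem_sdiff.mp h2
      by_cases h7 : ga i ∈ U
      · have h8 : ga i ∈ c := by
          by_contra h9
          exact h6 (Finset.mem_sdiff.mpr ⟨h7, h9⟩)
        exact hcC.2 i (Or.inl ⟨h8, Finset.mem_sdiff.mpr ⟨hUC.1 h3, h4⟩⟩)
      · exact hUC.2 i (Or.inr ⟨h3, Finset.mem_sdiff.mpr ⟨h5, h7⟩⟩)
  have hcpos : 0 < c.card := Finset.card_pos.mpr hcn
  have hUc : (U \ c).card = U.card - c.card := Finset.card_sdiff_of_subset hcU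
  have hcle : c.card ≤ U.card := Finset.card_le_card hcU
  have hlt : (U \ c).card < n := by
    by_contra h1
    have h2 := hUm (U \ c) (Finset.mem_filter.mpr ⟨Finset.mem_univ _, hUcC, by omega⟩)
    omega
  have hWU : (W \ U).card = W.card - U.card := Finset.card_sdiff_of_subset hUC.1
  obtain ⟨A, hA, hAn⟩ := Finset.exists_subset_card_eq hUn
  obtain ⟨B, hB, hBn⟩ := Finset.exists_subset_card_eq (s := W \ U) (n := n) (by omega)
  obtain ⟨i, hi⟩ := hE A B (by
    rw [Finset.disjoint_left]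
    intro x hx hxB
    exact (Finset.mem_sdiff.mp (hB hxB)).2 (hA hx)) hAn hBn
  refine hUC.2 i ?_
  rcases hi with ⟨h1, h2⟩ | ⟨h1, h2⟩
  · exact Or.inl ⟨hA h1, hB h2⟩
  · exact Or.inr ⟨hA h1, hB h2⟩

/-- a random graph with `14n` edges on `3n` vertices -/
theorem exists_joined (n : ℕ) (hn : 0 < n) : ∃ ga gb : Fin (14 * n) → Fin (3 * n),
    ∀ A B : Finset (Fin (3 * n)), Disjoint A B → A.card = n → B.card = n →
      ∃ c, (ga c ∈ A ∧ gb c ∈ B) ∨ (gb c ∈ A ∧ ga c ∈ B) := by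
  classical
  by_contra hcon
  push Not at hcon
  -- for `h : Fin (3n) → Fin 3` the edge lists avoiding the pair `h = 0`, `h = 1`
  let A : (Fin (3 * n) → Fin 3) → Finset (Fin (3 * n)) := fun h => Finset.univ.filter (h · = 0)
  let B : (Fin (3 * n) → Fin 3) → Finset (Fin (3 * n)) := fun h => Finset.univ.filter (h · = 1)
  let S : (Fin (3 * n) → Fin 3) → Finset (Fin (3 * n) × Fin (3 * n)) := fun h =>
    Finset.univ \ (A h ×ˢ B h ∪ B h ×ˢ A h)
  let H : Finset (Fin (3 * n) → Fin 3) := Finset.univ.filter fun h =>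
    (A h).card = n ∧ (B h).card = n
  have hSc : ∀ h ∈ H, (S h).card = 7 * n ^ 2 := by
    intro h hh
    obtain ⟨-, hA, hB⟩ := Finset.mem_filter.mp hh
    have hdis : Disjoint (A h) (B h) := by
      rw [Finset.disjoint_left]
      intro x hx hy
      have h1 := (Finset.mem_filter.mp hx).2
      have h2 := (Finset.mem_filter.mp hy).2
      rw [h1] at h2
      exact absurd h2 (by decide)
    have hd : Disjoint (A h ×ˢ B h) (B h ×ˢ A h) := by
      rw [Finset.disjoint_left]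
      intro x hx hy
      rw [Finset.mem_product] at hx hy
      exact (Finset.disjoint_left.mp hdis) hx.1 hy.1
    simp only [S]
    rw [Finset.card_sdiff_of_subset (Finset.subset_univ _), Finset.card_union_of_disjoint hd,
      Finset.card_product, Finset.card_product, hA, hB, Finset.card_univ, Fintype.card_prod,
      Fintype.card_fin]
    have : 3 * n * (3 * n) = 7 * n ^ 2 + (n * n + n * n) := by ring
    rw [this, Nat.add_sub_cancel]
  have hcov : (Finset.univ : Finset (Fin (14 * n) → Fin (3 * n) × Fin (3 * n))) ⊆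
      H.biUnion fun h => Fintype.piFinset fun _ => S h := by
    intro F _
    obtain ⟨A', B', hdis, hA, hB, hF⟩ := hcon (fun c => (F c).1) (fun c => (F c).2)
    let h : Fin (3 * n) → Fin 3 := fun x => if x ∈ A' then 0 else if x ∈ B' then 1 else 2
    have hAh : A h = A' := by
      ext x
      simp only [A, h, Finset.mem_filter, Finset.mem_univ, true_and]
      by_cases h1 : x ∈ A'
      · simp [h1]
      · by_cases h2 : x ∈ B' <;> simp [h1, h2]
    have hBh : B h = B' := by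
      ext x
      simp only [B, h, Finset.mem_filter, Finset.mem_univ, true_and]
      by_cases h1 : x ∈ A'
      · have h2 : x ∉ B' := Finset.disjoint_left.mp hdis h1
        simp [h1, h2]
      · by_cases h2 : x ∈ B' <;> simp [h1, h2]
    rw [Finset.mem_biUnion]
    refine ⟨h, Finset.mem_filter.mpr ⟨Finset.mem_univ _, by rw [hAh]; exact hA,
      by rw [hBh]; exact hB⟩, ?_⟩
    rw [Fintype.mem_piFinset]
    intro c
    simp only [S]
    rw [Finset.mem_sdiff, Finset.mem_union, Finset.mem_product, Finset.mem_product, hAh, hBh]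
    refine ⟨Finset.mem_univ _, ?_⟩
    obtain ⟨h1, h2⟩ := hF c
    rintro (⟨h3, h4⟩ | ⟨h3, h4⟩)
    · exact h1 h3 h4
    · exact h2 h4 h3
  have hcard := Finset.card_le_card hcov
  have h1 : (H.biUnion fun h => Fintype.piFinset fun _ : Fin (14 * n) => S h).card
      ≤ H.card * (7 * n ^ 2) ^ (14 * n) := by
    apply Finset.card_biUnion_le_card_mul
    intro h hh
    rw [Fintype.card_piFinset_const, hSc h hh]
  have h2 : H.card ≤ 3 ^ (3 * n) := by
    refine (Finset.card_le_univ H).trans ?_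
    rw [Fintype.card_fun, Fintype.card_fin, Fintype.card_fin]
  have h3 : (Finset.univ : Finset (Fin (14 * n) → Fin (3 * n) × Fin (3 * n))).card
      = (9 * n ^ 2) ^ (14 * n) := by
    rw [Finset.card_univ, Fintype.card_fun, Fintype.card_prod, Fintype.card_fin, Fintype.card_fin]
    congr 1
    ring
  rw [h3] at hcard
  have h4 : (9 * n ^ 2) ^ (14 * n) ≤ 3 ^ (3 * n) * (7 * n ^ 2) ^ (14 * n) :=
    hcard.trans (h1.trans (Nat.mul_le_mul_right _ h2))
  have h5 : 3 ^ (3 * n) * (7 * n ^ 2) ^ (14 * n) = (3 ^ 3 * 7 ^ 14) ^ n * (n ^ 2) ^ (14 * n) := by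
    have e1 : 3 ^ (3 * n) = (3 ^ 3) ^ n := pow_mul 3 3 n
    have e2 : 7 ^ (14 * n) = (7 ^ 14) ^ n := pow_mul 7 14 n
    rw [mul_pow 7 (n ^ 2) (14 * n), mul_pow (3 ^ 3) (7 ^ 14) n, e1, e2, mul_assoc]
  have h6 : (9 * n ^ 2) ^ (14 * n) = (9 ^ 14) ^ n * (n ^ 2) ^ (14 * n) := by
    rw [mul_pow 9 (n ^ 2) (14 * n), pow_mul 9 14 n]
  rw [h5, h6] at h4
  have h7 : 0 < (n ^ 2) ^ (14 * n) := by positivity
  have h8 : (9 ^ 14) ^ n ≤ (3 ^ 3 * 7 ^ 14) ^ n := Nat.le_of_mul_le_mul_right h4 h7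
  have h9 : (3 ^ 3 * 7 ^ 14) ^ n < (9 ^ 14) ^ n := Nat.pow_lt_pow_left (by norm_num) hn.ne'
  omega

end Pool.Agent.TH922.KC
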