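import Mathlib
import Pool.Agent.TH922.KC.Con4
import Pool.Agent.TH922.KC.Con5

set_option autoImplicit false
set_option linter.unusedSectionVars false

open MvPolynomial

namespace Pool.Agent.TH922.KC

/-- there is a robust graph with `m` edges -/
def Rob (n m : ℕ) : Prop :=
  ∃ (N : ℕ) (a b : Fin m → Fin N), ∀ K : Finset (Fin N), K.card ≤ n →
    ∃ T : Finset (Fin N), Disjoint K T ∧ n + 1 ≤ K.card + T.card ∧
      ∀ U ⊂ T, U.Nonempty → ∃ c, (a c ∈ U ∧ b c ∈ T \ U) ∨ (b c ∈ U ∧ a c ∈ T \ U)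

/-- the values of `m` -/
def Rob' (n m : ℕ) : Prop :=
  m = n * (n + 1) / 2 ∨ m = (n + 1) ^ 2 / 4 + 1 ∨ (0 < n ∧ m = 14 * n) ∨ Rob n m

lemma complete_robust (n : ℕ) : Rob n (n * (n + 1) / 2) := by
  classical
  have hcard : Fintype.card (Fin (n * (n + 1) / 2)) = Fintype.card (Σ y : Fin (n + 1), Fin y.1) := by
    rw [Fintype.card_fin, Fintype.card_sigma]
    simp only [Fintype.card_fin]
    rw [Fin.sum_univ_eq_sum_range (fun i => i) (n + 1), Finset.sum_range_id, Nat.add_sub_cancel,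
      mul_comm]
  let e := Fintype.equivOfCardEq hcard
  let ga : Fin (n * (n + 1) / 2) → Fin (n + 1) := fun c =>
    ⟨(e c).2.1, (e c).2.2.trans (e c).1.2⟩
  let gb : Fin (n * (n + 1) / 2) → Fin (n + 1) := fun c => (e c).1
  have hgcov : ∀ x y : Fin (n + 1), x < y → ∃ c, ga c = x ∧ gb c = y := by
    intro x y hxy
    have he := e.apply_symm_apply ⟨y, ⟨x.1, hxy⟩⟩
    refine ⟨e.symm ⟨y, ⟨x.1, hxy⟩⟩, ?_, ?_⟩
    · apply Fin.ext
      change ((e (e.symm ⟨y, ⟨x.1, hxy⟩⟩)).2 : ℕ) = x.1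
      rw [he]
    · change (e (e.symm ⟨y, ⟨x.1, hxy⟩⟩)).1 = y
      rw [he]
  refine ⟨n + 1, ga, gb, fun K hK => ⟨Finset.univ \ K, Finset.disjoint_sdiff, ?_, ?_⟩⟩
  · rw [Finset.card_sdiff_of_subset (Finset.subset_univ _), Finset.card_univ, Fintype.card_fin]
    omega
  · intro U hU hUn
    obtain ⟨w, hwT, hwU⟩ := Finset.exists_of_ssubset hU
    obtain ⟨u, hu⟩ := hUn
    have hne : u ≠ w := fun h => hwU (h ▸ hu)
    rcases lt_or_gt_of_ne hne with h | h
    · obtain ⟨c, h1, h2⟩ := hgcov u w h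
      exact ⟨c, Or.inl ⟨by rw [h1]; exact hu, by rw [h2]; exact Finset.mem_sdiff.mpr ⟨hwT, hwU⟩⟩⟩
    · obtain ⟨c, h1, h2⟩ := hgcov w u h
      exact ⟨c, Or.inr ⟨by rw [h2]; exact hu, by rw [h1]; exact Finset.mem_sdiff.mpr ⟨hwT, hwU⟩⟩⟩

lemma rob_of_rob' {n m : ℕ} (h : Rob' n m) : Rob n m := by
  classical
  rcases h with rfl | rfl | ⟨hn, rfl⟩ | h
  · exact complete_robust n
  · refine ⟨(n + 1) ^ 2 / 4 + 1, fun c => c, fun c => c + 1, fun K hK => ?_⟩
    obtain ⟨T, h1, h2, h3⟩ := cycle_robust n ((n + 1) ^ 2 / 4) le_rfl K hK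
    exact ⟨T, h1, h2, h3⟩
  · obtain ⟨ga, gb, hE⟩ := exists_joined n hn
    exact ⟨3 * n, ga, gb, fun K hK => joined_robust hn ga gb hE K hK⟩
  · exact h

lemma rob_pos {n m : ℕ} (hn : 0 < n) (h : Rob n m) : 0 < m := by
  classical
  obtain ⟨N, a, b, h⟩ := h
  obtain ⟨T, -, hT, hc⟩ := h ∅ (by simp)
  rw [Finset.card_empty, zero_add] at hT
  obtain ⟨x, hx⟩ : T.Nonempty := Finset.card_pos.mp (by omega)
  obtain ⟨c, -⟩ := hc {x} (by
    refine Finset.ssubset_iff_subset_ne.mpr ⟨Finset.singleton_subset_iff.mpr hx, fun h1 => ?_⟩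
    rw [← h1, Finset.card_singleton] at hT
    omega) (Finset.singleton_nonempty x)
  exact lt_of_le_of_lt (Nat.zero_le _) c.2

/-- **Main theorem, graph version, final form.** -/
theorem main_graph' (n r : ℕ) (d : Fin r → ℕ) :
    ∃ bad : ℕ → MvPolynomial (Σ i : Fin r, {μ : Fin (n + r + 1) →₀ ℕ // μ.degree = d i}) ℂ,
      (∀ j, bad j ≠ 0) ∧
      ∀ f : Fin r → MvPolynomial (Fin (n + r + 1)) ℂ,
        (∀ i, f i ∈ MvPolynomial.homogeneousSubmodule (Fin (n + r + 1)) ℂ (d i)) →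
        (∀ j, MvPolynomial.eval (fun x => MvPolynomial.coeff x.2.1 (f x.1)) (bad j) ≠ 0) →
        ∀ I : Ideal (MvPolynomial (Fin (n + r + 1)) ℂ),
          (∀ p ∈ I, ∀ k : ℕ, MvPolynomial.homogeneousComponent k p ∈ I) →
          I.IsPrime →
          ringKrullDim (MvPolynomial (Fin (n + r + 1)) ℂ ⧸ I) = 2 →
          (∀ i, f i ∈ I) →
          ∀ m : ℕ, Rob n m →
          ∀ (g : Fin r → Fin m) (Q : ℕ), 0 < Q →
            (∀ c, Q ∣ ∏ i ∈ Finset.univ.filter (fun i => g i = c), d i) →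
            ∃ K : ℕ, ∀ k : ℕ, K ≤ k →
              (Q : ℤ) ∣
                (Module.finrank ℂ (Submodule.map (Ideal.Quotient.mkₐ ℂ I).toLinearMap
                    (MvPolynomial.homogeneousSubmodule (Fin (n + r + 1)) ℂ (k + 1))) : ℤ) -
                (Module.finrank ℂ (Submodule.map (Ideal.Quotient.mkₐ ℂ I).toLinearMap
                    (MvPolynomial.homogeneousSubmodule (Fin (n + r + 1)) ℂ k)) : ℤ) := by
  obtain ⟨bad, hbad, hmain⟩ := main_graph n r d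
  refine ⟨bad, hbad, fun f hf hfb I hI hIp hdim hfI m hm g Q hQ hgQ => ?_⟩
  obtain ⟨N, a, b, h⟩ := hm
  rcases N with _ | N
  · exfalso
    obtain ⟨T, -, hT, -⟩ := h ∅ (by simp)
    have h1 : T.card ≤ 0 := by
      have := Finset.card_le_univ T
      rwa [Fintype.card_fin] at this
    rw [Finset.card_empty] at hT
    omega
  · refine hmain f hf hfb I hI hIp hdim hfI N m a b (fun K hK => ?_) g Q hQ hgQ
    obtain ⟨T, h1, h2, h3⟩ := h K hK
    exact ⟨T, h1, h2, h3⟩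

end Pool.Agent.TH922.KC
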