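import Mathlib
import Pool.Agent.TH922.KC.Kol7
import Pool.Agent.TH922.KC.Fin2

set_option autoImplicit false

open MvPolynomial

namespace Pool.Agent.TH922.KC

lemma exists_sub_small {ι : Type*} [DecidableEq ι] (v : ι → ℕ) (s : ℕ) (S : Finset ι) :
    (∀ i ∈ S, v i < s) → s ≤ ∑ i ∈ S, v i →
      ∃ A ⊆ S, s ≤ ∑ i ∈ A, v i ∧ ∑ i ∈ A, v i ≤ 2 * s := by
  induction S using Finset.induction_on with
  | empty =>
    intro _ h
    refine ⟨∅, Finset.Subset.refl _, h, ?_⟩
    simp
  | insert i S hi ih =>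
    intro h1 h2
    by_cases h3 : s ≤ ∑ i ∈ S, v i
    · obtain ⟨A, hA, h4, h5⟩ := ih (fun i' hi' => h1 i' (Finset.mem_insert_of_mem hi')) h3
      exact ⟨A, hA.trans (Finset.subset_insert _ _), h4, h5⟩
    · refine ⟨insert i S, Finset.Subset.refl _, h2, ?_⟩
      rw [Finset.sum_insert hi]
      have h4 := h1 i (Finset.mem_insert_self _ _)
      omega

lemma exists_sub {ι : Type*} [DecidableEq ι] (v : ι → ℕ) (s M : ℕ) (h2 : 2 * s ≤ M)
    (S : Finset ι) (hM : ∀ i ∈ S, v i ≤ M) (hS : s ≤ ∑ i ∈ S, v i) :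
    ∃ A ⊆ S, s ≤ ∑ i ∈ A, v i ∧ ∑ i ∈ A, v i ≤ M := by
  by_cases h : ∃ i ∈ S, s ≤ v i
  · obtain ⟨i, hi, hsi⟩ := h
    refine ⟨{i}, Finset.singleton_subset_iff.mpr hi, ?_, ?_⟩
    · rw [Finset.sum_singleton]; exact hsi
    · rw [Finset.sum_singleton]; exact hM i hi
  · push Not at h
    obtain ⟨A, hA, h4, h5⟩ := exists_sub_small v s S h hS
    exact ⟨A, hA, h4, h5.trans h2⟩

/-- greedy grouping -/
lemma exists_group {ι : Type*} [DecidableEq ι] (v : ι → ℕ) (s M : ℕ) (hsM : s ≤ M) :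
    ∀ G : ℕ, (G ≠ 0 → 2 * s ≤ M) → ∀ S : Finset ι, (∀ i ∈ S, v i ≤ M) →
      (G + 1) * M ≤ ∑ i ∈ S, v i →
      ∃ g : ι → Fin (G + 1), ∀ a, s ≤ ∑ i ∈ S.filter (fun i => g i = a), v i := by
  intro G
  induction G with
  | zero =>
    intro _ S _ hS
    refine ⟨fun _ => 0, fun a => ?_⟩
    have h1 : S.filter (fun _ => (0 : Fin (0 + 1)) = a) = S := by
      apply Finset.filter_true_of_mem
      intro i _
      exact Fin.ext (by omega)
    rw [h1]
    omega
  | succ G ih =>
    intro h2 S hM hS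
    have h2' := h2 (Nat.succ_ne_zero G)
    have e1 : (G + 1 + 1) * M = (G + 1) * M + M := by ring
    rw [e1] at hS
    obtain ⟨A, hA, hA1, hA2⟩ := exists_sub v s M h2' S hM (by omega)
    have hsplit := Finset.sum_sdiff (f := v) hA
    obtain ⟨g', hg'⟩ := ih (fun _ => h2') (S \ A)
      (fun i hi => hM i (Finset.mem_sdiff.mp hi).1) (by omega)
    refine ⟨fun i => if i ∈ A then Fin.last (G + 1) else (g' i).castSucc, fun a => ?_⟩
    refine Fin.lastCases ?_ (fun b => ?_) a
    · refine hA1.trans (Finset.sum_le_sum_of_subset ?_)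
      intro i hi
      exact Finset.mem_filter.mpr ⟨hA hi, if_pos hi⟩
    · refine (hg' b).trans (Finset.sum_le_sum_of_subset ?_)
      intro i hi
      obtain ⟨h3, h4⟩ := Finset.mem_filter.mp hi
      obtain ⟨h5, h6⟩ := Finset.mem_sdiff.mp h3
      refine Finset.mem_filter.mpr ⟨h5, ?_⟩
      simp only [if_neg h6, h4]

/-- **Product form.** -/
theorem main_product (n r : ℕ) (hn0 : 0 < n) (d : Fin r → ℕ) :
    ∃ bad : ℕ → MvPolynomial (Σ i : Fin r, {μ : Fin (n + r + 1) →₀ ℕ // μ.degree = d i}) ℂ,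
      (∀ j, bad j ≠ 0) ∧
      ∀ f : Fin r → MvPolynomial (Fin (n + r + 1)) ℂ,
        (∀ i, f i ∈ MvPolynomial.homogeneousSubmodule (Fin (n + r + 1)) ℂ (d i)) →
        (∀ j, MvPolynomial.eval (fun x => MvPolynomial.coeff x.2.1 (f x.1)) (bad j) ≠ 0) →
        ∀ I : Ideal (MvPolynomial (Fin (n + r + 1)) ℂ),
          (∀ p ∈ I, ∀ k : ℕ, MvPolynomial.homogeneousComponent k p ∈ I) →
          I.IsPrime →
          ringKrullDim (MvPolynomial (Fin (n + r + 1)) ℂ ⧸ I) = 2 →
          (∀ i, f i ∈ I) →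
          ∀ j N : ℕ, 0 < N → (∀ p : ℕ, p.Prime → p ∣ N → n < p ^ (j + 1)) →
            N ^ ((j + 1) * (n * (n * (n + 1) / 2))) ∣ ∏ i, d i →
            ∃ K : ℕ, ∀ k : ℕ, K ≤ k →
              (N : ℤ) ∣
                (Module.finrank ℂ (Submodule.map (Ideal.Quotient.mkₐ ℂ I).toLinearMap
                    (MvPolynomial.homogeneousSubmodule (Fin (n + r + 1)) ℂ (k + 1))) : ℤ) -
                (Module.finrank ℂ (Submodule.map (Ideal.Quotient.mkₐ ℂ I).toLinearMap
                    (MvPolynomial.homogeneousSubmodule (Fin (n + r + 1)) ℂ k)) : ℤ) := by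
  classical
  obtain ⟨bad1, hbad1, hmain1⟩ := main n r d
  obtain ⟨bad2, hbad2, hmain2⟩ := main_toric n r d
  refine ⟨fun j => bad1 j * bad2 j, fun j => mul_ne_zero (hbad1 j) (hbad2 j), ?_⟩
  intro f hf hfb I hI hIp hdim hfI j N hN hNp hNd
  have hfb1 : ∀ j, MvPolynomial.eval (fun x => MvPolynomial.coeff x.2.1 (f x.1)) (bad1 j) ≠ 0 := by
    intro j h
    apply hfb j
    rw [map_mul, h, zero_mul]
  have hfb2 : ∀ j, MvPolynomial.eval (fun x => MvPolynomial.coeff x.2.1 (f x.1)) (bad2 j) ≠ 0 := by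
    intro j h
    apply hfb j
    rw [map_mul, h, mul_zero]
  refine eventually_dvd N hN _ ?_
  intro p s hp hs hps
  have hpN : p ∣ N := (dvd_pow_self p hs).trans hps
  have hnp := hNp p hp hpN
  by_cases hA : ∃ i, p ^ (n * (s + j)) ∣ d i
  · obtain ⟨i, hi⟩ := hA
    have hcard : 1 ≤ (Finset.univ.filter fun i => p ^ (n * (s + j)) ∣ d i).card :=
      Finset.card_pos.mpr ⟨i, Finset.mem_filter.mpr ⟨Finset.mem_univ _, hi⟩⟩
    obtain ⟨K, hK⟩ := hmain1 f hf hfb1 I hI hIp hdim hfI p (s + j) j hp (by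
      have h1 : n ≤ p ^ (j + 1) - 1 := by omega
      exact h1.trans (Nat.le_mul_of_pos_left _ hcard))
    refine ⟨K, fun k hk => ?_⟩
    have h1 := hK k hk
    have h2 : ((p ^ (s + j) : ℕ) : ℤ) = ((p ^ j : ℕ) : ℤ) * ((p ^ s : ℕ) : ℤ) := by
      push_cast; ring
    rw [h2] at h1
    have h3 : ((p ^ j : ℕ) : ℤ) ≠ 0 := by exact_mod_cast (pow_pos hp.pos j).ne'
    exact (mul_dvd_mul_iff_left h3).mp h1
  · push Not at hA
    have hd0 : ∀ i, d i ≠ 0 := by
      intro i h
      apply hA i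
      rw [h]
      exact dvd_zero _
    have hv : ∀ i, (d i).factorization p ≤ n * (s + j) := by
      intro i
      by_contra h
      push Not at h
      exact hA i ((hp.pow_dvd_iff_le_factorization (hd0 i)).mpr h.le)
    have hfac : ∀ S : Finset (Fin r), (∏ i ∈ S, d i).factorization p
        = ∑ i ∈ S, (d i).factorization p := by
      intro S
      rw [Nat.factorization_prod (fun i _ => hd0 i), Finset.sum_apply']
    obtain ⟨G, hG⟩ : ∃ G, n * (n + 1) / 2 = G + 1 := by
      have h1 : 1 ≤ n * (n + 1) / 2 := by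
        rw [Nat.le_div_iff_mul_le (by norm_num)]
        nlinarith
      exact ⟨n * (n + 1) / 2 - 1, by omega⟩
    have hs1 : 1 ≤ s := Nat.one_le_iff_ne_zero.mpr hs
    have htot : (G + 1) * (n * (s + j)) ≤ ∑ i, (d i).factorization p := by
      have h1 : p ^ (s * ((j + 1) * (n * (n * (n + 1) / 2)))) ∣ ∏ i, d i := by
        rw [pow_mul]
        exact (pow_dvd_pow_of_dvd hps _).trans hNd
      have h2 := (hp.pow_dvd_iff_le_factorization
        (Finset.prod_ne_zero_iff.mpr fun i _ => hd0 i)).mp h1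
      rw [hfac, hG] at h2
      refine le_trans ?_ h2
      have h3 : s + j ≤ s * (j + 1) := by nlinarith
      calc (G + 1) * (n * (s + j)) ≤ (G + 1) * (n * (s * (j + 1))) :=
            Nat.mul_le_mul_left _ (Nat.mul_le_mul_left _ h3)
        _ = s * ((j + 1) * (n * (G + 1))) := by ring
    obtain ⟨g, hg⟩ := exists_group (fun i => (d i).factorization p) s (n * (s + j))
      (by nlinarith) G
      (by
        intro hG0
        have h1 : 2 ≤ n := by
          by_contra h2
          have h3 : n = 1 := by omega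
          subst h3
          norm_num at hG
          omega
        nlinarith) Finset.univ (fun i _ => hv i) htot
    obtain ⟨K, hK⟩ := hmain2 f hf hfb2 I hI hIp hdim hfI (fun i => Fin.cast hG.symm (g i)) (p ^ s)
      (pow_pos hp.pos s) (by
        intro c
        rw [hp.pow_dvd_iff_le_factorization (Finset.prod_ne_zero_iff.mpr fun i _ => hd0 i), hfac]
        have h1 : Finset.univ.filter (fun i => Fin.cast hG.symm (g i) = c)
            = Finset.univ.filter (fun i => g i = Fin.cast hG c) := by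
          ext i
          simp only [Finset.mem_filter, Finset.mem_univ, true_and]
          constructor
          · rintro rfl
            rfl
          · intro h
            rw [h]
            rfl
        rw [h1]
        exact hg _)
    exact ⟨K, hK⟩

end Pool.Agent.TH922.KC
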