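import Mathlib
import Pool.Agent.TH922.KC.Con6
import Pool.Agent.TH922.KC.Prod1

set_option autoImplicit false

open MvPolynomial

namespace Pool.Agent.TH922.KC

/-- excess over `n s`, counted by thresholds -/
lemma excess (n s v : ℕ) (hn : 0 < n) (hv : v < n * (s + (n - 1)) + n) :
    v ≤ min v (n * s) + n * ((Finset.range n).filter fun j => n * (s + j) ≤ v).card := by
  rcases le_total v (n * s) with h | h
  · rw [min_eq_left h]
    exact Nat.le_add_right _ _
  · rw [min_eq_right h]
    have h1 : s ≤ v / n := (Nat.le_div_iff_mul_le hn).mpr (by rw [mul_comm]; exact h)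
    obtain ⟨a, ha⟩ := Nat.exists_eq_add_of_le h1
    have h2 : v < n * (v / n + 1) := Nat.lt_mul_div_succ v hn
    have h3 : a < n := by
      by_contra h4
      push Not at h4
      have h5 : n * (v / n) ≤ v := Nat.mul_div_le v n
      rw [ha] at h5
      have h6 : n * (s + n) ≤ n * (s + a) := Nat.mul_le_mul_left _ (by omega)
      have h7 : n * (s + (n - 1)) + n = n * (s + n) := by
        obtain ⟨n', rfl⟩ : ∃ n', n = n' + 1 := ⟨n - 1, by omega⟩
        rw [Nat.add_sub_cancel]
        ring
      omega
    have h8 : a + 1 ≤ ((Finset.range n).filter fun j => n * (s + j) ≤ v).card := by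
      have h9 : Finset.range (a + 1) ⊆ (Finset.range n).filter fun j => n * (s + j) ≤ v := by
        intro j hj
        rw [Finset.mem_range] at hj
        refine Finset.mem_filter.mpr ⟨Finset.mem_range.mpr (by omega), ?_⟩
        have h10 : n * (s + j) ≤ n * (v / n) := Nat.mul_le_mul_left _ (by omega)
        exact h10.trans (Nat.mul_div_le v n)
      have := Finset.card_le_card h9
      rwa [Finset.card_range] at this
    have h11 : n * (a + 1) ≤ n * ((Finset.range n).filter fun j => n * (s + j) ≤ v).card :=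
      Nat.mul_le_mul_left _ h8
    have h12 : n * (v / n + 1) = n * s + n * (a + 1) := by
      rw [ha]; ring
    omega

/-- **Product form, linear exponent.** -/
theorem main_product_lin (n r : ℕ) (hn0 : 0 < n) (d : Fin r → ℕ) :
    ∃ bad : ℕ → MvPolynomial (Σ i : Fin r, {μ : Fin (n + r + 1) →₀ ℕ // μ.degree = d i}) ℂ,
      (∀ j, bad j ≠ 0) ∧
      ∀ f : Fin r → MvPolynomial (Fin (n + r + 1)) ℂ,
        (∀ i, f i ∈ MvPolynomial.homogeneousSubmodule (Fin (n + r + 1)) ℂ (d i)) →
        (∀ j, MvPolynomial.eval (fun x => MvPolynomial.coeff x.2.1 (f x.1)) (bad j) ≠ 0) →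
        ∀ I : Ideal (MvPolynomial (Fin (n + r + 1)) ℂ),
          (∀ p ∈ I, ∀ k : ℕ, MvPolynomial.homogeneousComponent k p ∈ I) →
          I.IsPrime →
          ringKrullDim (MvPolynomial (Fin (n + r + 1)) ℂ ⧸ I) = 2 →
          (∀ i, f i ∈ I) →
          ∀ m : ℕ, Rob n m →
          ∀ l N : ℕ, 2 ≤ l → 0 < N → (∀ p : ℕ, p.Prime → p ∣ N → l ≤ p) →
            N ^ (n * (m + ∑ j ∈ Finset.range n, (n - 1) / (l ^ (j + 1) - 1))) ∣ ∏ i, d i →
            ∃ K : ℕ, ∀ k : ℕ, K ≤ k →
              (N : ℤ) ∣
                (Module.finrank ℂ (Submodule.map (Ideal.Quotient.mkₐ ℂ I).toLinearMap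
                    (MvPolynomial.homogeneousSubmodule (Fin (n + r + 1)) ℂ (k + 1))) : ℤ) -
                (Module.finrank ℂ (Submodule.map (Ideal.Quotient.mkₐ ℂ I).toLinearMap
                    (MvPolynomial.homogeneousSubmodule (Fin (n + r + 1)) ℂ k)) : ℤ) := by
  classical
  obtain ⟨bad1, hbad1, hmain1⟩ := main n r d
  obtain ⟨bad2, hbad2, hmain2⟩ := main_graph' n r d
  refine ⟨fun j => bad1 j * bad2 j, fun j => mul_ne_zero (hbad1 j) (hbad2 j), ?_⟩
  intro f hf hfb I hI hIp hdim hfI
  have hfb1 : ∀ j, MvPolynomial.eval (fun x => MvPolynomial.coeff x.2.1 (f x.1)) (bad1 j) ≠ 0 := by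
    intro j h
    apply hfb j
    rw [map_mul, h, zero_mul]
  have hfb2 : ∀ j, MvPolynomial.eval (fun x => MvPolynomial.coeff x.2.1 (f x.1)) (bad2 j) ≠ 0 := by
    intro j h
    apply hfb j
    rw [map_mul, h, mul_zero]
  suffices H : ∀ m : ℕ, Rob n m → (n = 1 → m = 1) →
      ∀ l N : ℕ, 2 ≤ l → 0 < N → (∀ p : ℕ, p.Prime → p ∣ N → l ≤ p) →
        N ^ (n * (m + ∑ j ∈ Finset.range n, (n - 1) / (l ^ (j + 1) - 1))) ∣ ∏ i, d i →
        ∃ K : ℕ, ∀ k : ℕ, K ≤ k →
          (N : ℤ) ∣
            (Module.finrank ℂ (Submodule.map (Ideal.Quotient.mkₐ ℂ I).toLinearMap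
                (MvPolynomial.homogeneousSubmodule (Fin (n + r + 1)) ℂ (k + 1))) : ℤ) -
            (Module.finrank ℂ (Submodule.map (Ideal.Quotient.mkₐ ℂ I).toLinearMap
                (MvPolynomial.homogeneousSubmodule (Fin (n + r + 1)) ℂ k)) : ℤ) by
    intro m hm l N hl hN hNp hNd
    by_cases hn1 : n = 1
    · have hR1 : Rob n 1 := by
        have h1 := complete_robust n
        have h2 : n * (n + 1) / 2 = 1 := by rw [hn1]
        rwa [h2] at h1
      refine H 1 hR1 (fun _ => rfl) l N hl hN hNp (dvd_trans (pow_dvd_pow N ?_) hNd)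
      exact Nat.mul_le_mul_left _ (Nat.add_le_add_right (rob_pos hn0 hm) _)
    · exact H m hm (fun h => absurd h hn1) l N hl hN hNp hNd
  intro m hm hm1 l N hl hN hNp hNd
  refine eventually_dvd N hN _ ?_
  intro p s hp hs hps
  have hpN : p ∣ N := (dvd_pow_self p hs).trans hps
  have hlp := hNp p hp hpN
  set E := ∑ j ∈ Finset.range n, (n - 1) / (l ^ (j + 1) - 1) with hE
  by_cases hA : ∃ j, n ≤ (Finset.univ.filter fun i => p ^ (n * (s + j)) ∣ d i).card *
      (p ^ (j + 1) - 1)
  · obtain ⟨j, hj⟩ := hA
    obtain ⟨K, hK⟩ := hmain1 f hf hfb1 I hI hIp hdim hfI p (s + j) j hp hj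
    refine ⟨K, fun k hk => ?_⟩
    have h1 := hK k hk
    have h2 : ((p ^ (s + j) : ℕ) : ℤ) = ((p ^ j : ℕ) : ℤ) * ((p ^ s : ℕ) : ℤ) := by
      push_cast; ring
    rw [h2] at h1
    have h3 : ((p ^ j : ℕ) : ℤ) ≠ 0 := by exact_mod_cast (pow_pos hp.pos j).ne'
    exact (mul_dvd_mul_iff_left h3).mp h1
  · push Not at hA
    have hpow : n ≤ p ^ (n - 1 + 1) - 1 := by
      have h1 : n < 2 ^ n := Nat.lt_two_pow_self
      have h2 : 2 ^ n ≤ p ^ n := Nat.pow_le_pow_left hp.two_le n
      rw [Nat.sub_add_cancel hn0]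
      omega
    have hnone : ∀ i, ¬ p ^ (n * (s + (n - 1))) ∣ d i := by
      intro i hi
      have h1 := hA (n - 1)
      have h2 : 1 ≤ (Finset.univ.filter fun i => p ^ (n * (s + (n - 1))) ∣ d i).card :=
        Finset.card_pos.mpr ⟨i, Finset.mem_filter.mpr ⟨Finset.mem_univ _, hi⟩⟩
      have h3 : n ≤ (Finset.univ.filter fun i => p ^ (n * (s + (n - 1))) ∣ d i).card *
          (p ^ (n - 1 + 1) - 1) := hpow.trans (Nat.le_mul_of_pos_left _ h2)
      omega
    have hd0 : ∀ i, d i ≠ 0 := by
      intro i h
      apply hnone i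
      rw [h]
      exact dvd_zero _
    have hv : ∀ i, (d i).factorization p < n * (s + (n - 1)) + n := by
      intro i
      by_contra h
      push Not at h
      exact hnone i ((hp.pow_dvd_iff_le_factorization (hd0 i)).mpr (by omega))
    have hfac : ∀ S : Finset (Fin r), (∏ i ∈ S, d i).factorization p
        = ∑ i ∈ S, (d i).factorization p := by
      intro S
      rw [Nat.factorization_prod (fun i _ => hd0 i), Finset.sum_apply']
    obtain ⟨G, hG⟩ : ∃ G, m = G + 1 := ⟨m - 1, by have := rob_pos hn0 hm; omega⟩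
    have hs1 : 1 ≤ s := Nat.one_le_iff_ne_zero.mpr hs
    -- the excess
    have hT : ∀ j, (Finset.univ.filter fun i : Fin r => n * (s + j) ≤ (d i).factorization p).card
        ≤ (n - 1) / (l ^ (j + 1) - 1) := by
      intro j
      have h1 := hA j
      have h2 : (Finset.univ.filter fun i : Fin r => n * (s + j) ≤ (d i).factorization p)
          = Finset.univ.filter fun i => p ^ (n * (s + j)) ∣ d i := by
        ext i
        simp only [Finset.mem_filter, Finset.mem_univ, true_and]
        exact (hp.pow_dvd_iff_le_factorization (hd0 i)).symm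
      rw [h2]
      have h3 : 2 ≤ l ^ (j + 1) := hl.trans (Nat.le_self_pow (Nat.succ_ne_zero j) l)
      rw [Nat.le_div_iff_mul_le (by omega)]
      have h4 : l ^ (j + 1) ≤ p ^ (j + 1) := Nat.pow_le_pow_left hlp _
      have h5 : (Finset.univ.filter fun i => p ^ (n * (s + j)) ∣ d i).card * (l ^ (j + 1) - 1)
          ≤ (Finset.univ.filter fun i => p ^ (n * (s + j)) ∣ d i).card * (p ^ (j + 1) - 1) :=
        Nat.mul_le_mul_left _ (by omega)
      omega
    have hexc : ∑ i, (d i).factorization p ≤
        ∑ i, min ((d i).factorization p) (n * s) + n * E := by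
      calc ∑ i, (d i).factorization p ≤ ∑ i, (min ((d i).factorization p) (n * s) +
            n * ((Finset.range n).filter fun j => n * (s + j) ≤ (d i).factorization p).card) :=
            Finset.sum_le_sum fun i _ => excess n s _ hn0 (hv i)
        _ = ∑ i, min ((d i).factorization p) (n * s) + n * ∑ i : Fin r,
            ((Finset.range n).filter fun j => n * (s + j) ≤ (d i).factorization p).card := by
            rw [Finset.sum_add_distrib, Finset.mul_sum]
        _ = ∑ i, min ((d i).factorization p) (n * s) + n * ∑ j ∈ Finset.range n,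
            (Finset.univ.filter fun i : Fin r => n * (s + j) ≤ (d i).factorization p).card := by
            congr 2
            simp only [Finset.card_filter]
            rw [Finset.sum_comm]
        _ ≤ _ := Nat.add_le_add_left (Nat.mul_le_mul_left _ (Finset.sum_le_sum fun j _ => hT j)) _
    have htot : (G + 1) * (n * s) ≤ ∑ i, min ((d i).factorization p) (n * s) := by
      have h1 : p ^ (s * (n * (m + E))) ∣ ∏ i, d i := by
        rw [pow_mul]
        exact (pow_dvd_pow_of_dvd hps _).trans hNd
      have h2 := (hp.pow_dvd_iff_le_factorization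
        (Finset.prod_ne_zero_iff.mpr fun i _ => hd0 i)).mp h1
      rw [hfac, hG] at h2
      have h3 : s * (n * (G + 1 + E)) = (G + 1) * (n * s) + s * (n * E) := by ring
      have h4 : n * E ≤ s * (n * E) := Nat.le_mul_of_pos_left _ hs1
      omega
    obtain ⟨g, hg⟩ := exists_group (fun i => min ((d i).factorization p) (n * s)) s (n * s)
      (Nat.le_mul_of_pos_left _ hn0) G
      (by
        intro hG0
        have h1 : 2 ≤ n := by
          by_contra h2
          have h3 := hm1 (by omega)
          omega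
        exact Nat.mul_le_mul_right _ h1) Finset.univ (fun i _ => min_le_right _ _) htot
    obtain ⟨K, hK⟩ := hmain2 f hf hfb2 I hI hIp hdim hfI m hm
      (fun i => Fin.cast hG.symm (g i)) (p ^ s) (pow_pos hp.pos s) (by
        intro c
        rw [hp.pow_dvd_iff_le_factorization (Finset.prod_ne_zero_iff.mpr fun i _ => hd0 i), hfac]
        have h1 : Finset.univ.filter (fun i => Fin.cast hG.symm (g i) = c)
            = Finset.univ.filter (fun i => g i = Fin.cast hG c) := by
          ext i
          simp only [Finset.mem_filter, Finset.mem_univ, true_and]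
          constructor
          · rintro rfl
            rfl
          · intro h
            rw [h]
            rfl
        rw [h1]
        exact (hg _).trans (Finset.sum_le_sum fun i _ => min_le_left _ _))
    exact ⟨K, hK⟩

end Pool.Agent.TH922.KC
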