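import Mathlib
import Pool.Agent.TH922.KC.Tor3
import Pool.Agent.TH922.KC.Mer5

set_option autoImplicit false
set_option linter.unusedSectionVars false

open MvPolynomial

namespace Pool.Agent.TH922.KC

/-- choice of the indices used for the blocks and for the merging steps -/
lemma exists_assign (n r : ℕ) (hn : 0 < n) (S1 S2 : Finset (Fin r)) (h12 : S2 ⊆ S1)
    (h1 : (n + 1) / 2 + (n / 2 + 1).choose 2 ≤ S1.card) (h2 : (n / 2 + 1).choose 2 ≤ S2.card) :
    ∃ (bi : ℕ → Fin r) (mi : ℕ → ℕ → Fin r),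
      (∀ j, 2 * j + 1 < n + 1 → bi j ∈ S1) ∧
      (∀ j l, j < l → 2 * l < n + 1 → mi j l ∈ S2) ∧
      (∀ j j', 2 * j + 1 < n + 1 → 2 * j' + 1 < n + 1 → bi j = bi j' → j = j') ∧
      (∀ j l j' l', j < l → 2 * l < n + 1 → j' < l' → 2 * l' < n + 1 → mi j l = mi j' l' →
        j = j' ∧ l = l') ∧
      (∀ j' j l, 2 * j' + 1 < n + 1 → j < l → 2 * l < n + 1 → bi j' ≠ mi j l) := by
  classical
  obtain ⟨T, hT, hTc⟩ := Finset.exists_subset_card_eq h2
  have hU : (n + 1) / 2 ≤ (S1 \ T).card := by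
    rw [Finset.card_sdiff_of_subset (hT.trans h12)]
    omega
  have hne : (S1 \ T).Nonempty := by
    rw [← Finset.card_pos]; omega
  obtain ⟨i0, -⟩ := hne
  have g1 : Nonempty (Fin ((n + 1) / 2) ↪ {i // i ∈ S1 \ T}) := by
    apply Function.Embedding.nonempty_of_card_le
    rw [Fintype.card_fin, Fintype.card_coe]
    exact hU
  obtain ⟨g1⟩ := g1
  have g2 : Nonempty ((Σ l : Fin (n / 2 + 1), Fin l.1) ↪ {i // i ∈ T}) := by
    apply Function.Embedding.nonempty_of_card_le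
    rw [Fintype.card_sigma, Fintype.card_coe, hTc]
    simp only [Fintype.card_fin]
    rw [Fin.sum_univ_eq_sum_range (fun i => i) (n / 2 + 1), Finset.sum_range_id,
      Nat.choose_two_right]
  obtain ⟨g2⟩ := g2
  let bi : ℕ → Fin r := fun j => if h : j < (n + 1) / 2 then (g1 ⟨j, h⟩).1 else i0
  let mi : ℕ → ℕ → Fin r := fun j l => if h : l < n / 2 + 1 then
    (if h' : j < l then (g2 ⟨⟨l, h⟩, ⟨j, h'⟩⟩).1 else i0) else i0
  have hbi : ∀ j (h : j < (n + 1) / 2), bi j = (g1 ⟨j, h⟩).1 := fun j h => dif_pos h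
  have hmi : ∀ j l (h : l < n / 2 + 1) (h' : j < l), mi j l = (g2 ⟨⟨l, h⟩, ⟨j, h'⟩⟩).1 := by
    intro j l h h'
    simp only [mi, dif_pos h, dif_pos h']
  refine ⟨bi, mi, ?_, ?_, ?_, ?_, ?_⟩
  · intro j hj
    rw [hbi j (by omega)]
    exact (Finset.mem_sdiff.mp (g1 _).2).1
  · intro j l hjl hl
    rw [hmi j l (by omega) hjl]
    exact hT (g2 _).2
  · intro j j' hj hj' h
    rw [hbi j (by omega), hbi j' (by omega)] at h
    have h3 := g1.injective (Subtype.ext h)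
    exact congrArg Fin.val h3
  · intro j l j' l' hjl hl hjl' hl' h
    rw [hmi j l (by omega) hjl, hmi j' l' (by omega) hjl'] at h
    have h3 := g2.injective (Subtype.ext h)
    have h4 : l = l' := congrArg (fun v => (v.1 : ℕ)) h3
    have h5 : j = j' := congrArg (fun v => (v.2 : ℕ)) h3
    exact ⟨h5, h4⟩
  · intro j' j l hj' hjl hl h
    rw [hbi j' (by omega), hmi j l (by omega) hjl] at h
    have h3 := (Finset.mem_sdiff.mp (g1 ⟨j', by omega⟩).2).2
    rw [h] at h3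
    exact h3 (g2 _).2

/-- the special equations -/
lemma exists_eqs {k : Type} [Field k] {n r Q : ℕ} (hQ : 2 ≤ Q) (ω : k) (hω : IsPrimitiveRoot ω Q)
    (d : Fin r → ℕ) (bi : ℕ → Fin r) (mi : ℕ → ℕ → Fin r)
    (hb : ∀ j, 2 * j + 1 < n + 1 → Q ∣ d (bi j))
    (hm : ∀ j l, j < l → 2 * l < n + 1 → Q ∣ d (mi j l) ∧ 2 * Q ^ 2 ≤ d (mi j l))
    (hbb : ∀ j j', 2 * j + 1 < n + 1 → 2 * j' + 1 < n + 1 → bi j = bi j' → j = j')
    (hmm : ∀ j l j' l', j < l → 2 * l < n + 1 → j' < l' → 2 * l' < n + 1 → mi j l = mi j' l' →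
        j = j' ∧ l = l')
    (hbm : ∀ j' j l, 2 * j' + 1 < n + 1 → j < l → 2 * l < n + 1 → bi j' ≠ mi j l) (i : Fin r) :
    ∃ N : MvPolynomial (Fin (n + 1) ⊕ Fin r) k, N.IsHomogeneous (d i) ∧
      (∀ j (hj : 2 * j + 1 < n + 1), i = bi j → N = (X (Sum.inr (bi j)) ^ Q -
        X (Sum.inl ⟨2 * j, by omega⟩) * X (Sum.inl ⟨2 * j + 1, hj⟩) ^ (Q - 1)) ^ (d i / Q)) ∧
      (∀ j l, j < l → 2 * l < n + 1 → i = mi j l → ∀ (Ω : Type) [Field Ω] (θ : k →+* Ω)
        (x : Fin (n + 1) ⊕ Fin r → Ω) (yy : ℕ → Ω), Pt Q n bi x yy →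
        eval₂ θ x N = ∏ i' ∈ Finset.range Q,
          (x (Sum.inr (mi j l)) ^ (d i / Q) - wf Q (d i / Q) (θ ω) yy j l i')) ∧
      ((∀ j, 2 * j + 1 < n + 1 → i ≠ bi j) → (∀ j l, j < l → 2 * l < n + 1 → i ≠ mi j l) →
        N = X (Sum.inr i) ^ (d i)) := by
  classical
  by_cases h1 : ∃ j, 2 * j + 1 < n + 1 ∧ i = bi j
  · obtain ⟨j, hj, hij⟩ := h1
    refine ⟨(X (Sum.inr (bi j)) ^ Q - X (Sum.inl ⟨2 * j, by omega⟩) *
      X (Sum.inl ⟨2 * j + 1, hj⟩) ^ (Q - 1)) ^ (d i / Q), ?_, ?_, ?_, ?_⟩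
    · have h2 := (isHomogeneous_X k (Sum.inl ⟨2 * j, by omega⟩ : Fin (n + 1) ⊕ Fin r)).mul
        (isHomogeneous_X_pow (R := k) (Sum.inl ⟨2 * j + 1, hj⟩ : Fin (n + 1) ⊕ Fin r) (Q - 1))
      rw [Nat.add_sub_cancel' (by omega : 1 ≤ Q)] at h2
      have h3 := ((isHomogeneous_X_pow (R := k) (Sum.inr (bi j) : Fin (n + 1) ⊕ Fin r) Q).sub
        h2).pow (d i / Q)
      have h4 : Q * (d i / Q) = d i := Nat.mul_div_cancel' (hij ▸ hb j hj)
      rwa [h4] at h3
    · intro j' hj' hij'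
      have h2 : j = j' := hbb j j' hj hj' (hij.symm.trans hij')
      subst h2
      rfl
    · intro j' l' hjl hl hij'
      exact absurd (hij.symm.trans hij') (hbm j j' l' hj hjl hl)
    · intro h2 _
      exact absurd hij (h2 j hj)
  by_cases h2 : ∃ j l, j < l ∧ 2 * l < n + 1 ∧ i = mi j l
  · obtain ⟨j, l, hjl, hl, hij⟩ := h2
    have h3 := hm j l hjl hl
    rw [← hij] at h3
    have h4 : Q * (d i / Q) = d i := Nat.mul_div_cancel' h3.1
    have h5 : 2 * Q ≤ d i / Q := by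
      rw [Nat.le_div_iff_mul_le (by omega)]
      calc 2 * Q * Q = 2 * Q ^ 2 := by ring
        _ ≤ d i := h3.2
    obtain ⟨E, hE1, hE2⟩ := exists_E (n := n) hQ h5 ω hω bi (mi j l) j l
    rw [h4] at hE1
    refine ⟨E, hE1, ?_, ?_, ?_⟩
    · intro j' hj' hij'
      exact absurd ⟨j', hj', hij'⟩ h1
    · intro j' l' hjl' hl' hij' Ω _ θ x yy hpt
      obtain ⟨e1, e2⟩ := hmm j l j' l' hjl hl hjl' hl' (hij.symm.trans hij')
      subst e1 e2
      exact hE2 Ω θ x yy hpt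
    · intro _ h6
      exact absurd hij (h6 j l hjl hl)
  · refine ⟨X (Sum.inr i) ^ (d i), isHomogeneous_X_pow _ _, ?_, ?_, fun _ _ => rfl⟩
    · intro j hj hij
      exact absurd ⟨j, hj, hij⟩ h1
    · intro j l hjl hl hij
      exact absurd ⟨j, l, hjl, hl, hij⟩ h2

/-- **Main theorem, paired blocks.** -/
theorem main_blocks (n r : ℕ) (hn : 0 < n) (d : Fin r → ℕ) :
    ∃ bad : ℕ → MvPolynomial (Σ i : Fin r, {μ : Fin (n + r + 1) →₀ ℕ // μ.degree = d i}) ℂ,
      (∀ j, bad j ≠ 0) ∧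
      ∀ f : Fin r → MvPolynomial (Fin (n + r + 1)) ℂ,
        (∀ i, f i ∈ MvPolynomial.homogeneousSubmodule (Fin (n + r + 1)) ℂ (d i)) →
        (∀ j, MvPolynomial.eval (fun x => MvPolynomial.coeff x.2.1 (f x.1)) (bad j) ≠ 0) →
        ∀ I : Ideal (MvPolynomial (Fin (n + r + 1)) ℂ),
          (∀ p ∈ I, ∀ k : ℕ, MvPolynomial.homogeneousComponent k p ∈ I) →
          I.IsPrime →
          ringKrullDim (MvPolynomial (Fin (n + r + 1)) ℂ ⧸ I) = 2 →
          (∀ i, f i ∈ I) →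
          ∀ Q : ℕ, Nat.Coprime Q 6 →
            (n + 1) / 2 + (n / 2 + 1).choose 2 ≤ (Finset.univ.filter fun i => Q ∣ d i).card →
            (n / 2 + 1).choose 2
              ≤ (Finset.univ.filter fun i => Q ∣ d i ∧ 2 * Q ^ 2 ≤ d i).card →
            ∃ K : ℕ, ∀ k : ℕ, K ≤ k →
              (Q : ℤ) ∣
                (Module.finrank ℂ (Submodule.map (Ideal.Quotient.mkₐ ℂ I).toLinearMap
                    (MvPolynomial.homogeneousSubmodule (Fin (n + r + 1)) ℂ (k + 1))) : ℤ) -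
                (Module.finrank ℂ (Submodule.map (Ideal.Quotient.mkₐ ℂ I).toLinearMap
                    (MvPolynomial.homogeneousSubmodule (Fin (n + r + 1)) ℂ k)) : ℤ) := by
  classical
  obtain ⟨K1, hcount, hroots, -⟩ := exists_countable_field
  set σ := (Σ i : Fin r, {μ : Fin (n + r + 1) →₀ ℕ // μ.degree = d i}) with hσ
  have hcp : Countable (MvPolynomial σ K1) := by
    rw [← Cardinal.mk_le_aleph0_iff]
    refine MvPolynomial.cardinalMk_le_max.trans ?_
    simp only [max_le_iff, le_refl, and_true]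
    exact ⟨Cardinal.mk_le_aleph0_iff.mpr hcount, Cardinal.mk_le_aleph0_iff.mpr inferInstance⟩
  have hne : Nonempty {p : MvPolynomial σ K1 // p ≠ 0} := ⟨⟨1, one_ne_zero⟩⟩
  obtain ⟨en, hen⟩ := exists_surjective_nat {p : MvPolynomial σ K1 // p ≠ 0}
  refine ⟨fun j => MvPolynomial.map K1.subtype (en j).1, fun j => ?_, ?_⟩
  · have h1 := (en j).2
    intro h
    exact h1 ((map_eq_zero_iff _ (MvPolynomial.map_injective _ K1.subtype.injective)).mp h)
  intro f hfh hbad I hI hIp hdim hfI Q hQ6 hc1 hc2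
  by_cases hQ1 : Q = 1
  · refine ⟨0, fun k _ => ?_⟩
    rw [hQ1]
    exact one_dvd _
  have hQ0 : Q ≠ 0 := by
    rintro rfl
    norm_num at hQ6
  have hQ : 2 ≤ Q := by omega
  have hind : AlgebraicIndependent K1 (fun x : σ => coeff x.2.1 (f x.1)) := by
    rw [algebraicIndependent_iff]
    intro p hp
    by_contra hp0
    obtain ⟨l, hl⟩ := hen ⟨p, hp0⟩
    apply hbad l
    change MvPolynomial.eval _ (MvPolynomial.map K1.subtype (en l).1) = 0
    rw [hl, MvPolynomial.eval_map]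
    exact hp
  obtain ⟨bi, mi, hb, hm, hbb, hmm, hbm⟩ := exists_assign n r hn _ _ (by
    intro i hi
    simp only [Finset.mem_filter, Finset.mem_univ, true_and] at hi ⊢
    exact hi.1) hc1 hc2
  simp only [Finset.mem_filter, Finset.mem_univ, true_and] at hb hm
  obtain ⟨ω, hω⟩ := hroots Q hQ0
  choose N hN1 hN2 hN3 hN4 using exists_eqs (k := K1) (n := n) hQ ω hω d bi mi hb hm hbb hmm hbm
  let ε := idx n r
  let f0 : Fin r → MvPolynomial (Fin (n + r + 1)) K1 := fun i => rename ε.symm (N i)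
  obtain ⟨B, φ1, hB⟩ := specialise d K1 f hfh hind f0
    (fun i => IsHomogeneous.rename_isHomogeneous (hN1 i))
  have hBI := hB I hfI
  have hredh := red_hom B (I := I) hI
  obtain ⟨C, hC⟩ := growth2 I hI hdim.le
  have hmem : ∀ i, MvPolynomial.map φ1 (N i) ∈ (red B I).comap
      (rename ε.symm : MvPolynomial (Fin (n + 1) ⊕ Fin r)
      (IsLocalRing.ResidueField B) →ₐ[IsLocalRing.ResidueField B] _) := by
    intro i
    rw [Ideal.mem_comap]
    have h2 := hBI i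
    simp only [f0] at h2
    rw [MvPolynomial.map_rename] at h2
    exact h2
  have hfin := kappa_blocks (κ := IsLocalRing.ResidueField B) hQ hQ6 (φ1 ω)
    (hω.map_of_injective φ1.injective) bi mi (fun i => d i / Q)
    (by
      intro j l hjl hl
      change 2 * Q ≤ d (mi j l) / Q
      rw [Nat.le_div_iff_mul_le (by omega)]
      calc 2 * Q * Q = 2 * Q ^ 2 := by ring
        _ ≤ _ := (hm j l hjl hl).2)
    ((red B I).comap (rename ε.symm : MvPolynomial (Fin (n + 1) ⊕ Fin r)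
      (IsLocalRing.ResidueField B) →ₐ[IsLocalRing.ResidueField B] _))
    (hom_equiv ε hredh) ⟨C, fun t => by rw [hf_equiv, red_hf B hI]; exact hC t⟩
    (by
      intro P hP hJP j hj
      have h1 := hJP (hmem (bi j))
      rw [hN2 (bi j) j hj rfl] at h1
      simp only [map_pow, map_sub, map_mul, map_X] at h1
      exact hP.mem_of_pow_mem _ h1)
    (by
      intro j l hjl hl
      refine ⟨MvPolynomial.map φ1 (N (mi j l)), hmem _, ?_⟩
      intro Ω _ θ x yy hpt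
      rw [eval₂_map, hN3 (mi j l) j l hjl hl rfl Ω (θ.comp φ1) x yy hpt]
      rfl)
    (by
      intro P hP hJP i hi1 hi2
      have h1 := hJP (hmem i)
      rw [hN4 i hi1 hi2] at h1
      simp only [map_pow, map_X] at h1
      exact hP.mem_of_pow_mem _ h1)
  obtain ⟨K, hK⟩ := hfin
  refine ⟨K, fun k hk => ?_⟩
  have h1 := hK k hk
  rw [hf_equiv, hf_equiv, red_hf B hI, red_hf B hI] at h1
  exact h1

end Pool.Agent.TH922.KC
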